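import Pool.Agent.W_MP_1d4143_al.Machine

set_option autoImplicit false

namespace Pool.Agent.W_MP_1d4143_al

section Near

variable {A G : Type} [Group G]

theorem Letters_diff_same (π : A → G) (u v : List A) (i : ℕ) (h : u.take i = v.take i) :
    diff π u v i i = 1 := by
  simp [diff, h]

theorem Letters_diff_succ (π : A → G) (u v : List A) (i : ℕ) (hi : i < u.length)
    (h : u.take i = v.take i) : diff π u v (i + 1) i = (π u[i])⁻¹ := by
  rw [diff, List.take_succ_eq_append_getElem hi, h, val_append, val_singleton]
  group

/-- If the words `u, v` of `L` with `u x = v` differ by at most one letter at the end, then this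
relation is recognised. -/
theorem Letters_near [Finite A] (π : A → G) (L : Language A) (hL : L.IsRegular) (x : G)
    (hπ : ∀ a, π a ≠ 1)
    (H : ∀ u ∈ L, ∀ v ∈ L, val π u * x = val π v →
      (∃ a, v = u ++ [a]) ∨ (∃ a, u = v ++ [a]) ∨ u = v) :
    ∃ M : AsyncAutomaton A, ∀ u v, M.Accepts u v ↔ u ∈ L ∧ v ∈ L ∧ val π u * x = val π v := by
  classical
  refine exists_automaton π L hL x (fun g => if g = 1 then Tape.left else Tape.right)
    ({1} ∪ Set.range (fun a => (π a)⁻¹) ∪ Set.range π)
    (((Set.finite_singleton _).union (Set.finite_range _)).union (Set.finite_range _)) ?_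
  have hside1 : (if (1 : G) = 1 then Tape.left else Tape.right) ≠ Tape.right := by simp
  have hside2 : ∀ a, (if (π a)⁻¹ = 1 then Tape.left else Tape.right) ≠ Tape.left := by
    intro a
    simp [hπ a]
  intro u hu v hv huv
  rcases H u hu v hv huv with ⟨a, rfl⟩ | h
  · -- `v = u a`
    refine ⟨fun i j => i = j ∨ i = j + 1 ∨ (i = u.length ∧ j = u.length + 1), Or.inl rfl, ?_⟩
    intro i j hi hj hij
    rcases hij with rfl | rfl | ⟨rfl, rfl⟩
    · have hd : diff π u (u ++ [a]) i i = 1 :=
        Letters_diff_same _ _ _ _ (by rw [List.take_append_of_le_length hi])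
      rw [hd]
      refine ⟨Or.inl (Or.inl rfl), fun _ _ => Or.inr (Or.inl rfl), ?_⟩
      rintro _ (h | h)
      · exact absurd h hside1
      · exact Or.inr (Or.inr ⟨h, by rw [h]⟩)
    · have hlt : j < u.length := hi
      have hd : diff π u (u ++ [a]) (j + 1) j = (π u[j])⁻¹ :=
        Letters_diff_succ _ _ _ _ hlt (by rw [List.take_append_of_le_length hlt.le])
      rw [hd]
      refine ⟨Or.inl (Or.inr ⟨_, rfl⟩), ?_, fun _ _ => Or.inl rfl⟩
      rintro _ (h | h)
      · exact absurd h (hside2 _)
      · rw [List.length_append, List.length_singleton] at h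
        omega
    · have hd : diff π u (u ++ [a]) u.length (u.length + 1) = π a := by
        have h1 : u.take u.length = u := List.take_length
        have h2 : (u ++ [a]).take (u.length + 1) = u ++ [a] :=
          List.take_of_length_le (by simp)
        rw [diff, h1, h2, val_append, val_singleton]
        group
      rw [hd]
      refine ⟨Or.inr ⟨_, rfl⟩, fun h => absurd h (lt_irrefl _), fun h => ?_⟩
      rw [List.length_append, List.length_singleton] at h
      omega
  · -- `u = v a` or `u = v`
    have hpre : v <+: u := by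
      rcases h with ⟨a, rfl⟩ | rfl
      · exact List.prefix_append _ _
      · exact List.prefix_rfl
    have hlen : u.length ≤ v.length + 1 := by
      rcases h with ⟨a, rfl⟩ | rfl
      · simp
      · simp
    have hlen' : v.length ≤ u.length := hpre.length_le
    have htake : ∀ i ≤ v.length, u.take i = v.take i := by
      intro i hi
      obtain ⟨w, rfl⟩ := hpre
      rw [List.take_append_of_le_length hi]
    refine ⟨fun i j => i = j ∨ i = j + 1, Or.inl rfl, ?_⟩
    intro i j hi hj hij
    rcases hij with rfl | rfl
    · have hd : diff π u v i i = 1 := Letters_diff_same _ _ _ _ (htake i hj)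
      rw [hd]
      refine ⟨Or.inl (Or.inl rfl), fun _ _ => Or.inr rfl, ?_⟩
      rintro h1 (h | h)
      · exact absurd h hside1
      · omega
    · have hlt : j < u.length := hi
      have hd : diff π u v (j + 1) j = (π u[j])⁻¹ := Letters_diff_succ _ _ _ _ hlt (htake j hj)
      rw [hd]
      refine ⟨Or.inl (Or.inr ⟨_, rfl⟩), ?_, fun _ _ => Or.inl rfl⟩
      rintro h1 (h | h)
      · exact absurd h (hside2 _)
      · omega

end Near

variable {α J : Type} [DecidableEq α] [Finite α] [Finite J]

omit [Finite α] [Finite J] in
theorem Letters_letterVal_ne_one {D : HData (FreeGroup α) J} (T : Transv D)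
    {G : Type} [Group G] (M : HModel D G) (hM : M.NFUnique T) (a : Letter α J) :
    M.letterVal a ≠ 1 := by
  intro h
  rcases a with x | e
  · have h1 : M.ι (FreeGroup.mk [x]) = 1 := h
    have := (hM [] [] (FreeGroup.mk [x]) 1 trivial trivial (by simp [HModel.stackVal, h1])).2
    have h2 : (FreeGroup.mk [x]).toWord = (1 : FreeGroup α).toWord := by rw [this]
    rw [FreeGroup.toWord_mk, FreeGroup.reduce_singleton, FreeGroup.toWord_one] at h2
    exact absurd h2 (by simp)
  · have h1 : M.t e = 1 := h
    have := (hM [(1, e)] [] 1 1 ⟨T.one e, fun _ q hq => by simp at hq, trivial⟩ trivial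
      (by simp [HModel.stackVal, h1])).1
    exact absurd this (by simp)

omit [Finite α] in
/-- Multiplication of a reduced word by a letter. -/
theorem Letters_toWord_mul (f : FreeGroup α) (x : α × Bool) :
    (f * FreeGroup.mk [x]).toWord = f.toWord ++ [x] ∨
      f.toWord = (f * FreeGroup.mk [x]).toWord ++ [(x.1, !x.2)] := by
  have hm : (f * FreeGroup.mk [x]).toWord = FreeGroup.reduce (f.toWord ++ [x]) := by
    rw [FreeGroup.toWord_mul, FreeGroup.toWord_mk, FreeGroup.reduce_singleton]
  have hred : FreeGroup.IsReduced f.toWord := FreeGroup.isReduced_toWord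
  rcases List.eq_nil_or_concat f.toWord with h | ⟨w, y, h⟩
  · left
    rw [hm, h, List.nil_append, FreeGroup.reduce_singleton]
  · rw [List.concat_eq_append] at h
    by_cases hy : y = (x.1, !x.2)
    · right
      rw [hm, h]
      have hw : FreeGroup.IsReduced w := by
        rw [h] at hred
        exact List.IsChain.left_of_append hred
      have hs : FreeGroup.Red.Step (w ++ [y] ++ [x]) w := by
        have := @FreeGroup.Red.Step.not α w [] x.1 (!x.2)
        rw [List.append_nil, Bool.not_not] at this
        rw [hy]
        simpa using this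
      rw [FreeGroup.reduce.Step.eq hs, hw.reduce_eq, hy]
    · left
      rw [hm, h]
      apply FreeGroup.IsReduced.reduce_eq
      apply FreeGroup.IsReduced.append_overlap
      · rw [← h]; exact hred
      · rw [List.singleton_append, FreeGroup.isReduced_cons_cons]
        refine ⟨fun h1 => ?_, FreeGroup.IsReduced.singleton⟩
        by_contra h2
        apply hy
        refine Prod.ext h1 ?_
        show y.2 = !x.2
        revert h2
        cases y.2 <;> cases x.2 <;> simp
      · simp

/-- Equality of normal forms is recognised. -/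
theorem exists_automaton_one {D : HData (FreeGroup α) J} (T : Transv D)
    (hL : (nfLang T).IsRegular) {G : Type} [Group G] (M : HModel D G) (hM : M.NFUnique T) :
    ∃ N : AsyncAutomaton (Letter α J), ∀ u v, N.Accepts u v ↔ u ∈ nfLang T ∧ v ∈ nfLang T ∧
      val M.letterVal u * 1 = val M.letterVal v := by
  refine Letters_near M.letterVal (nfLang T) hL 1 (Letters_letterVal_ne_one T M hM) ?_
  rintro u ⟨st, f, hst, rfl⟩ v ⟨st', f', hst', rfl⟩ huv
  rw [M.val_nfWord, M.val_nfWord, mul_one] at huv
  obtain ⟨rfl, rfl⟩ := hM st st' f f' hst hst' huv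
  exact Or.inr (Or.inr rfl)

/-- Multiplication by a generator of the free group is recognised. -/
theorem exists_automaton_letter {D : HData (FreeGroup α) J} (T : Transv D)
    (hL : (nfLang T).IsRegular) {G : Type} [Group G] (M : HModel D G) (hM : M.NFUnique T)
    (x : α × Bool) :
    ∃ N : AsyncAutomaton (Letter α J), ∀ u v, N.Accepts u v ↔ u ∈ nfLang T ∧ v ∈ nfLang T ∧
      val M.letterVal u * M.letterVal (Sum.inl x) = val M.letterVal v := by
  refine Letters_near M.letterVal (nfLang T) hL _ (Letters_letterVal_ne_one T M hM) ?_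
  rintro u ⟨st, f, hst, rfl⟩ v ⟨st', f', hst', rfl⟩ huv
  rw [M.val_nfWord, M.val_nfWord] at huv
  have huv' : M.stackVal st * M.ι (f * FreeGroup.mk [x]) = M.stackVal st' * M.ι f' := by
    rw [map_mul, ← mul_assoc]
    exact huv
  obtain ⟨rfl, rfl⟩ := hM st st' _ f' hst hst' huv'
  rcases Letters_toWord_mul f x with h | h
  · refine Or.inl ⟨Sum.inl x, ?_⟩
    rw [nfWord, nfWord, h, List.map_append, List.append_assoc]
    rfl
  · refine Or.inr (Or.inl ⟨Sum.inl (x.1, !x.2), ?_⟩)
    rw [nfWord, h, nfWord, List.map_append, List.append_assoc]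
    rfl

end Pool.Agent.W_MP_1d4143_al
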