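import Pool.Agent.W_MP_1d4143_al.Base

set_option autoImplicit false

namespace Pool.Agent.W_MP_1d4143_al

/-- The transition function of the automaton for reduced words. -/
def regLRedStep {α : Type} [DecidableEq α] (q : Option (Option (α × Bool))) (a : α × Bool) :
    Option (Option (α × Bool)) :=
  match q with
  | none => none
  | some none => some (some a)
  | some (some b) => if b.1 = a.1 → b.2 = a.2 then some (some a) else none

/-- The automaton for reduced words. -/
def regLRed (α : Type) [DecidableEq α] : DFA (α × Bool) (Option (Option (α × Bool))) where
  step := regLRedStep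
  start := some none
  accept := {q | q ≠ none}

open Classical in
theorem regLRed_eval {α : Type} [DecidableEq α] (w : List (α × Bool)) :
    (regLRed α).eval w = if FreeGroup.IsReduced w then some w.getLast? else none := by
  induction w using List.reverseRecOn with
  | nil => simp [regLRed, FreeGroup.IsReduced]
  | append_singleton w a ih =>
    rw [DFA.eval_append_singleton, ih]
    by_cases h : FreeGroup.IsReduced w
    · rw [if_pos h]
      rcases hl : w.getLast? with _ | b
      · have hw : w = [] := by simpa using hl
        subst hw
        simp [regLRed, regLRedStep, FreeGroup.IsReduced]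
      · have e : FreeGroup.IsReduced (w ++ [a]) ↔ (b.1 = a.1 → b.2 = a.2) := by
          unfold FreeGroup.IsReduced at h ⊢
          rw [List.isChain_append]
          simp [h, hl]
        show regLRedStep (some (some b)) a = _
        rw [regLRedStep]
        simp only [e, List.getLast?_append, List.getLast?_singleton]
        split_ifs <;> simp_all
    · rw [if_neg h]
      have e : ¬ FreeGroup.IsReduced (w ++ [a]) := by
        unfold FreeGroup.IsReduced at h ⊢
        rw [List.isChain_append]
        exact fun hh => h hh.1
      rw [if_neg e]
      rfl

/-- The transition function of the automaton for normal forms. -/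
def regLStep {α J : Type} [DecidableEq J] {σ : J × Bool → Type} {τ : Type}
    (M : ∀ e, DFA (α × Bool) (σ e)) (N : DFA (α × Bool) τ)
    [∀ e, DecidablePred (· ∈ (M e).accept)]
    (q : Option (Option (J × Bool) × Bool × (∀ e, σ e) × τ)) (a : Letter α J) :
    Option (Option (J × Bool) × Bool × (∀ e, σ e) × τ) :=
  match q, a with
  | none, _ => none
  | some (l, _, s, t), Sum.inl x => some (l, false, fun e => (M e).step (s e) x, N.step t x)
  | some (l, b, s, _), Sum.inr e =>
    if s e ∈ (M e).accept ∧ ¬ (b = true ∧ l = some (bar e)) then
      some (some e, true, fun e => (M e).start, N.start)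
    else none

/-- The automaton for normal forms. -/
def regLDFA {α J : Type} [DecidableEq J] {σ : J × Bool → Type} {τ : Type}
    (M : ∀ e, DFA (α × Bool) (σ e)) (N : DFA (α × Bool) τ)
    [∀ e, DecidablePred (· ∈ (M e).accept)] :
    DFA (Letter α J) (Option (Option (J × Bool) × Bool × (∀ e, σ e) × τ)) where
  step := regLStep M N
  start := some (none, true, fun e => (M e).start, N.start)
  accept := {q | ∃ l b s t, q = some (l, b, s, t) ∧ t ∈ N.accept}

/-- The language of normal forms is regular. -/
theorem nfLang_regular {α J : Type} [DecidableEq α] [Finite α] [Finite J]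
    {D : HData (FreeGroup α) J} (T : Transv D) (K : ℕ) (hT : T.Nice K) :
    (nfLang T).IsRegular := by
  classical
  have := Fintype.ofFinite α
  have := Fintype.ofFinite J
  choose σ hσ M hM using hT.regular
  have : ∀ e, Fintype (σ e) := hσ
  -- idempotence
  have idem : ∀ e f, T.rep e (T.rep e f) = T.rep e f := by
    intro e f
    have h1 := T.mem e f
    have h2 := T.mul e (T.rep e f) _ h1
    rw [mul_inv_cancel_left] at h2
    exact h2.symm
  have memR : ∀ e (w : List (α × Bool)), (M e).eval w ∈ (M e).accept ↔
      ∃ f, (T.rep e f).toWord = w := by
    intro e w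
    rw [← DFA.mem_accepts, hM]
    rfl
  let N := regLRed α
  -- completeness for blocks
  have block : ∀ (w : List (Letter α J)) l,
      (regLDFA M N).eval w = some (l, true, fun e => (M e).start, N.start) →
      ∀ b : List (α × Bool), (regLDFA M N).eval (w ++ b.map Sum.inl) =
        some (l, decide (b = []), fun e => (M e).eval b, N.eval b) := by
    intro w l hw b
    induction b using List.reverseRecOn with
    | nil => simpa using hw
    | append_singleton b x ih =>
      rw [List.map_append, ← List.append_assoc, List.map_singleton, DFA.eval_append_singleton, ih]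
      simp [regLDFA, regLStep, DFA.eval_append_singleton]
  have compl : ∀ st : List (FreeGroup α × (J × Bool)), Good T st →
      (regLDFA M N).eval (stackWord st) =
        some (st.head?.map Prod.snd, true, fun e => (M e).start, N.start) := by
    intro st
    induction st with
    | nil => intro _; rfl
    | cons p st ih =>
      intro hg
      obtain ⟨h1, h2, h3⟩ := hg
      rw [stackWord, DFA.eval_append_singleton, block _ _ (ih h3)]
      have c1 : (M p.2).eval p.1.toWord ∈ (M p.2).accept := (memR _ _).2 ⟨p.1, by rw [h1]⟩
      have c2 : ¬ (decide (p.1.toWord = []) = true ∧ st.head?.map Prod.snd = some (bar p.2)) := by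
        rintro ⟨c3, c4⟩
        simp only [decide_eq_true_eq, FreeGroup.toWord_eq_nil_iff] at c3
        rw [Option.map_eq_some_iff] at c4
        obtain ⟨q, hq, hq2⟩ := c4
        exact h2 c3 q hq hq2
      simp only [regLDFA, regLStep]
      rw [if_pos ⟨c1, c2⟩]
      rfl
  -- soundness
  have sound : ∀ (w : List (Letter α J)) l b s t, (regLDFA M N).eval w = some (l, b, s, t) →
      ∃ (st : List (FreeGroup α × (J × Bool))) (bl : List (α × Bool)), Good T st ∧
        w = stackWord st ++ bl.map Sum.inl ∧ l = st.head?.map Prod.snd ∧
        (b = true ↔ bl = []) ∧ s = (fun e => (M e).eval bl) ∧ t = N.eval bl := by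
    intro w
    induction w using List.reverseRecOn with
    | nil =>
      intro l b s t h
      have h' : some (none, true, (fun e => (M e).start), N.start) = some (l, b, s, t) := h
      simp only [Option.some.injEq, Prod.mk.injEq] at h'
      obtain ⟨h1, h2, h3, h4⟩ := h'
      exact ⟨[], [], trivial, rfl, h1.symm, by simp [← h2], h3.symm, h4.symm⟩
    | append_singleton w a ih =>
      intro l b s t h
      rw [DFA.eval_append_singleton] at h
      rcases hw : (regLDFA M N).eval w with _ | ⟨l', b', s', t'⟩
      · rw [hw] at h
        exact absurd h (by simp [regLDFA, regLStep])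
      · obtain ⟨st, bl, g1, g2, g3, g4, g5, g6⟩ := ih l' b' s' t' hw
        rw [hw] at h
        rcases a with x | e
        · have h' : some (l', false, (fun e => (M e).step (s' e) x), N.step t' x) =
              some (l, b, s, t) := h
          simp only [Option.some.injEq, Prod.mk.injEq] at h'
          obtain ⟨h1, h2, h3, h4⟩ := h'
          refine ⟨st, bl ++ [x], g1, ?_, ?_, ?_, ?_, ?_⟩
          · rw [g2]; simp
          · rw [← h1, g3]
          · simp [← h2]
          · rw [← h3, g5]
            funext e
            rw [DFA.eval_append_singleton]
          · rw [← h4, g6, DFA.eval_append_singleton]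
        · have h' : (if s' e ∈ (M e).accept ∧ ¬ (b' = true ∧ l' = some (bar e)) then
              some (some e, true, (fun e => (M e).start), N.start) else none) =
              some (l, b, s, t) := h
          by_cases hc : s' e ∈ (M e).accept ∧ ¬ (b' = true ∧ l' = some (bar e))
          · rw [if_pos hc] at h'
            simp only [Option.some.injEq, Prod.mk.injEq] at h'
            obtain ⟨h1, h2, h3, h4⟩ := h'
            obtain ⟨c1, c2⟩ := hc
            rw [g5] at c1
            obtain ⟨f, hf⟩ := (memR _ _).1 c1
            refine ⟨(T.rep e f, e) :: st, [], ⟨idem e f, ?_, g1⟩, ?_, ?_, ?_, ?_, ?_⟩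
            · intro hone q hq hqe
              apply c2
              refine ⟨?_, ?_⟩
              · rw [g4, ← hf]
                have : T.rep e f = 1 := hone
                rw [this]; simp
              · rw [g3, Option.map_eq_some_iff]
                exact ⟨q, hq, hqe⟩
            · rw [g2, stackWord, hf]; simp
            · rw [← h1]; rfl
            · simp [← h2]
            · rw [← h3]; rfl
            · rw [← h4]; rfl
          · rw [if_neg hc] at h'
            exact absurd h' (by simp)
  refine ⟨_, inferInstance, regLDFA M N, ?_⟩
  ext w
  rw [DFA.mem_accepts]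
  constructor
  · rintro ⟨l, b, s, t, h, ht⟩
    obtain ⟨st, bl, g1, g2, g3, g4, g5, g6⟩ := sound w l b s t h
    have hr : FreeGroup.IsReduced bl := by
      by_contra hn
      rw [g6] at ht
      have : N.eval bl = none := by
        rw [regLRed_eval, if_neg hn]
      rw [this] at ht
      exact ht rfl
    refine ⟨st, FreeGroup.mk bl, g1, ?_⟩
    rw [nfWord, FreeGroup.toWord_mk, FreeGroup.isReduced_iff_reduce_eq.1 hr, g2]
  · rintro ⟨st, f, g1, g2⟩
    have hb := block _ _ (compl st g1) f.toWord
    rw [g2]
    refine ⟨_, _, _, _, hb, ?_⟩
    rw [regLRed_eval, if_pos FreeGroup.isReduced_toWord]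
    simp [N, regLRed]

end Pool.Agent.W_MP_1d4143_al
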