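import Pool.Agent.W_MP_1d4143_al.Base

set_option autoImplicit false

namespace Pool.Agent.W_MP_1d4143_al

variable {F J : Type} [Group F]

theorem Transv.model_rep_rep {D : HData F J} (T : Transv D) (e : J × Bool) (f : F) :
    T.rep e (T.rep e f) = T.rep e f := by
  have h : T.rep e f = f * ((T.rep e f)⁻¹ * f)⁻¹ := by group
  conv_lhs => rw [h]
  exact T.mul e f _ (inv_mem (T.mem e f))

theorem Transv.model_rep_eq_one {D : HData F J} (T : Transv D) (e : J × Bool) (f : F) :
    T.rep e f = 1 ↔ f ∈ D.S e := by
  constructor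
  · intro h
    have := T.mem e f
    rwa [h, inv_one, one_mul] at this
  · intro h
    have := T.mul e 1 f h
    rwa [one_mul, T.one] at this

theorem HData.model_psi_one (D : HData F J) (e : J × Bool) : D.ψ e 1 = 1 := by
  have := D.ψ_mul e 1 1 (one_mem _) (one_mem _)
  rw [one_mul] at this
  exact (mul_eq_left.mp this.symm)

theorem act_good {D : HData F J} (T : Transv D) (e : J × Bool) (n : List (F × (J × Bool)) × F)
    (h : Good T n.1) : Good T (act T e n).1 := by
  obtain ⟨st, f⟩ := n
  cases st with
  | nil =>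
    simp only [act, Good, List.head?_nil]
    exact ⟨T.model_rep_rep e f, by simp, trivial⟩
  | cons p st =>
    simp only [act]
    split_ifs with hc
    · exact h.2.2
    · refine ⟨T.model_rep_rep e f, ?_, h⟩
      intro h1 q hq
      simp only [List.head?_cons, Option.mem_def, Option.some.injEq] at hq
      subst hq
      intro hb
      exact hc ⟨hb, h1⟩

theorem act_val {D : HData F J} (T : Transv D) {G : Type} [Group G] (M : HModel D G) (e : J × Bool)
    (n : List (F × (J × Bool)) × F) :
    M.stackVal (act T e n).1 * M.ι (act T e n).2 = M.stackVal n.1 * M.ι n.2 * M.t e := by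
  obtain ⟨st, f⟩ := n
  have key : ∀ g : G, g * M.ι (T.rep e f) * M.t e * M.ι (D.ψ e ((T.rep e f)⁻¹ * f)) =
      g * M.ι f * M.t e := by
    intro g
    rw [mul_assoc (g * M.ι (T.rep e f)), ← M.rel e _ (T.mem e f), ← mul_assoc, mul_assoc g,
      ← map_mul]
    congr 3
    rw [mul_inv_cancel_left]
  cases st with
  | nil =>
    simp only [act, HModel.stackVal]
    exact key 1
  | cons p st =>
    simp only [act]
    split_ifs with hc
    · have hf : f ∈ D.S e := (T.model_rep_eq_one e f).mp hc.2
      simp only [HModel.stackVal]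
      rw [hc.1, M.t_bar, mul_assoc _ (M.ι f), M.rel e f hf, map_mul]
      group
    · exact key _

/-- Every element of the group has a normal form. -/
theorem exists_nf {D : HData F J} (T : Transv D) {G : Type} [Group G] (M : HModel D G) (g : G) :
    ∃ st f, Good T st ∧ M.stackVal st * M.ι f = g := by
  have key : ∀ g : G, ∀ st f, Good T st → ∃ st' f', Good T st' ∧
      M.stackVal st' * M.ι f' = M.stackVal st * M.ι f * g := by
    intro g
    have hg : g ∈ Subgroup.closure (Set.range M.ι ∪ Set.range M.t) := by
      rw [M.gen]; trivial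
    have hι : ∀ a : F, ∀ st f, Good T st → ∃ st' f', Good T st' ∧
      M.stackVal st' * M.ι f' = M.stackVal st * M.ι f * M.ι a := by
      intro a st f h
      exact ⟨st, f * a, h, by rw [map_mul, mul_assoc]⟩
    have ht : ∀ e, ∀ st f, Good T st → ∃ st' f', Good T st' ∧
      M.stackVal st' * M.ι f' = M.stackVal st * M.ι f * M.t e := by
      intro e st f h
      exact ⟨_, _, act_good T e (st, f) h, act_val T M e (st, f)⟩
    induction hg using Subgroup.closure_induction'' with
    | mem x hx =>
      rcases hx with ⟨a, rfl⟩ | ⟨e, rfl⟩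
      · exact hι a
      · exact ht e
    | inv_mem x hx =>
      rcases hx with ⟨a, rfl⟩ | ⟨e, rfl⟩
      · rw [← map_inv]; exact hι a⁻¹
      · rw [← M.t_bar]; exact ht (bar e)
    | one =>
      intro st f h
      exact ⟨st, f, h, by rw [mul_one]⟩
    | mul x y _ _ hx hy =>
      intro st f h
      obtain ⟨st1, f1, h1, e1⟩ := hx st f h
      obtain ⟨st2, f2, h2, e2⟩ := hy st1 f1 h1
      exact ⟨st2, f2, h2, by rw [e2, e1, mul_assoc]⟩
  obtain ⟨st, f, h, e⟩ := key g [] 1 trivial
  exact ⟨st, f, h, by rw [e]; simp [HModel.stackVal]⟩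

/-- Good pairs. -/
def ModelN {D : HData F J} (T : Transv D) : Type :=
  {n : List (F × (J × Bool)) × F // Good T n.1}

theorem model_act_act {D : HData F J} (T : Transv D) (e : J × Bool)
    (n : List (F × (J × Bool)) × F) (h : Good T n.1) : act T (bar e) (act T e n) = n := by
  obtain ⟨st, f⟩ := n
  have key : ∀ st, act T (bar e) ((T.rep e f, e) :: st, D.ψ e ((T.rep e f)⁻¹ * f)) = (st, f) := by
    intro st
    have h1 := T.mem e f
    have h2 : T.rep (bar e) (D.ψ e ((T.rep e f)⁻¹ * f)) = 1 :=
      (T.model_rep_eq_one _ _).mpr (D.ψ_mem e _ h1)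
    simp only [act]
    rw [if_pos ⟨(bar_bar e).symm, h2⟩, D.ψ_bar e _ h1, mul_inv_cancel_left]
  cases st with
  | nil => exact key []
  | cons p st =>
    by_cases hc : p.2 = bar e ∧ T.rep e f = 1
    · have h0 : act T e (p :: st, f) = (st, p.1 * D.ψ e f) := by
        simp only [act]; rw [if_pos hc]
      have hf : f ∈ D.S e := (T.model_rep_eq_one e f).mp hc.2
      have h1 : T.rep (bar e) (p.1 * D.ψ e f) = p.1 := by
        rw [T.mul _ _ _ (D.ψ_mem e f hf), ← hc.1]
        exact h.1
      have h2 : D.ψ (bar e) ((T.rep (bar e) (p.1 * D.ψ e f))⁻¹ * (p.1 * D.ψ e f)) = f := by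
        rw [h1, inv_mul_cancel_left, D.ψ_bar e f hf]
      rw [h0]
      cases st with
      | nil =>
        simp only [act]
        rw [h2, h1, ← hc.1]
      | cons q st =>
        simp only [act]
        rw [if_neg, h2, h1, ← hc.1]
        rintro ⟨hq, hr⟩
        rw [h1] at hr
        apply h.2.1 hr q (by simp)
        rw [hq, hc.1]
    · have h0 : act T e (p :: st, f) =
          ((T.rep e f, e) :: p :: st, D.ψ e ((T.rep e f)⁻¹ * f)) := by
        simp only [act]; rw [if_neg hc]
      rw [h0]
      exact key _

/-- The right multiplication by an element of `F`. -/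
def modelF {D : HData F J} (T : Transv D) (a : F) : Equiv.Perm (ModelN T) where
  toFun n := ⟨(n.1.1, n.1.2 * a), n.2⟩
  invFun n := ⟨(n.1.1, n.1.2 * a⁻¹), n.2⟩
  left_inv n := by
    apply Subtype.ext
    show (n.1.1, n.1.2 * a * a⁻¹) = n.1
    rw [mul_inv_cancel_right]
  right_inv n := by
    apply Subtype.ext
    show (n.1.1, n.1.2 * a⁻¹ * a) = n.1
    rw [inv_mul_cancel_right]

/-- The right multiplication by a stable letter. -/
noncomputable def modelT {D : HData F J} (T : Transv D) (e : J × Bool) :
    Equiv.Perm (ModelN T) where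
  toFun n := ⟨act T e n.1, act_good T e n.1 n.2⟩
  invFun n := ⟨act T (bar e) n.1, act_good T (bar e) n.1 n.2⟩
  left_inv n := Subtype.ext (model_act_act T e n.1 n.2)
  right_inv n := by
    apply Subtype.ext
    have := model_act_act T (bar e) n.1 n.2
    rwa [bar_bar] at this

theorem model_act_mul {D : HData F J} (T : Transv D) (e : J × Bool) (a : F) (ha : a ∈ D.S e)
    (st : List (F × (J × Bool))) (f : F) :
    act T e (st, f * a) = ((act T e (st, f)).1, (act T e (st, f)).2 * D.ψ e a) := by
  have h1 : T.rep e (f * a) = T.rep e f := T.mul e f a ha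
  have h2 : D.ψ e ((T.rep e f)⁻¹ * (f * a)) = D.ψ e ((T.rep e f)⁻¹ * f) * D.ψ e a := by
    rw [← mul_assoc, D.ψ_mul e _ _ (T.mem e f) ha]
  cases st with
  | nil =>
    simp only [act]
    rw [h1, h2]
  | cons p st =>
    simp only [act]
    rw [h1, h2]
    split_ifs with hc
    · have hf : f ∈ D.S e := (T.model_rep_eq_one e f).mp hc.2
      show (st, p.1 * D.ψ e (f * a)) = (st, p.1 * D.ψ e f * D.ψ e a)
      rw [D.ψ_mul e _ _ hf ha, mul_assoc]
    · rfl

/-- The set of generators of the model. -/
def modelGen {D : HData F J} (T : Transv D) : Set (Equiv.Perm (ModelN T))ᵐᵒᵖ :=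
  Set.range (fun a : F => MulOpposite.op (modelF T a)) ∪
    Set.range (fun e : J × Bool => MulOpposite.op (modelT T e))

/-- The group of the model. -/
abbrev ModelG {D : HData F J} (T : Transv D) : Type := ↥(Subgroup.closure (modelGen T))

/-- The model. -/
noncomputable def theModel {D : HData F J} (T : Transv D) : HModel D (ModelG T) where
  ι :=
    { toFun := fun a => ⟨MulOpposite.op (modelF T a),
        Subgroup.subset_closure (Or.inl ⟨a, rfl⟩)⟩
      map_one' := by
        apply Subtype.ext
        apply MulOpposite.unop_injective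
        ext n
        apply Subtype.ext
        show (n.1.1, n.1.2 * 1) = n.1
        rw [mul_one]
      map_mul' := fun a b => by
        apply Subtype.ext
        apply MulOpposite.unop_injective
        ext n
        apply Subtype.ext
        show (n.1.1, n.1.2 * (a * b)) = (n.1.1, n.1.2 * a * b)
        rw [mul_assoc] }
  t e := ⟨MulOpposite.op (modelT T e), Subgroup.subset_closure (Or.inr ⟨e, rfl⟩)⟩
  t_bar e := by
    apply Subtype.ext
    apply MulOpposite.unop_injective
    ext n
    rfl
  rel e a ha := by
    apply Subtype.ext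
    apply MulOpposite.unop_injective
    ext n
    apply Subtype.ext
    exact model_act_mul T e a ha n.1.1 n.1.2
  gen := by
    rw [← Subgroup.closure_closure_coe_preimage]
    congr 1
    ext x
    constructor
    · rintro (⟨a, rfl⟩ | ⟨e, rfl⟩)
      · exact Or.inl ⟨a, rfl⟩
      · exact Or.inr ⟨e, rfl⟩
    · rintro (⟨a, ha⟩ | ⟨e, he⟩)
      · exact Or.inl ⟨a, Subtype.ext ha⟩
      · exact Or.inr ⟨e, Subtype.ext he⟩

theorem theModel_stackVal {D : HData F J} (T : Transv D) (st : List (F × (J × Bool)))
    (h : Good T st) :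
    (((theModel T).stackVal st).1.unop (⟨([], 1), trivial⟩ : ModelN T)).1 = (st, 1) := by
  induction st with
  | nil => rfl
  | cons p st ih =>
    have h1 := ih h.2.2
    have h2 : (((theModel T).stackVal (p :: st)).1.unop (⟨([], 1), trivial⟩ : ModelN T)).1 =
        act T p.2 ((((theModel T).stackVal st).1.unop (⟨([], 1), trivial⟩ : ModelN T)).1.1,
          (((theModel T).stackVal st).1.unop (⟨([], 1), trivial⟩ : ModelN T)).1.2 * p.1) := rfl
    rw [h2, h1]
    show act T p.2 (st, 1 * p.1) = (p :: st, 1)
    rw [one_mul]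
    have h3 : D.ψ p.2 ((T.rep p.2 p.1)⁻¹ * p.1) = 1 := by
      rw [h.1, inv_mul_cancel, D.model_psi_one]
    cases st with
    | nil =>
      simp only [act]
      rw [h3, h.1]
    | cons q st =>
      simp only [act]
      rw [if_neg, h3, h.1]
      rintro ⟨hq, hr⟩
      rw [h.1] at hr
      exact h.2.1 hr q (by simp) hq

theorem theModel_val {D : HData F J} (T : Transv D) (st : List (F × (J × Bool))) (f : F)
    (h : Good T st) :
    (((theModel T).stackVal st * (theModel T).ι f).1.unop (⟨([], 1), trivial⟩ : ModelN T)).1 =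
      (st, f) := by
  have h2 : (((theModel T).stackVal st * (theModel T).ι f).1.unop
      (⟨([], 1), trivial⟩ : ModelN T)).1 =
      ((((theModel T).stackVal st).1.unop (⟨([], 1), trivial⟩ : ModelN T)).1.1,
        (((theModel T).stackVal st).1.unop (⟨([], 1), trivial⟩ : ModelN T)).1.2 * f) := rfl
  rw [h2, theModel_stackVal T st h]
  show (st, 1 * f) = (st, f)
  rw [one_mul]

/-- The normal form theorem: there is a group with unique normal forms. -/
theorem exists_model (D : HData F J) (T : Transv D) :
    ∃ (G : Type) (_ : Group G) (M : HModel D G), M.NFUnique T := by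
  refine ⟨ModelG T, inferInstance, theModel T, ?_⟩
  intro st st' f f' h h' e
  have h1 := theModel_val T st f h
  rw [e, theModel_val T st' f' h'] at h1
  exact ⟨(congrArg Prod.fst h1).symm, (congrArg Prod.snd h1).symm⟩

end Pool.Agent.W_MP_1d4143_al
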