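import Pool.Agent.W_MP_1d4143_al.Tree

/-!
# Walking along two geodesics on the two sides of a stable letter
-/

set_option autoImplicit false

namespace Pool.Agent.W_MP_1d4143_al

variable {α : Type} [DecidableEq α]

/-- One step of the walk along a geodesic. -/
theorem walk_step (y0 y y' Z P P' : FreeGroup α) (K2 K3 : ℕ)
    (h1 : fd y0 y + fd y Z = fd y0 Z) (h2 : fd y0 y + fd y P' ≤ fd y0 P' + 2)
    (h3 : fd y0 P' + fd P' P ≤ fd y0 P + 2 * K3) (h4 : fd y0 P + fd P Z ≤ fd y0 Z + 2 * K2)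
    (h5 : K2 + K3 + 2 < fd P y) (h6 : fd y y' = 1) (h7 : fd y' Z + 1 = fd y Z) :
    fd P y' + 1 = fd P y ∧ fd y0 y' + fd y' P = fd y0 P := by
  have c1 := fd_comm P y
  have c2 := fd_comm P y'
  have c3 := fd_comm P' y
  have c4 := fd_comm P' P
  have c7 := fd_comm Z y
  have c8 := fd_comm Z P
  have c9 := fd_comm Z y'
  -- `y` is close to the geodesic from `y0` to `P`
  have s1 : fd y0 y + fd y P ≤ fd y0 P + 2 * (K3 + 2) := by
    have q1 := fd_four_point y0 P' P y
    have q2 := fd_four_point y0 P P' y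
    have q3 := fd_four_point y0 y P P'
    have t3 := fd_triangle y0 y P
    omega
  have s2 : fd P Z < fd y P + fd y Z := by
    have t3 := fd_triangle y0 y P
    have t1 := fd_triangle P y Z
    by_contra hcon
    omega
  have s3 : fd P Z + 2 ≤ fd y P + fd y Z := by
    have p1 := fd_parity y P Z
    rw [Nat.even_iff] at p1
    omega
  have s4 : fd y0 y + fd y P = fd y0 P := by
    have q4 := fd_four_point y0 P Z y
    have q5 := fd_four_point y0 Z P y
    have q6 := fd_four_point y0 y P Z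
    have t3 := fd_triangle y0 y P
    omega
  have s5 : fd P y' + 1 = fd P y := by
    have q7 := fd_four_point y y' P Z
    have q8 := fd_four_point y P y' Z
    have q9 := fd_four_point y Z y' P
    have p1 := fd_parity y y' P
    have t1 := fd_triangle y y' P
    have t2 := fd_triangle y' y P
    have c5 := fd_comm y' y
    rw [Nat.even_iff] at p1
    omega
  refine ⟨s5, ?_⟩
  have t4 := fd_triangle y0 y' P
  have t5 := fd_triangle y0 y y'
  omega

/-- Shortest representatives of right cosets. -/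
theorem exists_rr (A : Subgroup (FreeGroup α)) : ∃ rr : FreeGroup α → FreeGroup α,
    (∀ x, x * (rr x)⁻¹ ∈ A) ∧ (∀ a ∈ A, ∀ x, rr (a * x) = rr x) ∧
    ∀ a ∈ A, ∀ x, (rr x).norm ≤ (a * x).norm := by
  classical
  have h : ∀ q : Quotient (QuotientGroup.rightRel A), ∃ x : FreeGroup α, Quotient.mk'' x = q ∧
      ∀ y : FreeGroup α, Quotient.mk'' y = q → x.norm ≤ y.norm := by
    intro q
    have hex : ∃ n, ∃ x : FreeGroup α, (Quotient.mk'' x : Quotient (QuotientGroup.rightRel A)) = q ∧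
        x.norm = n := by
      induction q using Quotient.inductionOn' with
      | h x => exact ⟨_, x, rfl, rfl⟩
    obtain ⟨x, hx, hn⟩ := Nat.find_spec hex
    exact ⟨x, hx, fun y hy => hn ▸ Nat.find_min' hex ⟨y, hy, rfl⟩⟩
  choose c hc hmin using h
  refine ⟨fun x => c (Quotient.mk'' x), fun x => ?_, fun a ha x => ?_, fun a ha x => ?_⟩
  · have := hc (Quotient.mk'' x)
    rw [Quotient.eq'', QuotientGroup.rightRel_apply] at this
    exact this
  · have : (Quotient.mk'' (a * x) : Quotient (QuotientGroup.rightRel A)) = Quotient.mk'' x := by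
      rw [Quotient.eq'', QuotientGroup.rightRel_apply]
      simpa using A.inv_mem ha
    simp only [this]
  · refine hmin _ _ ?_
    rw [Quotient.eq'', QuotientGroup.rightRel_apply]
    simpa using A.inv_mem ha

theorem fd_one_left (g : FreeGroup α) : fd 1 g = g.norm := by simp [fd]

theorem fd_one_right (g : FreeGroup α) : fd g 1 = g.norm := by
  rw [fd_comm, fd_one_left]

/-- The walk along two geodesics on the two sides of a stable letter: there is a strategy such that
the two positions stay close. -/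
theorem exists_walk [Finite α] (A B : Subgroup (FreeGroup α)) (hA : A.FG) (hB : B.FG)
    (φ : FreeGroup α → FreeGroup α) (hφ : ∀ a ∈ A, φ a ∈ B)
    (hmul : ∀ a ∈ A, ∀ b ∈ A, φ (a * b) = φ a * φ b)
    (ψ : FreeGroup α → FreeGroup α) (hψ : ∀ b ∈ B, ψ b ∈ A)
    (hψmul : ∀ a ∈ B, ∀ b ∈ B, ψ (a * b) = ψ a * ψ b)
    (h1 : ∀ a ∈ A, ψ (φ a) = a) (h2 : ∀ b ∈ B, φ (ψ b) = b)
    (rr : FreeGroup α → FreeGroup α) (hrr1 : ∀ x, x * (rr x)⁻¹ ∈ A)
    (hrr2 : ∀ a ∈ A, ∀ x, rr (a * x) = rr x) (hrr3 : ∀ a ∈ A, ∀ x, (rr x).norm ≤ (a * x).norm)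
    (K₁ : ℕ) :
    ∃ K' R : ℕ, ∀ a ∈ A, ∀ (X Y : ℕ → FreeGroup α) (m n : ℕ), (X 0).norm ≤ K₁ →
      (Y 0).norm ≤ K₁ → X m = a → Y n = φ a →
      (∀ i j, i ≤ j → j ≤ m → fd (X i) (X j) = j - i) →
      (∀ i j, i ≤ j → j ≤ n → fd (Y i) (Y j) = j - i) →
      ∃ Inv : ℕ → ℕ → Prop, Inv 0 0 ∧ ∀ i j, i ≤ m → j ≤ n → Inv i j →
        (rr (X i)).norm ≤ R ∧ fd (φ (X i * (rr (X i))⁻¹)) (Y j) ≤ R ∧
        (i < m → (fd (φ (X i * (rr (X i))⁻¹)) (Y j) ≤ K' ∨ j = n) → Inv (i + 1) j) ∧
        (j < n → (K' < fd (φ (X i * (rr (X i))⁻¹)) (Y j) ∨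
          φ (X i * (rr (X i))⁻¹) = Y j ∨ i = m) → Inv i (j + 1)) := by
  classical
  obtain ⟨KA, hKA⟩ := quasiconvex A hA
  -- representatives of right cosets of points close to `A` are short
  set κ := K₁ + KA with hκ
  obtain ⟨KM, hKM⟩ := bounded_cancellation A B hA hB φ hφ hmul ψ hψ hψmul h1 h2 (K₁ + 2 * κ)
  -- images of short elements
  have hfin : ∀ N : ℕ, ∃ C : ℕ, ∀ g ∈ A, g.norm ≤ N → (φ g).norm ≤ C := by
    intro N
    have hF := (finite_ball (α := α) N).image (fun g => (φ g).norm)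
    obtain ⟨C, hC⟩ := hF.bddAbove
    exact ⟨C, fun g _ hN => hC ⟨g, hN, rfl⟩⟩
  obtain ⟨C, hC⟩ := hfin (2 * κ + 1)
  obtain ⟨C0, hC0⟩ := hfin (K₁ + κ)
  have φ1 : φ 1 = 1 := by
    have := hmul 1 A.one_mem 1 A.one_mem
    rw [mul_one] at this
    exact (mul_eq_left.1 this.symm)
  have φinv : ∀ g ∈ A, φ g⁻¹ = (φ g)⁻¹ := by
    intro g hg
    have := hmul g⁻¹ (A.inv_mem hg) g hg
    rw [inv_mul_cancel, φ1] at this
    exact eq_inv_of_mul_eq_one_left this.symm
  have rr1 : rr 1 = 1 := by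
    have h := hrr3 1 A.one_mem 1
    rw [mul_one, FreeGroup.norm_one, Nat.le_zero, FreeGroup.norm_eq_zero] at h
    exact h
  have rrA : ∀ a ∈ A, rr a = 1 := fun a ha => by
    have := hrr2 a ha 1
    rwa [mul_one, rr1] at this
  set K2 := K₁ + KM with hK2
  set K' := 2 * K2 + 2 with hK'
  refine ⟨K', κ + K' + C + C0 + K₁ + 1, ?_⟩
  intro a ha X Y m n hX0 hY0 hXm hYn hX hY
  -- notation
  let P : ℕ → FreeGroup α := fun i => φ (X i * (rr (X i))⁻¹)
  let A1 : ℕ → FreeGroup α := fun i => X i * (rr (X i))⁻¹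
  have hA1 : ∀ i, A1 i ∈ A := fun i => hrr1 _
  have hdXA : ∀ i, fd (X i) (A1 i) = (rr (X i)).norm := by
    intro i
    simp [fd, A1]
  have hX0' : fd 1 (X 0) ≤ K₁ := by rw [fd_one_left]; exact hX0
  have hY0' : fd 1 (Y 0) ≤ K₁ := by rw [fd_one_left]; exact hY0
  -- points of the first geodesic are close to the geodesic from `1` to `a`
  have hnear : ∀ i ≤ m, fd 1 (X i) + fd (X i) a ≤ fd 1 a + 2 * K₁ := by
    intro i hi
    have e1 := hX 0 i (Nat.zero_le _) hi
    have e2 := hX i m hi le_rfl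
    have e3 := hX 0 m (Nat.zero_le _) le_rfl
    rw [hXm] at e2 e3
    have t1 := fd_triangle 1 (X 0) (X i)
    have t2 := fd_triangle (X 0) 1 a
    have c1 := fd_comm (X 0) 1
    omega
  have hrrκ : ∀ i ≤ m, (rr (X i)).norm ≤ κ := by
    intro i hi
    obtain ⟨p, hp1, hp2⟩ := exists_proj 1 a (X i)
    obtain ⟨a', ha', hpa⟩ := hKA a ha p hp1
    have h3 := hrr3 a'⁻¹ (A.inv_mem ha') (X i)
    have h4 : (a'⁻¹ * X i).norm = fd a' (X i) := rfl
    have t1 := fd_triangle (X i) p a'
    have c1 := fd_comm a' (X i)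
    have c2 := fd_comm (X i) 1
    have := hnear i hi
    omega
  have hPm : P m = φ a := by
    show φ (X m * (rr (X m))⁻¹) = φ a
    rw [hXm, rrA a ha]; simp
  -- (F1)
  have F1 : ∀ i ≤ m, fd (Y 0) (P i) + fd (P i) (φ a) ≤ fd (Y 0) (φ a) + 2 * K2 := by
    intro i hi
    have hb := hKM (A1 i) (hA1 i) a ha ?_
    · have t1 := fd_triangle (Y 0) 1 (P i)
      have t2 := fd_triangle 1 (Y 0) (φ a)
      have c1 := fd_comm (Y 0) 1
      have hb' : fd 1 (P i) + fd (P i) (φ a) ≤ fd 1 (φ a) + 2 * KM := hb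
      omega
    · have t1 := fd_triangle 1 (X i) (A1 i)
      have t2 := fd_triangle (A1 i) (X i) a
      have c1 := fd_comm (A1 i) (X i)
      have h3 := hdXA i
      have h4 := hrrκ i hi
      have h5 := hnear i hi
      omega
  -- (F2)
  have F2 : ∀ i i', i ≤ i' → i' ≤ m →
      fd (Y 0) (P i) + fd (P i) (P i') ≤ fd (Y 0) (P i') + 2 * K2 := by
    intro i i' hii hi'
    have hb := hKM (A1 i) (hA1 i) (A1 i') (hA1 i') ?_
    · have t1 := fd_triangle (Y 0) 1 (P i)
      have t2 := fd_triangle 1 (Y 0) (P i')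
      have c1 := fd_comm (Y 0) 1
      have hb' : fd 1 (P i) + fd (P i) (P i') ≤ fd 1 (P i') + 2 * KM := hb
      omega
    · have e1 := hX 0 i (Nat.zero_le _) (hii.trans hi')
      have e2 := hX i i' hii hi'
      have e3 := hX 0 i' (Nat.zero_le _) hi'
      have t1 := fd_triangle 1 (X 0) (A1 i)
      have t2 := fd_triangle (X 0) (X i) (A1 i)
      have t3 := fd_triangle (A1 i) (X i) (A1 i')
      have t4 := fd_triangle (X i) (X i') (A1 i')
      have t5 := fd_triangle (X 0) (A1 i') (X i')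
      have t6 := fd_triangle (X 0) 1 (A1 i')
      have c1 := fd_comm (A1 i) (X i)
      have c2 := fd_comm (A1 i') (X i')
      have c3 := fd_comm (X 0) 1
      have h3 := hdXA i
      have h3' := hdXA i'
      have h4 := hrrκ i (hii.trans hi')
      have h4' := hrrκ i' hi'
      omega
  -- (F3)
  have F3 : ∀ i < m, fd (P i) (P (i + 1)) ≤ C := by
    intro i hi
    have h3 : fd (P i) (P (i + 1)) = (φ ((A1 i)⁻¹ * A1 (i + 1))).norm := by
      rw [hmul _ (A.inv_mem (hA1 i)) _ (hA1 (i + 1)), φinv _ (hA1 i)]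
      rfl
    rw [h3]
    refine hC _ (A.mul_mem (A.inv_mem (hA1 i)) (hA1 (i + 1))) ?_
    have h4 : ((A1 i)⁻¹ * A1 (i + 1)).norm = fd (A1 i) (A1 (i + 1)) := rfl
    have t3 := fd_triangle (A1 i) (X i) (A1 (i + 1))
    have t4 := fd_triangle (X i) (X (i + 1)) (A1 (i + 1))
    have c1 := fd_comm (A1 i) (X i)
    have e2 := hX i (i + 1) (by omega) hi
    have h5 := hdXA i
    have h5' := hdXA (i + 1)
    have h6 := hrrκ i hi.le
    have h6' := hrrκ (i + 1) hi
    omega
  -- the invariant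
  refine ⟨fun i j => (∃ i0 ≤ i, fd (Y 0) (Y j) + fd (Y j) (P i0) ≤ fd (Y 0) (P i0) + 2) ∧
    fd (P i) (Y j) ≤ K' + C + C0 + K₁ + 1, ⟨⟨0, le_rfl, ?_⟩, ?_⟩, ?_⟩
  · have := fd_self (Y 0)
    omega
  · -- initial distance
    have h3 : (φ (A1 0)).norm ≤ C0 := by
      refine hC0 _ (hA1 0) ?_
      have t1 := fd_triangle 1 (X 0) (A1 0)
      rw [fd_one_left, fd_one_left, hdXA 0] at t1
      have := hrrκ 0 (Nat.zero_le _)
      omega
    have t1 := fd_triangle (P 0) 1 (Y 0)
    rw [fd_one_right] at t1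
    have h4 : (P 0).norm = (φ (A1 0)).norm := rfl
    omega
  · rintro i j hi hj ⟨⟨i0, hi0, hI1⟩, hI2⟩
    have hI2' : fd (φ (X i * (rr (X i))⁻¹)) (Y j) = fd (P i) (Y j) := rfl
    -- progress
    have key : K' < fd (P i) (Y j) → j < n ∧ fd (P i) (Y (j + 1)) + 1 = fd (P i) (Y j) ∧
        fd (Y 0) (Y (j + 1)) + fd (Y (j + 1)) (P i) = fd (Y 0) (P i) := by
      intro hK
      have hjn : j < n := by
        rcases lt_or_eq_of_le hj with h | h
        · exact h
        · exfalso
          rw [h, hYn] at hI1 hK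
          have f1 := F1 i hi
          have f2 := F2 i0 i hi0 hi
          have c1 := fd_comm (P i) (φ a)
          have c2 := fd_comm (φ a) (P i0)
          have t3 := fd_triangle (Y 0) (φ a) (P i)
          -- `φ a` is close to the geodesic from `Y 0` to `P i`
          have q1 := fd_four_point (Y 0) (P i0) (P i) (φ a)
          have q2 := fd_four_point (Y 0) (P i) (P i0) (φ a)
          have q3 := fd_four_point (Y 0) (φ a) (P i) (P i0)
          omega
      refine ⟨hjn, ?_⟩
      have e1 := hY 0 j (Nat.zero_le _) hj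
      have e2 := hY j n hj le_rfl
      have e3 := hY 0 n (Nat.zero_le _) le_rfl
      have e4 := hY j (j + 1) (by omega) hjn
      have e5 := hY (j + 1) n hjn le_rfl
      rw [hYn] at e2 e3 e5
      exact walk_step (Y 0) (Y j) (Y (j + 1)) (φ a) (P i) (P i0) K2 K2 (by omega) hI1
        (F2 i0 i hi0 hi) (F1 i hi) (by omega) (by omega) (by omega)
    refine ⟨?_, ?_, ?_, ?_⟩
    · have := hrrκ i hi
      omega
    · rw [hI2']
      omega
    · intro him hor
      refine ⟨⟨i0, by omega, hI1⟩, ?_⟩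
      have hle : fd (P i) (Y j) ≤ K' := by
        rcases hor with h | h
        · exact h
        · by_contra hcon
          have := (key (by omega)).1
          omega
      have t1 := fd_triangle (P (i + 1)) (P i) (Y j)
      have c1 := fd_comm (P (i + 1)) (P i)
      have := F3 i him
      omega
    · intro hjn hor
      by_cases hK : K' < fd (P i) (Y j)
      · obtain ⟨-, h3, h4⟩ := key hK
        exact ⟨⟨i, le_rfl, by omega⟩, by omega⟩
      · have e4 := hY j (j + 1) (by omega) hjn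
        have e1 := hY 0 j (Nat.zero_le _) hj
        have e1' := hY 0 (j + 1) (Nat.zero_le _) hjn
        have t1 := fd_triangle (P i) (Y j) (Y (j + 1))
        rcases hor with h | h | h
        · exact absurd h hK
        · have h' : P i = Y j := h
          refine ⟨⟨i, le_rfl, ?_⟩, by omega⟩
          rw [h', fd_comm (Y (j + 1)) (Y j)]
          omega
        · refine ⟨⟨i, le_rfl, ?_⟩, by omega⟩
          rw [h, hPm]
          have e2 := hY (j + 1) n hjn le_rfl
          have e3 := hY 0 n (Nat.zero_le _) le_rfl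
          rw [hYn] at e2 e3
          omega

end Pool.Agent.W_MP_1d4143_al
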