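import Pool.Agent.W_MP_1d4143_al.Machine
import Pool.Agent.W_MP_1d4143_al.Walk
import Pool.Agent.W_MP_1d4143_al.Model

/-!
# The automaton for a stable letter
-/

set_option autoImplicit false

namespace Pool.Agent.W_MP_1d4143_al

/-! ### Consequences of the normal form theorem -/

section NF

variable {F J G : Type} [Group F] [Group G] {D : HData F J}

theorem Transv.rep_rep (T : Transv D) (e : J × Bool) (f : F) : T.rep e (T.rep e f) = T.rep e f := by
  have h := T.mul e f (f⁻¹ * T.rep e f) (by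
    have := (D.S e).inv_mem (T.mem e f)
    simpa using this)
  simpa using h

theorem Transv.rep_of_mem (T : Transv D) (e : J × Bool) {f : F} (hf : f ∈ D.S e) :
    T.rep e f = 1 := by
  have h := T.mul e 1 f hf
  rwa [one_mul, T.one] at h

theorem Transv.mem_of_rep (T : Transv D) (e : J × Bool) {f : F} (hf : T.rep e f = 1) :
    f ∈ D.S e := by
  have h := T.mem e f
  rwa [hf, inv_one, one_mul] at h

theorem HModel.iota_inj (M : HModel D G) {T : Transv D} (hM : M.NFUnique T) :
    Function.Injective M.ι := fun f g h =>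
  (hM [] [] f g trivial trivial (by simpa [HModel.stackVal] using h)).2

theorem good_single (T : Transv D) (e : J × Bool) (f : F) : Good T [(T.rep e f, e)] :=
  ⟨T.rep_rep e f, fun _ q hq => by simp at hq, trivial⟩

theorem HModel.push_val (M : HModel D G) (T : Transv D) (e : J × Bool) (f g : F) :
    M.ι f * M.t e * M.ι g =
      M.stackVal [(T.rep e f, e)] * M.ι (D.ψ e ((T.rep e f)⁻¹ * f) * g) := by
  have h := M.rel e _ (T.mem e f)
  have h2 : M.ι f = M.ι (T.rep e f) * M.ι ((T.rep e f)⁻¹ * f) := by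
    rw [← map_mul]; simp
  calc M.ι f * M.t e * M.ι g
      = M.ι (T.rep e f) * (M.ι ((T.rep e f)⁻¹ * f) * M.t e) * M.ι g := by
        rw [h2]; group
    _ = M.ι (T.rep e f) * (M.t e * M.ι (D.ψ e ((T.rep e f)⁻¹ * f))) * M.ι g := by rw [h]
    _ = _ := by
        simp only [HModel.stackVal, map_mul, one_mul, mul_assoc]

theorem HModel.nf_eq (M : HModel D G) {T : Transv D} (hM : M.NFUnique T) {f g f' g' : F}
    {e e' : J × Bool} (h : M.ι f * M.t e * M.ι g = M.ι f' * M.t e' * M.ι g') :
    e = e' ∧ T.rep e f = T.rep e' f' ∧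
      D.ψ e ((T.rep e f)⁻¹ * f) * g = D.ψ e' ((T.rep e' f')⁻¹ * f') * g' := by
  rw [M.push_val T, M.push_val T] at h
  have := hM _ _ _ _ (good_single T e f) (good_single T e' f') h
  simp only [List.cons.injEq, Prod.mk.injEq, and_true] at this
  exact ⟨this.1.2, this.1.1, this.2⟩

theorem HModel.nf_ne (M : HModel D G) {T : Transv D} (hM : M.NFUnique T) (f g h : F)
    (e : J × Bool) : M.ι f * M.t e * M.ι g ≠ M.ι h := by
  intro H
  rw [M.push_val T, show M.ι h = M.stackVal [] * M.ι h by simp [HModel.stackVal]] at H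
  have := hM _ _ _ _ (good_single T e f) (show Good T [] from trivial) H
  simp at this

/-- If `x⁻¹ t y = x'⁻¹ t y'` then the pairs differ by an element of the associated subgroup. -/
theorem HModel.pair_eq (M : HModel D G) {T : Transv D} (hM : M.NFUnique T) {x y x' y' : F}
    {e : J × Bool} (h : (M.ι x)⁻¹ * M.t e * M.ι y = (M.ι x')⁻¹ * M.t e * M.ι y') :
    x' * x⁻¹ ∈ D.S e ∧ y' = D.ψ e (x' * x⁻¹) * y := by
  have h2 : M.ι (x' * x⁻¹) * M.t e * M.ι y = M.ι 1 * M.t e * M.ι y' := by
    rw [map_mul, map_inv, map_one, one_mul, mul_assoc (M.ι x'), mul_assoc (M.ι x'), h]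
    group
  obtain ⟨-, h3, h4⟩ := M.nf_eq hM h2
  rw [T.one] at h3
  rw [h3, T.one] at h4
  have hmem := T.mem_of_rep e h3
  have hψ1 : D.ψ e 1 = 1 := by
    have := D.ψ_mul e 1 1 (D.S e).one_mem (D.S e).one_mem
    rw [mul_one] at this
    exact mul_eq_left.1 this.symm
  simp only [inv_one, one_mul, hψ1] at h4
  exact ⟨hmem, h4.symm⟩

end NF

/-! ### The strategy -/

section Strategy

variable {α J G : Type} [DecidableEq α] [Group G] {D : HData (FreeGroup α) J}

theorem HModel.letterVal_ne_one (M : HModel D G) {T : Transv D} (hM : M.NFUnique T)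
    (a : Letter α J) : M.letterVal a ≠ 1 := by
  intro h
  cases a with
  | inl x =>
    have h1 : M.ι (FreeGroup.mk [x]) = M.ι 1 := by rw [map_one]; exact h
    have h2 := congrArg FreeGroup.toWord (M.iota_inj hM h1)
    simp at h2
  | inr e =>
    have h1 : M.t e = 1 := h
    exact M.nf_ne hM 1 1 1 e (by simp [h1])

open Classical in
/-- The strategy: which tape is read, as a function of the difference. -/
noncomputable def strat (M : HModel D G) (e : J × Bool) (rr : FreeGroup α → FreeGroup α)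
    (K K' : ℕ) (d : G) : Tape :=
  if d = 1 then Tape.left
  else if ∃ a : Letter α J, d = (M.letterVal a)⁻¹ then Tape.right
  else if (∃ g, d = M.ι g ∧ K + 1 < g.norm) ∨
      (∃ x y, d = (M.ι x)⁻¹ * M.t e * M.ι y ∧ fd (D.ψ e (x * (rr x)⁻¹)) y ≤ K') then Tape.left
  else Tape.right

variable (M : HModel D G) {T : Transv D} (hM : M.NFUnique T) (e : J × Bool)
  (rr : FreeGroup α → FreeGroup α) (K K' : ℕ)

theorem strat_one : strat M e rr K K' 1 = Tape.left := by
  rw [strat, if_pos rfl]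

include hM in
theorem strat_letter (a : Letter α J) :
    strat M e rr K K' (M.letterVal a)⁻¹ = Tape.right := by
  rw [strat, if_neg (inv_ne_one.2 (M.letterVal_ne_one hM a)), if_pos ⟨a, rfl⟩]

include hM in
theorem pair_ne_iota (x y g : FreeGroup α) : (M.ι x)⁻¹ * M.t e * M.ι y ≠ M.ι g := by
  rw [← map_inv]
  exact M.nf_ne hM _ _ _ _

include hM in
theorem strat_short (g : FreeGroup α) (h1 : g ≠ 1) (h2 : g.norm ≤ K + 1) :
    strat M e rr K K' (M.ι g) = Tape.right := by
  rw [strat]
  have h0 : M.ι g ≠ 1 := fun h => h1 (M.iota_inj hM (by rw [h, map_one]))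
  rw [if_neg h0]
  split_ifs with h3 h4
  · rfl
  · exfalso
    rcases h4 with ⟨g', h5, h6⟩ | ⟨x, y, h5, -⟩
    · rw [← M.iota_inj hM h5] at h6
      omega
    · exact pair_ne_iota M hM e x y g h5.symm
  · rfl

include hM in
theorem strat_long (g : FreeGroup α) (h2 : K + 1 < g.norm) :
    strat M e rr K K' (M.ι g) = Tape.left := by
  rw [strat]
  split_ifs with h0 h3 h4
  · rfl
  · exfalso
    obtain ⟨a, h5⟩ := h3
    cases a with
    | inl x =>
      have h6 : M.ι g = M.ι (FreeGroup.mk [x])⁻¹ := by rw [map_inv]; exact h5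
      rw [M.iota_inj hM h6, FreeGroup.norm_inv_eq] at h2
      have := FreeGroup.norm_mk_le (L₁ := [x])
      simp only [List.length_singleton] at this
      omega
    | inr e' =>
      refine M.nf_ne hM 1 1 g (bar e') ?_
      rw [h5, M.t_bar, map_one, one_mul, mul_one]
      rfl
  · rfl
  · exact absurd (Or.inl ⟨g, rfl, h2⟩) h4

variable (hrr2 : ∀ a ∈ D.S e, ∀ x, rr (a * x) = rr x)
  (hrr1 : ∀ x, x * (rr x)⁻¹ ∈ D.S e)

include hM hrr1 hrr2 in
/-- The distance on the other side only depends on the difference. -/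
theorem del_eq {x y x' y' : FreeGroup α}
    (h : (M.ι x)⁻¹ * M.t e * M.ι y = (M.ι x')⁻¹ * M.t e * M.ι y') :
    fd (D.ψ e (x' * (rr x')⁻¹)) y' = fd (D.ψ e (x * (rr x)⁻¹)) y := by
  obtain ⟨h1, h2⟩ := M.pair_eq hM h
  have h3 : x' = (x' * x⁻¹) * x := by group
  have h4 : rr x' = rr x := by
    rw [h3]; exact hrr2 _ h1 _
  have h5 : x' * (rr x')⁻¹ = (x' * x⁻¹) * (x * (rr x)⁻¹) := by
    rw [h4]; group
  rw [h5, D.ψ_mul e _ _ h1 (hrr1 x), h2, fd_mul_left]

include hM hrr1 hrr2 in
theorem strat_left (x y : FreeGroup α)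
    (h : strat M e rr K K' ((M.ι x)⁻¹ * M.t e * M.ι y) = Tape.left) :
    fd (D.ψ e (x * (rr x)⁻¹)) y ≤ K' := by
  rw [strat] at h
  split_ifs at h with h0 h1 h2
  · exact absurd (by rw [h0, map_one]) (pair_ne_iota M hM e x y 1)
  · rcases h2 with ⟨g, h3, -⟩ | ⟨x', y', h3, h4⟩
    · exact absurd h3 (pair_ne_iota M hM e x y g)
    · rw [← del_eq M hM e rr hrr2 hrr1 h3]
      exact h4

include hM hrr1 hrr2 in
theorem strat_right (hrr3 : rr 1 = 1) (x y : FreeGroup α)
    (h : strat M e rr K K' ((M.ι x)⁻¹ * M.t e * M.ι y) = Tape.right) :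
    K' < fd (D.ψ e (x * (rr x)⁻¹)) y ∨ D.ψ e (x * (rr x)⁻¹) = y := by
  rw [strat] at h
  split_ifs at h with h0 h1 h2
  · right
    obtain ⟨a, ha⟩ := h1
    cases a with
    | inl z =>
      exfalso
      refine pair_ne_iota M hM e x y (FreeGroup.mk [z])⁻¹ ?_
      rw [map_inv]; exact ha
    | inr e' =>
      have ha' : (M.ι x)⁻¹ * M.t e * M.ι y = (M.t e')⁻¹ := ha
      have h3 : M.ι 1 * M.t e * M.ι y = M.ι x * M.t (bar e') * M.ι 1 := by
        rw [M.t_bar, ← ha', map_one]; group
      obtain ⟨h4, h5, h6⟩ := M.nf_eq hM h3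
      rw [← h4] at h3
      have h7 : (M.ι 1)⁻¹ * M.t e * M.ι y = (M.ι x⁻¹)⁻¹ * M.t e * M.ι 1 := by
        rw [map_one, inv_one, map_inv, inv_inv]
        simpa using h3
      obtain ⟨h8, h9⟩ := M.pair_eq hM h7
      have h10 : x ∈ D.S e := by simpa using h8
      have h11 : rr x = 1 := by
        have := hrr2 x h10 1
        rwa [mul_one, hrr3] at this
      rw [h11, inv_one, mul_one]
      have h12 : D.ψ e x * D.ψ e (x⁻¹ * (1 : FreeGroup α)⁻¹) = D.ψ e 1 := by
        rw [← D.ψ_mul e _ _ h10 h8]; simp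
      have hψ1 : D.ψ e 1 = 1 := by
        have := D.ψ_mul e 1 1 (D.S e).one_mem (D.S e).one_mem
        rw [mul_one] at this
        exact mul_eq_left.1 this.symm
      rw [hψ1] at h12
      rw [eq_inv_of_mul_eq_one_left h12]
      exact (eq_inv_of_mul_eq_one_right h9.symm).symm
  · left
    by_contra hcon
    exact h2 (Or.inr ⟨x, y, rfl, by omega⟩)

end Strategy

/-! ### Words -/

section Words

variable {α J G : Type} [DecidableEq α] [Group G] {D : HData (FreeGroup α) J}

theorem norm_diverge (l l' : List (α × Bool)) (h : FreeGroup.IsReduced l)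
    (h' : FreeGroup.IsReduced l') (hd : ∀ a ∈ l.head?, ∀ b ∈ l'.head?, a ≠ b) :
    ((FreeGroup.mk l)⁻¹ * FreeGroup.mk l').norm = l.length + l'.length := by
  rw [FreeGroup.inv_mk, FreeGroup.mul_mk, FreeGroup.norm, FreeGroup.toWord_mk]
  have hr : FreeGroup.IsReduced (FreeGroup.invRev l ++ l') := by
    unfold FreeGroup.IsReduced
    rw [List.isChain_append]
    refine ⟨?_, h', ?_⟩
    · have : FreeGroup.IsReduced (FreeGroup.invRev l) := by
        rw [FreeGroup.isReduced_iff_reduce_eq, FreeGroup.reduce_invRev, h.reduce_eq]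
      exact this
    · intro x hx y hy hxy
      rw [FreeGroup.invRev, List.getLast?_reverse, List.head?_map] at hx
      obtain ⟨z, hz, rfl⟩ := Option.mem_map.1 hx
      by_contra hne
      refine hd z hz y hy ?_
      have : z.2 = y.2 := by
        simp only at hne
        cases h1 : z.2 <;> cases h2 : y.2 <;> simp_all
      exact Prod.ext hxy this
  rw [hr.reduce_eq, List.length_append, FreeGroup.invRev_length]

theorem isReduced_take {l : List (α × Bool)} (h : FreeGroup.IsReduced l) (i : ℕ) :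
    FreeGroup.IsReduced (l.take i) := isReduced_piece h (List.take_prefix i l).isInfix

theorem head?_take {β : Type} (l : List β) (i : ℕ) {a : β} (h : a ∈ (l.take i).head?) :
    a ∈ l.head? := by
  cases l with
  | nil => simp at h
  | cons b l =>
    cases i with
    | zero => simp at h
    | succ i => simpa using h

/-- Split off the common prefix. -/
theorem exists_common_prefix {β : Type} (k k' : List β) : ∃ c l l', k = c ++ l ∧ k' = c ++ l' ∧
    ∀ a ∈ l.head?, ∀ b ∈ l'.head?, a ≠ b := by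
  classical
  induction k generalizing k' with
  | nil => exact ⟨[], [], k', rfl, rfl, by simp⟩
  | cons a k ih =>
    cases k' with
    | nil => exact ⟨[], a :: k, [], rfl, rfl, by simp⟩
    | cons b k' =>
      by_cases h : a = b
      · subst h
        obtain ⟨c, l, l', h1, h2, h3⟩ := ih k'
        exact ⟨a :: c, l, l', by simp [h1], by simp [h2], h3⟩
      · exact ⟨[], a :: k, b :: k', rfl, rfl, by simpa using h⟩

theorem val_take_add {A : Type} (π : A → G) (Q l : List A) (i : ℕ) :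
    val π ((Q ++ l).take (Q.length + i)) = val π Q * val π (l.take i) := by
  rw [List.take_length_add_append, val_append]

theorem HModel.val_take_inl (M : HModel D G) (l : List (α × Bool)) (i : ℕ) :
    val M.letterVal ((l.map Sum.inl).take i) = M.ι (FreeGroup.mk (l.take i)) := by
  rw [← List.map_take, M.val_map_inl]

end Words

/-! ### The two cases -/

section Cases

variable {α J G : Type} [DecidableEq α] [Group G] {D : HData (FreeGroup α) J}

/-- The differences that occur. -/
def dset (M : HModel D G) (e : J × Bool) (K R : ℕ) : Set G :=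
  {1} ∪ Set.range (fun a : Letter α J => (M.letterVal a)⁻¹) ∪
    M.ι '' {g | g.norm ≤ 2 * K + 1} ∪
    (fun p : FreeGroup α × FreeGroup α => (M.ι p.1)⁻¹ * M.t e * M.ι p.2) ''
      {p | p.1.norm ≤ R ∧ p.2.norm ≤ R}

theorem dset_finite [Finite α] [Finite J] (M : HModel D G) (e : J × Bool) (K R : ℕ) :
    (dset M e K R).Finite := by
  refine Set.Finite.union (Set.Finite.union (Set.Finite.union (Set.finite_singleton _)
    (Set.finite_range _)) ((finite_ball _).image _)) (Set.Finite.image _ ?_)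
  exact ((finite_ball R).prod (finite_ball R)).subset (fun p hp => hp)

/-- The condition of the difference machine for the pair `(u, v)`. -/
def Ok (M : HModel D G) (e : J × Bool) (rr : FreeGroup α → FreeGroup α) (K K' R : ℕ)
    (u v : List (Letter α J)) : Prop :=
  ∃ Inv : ℕ → ℕ → Prop, Inv 0 0 ∧ ∀ i j, i ≤ u.length → j ≤ v.length → Inv i j →
    diff M.letterVal u v i j ∈ dset M e K R ∧
    (i < u.length → (strat M e rr K K' (diff M.letterVal u v i j) = Tape.left ∨ j = v.length) →
      Inv (i + 1) j) ∧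
    (j < v.length → (strat M e rr K K' (diff M.letterVal u v i j) = Tape.right ∨ i = u.length) →
      Inv i (j + 1))

/-- The property of the walk. -/
def WalkOk (D : HData (FreeGroup α) J) (e : J × Bool) (rr : FreeGroup α → FreeGroup α)
    (K₁ K' R : ℕ) : Prop :=
  ∀ a ∈ D.S e, ∀ (X Y : ℕ → FreeGroup α) (m n : ℕ), (X 0).norm ≤ K₁ →
      (Y 0).norm ≤ K₁ → X m = a → Y n = D.ψ e a →
      (∀ i j, i ≤ j → j ≤ m → fd (X i) (X j) = j - i) →
      (∀ i j, i ≤ j → j ≤ n → fd (Y i) (Y j) = j - i) →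
      ∃ Inv : ℕ → ℕ → Prop, Inv 0 0 ∧ ∀ i j, i ≤ m → j ≤ n → Inv i j →
        (rr (X i)).norm ≤ R ∧ fd (D.ψ e (X i * (rr (X i))⁻¹)) (Y j) ≤ R ∧
        (i < m → (fd (D.ψ e (X i * (rr (X i))⁻¹)) (Y j) ≤ K' ∨ j = n) → Inv (i + 1) j) ∧
        (j < n → (K' < fd (D.ψ e (X i * (rr (X i))⁻¹)) (Y j) ∨
          D.ψ e (X i * (rr (X i))⁻¹) = Y j ∨ i = m) → Inv i (j + 1))

theorem fd_mk_take {l : List (α × Bool)} (hl : FreeGroup.IsReduced l) (i j : ℕ) (hij : i ≤ j)
    (hj : j ≤ l.length) :
    fd (FreeGroup.mk (l.take i)) (FreeGroup.mk (l.take j)) = j - i := by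
  have h : (FreeGroup.mk l).toWord = l := by rw [FreeGroup.toWord_mk, hl.reduce_eq]
  have := fd_take (FreeGroup.mk l) i j hij (by rw [h]; exact hj)
  rwa [h] at this

variable (M : HModel D G) {T : Transv D} (hM : M.NFUnique T) (e : J × Bool)
  (rr : FreeGroup α → FreeGroup α) (K K' R : ℕ)
  (hrr1 : ∀ x, x * (rr x)⁻¹ ∈ D.S e)
  (hrr2 : ∀ a ∈ D.S e, ∀ x, rr (a * x) = rr x) (hrr3 : rr 1 = 1)
  (hwalk : WalkOk D e rr (2 * K + 1) K' R)

include hM in
/-- Differences inside a common prefix. -/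
theorem common_part (Q U V : List (Letter α J)) (i j : ℕ)
    (h : (i = j ∧ j < Q.length) ∨ (i = j + 1 ∧ j < Q.length)) :
    diff M.letterVal (Q ++ U) (Q ++ V) i j ∈ dset M e K R ∧
    (i = j → strat M e rr K K' (diff M.letterVal (Q ++ U) (Q ++ V) i j) = Tape.left) ∧
    (i = j + 1 → strat M e rr K K' (diff M.letterVal (Q ++ U) (Q ++ V) i j) = Tape.right) := by
  rcases h with ⟨rfl, h⟩ | ⟨rfl, h⟩
  · have h1 : diff M.letterVal (Q ++ U) (Q ++ V) i i = 1 := by
      rw [diff, List.take_append_of_le_length h.le, List.take_append_of_le_length h.le]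
      simp
    rw [h1]
    exact ⟨Or.inl (Or.inl (Or.inl rfl)), fun _ => strat_one M e rr K K', fun h => by omega⟩
  · have h1 : diff M.letterVal (Q ++ U) (Q ++ V) (j + 1) j = (M.letterVal Q[j])⁻¹ := by
      rw [diff, List.take_append_of_le_length h, List.take_append_of_le_length h.le,
        List.take_succ_eq_append_getElem h, val_append, val_singleton]
      group
    rw [h1]
    exact ⟨Or.inl (Or.inl (Or.inr ⟨_, rfl⟩)), fun h => by omega,
      fun _ => strat_letter M hM e rr K K' _⟩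

include hrr1 in
theorem pair_mem_dset (x y : FreeGroup α) (h1 : (rr x).norm ≤ R)
    (h2 : fd (D.ψ e (x * (rr x)⁻¹)) y ≤ R) :
    (M.ι x)⁻¹ * M.t e * M.ι y ∈ dset M e K R := by
  refine Or.inr ⟨(rr x, (D.ψ e (x * (rr x)⁻¹))⁻¹ * y), ⟨h1, h2⟩, ?_⟩
  have h := M.rel e _ (hrr1 x)
  have h3 : (M.ι x)⁻¹ = (M.ι (rr x))⁻¹ * (M.ι (x * (rr x)⁻¹))⁻¹ := by
    rw [map_mul, map_inv]; group
  have h4 : (M.ι (x * (rr x)⁻¹))⁻¹ * M.t e = M.t e * (M.ι (D.ψ e (x * (rr x)⁻¹)))⁻¹ := by
    rw [inv_mul_eq_iff_eq_mul, ← mul_assoc, h]; group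
  show (M.ι (rr x))⁻¹ * M.t e * M.ι ((D.ψ e (x * (rr x)⁻¹))⁻¹ * y) = _
  rw [h3, mul_assoc (M.ι (rr x))⁻¹ (M.ι (x * (rr x)⁻¹))⁻¹, h4, map_mul, map_inv]
  group

include hM hrr1 hrr2 hrr3 hwalk in
/-- Multiplication by the stable letter makes the normal form longer. -/
theorem case_push (Q : List (Letter α J)) (κ κ' w : List (α × Bool)) (a : FreeGroup α)
    (ha : a ∈ D.S e) (hκ : FreeGroup.IsReduced κ) (hκ' : FreeGroup.IsReduced κ')
    (hw : w = (D.ψ e a).toWord) (hlen : κ.length ≤ K)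
    (hd : ∀ a ∈ κ.head?, ∀ b ∈ κ'.head?, a ≠ b)
    (hak : (FreeGroup.mk κ)⁻¹ * FreeGroup.mk κ' = a) :
    Ok M e rr K K' R (Q ++ κ'.map Sum.inl) (Q ++ (κ.map Sum.inl ++ Sum.inr e :: w.map Sum.inl)) := by
  have hwalk' : ∀ i0, ∃ W : ℕ → ℕ → Prop, i0 ≤ 1 → i0 ≤ κ'.length → W 0 0 ∧
      ∀ i j, i ≤ κ'.length - i0 → j ≤ w.length → W i j →
        (rr ((FreeGroup.mk κ)⁻¹ * FreeGroup.mk (κ'.take (i0 + i)))).norm ≤ R ∧
        fd (D.ψ e ((FreeGroup.mk κ)⁻¹ * FreeGroup.mk (κ'.take (i0 + i)) *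
          (rr ((FreeGroup.mk κ)⁻¹ * FreeGroup.mk (κ'.take (i0 + i))))⁻¹))
            (FreeGroup.mk (w.take j)) ≤ R ∧
        (i < κ'.length - i0 → (fd (D.ψ e ((FreeGroup.mk κ)⁻¹ * FreeGroup.mk (κ'.take (i0 + i)) *
          (rr ((FreeGroup.mk κ)⁻¹ * FreeGroup.mk (κ'.take (i0 + i))))⁻¹))
            (FreeGroup.mk (w.take j)) ≤ K' ∨ j = w.length) → W (i + 1) j) ∧
        (j < w.length → (K' < fd (D.ψ e ((FreeGroup.mk κ)⁻¹ * FreeGroup.mk (κ'.take (i0 + i)) *
          (rr ((FreeGroup.mk κ)⁻¹ * FreeGroup.mk (κ'.take (i0 + i))))⁻¹))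
            (FreeGroup.mk (w.take j)) ∨
          D.ψ e ((FreeGroup.mk κ)⁻¹ * FreeGroup.mk (κ'.take (i0 + i)) *
          (rr ((FreeGroup.mk κ)⁻¹ * FreeGroup.mk (κ'.take (i0 + i))))⁻¹) =
            FreeGroup.mk (w.take j) ∨ i = κ'.length - i0) → W i (j + 1)) := by
    intro i0
    by_cases h01 : i0 ≤ 1 ∧ i0 ≤ κ'.length
    · have hex := hwalk a ha
        (fun i => (FreeGroup.mk κ)⁻¹ * FreeGroup.mk (κ'.take (i0 + i)))
        (fun j => FreeGroup.mk (w.take j)) (κ'.length - i0) w.length ?_ ?_ ?_ ?_ ?_ ?_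
      · obtain ⟨W, h1, h2⟩ := hex
        exact ⟨W, fun _ _ => ⟨h1, h2⟩⟩
      · have h3 := norm_diverge κ (κ'.take (i0 + 0)) hκ (isReduced_take hκ' _)
          (fun a ha b hb => hd a ha b (head?_take _ _ hb))
        rw [h3, List.length_take]
        omega
      · simp [← FreeGroup.one_eq_mk]
      · show (FreeGroup.mk κ)⁻¹ * FreeGroup.mk (κ'.take (i0 + (κ'.length - i0))) = a
        rw [show i0 + (κ'.length - i0) = κ'.length by omega, List.take_length, hak]
      · show FreeGroup.mk (w.take w.length) = D.ψ e a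
        rw [List.take_length, hw, FreeGroup.mk_toWord]
      · intro i j hij hj
        show fd ((FreeGroup.mk κ)⁻¹ * _) ((FreeGroup.mk κ)⁻¹ * _) = _
        rw [fd_mul_left, fd_mk_take hκ' _ _ (by omega) (by omega)]
        omega
      · intro i j hij hj
        exact fd_mk_take (by rw [hw]; exact FreeGroup.isReduced_toWord) _ _ hij hj
    · exact ⟨fun _ _ => True, fun h1 h2 => absurd ⟨h1, h2⟩ h01⟩
  choose W hW using hwalk'
  set q := Q.length with hq
  have hul : (Q ++ κ'.map Sum.inl : List (Letter α J)).length = q + κ'.length := by simp [hq]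
  have hvl : (Q ++ (κ.map Sum.inl ++ Sum.inr e :: w.map Sum.inl) : List (Letter α J)).length =
      q + (κ.length + 1 + w.length) := by
    simp [hq]; omega
  -- the differences
  have hdB : ∀ i' j', j' ≤ κ.length → diff M.letterVal (Q ++ κ'.map Sum.inl)
      (Q ++ (κ.map Sum.inl ++ Sum.inr e :: w.map Sum.inl)) (q + i') (q + j') =
      M.ι ((FreeGroup.mk (κ'.take i'))⁻¹ * FreeGroup.mk (κ.take j')) := by
    intro i' j' hj'
    rw [diff, val_take_add, val_take_add, M.val_take_inl,
      List.take_append_of_le_length (by simpa using hj'), M.val_take_inl, map_mul, map_inv]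
    group
  have hdC : ∀ i' j', diff M.letterVal (Q ++ κ'.map Sum.inl)
      (Q ++ (κ.map Sum.inl ++ Sum.inr e :: w.map Sum.inl)) (q + i') (q + (κ.length + 1 + j')) =
      (M.ι ((FreeGroup.mk κ)⁻¹ * FreeGroup.mk (κ'.take i')))⁻¹ * M.t e *
        M.ι (FreeGroup.mk (w.take j')) := by
    intro i' j'
    have h1 : ((κ.map Sum.inl ++ Sum.inr e :: w.map Sum.inl : List (Letter α J))).take
        (κ.length + 1 + j') = κ.map Sum.inl ++ Sum.inr e :: (w.map Sum.inl).take j' := by
      have h2 := List.take_length_add_append (l₁ := (κ.map Sum.inl : List (Letter α J)))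
        (l₂ := Sum.inr e :: w.map Sum.inl) (i := j' + 1)
      rw [List.length_map] at h2
      rw [show κ.length + 1 + j' = κ.length + (j' + 1) by omega, h2, List.take_succ_cons]
    rw [diff, val_take_add, val_take_add, M.val_take_inl, h1, val_append, val_cons,
      M.val_map_inl, M.val_take_inl, map_mul, map_inv]
    show _ = _ * M.letterVal (Sum.inr e) * _
    group
  have hnB : ∀ i' j', i' ≤ κ'.length → j' ≤ κ.length →
      ((FreeGroup.mk (κ'.take i'))⁻¹ * FreeGroup.mk (κ.take j')).norm = i' + j' := by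
    intro i' j' hi' hj'
    rw [norm_diverge _ _ (isReduced_take hκ' _) (isReduced_take hκ _)
      (fun a ha b hb => (hd b (head?_take _ _ hb) a (head?_take _ _ ha)).symm),
      List.length_take, List.length_take]
    omega
  refine ⟨fun i j => (i = j ∧ j < q) ∨ (i = j + 1 ∧ j < q) ∨
    (∃ i' j', i = q + i' ∧ j = q + j' ∧ j' ≤ κ.length ∧ i' ≤ κ'.length ∧ i' ≤ 1 ∧
      (i' = 0 → j' = 0 ∨ κ' = [])) ∨
    (∃ i0, i0 ≤ 1 ∧ i0 ≤ κ'.length ∧ ∃ i' j', i = q + (i0 + i') ∧ j = q + (κ.length + 1 + j') ∧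
      W i0 i' j'), ?_, ?_⟩
  · rcases Nat.eq_zero_or_pos q with h0 | h0
    · exact Or.inr (Or.inr (Or.inl ⟨0, 0, by omega, by omega, by omega, by omega, by omega,
        fun _ => Or.inl rfl⟩))
    · exact Or.inl ⟨rfl, h0⟩
  · intro i j hi hj hInv
    rw [hul] at hi ⊢
    rw [hvl] at hj ⊢
    rcases hInv with ⟨h1, h2⟩ | ⟨h1, h2⟩ | ⟨i', j', rfl, rfl, h3, h4, h5, h6⟩ |
      ⟨i0, h01, h02, i', j', rfl, rfl, hWij⟩
    · obtain ⟨c1, c2, -⟩ := common_part M hM e rr K K' R Q (κ'.map Sum.inl)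
        (κ.map Sum.inl ++ Sum.inr e :: w.map Sum.inl) i j (Or.inl ⟨h1, h2⟩)
      refine ⟨c1, fun _ _ => Or.inr (Or.inl ⟨by omega, h2⟩), fun _ hor => ?_⟩
      exfalso
      rw [c2 h1] at hor
      rcases hor with h | h
      · cases h
      · omega
    · obtain ⟨c1, -, c2⟩ := common_part M hM e rr K K' R Q (κ'.map Sum.inl)
        (κ.map Sum.inl ++ Sum.inr e :: w.map Sum.inl) i j (Or.inr ⟨h1, h2⟩)
      refine ⟨c1, fun _ hor => ?_, fun _ _ => ?_⟩
      · exfalso
        rw [c2 h1] at hor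
        rcases hor with h | h
        · cases h
        · omega
      · rcases lt_or_eq_of_le (Nat.succ_le_of_lt h2) with h3 | h3
        · exact Or.inl ⟨h1, h3⟩
        · exact Or.inr (Or.inr (Or.inl ⟨0, 0, by omega, by omega, by omega, by omega, by omega,
            fun _ => Or.inl rfl⟩))
    · rw [hdB i' j' h3]
      have hn := hnB i' j' h4 h3
      refine ⟨Or.inl (Or.inr ⟨_, by rw [Set.mem_ofPred_eq, hn]; omega, rfl⟩), fun hlt hor => ?_,
        fun hlt hor => ?_⟩
      · rcases hor with h | h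
        swap
        · omega
        rcases Nat.eq_zero_or_pos i' with h0 | h0
        · rcases h6 h0 with h7 | h7
          · exact Or.inr (Or.inr (Or.inl ⟨1, j', by omega, rfl, h3, by omega, le_rfl,
              fun h => by omega⟩))
          · rw [h7] at hlt
            simp only [List.length_nil] at hlt
            omega
        · exfalso
          rw [strat_short M hM e rr K K' _ (fun h1 => by
            rw [h1, FreeGroup.norm_one] at hn; omega) (by rw [hn]; omega)] at h
          cases h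
      · have hκ0 : i' = 0 → j' = 0 → κ' = [] := by
          intro h0 h1
          rcases hor with h | h
          · exfalso
            rw [h0, h1] at h
            simp only [List.take_zero, ← FreeGroup.one_eq_mk, inv_one, mul_one, map_one] at h
            rw [strat_one] at h
            cases h
          · exact List.length_eq_zero_iff.1 (by omega)
        rcases lt_or_eq_of_le h3 with h7 | h7
        · refine Or.inr (Or.inr (Or.inl ⟨i', j' + 1, rfl, by omega, h7, h4, h5, fun h0 => ?_⟩))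
          right
          rcases h6 h0 with h8 | h8
          · exact hκ0 h0 h8
          · exact h8
        · exact Or.inr (Or.inr (Or.inr ⟨i', h5, h4, 0, 0, by omega, by omega,
            (hW i' h5 h4).1⟩))
    · rw [hdC (i0 + i') j']
      obtain ⟨w1, w2, w3, w4⟩ := (hW i0 h01 h02).2 i' j' (by omega) (by omega) hWij
      refine ⟨pair_mem_dset M e rr K R hrr1 _ _ w1 w2, fun hlt hor => ?_, fun hlt hor => ?_⟩
      · refine Or.inr (Or.inr (Or.inr ⟨i0, h01, h02, i' + 1, j', by omega, rfl,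
          w3 (by omega) ?_⟩))
        rcases hor with h | h
        · exact Or.inl (strat_left M hM e rr K K' hrr2 hrr1 _ _ h)
        · right; omega
      · refine Or.inr (Or.inr (Or.inr ⟨i0, h01, h02, i', j' + 1, rfl, by omega,
          w4 (by omega) ?_⟩))
        rcases hor with h | h
        · rcases strat_right M hM e rr K K' hrr2 hrr1 hrr3 _ _ h with h | h
          · exact Or.inl h
          · exact Or.inr (Or.inl h)
        · right; right; omega

include hM hrr1 hrr2 hrr3 hwalk in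
/-- Multiplication by the stable letter makes the normal form shorter. -/
theorem case_pop (Q : List (Letter α J)) (κ κ' w : List (α × Bool)) (a : FreeGroup α)
    (ha : a ∈ D.S e) (hκ : FreeGroup.IsReduced κ) (hκ' : FreeGroup.IsReduced κ')
    (hw : w = a.toWord) (hlen : κ.length ≤ K)
    (hd : ∀ a ∈ κ.head?, ∀ b ∈ κ'.head?, a ≠ b)
    (hak : (FreeGroup.mk κ)⁻¹ * FreeGroup.mk κ' = D.ψ e a) :
    Ok M e rr K K' R (Q ++ (κ.map Sum.inl ++ Sum.inr (bar e) :: w.map Sum.inl))
      (Q ++ κ'.map Sum.inl) := by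
  have hwalk' : ∀ j0, ∃ W : ℕ → ℕ → Prop, j0 ≤ K + 1 → j0 ≤ κ'.length → W 0 0 ∧
      ∀ i j, i ≤ w.length → j ≤ κ'.length - j0 → W i j →
        (rr (FreeGroup.mk (w.take i))).norm ≤ R ∧
        fd (D.ψ e (FreeGroup.mk (w.take i) * (rr (FreeGroup.mk (w.take i)))⁻¹))
            ((FreeGroup.mk κ)⁻¹ * FreeGroup.mk (κ'.take (j0 + j))) ≤ R ∧
        (i < w.length → (fd (D.ψ e (FreeGroup.mk (w.take i) * (rr (FreeGroup.mk (w.take i)))⁻¹))
            ((FreeGroup.mk κ)⁻¹ * FreeGroup.mk (κ'.take (j0 + j))) ≤ K' ∨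
            j = κ'.length - j0) → W (i + 1) j) ∧
        (j < κ'.length - j0 →
          (K' < fd (D.ψ e (FreeGroup.mk (w.take i) * (rr (FreeGroup.mk (w.take i)))⁻¹))
            ((FreeGroup.mk κ)⁻¹ * FreeGroup.mk (κ'.take (j0 + j))) ∨
          D.ψ e (FreeGroup.mk (w.take i) * (rr (FreeGroup.mk (w.take i)))⁻¹) =
            (FreeGroup.mk κ)⁻¹ * FreeGroup.mk (κ'.take (j0 + j)) ∨ i = w.length) →
          W i (j + 1)) := by
    intro j0
    by_cases h01 : j0 ≤ K + 1 ∧ j0 ≤ κ'.length
    · have hex := hwalk a ha (fun i => FreeGroup.mk (w.take i))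
        (fun j => (FreeGroup.mk κ)⁻¹ * FreeGroup.mk (κ'.take (j0 + j)))
        w.length (κ'.length - j0) ?_ ?_ ?_ ?_ ?_ ?_
      · obtain ⟨W, h1, h2⟩ := hex
        exact ⟨W, fun _ _ => ⟨h1, h2⟩⟩
      · simp [← FreeGroup.one_eq_mk]
      · have h3 := norm_diverge κ (κ'.take (j0 + 0)) hκ (isReduced_take hκ' _)
          (fun a ha b hb => hd a ha b (head?_take _ _ hb))
        rw [h3, List.length_take]
        omega
      · show FreeGroup.mk (w.take w.length) = a
        rw [List.take_length, hw, FreeGroup.mk_toWord]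
      · show (FreeGroup.mk κ)⁻¹ * FreeGroup.mk (κ'.take (j0 + (κ'.length - j0))) = D.ψ e a
        rw [show j0 + (κ'.length - j0) = κ'.length by omega, List.take_length, hak]
      · intro i j hij hj
        exact fd_mk_take (by rw [hw]; exact FreeGroup.isReduced_toWord) _ _ hij hj
      · intro i j hij hj
        show fd ((FreeGroup.mk κ)⁻¹ * _) ((FreeGroup.mk κ)⁻¹ * _) = _
        rw [fd_mul_left, fd_mk_take hκ' _ _ (by omega) (by omega)]
        omega
    · exact ⟨fun _ _ => True, fun h1 h2 => absurd ⟨h1, h2⟩ h01⟩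
  choose W hW using hwalk'
  set q := Q.length with hq
  have hul : (Q ++ (κ.map Sum.inl ++ Sum.inr (bar e) :: w.map Sum.inl) :
      List (Letter α J)).length = q + (κ.length + 1 + w.length) := by
    simp [hq]; omega
  have hvl : (Q ++ κ'.map Sum.inl : List (Letter α J)).length = q + κ'.length := by simp [hq]
  -- the differences
  have hdB : ∀ i' j', i' ≤ κ.length → diff M.letterVal
      (Q ++ (κ.map Sum.inl ++ Sum.inr (bar e) :: w.map Sum.inl)) (Q ++ κ'.map Sum.inl)
      (q + i') (q + j') =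
      M.ι ((FreeGroup.mk (κ.take i'))⁻¹ * FreeGroup.mk (κ'.take j')) := by
    intro i' j' hi'
    rw [diff, val_take_add, val_take_add, M.val_take_inl,
      List.take_append_of_le_length (by simpa using hi'), M.val_take_inl, map_mul, map_inv]
    group
  have hdC : ∀ i' j', diff M.letterVal
      (Q ++ (κ.map Sum.inl ++ Sum.inr (bar e) :: w.map Sum.inl)) (Q ++ κ'.map Sum.inl)
      (q + (κ.length + 1 + i')) (q + j') =
      (M.ι (FreeGroup.mk (w.take i')))⁻¹ * M.t e *
        M.ι ((FreeGroup.mk κ)⁻¹ * FreeGroup.mk (κ'.take j')) := by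
    intro i' j'
    have h1 : ((κ.map Sum.inl ++ Sum.inr (bar e) :: w.map Sum.inl : List (Letter α J))).take
        (κ.length + 1 + i') = κ.map Sum.inl ++ Sum.inr (bar e) :: (w.map Sum.inl).take i' := by
      have h2 := List.take_length_add_append (l₁ := (κ.map Sum.inl : List (Letter α J)))
        (l₂ := Sum.inr (bar e) :: w.map Sum.inl) (i := i' + 1)
      rw [List.length_map] at h2
      rw [show κ.length + 1 + i' = κ.length + (i' + 1) by omega, h2, List.take_succ_cons]
    have h3 : M.letterVal (Sum.inr (bar e)) = (M.t e)⁻¹ := M.t_bar e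
    rw [diff, val_take_add, val_take_add, M.val_take_inl, h1, val_append, val_cons, h3,
      M.val_map_inl, M.val_take_inl, map_mul, map_inv]
    group
  have hnB : ∀ i' j', i' ≤ κ.length → j' ≤ κ'.length →
      ((FreeGroup.mk (κ.take i'))⁻¹ * FreeGroup.mk (κ'.take j')).norm = i' + j' := by
    intro i' j' hi' hj'
    rw [norm_diverge _ _ (isReduced_take hκ _) (isReduced_take hκ' _)
      (fun a ha b hb => hd a (head?_take _ _ ha) b (head?_take _ _ hb)),
      List.length_take, List.length_take]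
    omega
  refine ⟨fun i j => (i = j ∧ j < q) ∨ (i = j + 1 ∧ j < q) ∨
    (∃ i' j', i = q + i' ∧ j = q + j' ∧ i' ≤ κ.length ∧ j' ≤ κ'.length ∧ j' ≤ K + 1 ∧
      (i' = 0 → j' = 0)) ∨
    (∃ j0, j0 ≤ K + 1 ∧ j0 ≤ κ'.length ∧ ∃ i' j', i = q + (κ.length + 1 + i') ∧
      j = q + (j0 + j') ∧ W j0 i' j'), ?_, ?_⟩
  · rcases Nat.eq_zero_or_pos q with h0 | h0
    · exact Or.inr (Or.inr (Or.inl ⟨0, 0, by omega, by omega, by omega, by omega, by omega,
        fun _ => rfl⟩))
    · exact Or.inl ⟨rfl, h0⟩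
  · intro i j hi hj hInv
    rw [hul] at hi ⊢
    rw [hvl] at hj ⊢
    rcases hInv with ⟨h1, h2⟩ | ⟨h1, h2⟩ | ⟨i', j', rfl, rfl, h3, h4, h5, h6⟩ |
      ⟨j0, h01, h02, i', j', rfl, rfl, hWij⟩
    · obtain ⟨c1, c2, -⟩ := common_part M hM e rr K K' R Q
        (κ.map Sum.inl ++ Sum.inr (bar e) :: w.map Sum.inl) (κ'.map Sum.inl) i j
        (Or.inl ⟨h1, h2⟩)
      refine ⟨c1, fun _ _ => Or.inr (Or.inl ⟨by omega, h2⟩), fun _ hor => ?_⟩
      exfalso
      rw [c2 h1] at hor
      rcases hor with h | h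
      · cases h
      · omega
    · obtain ⟨c1, -, c2⟩ := common_part M hM e rr K K' R Q
        (κ.map Sum.inl ++ Sum.inr (bar e) :: w.map Sum.inl) (κ'.map Sum.inl) i j
        (Or.inr ⟨h1, h2⟩)
      refine ⟨c1, fun _ hor => ?_, fun _ _ => ?_⟩
      · exfalso
        rw [c2 h1] at hor
        rcases hor with h | h
        · cases h
        · omega
      · rcases lt_or_eq_of_le (Nat.succ_le_of_lt h2) with h3 | h3
        · exact Or.inl ⟨h1, h3⟩
        · exact Or.inr (Or.inr (Or.inl ⟨0, 0, by omega, by omega, by omega, by omega, by omega,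
            fun _ => rfl⟩))
    · rw [hdB i' j' h3]
      have hn := hnB i' j' h3 h4
      refine ⟨Or.inl (Or.inr ⟨_, by rw [Set.mem_ofPred_eq, hn]; omega, rfl⟩), fun hlt hor => ?_,
        fun hlt hor => ?_⟩
      · rcases lt_or_eq_of_le h3 with h7 | h7
        · exact Or.inr (Or.inr (Or.inl ⟨i' + 1, j', by omega, rfl, h7, h4, h5,
            fun h => by omega⟩))
        · exact Or.inr (Or.inr (Or.inr ⟨j', h5, h4, 0, 0, by omega, by omega,
            (hW j' h5 h4).1⟩))
      · rcases hor with h | h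
        swap
        · omega
        have h7 : 0 < i' := by
          by_contra h0
          have h0' : i' = 0 := by omega
          have h1 := h6 h0'
          rw [h0', h1] at h
          simp only [List.take_zero, ← FreeGroup.one_eq_mk, inv_one, mul_one, map_one] at h
          rw [strat_one] at h
          cases h
        have h8 : i' + j' ≤ K + 1 := by
          by_contra h0
          rw [strat_long M hM e rr K K' _ (by rw [hn]; omega)] at h
          cases h
        exact Or.inr (Or.inr (Or.inl ⟨i', j' + 1, rfl, by omega, h3, by omega, by omega,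
          fun h => by omega⟩))
    · rw [hdC i' (j0 + j')]
      obtain ⟨w1, w2, w3, w4⟩ := (hW j0 h01 h02).2 i' j' (by omega) (by omega) hWij
      refine ⟨pair_mem_dset M e rr K R hrr1 _ _ w1 w2, fun hlt hor => ?_, fun hlt hor => ?_⟩
      · refine Or.inr (Or.inr (Or.inr ⟨j0, h01, h02, i' + 1, j', by omega, rfl,
          w3 (by omega) ?_⟩))
        rcases hor with h | h
        · exact Or.inl (strat_left M hM e rr K K' hrr2 hrr1 _ _ h)
        · right; omega
      · refine Or.inr (Or.inr (Or.inr ⟨j0, h01, h02, i', j' + 1, rfl, by omega,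
          w4 (by omega) ?_⟩))
        rcases hor with h | h
        · rcases strat_right M hM e rr K K' hrr2 hrr1 hrr3 _ _ h with h | h
          · exact Or.inl h
          · exact Or.inr (Or.inl h)
        · right; right; omega

end Cases

/-! ### The automaton -/

section Main

variable {α J G : Type} [DecidableEq α] [Group G] {D : HData (FreeGroup α) J}

theorem push_ok (M : HModel D G) {T : Transv D} (hM : M.NFUnique T) (e : J × Bool)
    (rr : FreeGroup α → FreeGroup α) (K K' R : ℕ) (hT : T.Nice K)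
    (hrr1 : ∀ x, x * (rr x)⁻¹ ∈ D.S e)
    (hrr2 : ∀ a ∈ D.S e, ∀ x, rr (a * x) = rr x) (hrr3 : rr 1 = 1)
    (hwalk : WalkOk D e rr (2 * K + 1) K' R) (st : List (FreeGroup α × (J × Bool)))
    (f : FreeGroup α) :
    Ok M e rr K K' R (nfWord st f)
      (nfWord ((T.rep e f, e) :: st) (D.ψ e ((T.rep e f)⁻¹ * f))) := by
  obtain ⟨p, k, k', h1, h2, h3⟩ := hT.pre e f
  obtain ⟨c, l, l', rfl, rfl, h6⟩ := exists_common_prefix k k'
  have hl : FreeGroup.IsReduced l :=
    isReduced_piece (FreeGroup.isReduced_toWord (x := T.rep e f)) ⟨p ++ c, [], by rw [h1]; simp⟩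
  have hl' : FreeGroup.IsReduced l' :=
    isReduced_piece (FreeGroup.isReduced_toWord (x := f)) ⟨p ++ c, [], by rw [h2]; simp⟩
  have hr : T.rep e f = FreeGroup.mk (p ++ c) * FreeGroup.mk l := by
    rw [FreeGroup.mul_mk, List.append_assoc, ← h1, FreeGroup.mk_toWord]
  have hf : f = FreeGroup.mk (p ++ c) * FreeGroup.mk l' := by
    rw [FreeGroup.mul_mk, List.append_assoc, ← h2, FreeGroup.mk_toWord]
  have key := case_push M hM e rr K K' R hrr1 hrr2 hrr3 hwalk
    (stackWord st ++ (p ++ c).map Sum.inl) l l' (D.ψ e ((T.rep e f)⁻¹ * f)).toWord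
    ((T.rep e f)⁻¹ * f) (T.mem e f) hl hl' rfl (by simp at h3; omega) h6 (by
      rw [hr]
      conv_rhs => rw [hf]
      group)
  have e1 : nfWord st f = stackWord st ++ (p ++ c).map Sum.inl ++ l'.map Sum.inl := by
    rw [nfWord, h2]; simp
  have e2 : nfWord ((T.rep e f, e) :: st) (D.ψ e ((T.rep e f)⁻¹ * f)) =
      stackWord st ++ (p ++ c).map Sum.inl ++ (l.map Sum.inl ++ Sum.inr e ::
        (D.ψ e ((T.rep e f)⁻¹ * f)).toWord.map Sum.inl) := by
    rw [nfWord, stackWord]
    simp only [h1]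
    simp
  rw [e1, e2]
  exact key

theorem pop_ok (M : HModel D G) {T : Transv D} (hM : M.NFUnique T) (e : J × Bool)
    (rr : FreeGroup α → FreeGroup α) (K K' R : ℕ) (hT : T.Nice K)
    (hrr1 : ∀ x, x * (rr x)⁻¹ ∈ D.S e)
    (hrr2 : ∀ a ∈ D.S e, ∀ x, rr (a * x) = rr x) (hrr3 : rr 1 = 1)
    (hwalk : WalkOk D e rr (2 * K + 1) K' R) (st : List (FreeGroup α × (J × Bool)))
    (r f : FreeGroup α) (hr : T.rep (bar e) r = r) (hf : f ∈ D.S e) :
    Ok M e rr K K' R (nfWord ((r, bar e) :: st) f) (nfWord st (r * D.ψ e f)) := by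
  have hrep : T.rep (bar e) (r * D.ψ e f) = r := by
    rw [T.mul _ _ _ (D.ψ_mem e f hf), hr]
  obtain ⟨p, k, k', h1, h2, h3⟩ := hT.pre (bar e) (r * D.ψ e f)
  obtain ⟨c, l, l', rfl, rfl, h6⟩ := exists_common_prefix k k'
  rw [hrep] at h1
  have hl : FreeGroup.IsReduced l :=
    isReduced_piece (FreeGroup.isReduced_toWord (x := r)) ⟨p ++ c, [], by rw [h1]; simp⟩
  have hl' : FreeGroup.IsReduced l' :=
    isReduced_piece (FreeGroup.isReduced_toWord (x := r * D.ψ e f)) ⟨p ++ c, [], by rw [h2]; simp⟩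
  have hr' : r = FreeGroup.mk (p ++ c) * FreeGroup.mk l := by
    rw [FreeGroup.mul_mk, List.append_assoc, ← h1, FreeGroup.mk_toWord]
  have hf' : r * D.ψ e f = FreeGroup.mk (p ++ c) * FreeGroup.mk l' := by
    rw [FreeGroup.mul_mk, List.append_assoc, ← h2, FreeGroup.mk_toWord]
  have key := case_pop M hM e rr K K' R hrr1 hrr2 hrr3 hwalk
    (stackWord st ++ (p ++ c).map Sum.inl) l l' f.toWord f hf hl hl' rfl
    (by simp at h3; omega) h6 (by
      have h7 : D.ψ e f = r⁻¹ * (FreeGroup.mk (p ++ c) * FreeGroup.mk l') := by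
        rw [← hf']; group
      rw [h7, hr']
      group)
  have e1 : nfWord st (r * D.ψ e f) =
      stackWord st ++ (p ++ c).map Sum.inl ++ l'.map Sum.inl := by
    rw [nfWord, h2]; simp
  have e2 : nfWord ((r, bar e) :: st) f =
      stackWord st ++ (p ++ c).map Sum.inl ++ (l.map Sum.inl ++ Sum.inr (bar e) ::
        f.toWord.map Sum.inl) := by
    rw [nfWord, stackWord]
    simp only [h1]
    simp
  rw [e1, e2]
  exact key

/-- Multiplication by a stable letter is recognised. -/
theorem exists_automaton_stable {α J : Type} [DecidableEq α] [Finite α] [Finite J]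
    {D : HData (FreeGroup α) J} (T : Transv D) (K : ℕ) (hT : T.Nice K)
    (hfg : ∀ e, (D.S e).FG) (hL : (nfLang T).IsRegular) {G : Type} [Group G] (M : HModel D G)
    (hM : M.NFUnique T) (e : J × Bool) :
    ∃ N : AsyncAutomaton (Letter α J), ∀ u v, N.Accepts u v ↔ u ∈ nfLang T ∧ v ∈ nfLang T ∧
      val M.letterVal u * M.letterVal (Sum.inr e) = val M.letterVal v := by
  obtain ⟨rr, hrr1, hrr2, hrr3⟩ := exists_rr (D.S e)
  have rr1 : rr 1 = 1 := by
    have h := hrr3 1 (D.S e).one_mem 1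
    rw [mul_one, FreeGroup.norm_one, Nat.le_zero, FreeGroup.norm_eq_zero] at h
    exact h
  obtain ⟨K', R, hwalk⟩ := exists_walk (D.S e) (D.S (bar e)) (hfg e) (hfg (bar e)) (D.ψ e)
    (D.ψ_mem e) (fun a ha b hb => D.ψ_mul e a b ha hb) (D.ψ (bar e))
    (fun b hb => by
      have := D.ψ_mem (bar e) b hb
      rwa [bar_bar] at this)
    (fun a ha b hb => D.ψ_mul (bar e) a b ha hb) (D.ψ_bar e)
    (fun b hb => by
      have := D.ψ_bar (bar e) b hb
      rwa [bar_bar] at this)
    rr hrr1 hrr2 hrr3 (2 * K + 1)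
  refine exists_automaton M.letterVal (nfLang T) hL (M.letterVal (Sum.inr e))
    (strat M e rr K K') (dset M e K R) (dset_finite M e K R) ?_
  rintro u ⟨st, f, hg, rfl⟩ v ⟨st', f', hg', rfl⟩ hval
  rw [M.val_nfWord, M.val_nfWord] at hval
  have hact := act_val T M e (st, f)
  have hu := hM _ _ _ _ (act_good T e (st, f) hg) hg' (hact.trans hval)
  have push : st' = (T.rep e f, e) :: st → f' = D.ψ e ((T.rep e f)⁻¹ * f) →
      Ok M e rr K K' R (nfWord st f) (nfWord st' f') := by
    rintro rfl rfl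
    exact push_ok M hM e rr K K' R hT hrr1 hrr2 rr1 hwalk st f
  suffices h : Ok M e rr K K' R (nfWord st f) (nfWord st' f') from h
  cases st with
  | nil =>
    simp only [act] at hu
    exact push hu.1.symm hu.2.symm
  | cons p st =>
    simp only [act] at hu
    split_ifs at hu with hc
    · obtain ⟨hc1, hc2⟩ := hc
      obtain ⟨r, e'⟩ := p
      simp only at hc1 hu
      subst hc1
      rw [← hu.1, ← hu.2]
      exact pop_ok M hM e rr K K' R hT hrr1 hrr2 rr1 hwalk st r f hg.1 (T.mem_of_rep e hc2)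
    · exact push hu.1.symm hu.2.symm

end Main

end Pool.Agent.W_MP_1d4143_al
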