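import Pool.Agent.W_MP_1d4143_al.Tree

set_option autoImplicit false

namespace Pool.Agent.W_MP_1d4143_al

variable {α : Type} [DecidableEq α]

/-! ### Reduced words -/

/-- Two letters may be adjacent in a reduced word. -/
def tvOk (a b : α × Bool) : Prop := a.1 = b.1 → a.2 = b.2

omit [DecidableEq α] in
theorem tv_isReduced_append (u v : List (α × Bool)) :
    FreeGroup.IsReduced (u ++ v) ↔ FreeGroup.IsReduced u ∧ FreeGroup.IsReduced v ∧
      ∀ a ∈ u.getLast?, ∀ b ∈ v.head?, tvOk a b :=
  List.isChain_append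

theorem tv_toWord_mk {u : List (α × Bool)} (h : FreeGroup.IsReduced u) :
    (FreeGroup.mk u).toWord = u := by
  rw [FreeGroup.toWord_mk, h.reduce_eq]

/-- If `p` is a prefix of `g` then the rest is the word of `p⁻¹ g`. -/
theorem tv_toWord_of_prefix {p : List (α × Bool)} {g : FreeGroup α} (h : p <+: g.toWord) :
    g.toWord = p ++ ((FreeGroup.mk p)⁻¹ * g).toWord := by
  obtain ⟨k, hk⟩ := h
  have hr : FreeGroup.IsReduced (p ++ k) := by rw [hk]; exact FreeGroup.isReduced_toWord
  have hg : g = FreeGroup.mk p * FreeGroup.mk k := by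
    rw [FreeGroup.mul_mk, hk, FreeGroup.mk_toWord]
  rw [← hk]
  congr 1
  rw [hg, inv_mul_cancel_left, tv_toWord_mk ((tv_isReduced_append p k).1 hr).2.1]

theorem tv_toWord_mk_mul {p : List (α × Bool)} {h : FreeGroup α}
    (hr : FreeGroup.IsReduced (p ++ h.toWord)) : (FreeGroup.mk p * h).toWord = p ++ h.toWord := by
  conv_lhs => rw [← FreeGroup.mk_toWord (x := h), FreeGroup.mul_mk]
  rw [tv_toWord_mk hr]

/-! ### Cosets -/

/-- The left coset as a set. -/
def tvCoset (S : Subgroup (FreeGroup α)) (f : FreeGroup α) : Set (FreeGroup α) :=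
  {g | f⁻¹ * g ∈ S}

omit [DecidableEq α] in
theorem tv_self_mem (S : Subgroup (FreeGroup α)) (f : FreeGroup α) : f ∈ tvCoset S f := by
  simp [tvCoset]

omit [DecidableEq α] in
theorem tv_coset_eq {S : Subgroup (FreeGroup α)} {f g : FreeGroup α} (h : g ∈ tvCoset S f) :
    tvCoset S g = tvCoset S f := by
  ext x
  simp only [tvCoset, Set.mem_ofPred_eq] at h ⊢
  have e : f⁻¹ * x = (f⁻¹ * g) * (g⁻¹ * x) := by group
  rw [e, S.mul_mem_cancel_left h]

omit [DecidableEq α] in
theorem tv_coset_mul {S : Subgroup (FreeGroup α)} (f : FreeGroup α) {a : FreeGroup α}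
    (h : a ∈ S) : tvCoset S (f * a) = tvCoset S f :=
  tv_coset_eq (by simpa [tvCoset] using h)

omit [DecidableEq α] in
theorem tv_mul_mem_coset {S : Subgroup (FreeGroup α)} (k f g : FreeGroup α) :
    k * g ∈ tvCoset S (k * f) ↔ g ∈ tvCoset S f := by
  simp only [tvCoset, Set.mem_ofPred_eq]
  rw [show (k * f)⁻¹ * (k * g) = f⁻¹ * g by group]

/-! ### The longest common prefix -/

theorem tv_exists_lcp (D : Set (FreeGroup α)) (hD : D.Nonempty) :
    ∃ p : List (α × Bool), (∀ g ∈ D, p <+: g.toWord) ∧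
      ∀ p' : List (α × Bool), (∀ g ∈ D, p' <+: g.toWord) → p' <+: p := by
  classical
  obtain ⟨g₀, hg₀⟩ := hD
  let P : ℕ → Prop := fun n => ∀ g ∈ D, g₀.toWord.take n <+: g.toWord
  have h0 : P 0 := fun g _ => by simp
  refine ⟨g₀.toWord.take (Nat.findGreatest P g₀.toWord.length), ?_, ?_⟩
  · exact Nat.findGreatest_spec (P := P) (Nat.zero_le _) h0
  · intro p' hp'
    have h1 : p' = g₀.toWord.take p'.length := List.prefix_iff_eq_take.1 (hp' g₀ hg₀)
    have h2 : P p'.length := by
      intro g hg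
      rw [← h1]
      exact hp' g hg
    have h3 : p'.length ≤ Nat.findGreatest P g₀.toWord.length :=
      Nat.le_findGreatest (hp' g₀ hg₀).length_le h2
    rw [h1]
    exact List.take_prefix_take_left h3

open Classical in
/-- The longest common prefix of the words of the elements of a set. -/
noncomputable def tvLcp (D : Set (FreeGroup α)) : List (α × Bool) :=
  if h : D.Nonempty then Classical.choose (tv_exists_lcp D h) else []

theorem tvLcp_prefix {D : Set (FreeGroup α)} {g : FreeGroup α} (hg : g ∈ D) :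
    tvLcp D <+: g.toWord := by
  have h : D.Nonempty := ⟨g, hg⟩
  rw [tvLcp, dif_pos h]
  exact (Classical.choose_spec (tv_exists_lcp D h)).1 g hg

theorem tvLcp_max {D : Set (FreeGroup α)} (h : D.Nonempty) {p' : List (α × Bool)}
    (hp' : ∀ g ∈ D, p' <+: g.toWord) : p' <+: tvLcp D := by
  rw [tvLcp, dif_pos h]
  exact (Classical.choose_spec (tv_exists_lcp D h)).2 p' hp'

/-- The translate of a coset by its longest common prefix has no common prefix. -/
theorem tvLcp_translate (S : Subgroup (FreeGroup α)) (f : FreeGroup α) :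
    tvLcp (tvCoset S ((FreeGroup.mk (tvLcp (tvCoset S f)))⁻¹ * f)) = [] := by
  set p := tvLcp (tvCoset S f) with hp
  have key : ∀ g ∈ tvCoset S f, p ++ tvLcp (tvCoset S ((FreeGroup.mk p)⁻¹ * f)) <+:
      g.toWord := by
    intro g hg
    rw [tv_toWord_of_prefix (hp ▸ tvLcp_prefix hg : p <+: g.toWord)]
    rw [List.prefix_append_right_inj]
    exact tvLcp_prefix ((tv_mul_mem_coset _ _ _).2 hg)
  have h2 := (tvLcp_max ⟨f, tv_self_mem S f⟩ key).length_le
  rw [← hp, List.length_append] at h2
  exact List.eq_nil_of_length_eq_zero (by omega)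

/-- A coset without common prefix contains a short element. -/
theorem tv_exists_short {S : Subgroup (FreeGroup α)} {K : ℕ}
    (hK : ∀ a ∈ S, ∀ p, fd 1 p + fd p a = fd 1 a → ∃ a' ∈ S, fd p a' ≤ K)
    (f : FreeGroup α) (h : tvLcp (tvCoset S f) = []) :
    ∃ g ∈ tvCoset S f, g.norm ≤ K ∧ (1 ∈ tvCoset S f → g = 1) := by
  by_cases h1 : (1 : FreeGroup α) ∈ tvCoset S f
  · exact ⟨1, h1, by simp, fun _ => rfl⟩
  -- an element starting with the letter `x`
  have hf : f ≠ 1 := by
    rintro rfl
    exact h1 (tv_self_mem S 1)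
  have hfw : f.toWord ≠ [] := fun e => hf (FreeGroup.toWord_eq_nil_iff.1 e)
  obtain ⟨x, u, hxu⟩ := List.exists_cons_of_ne_nil hfw
  -- an element that does not start with `x`
  have h2 : ∃ d ∈ tvCoset S f, ¬ [x] <+: d.toWord := by
    by_contra hcon
    push Not at hcon
    have := (tvLcp_max ⟨f, tv_self_mem S f⟩ hcon).length_le
    rw [h] at this
    simp at this
  obtain ⟨d, hd, hdx⟩ := h2
  have hd1 : d ≠ 1 := by
    rintro rfl
    exact h1 hd
  have hdw : d.toWord ≠ [] := fun e => hd1 (FreeGroup.toWord_eq_nil_iff.1 e)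
  obtain ⟨y, v, hyv⟩ := List.exists_cons_of_ne_nil hdw
  have hxy : y ≠ x := by
    rintro rfl
    exact hdx (by rw [hyv]; simp)
  -- the product is reduced
  have hw : (f⁻¹ * d).toWord = FreeGroup.invRev f.toWord ++ d.toWord := by
    rw [FreeGroup.toWord_mul, FreeGroup.toWord_inv]
    apply FreeGroup.IsReduced.reduce_eq
    rw [tv_isReduced_append]
    refine ⟨?_, FreeGroup.isReduced_toWord, ?_⟩
    · rw [← FreeGroup.toWord_inv]
      exact FreeGroup.isReduced_toWord
    · intro a ha b hb
      rw [hxu, FreeGroup.invRev] at ha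
      rw [hyv] at hb
      simp at ha hb
      subst hb
      rw [← ha]
      intro e1
      simp at e1 ⊢
      by_contra e2
      apply hxy
      apply Prod.ext
      · exact e1.symm
      · revert e2
        cases x.2 <;> cases y.2 <;> simp
  have hn : (f⁻¹ * d).norm = f.norm + d.norm := by
    rw [FreeGroup.norm, hw, List.length_append, FreeGroup.invRev_length]
    rfl
  obtain ⟨a', ha', hle⟩ := hK (f⁻¹ * d) hd f⁻¹ (by
    simp only [fd, inv_one, one_mul, inv_inv, mul_inv_cancel_left]
    rw [hn, FreeGroup.norm_inv_eq])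
  refine ⟨f * a', by simpa [tvCoset] using ha', ?_, fun h => absurd h h1⟩
  simpa [fd] using hle

open Classical in
/-- The short element of a coset. -/
noncomputable def tvKappa (K : ℕ) (D : Set (FreeGroup α)) : FreeGroup α :=
  if h : ∃ g ∈ D, g.norm ≤ K ∧ (1 ∈ D → g = 1) then Classical.choose h else 1

theorem tvKappa_spec {S : Subgroup (FreeGroup α)} {K : ℕ}
    (hK : ∀ a ∈ S, ∀ p, fd 1 p + fd p a = fd 1 a → ∃ a' ∈ S, fd p a' ≤ K)
    (f : FreeGroup α) (h : tvLcp (tvCoset S f) = []) :
    tvKappa K (tvCoset S f) ∈ tvCoset S f ∧ (tvKappa K (tvCoset S f)).norm ≤ K ∧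
      (1 ∈ tvCoset S f → tvKappa K (tvCoset S f) = 1) := by
  have h1 := tv_exists_short hK f h
  rw [tvKappa, dif_pos h1]
  exact Classical.choose_spec h1

/-- The representative. -/
noncomputable def tvRep (S : Subgroup (FreeGroup α)) (K : ℕ) (f : FreeGroup α) : FreeGroup α :=
  FreeGroup.mk (tvLcp (tvCoset S f)) *
    tvKappa K (tvCoset S ((FreeGroup.mk (tvLcp (tvCoset S f)))⁻¹ * f))

theorem tvRep_mem {S : Subgroup (FreeGroup α)} {K : ℕ}
    (hK : ∀ a ∈ S, ∀ p, fd 1 p + fd p a = fd 1 a → ∃ a' ∈ S, fd p a' ≤ K)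
    (f : FreeGroup α) : tvRep S K f ∈ tvCoset S f := by
  have h := (tvKappa_spec hK _ (tvLcp_translate S f)).1
  rw [tvRep, ← tv_mul_mem_coset (FreeGroup.mk (tvLcp (tvCoset S f)))⁻¹, inv_mul_cancel_left]
  exact h

theorem tvRep_toWord {S : Subgroup (FreeGroup α)} {K : ℕ}
    (hK : ∀ a ∈ S, ∀ p, fd 1 p + fd p a = fd 1 a → ∃ a' ∈ S, fd p a' ≤ K)
    (f : FreeGroup α) : (tvRep S K f).toWord = tvLcp (tvCoset S f) ++
      (tvKappa K (tvCoset S ((FreeGroup.mk (tvLcp (tvCoset S f)))⁻¹ * f))).toWord := by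
  have h := tv_toWord_of_prefix (tvLcp_prefix (tvRep_mem hK f))
  rw [h]
  congr 2
  rw [tvRep, inv_mul_cancel_left]

/-- The words of the representatives. -/
theorem tv_mem_words {S : Subgroup (FreeGroup α)} {K : ℕ}
    (hK : ∀ a ∈ S, ∀ p, fd 1 p + fd p a = fd 1 a → ∃ a' ∈ S, fd p a' ≤ K)
    (w : List (α × Bool)) :
    (∃ f, (tvRep S K f).toWord = w) ↔ ∃ (p : List (α × Bool)) (f' : FreeGroup α),
      tvLcp (tvCoset S f') = [] ∧ w = p ++ (tvKappa K (tvCoset S f')).toWord ∧
        FreeGroup.IsReduced w ∧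
        ∀ a ∈ p.getLast?, ∀ d ∈ tvCoset S f', ∀ b ∈ d.toWord.head?, tvOk a b := by
  constructor
  · rintro ⟨f, rfl⟩
    refine ⟨_, _, tvLcp_translate S f, tvRep_toWord hK f, FreeGroup.isReduced_toWord, ?_⟩
    intro a ha d hd b hb
    have hd' : FreeGroup.mk (tvLcp (tvCoset S f)) * d ∈ tvCoset S f := by
      rw [← tv_mul_mem_coset (FreeGroup.mk (tvLcp (tvCoset S f)))⁻¹, inv_mul_cancel_left]
      exact hd
    have h1 := tv_toWord_of_prefix (tvLcp_prefix hd')
    rw [inv_mul_cancel_left] at h1
    have h2 : FreeGroup.IsReduced (tvLcp (tvCoset S f) ++ d.toWord) := by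
      rw [← h1]
      exact FreeGroup.isReduced_toWord
    exact ((tv_isReduced_append _ _).1 h2).2.2 a ha b hb
  · rintro ⟨p, f', hf', rfl, hw, hb⟩
    obtain ⟨hk1, hk2, hk3⟩ := tvKappa_spec hK f' hf'
    have hp : FreeGroup.IsReduced p := ((tv_isReduced_append _ _).1 hw).1
    have hword : ∀ d ∈ tvCoset S f', (FreeGroup.mk p * d).toWord = p ++ d.toWord := by
      intro d hd
      apply tv_toWord_mk_mul
      rw [tv_isReduced_append]
      exact ⟨hp, FreeGroup.isReduced_toWord, fun a ha b hb' => hb a ha d hd b hb'⟩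
    have hmem : ∀ g ∈ tvCoset S (FreeGroup.mk p * f'), (FreeGroup.mk p)⁻¹ * g ∈ tvCoset S f' := by
      intro g hg
      rw [← tv_mul_mem_coset (FreeGroup.mk p), mul_inv_cancel_left]
      exact hg
    -- the longest common prefix of the translated coset
    have hlcp : tvLcp (tvCoset S (FreeGroup.mk p * f')) = p := by
      have h1 : p <+: tvLcp (tvCoset S (FreeGroup.mk p * f')) := by
        apply tvLcp_max ⟨_, tv_self_mem S _⟩
        intro g hg
        have := hword _ (hmem g hg)
        rw [mul_inv_cancel_left] at this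
        rw [this]
        exact List.prefix_append _ _
      obtain ⟨q, hq⟩ := h1
      have h2 : q <+: tvLcp (tvCoset S f') := by
        apply tvLcp_max ⟨_, tv_self_mem S _⟩
        intro g hg
        have h3 : FreeGroup.mk p * g ∈ tvCoset S (FreeGroup.mk p * f') :=
          (tv_mul_mem_coset _ _ _).2 hg
        have h4 := tvLcp_prefix h3
        rw [← hq, hword g hg, List.prefix_append_right_inj] at h4
        exact h4
      rw [hf', List.prefix_nil] at h2
      rw [← hq, h2, List.append_nil]
    refine ⟨FreeGroup.mk p * f', ?_⟩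
    rw [tvRep_toWord hK, hlcp, inv_mul_cancel_left]

theorem tv_regular_of_state {T C : Type} [Finite C] (L : Language T) (st : List T → C)
    (h : ∀ u u', st u = st u' → ∀ v, u ++ v ∈ L → u' ++ v ∈ L) : L.IsRegular := by
  classical
  apply Language.IsRegular.of_finite_range_leftQuotient
  let F : C → Language T := fun c => if hc : ∃ u, st u = c then L.leftQuotient hc.choose else L
  apply (Set.finite_range F).subset
  rintro _ ⟨u, rfl⟩
  refine ⟨st u, ?_⟩
  have hc : ∃ u', st u' = st u := ⟨u, rfl⟩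
  simp only [F]
  rw [dif_pos hc]
  ext v
  rw [Language.mem_leftQuotient, Language.mem_leftQuotient]
  exact ⟨h _ _ hc.choose_spec v, h _ _ hc.choose_spec.symm v⟩

/-- A finitely generated subgroup of a free group has a regular transversal such that every element
starts with its representative, up to a bounded number of letters. -/
theorem exists_rep [Finite α] (S : Subgroup (FreeGroup α)) (hS : S.FG) :
    ∃ (rep : FreeGroup α → FreeGroup α) (K : ℕ),
      (∀ f, (rep f)⁻¹ * f ∈ S) ∧ (∀ f a, a ∈ S → rep (f * a) = rep f) ∧ rep 1 = 1 ∧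
      Language.IsRegular (T := α × Bool) {w | ∃ f, (rep f).toWord = w} ∧
      ∀ f, ∃ p k k' : List (α × Bool), (rep f).toWord = p ++ k ∧ f.toWord = p ++ k' ∧
        k.length ≤ K := by
  obtain ⟨K, hK⟩ := quasiconvex S hS
  refine ⟨tvRep S K, K, ?_, ?_, ?_, ?_, ?_⟩
  · intro f
    have h := S.inv_mem (tvRep_mem hK f)
    rwa [mul_inv_rev, inv_inv] at h
  · intro f a ha
    rw [tvRep, tv_coset_mul f ha, ← mul_assoc, tv_coset_mul _ ha, ← tvRep]
  · have h1 : tvLcp (tvCoset S 1) = [] := by
      have := tvLcp_prefix (tv_self_mem S 1)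
      simpa using this
    have h2 := (tvKappa_spec hK 1 h1).2.2 (tv_self_mem S 1)
    rw [tvRep, h1, ← FreeGroup.one_eq_mk, inv_one, one_mul, one_mul, h2]
  · have hfin : Finite {v : List (α × Bool) // v.length < K} :=
      List.finite_length_lt (α × Bool) K
    refine tv_regular_of_state (T := α × Bool)
      (C := Option (α × Bool) × Prop × Set {v : List (α × Bool) // v.length < K}) _
      (fun u => (u.getLast?, FreeGroup.IsReduced u,
        {v | ∃ f, (tvRep S K f).toWord = u ++ v.1})) ?_
    intro u u' hst v hv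
    obtain ⟨e1, e2, e3⟩ : u.getLast? = u'.getLast? ∧
        (FreeGroup.IsReduced u = FreeGroup.IsReduced u') ∧
        ({v : {v : List (α × Bool) // v.length < K} | ∃ f, (tvRep S K f).toWord = u ++ v.1} =
          {v | ∃ f, (tvRep S K f).toWord = u' ++ v.1}) := by
      simpa [Prod.ext_iff] using hst
    by_cases hlen : v.length < K
    · have : (⟨v, hlen⟩ : {v : List (α × Bool) // v.length < K}) ∈
          {v : {v : List (α × Bool) // v.length < K} |
            ∃ f, (tvRep S K f).toWord = u ++ v.1} := hv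
      rw [e3] at this
      exact this
    · rw [not_lt] at hlen
      change ∃ f, (tvRep S K f).toWord = u ++ v at hv
      change ∃ f, (tvRep S K f).toWord = u' ++ v
      rw [tv_mem_words hK] at hv ⊢
      obtain ⟨p, f', hf', hpk, hred, hb⟩ := hv
      have hk := (tvKappa_spec hK f' hf').2.1
      have hq : ∃ q, p = u ++ q ∧ v = q ++ (tvKappa K (tvCoset S f')).toWord := by
        rcases List.append_eq_append_iff.1 hpk with ⟨q, h1, h2⟩ | ⟨q, h1, h2⟩
        · exact ⟨q, h1, h2⟩
        · have h3 := congrArg List.length h2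
          rw [List.length_append] at h3
          have h4 : (tvKappa K (tvCoset S f')).toWord.length ≤ K := hk
          have h5 : q = [] := List.eq_nil_of_length_eq_zero (by omega)
          subst h5
          exact ⟨[], by simpa using h1.symm, by simpa using h2.symm⟩
      obtain ⟨q, rfl, rfl⟩ := hq
      refine ⟨u' ++ q, f', hf', by rw [List.append_assoc], ?_, ?_⟩
      · rw [tv_isReduced_append] at hred ⊢
        rw [← e1, ← e2]
        exact hred
      · rw [List.getLast?_append, ← e1, ← List.getLast?_append]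
        exact hb
  · intro f
    exact ⟨_, _, _, tvRep_toWord hK f, tv_toWord_of_prefix (tvLcp_prefix (tv_self_mem S f)),
      (tvKappa_spec hK _ (tvLcp_translate S f)).2.1⟩

end Pool.Agent.W_MP_1d4143_al
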