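import Pool.Agent.W_MP_1d4143_al.Model
import Pool.Agent.W_MP_1d4143_al.Transversal
import Pool.Agent.W_MP_1d4143_al.RegL
import Pool.Agent.W_MP_1d4143_al.Letters
import Pool.Agent.W_MP_1d4143_al.Stable

/-!
# Multiple HNN extensions of free groups are asynchronously automatic
-/

set_option autoImplicit false

namespace Pool.Agent.W_MP_1d4143_al

/-- Nice transversals exist. -/
theorem exists_nice {α J : Type} [DecidableEq α] [Finite α] [Finite J]
    (D : HData (FreeGroup α) J) (hfg : ∀ e, (D.S e).FG) :
    ∃ (T : Transv D) (K : ℕ), T.Nice K := by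
  have := Fintype.ofFinite J
  choose rep K h1 h2 h3 h4 h5 using fun e => exists_rep (D.S e) (hfg e)
  refine ⟨⟨rep, h1, h2, h3⟩, Finset.univ.sup K, h4, ?_⟩
  intro e f
  obtain ⟨p, k, k', e1, e2, e3⟩ := h5 e f
  exact ⟨p, k, k', e1, e2, e3.trans (Finset.le_sup (Finset.mem_univ e))⟩

/-- The automatic structure, for a model in which normal forms are unique. -/
theorem HModel.asyncStructure {α J : Type} [DecidableEq α] [Finite α] [Finite J]
    {D : HData (FreeGroup α) J} (hfg : ∀ e, (D.S e).FG) (T : Transv D) (K : ℕ) (hT : T.Nice K)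
    {G : Type} [Group G] (M : HModel D G) (hM : M.NFUnique T) :
    Nonempty (AsyncStructure M.letterVal) := by
  have hL : (nfLang T).IsRegular := nfLang_regular T K hT
  have key : ∀ x : Option (Letter α J), ∃ N : AsyncAutomaton (Letter α J),
      ∀ u v, N.Accepts u v ↔ u ∈ nfLang T ∧ v ∈ nfLang T ∧
        val M.letterVal u * x.elim 1 M.letterVal = val M.letterVal v := by
    intro x
    match x with
    | none => exact exists_automaton_one T hL M hM
    | some (Sum.inl x) => exact exists_automaton_letter T hL M hM x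
    | some (Sum.inr e) => exact exists_automaton_stable T K hT hfg hL M hM e
  choose N hN using key
  refine ⟨⟨nfLang T, hL, ?_, N, hN⟩⟩
  intro g
  obtain ⟨st, f, h1, h2⟩ := exists_nf T M g
  exact ⟨nfWord st f, ⟨st, f, h1, rfl⟩, by rw [M.val_nfWord, h2]⟩

/-- Britton's lemma for the words `f t g⁻¹ t⁻¹`. -/
theorem HModel.mem_of_comm {F J G : Type} [Group F] [Group G] {D : HData F J} (M : HModel D G)
    {T : Transv D} (hM : M.NFUnique T) (e : J × Bool) (f g : F)
    (h : M.ι f * M.t e = M.t e * M.ι g) : f ∈ D.S e := by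
  have h' : M.ι f * M.t e * M.ι 1 = M.ι 1 * M.t e * M.ι g := by
    rw [map_one, one_mul, mul_one, h]
  obtain ⟨-, h1, -⟩ := M.nf_eq hM h'
  rw [T.one] at h1
  exact T.mem_of_rep e h1

/-- Multiple HNN extensions of a free group of finite rank with finitely generated associated
subgroups are asynchronously automatic. -/
theorem exists_asyncStructure {α J : Type} [DecidableEq α] [Finite α] [Finite J]
    (D : HData (FreeGroup α) J) (hfg : ∀ e, (D.S e).FG) :
    ∃ (G : Type) (_ : Group G) (M : HModel D G), Nonempty (AsyncStructure M.letterVal) ∧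
      ∀ e f g, M.ι f * M.t e = M.t e * M.ι g → f ∈ D.S e := by
  obtain ⟨T, K, hT⟩ := exists_nice D hfg
  obtain ⟨G, hG, M, hM⟩ := exists_model D T
  exact ⟨G, hG, M, M.asyncStructure hfg T K hT hM, M.mem_of_comm hM⟩

end Pool.Agent.W_MP_1d4143_al
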