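import Pool.Agent.W_MP_1d4143_al.Defs

/-!
# Multiple HNN extensions of a free group: definitions used in the proof
-/

set_option autoImplicit false

namespace Pool.Agent.W_MP_1d4143_al

/-- A sublist of consecutive letters of a reduced word is reduced. -/
theorem isReduced_piece {α : Type*} {L L' : List (α × Bool)} (h : FreeGroup.IsReduced L)
    (h' : L' <:+: L) : FreeGroup.IsReduced L' := by
  obtain ⟨s, t, rfl⟩ := h'
  have h1 : (s ++ L' ++ t).IsChain (fun a b => a.1 = b.1 → a.2 = b.2) := h
  exact h1.left_of_append.right_of_append

/-! ### Multiple HNN extensions -/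

/-- The inverse of an oriented stable letter (`(j, true)` is `t_j`, `(j, false)` is `t_j⁻¹`). -/
def bar {J : Type} (e : J × Bool) : J × Bool := (e.1, !e.2)

@[simp] theorem bar_bar {J : Type} (e : J × Bool) : bar (bar e) = e := by
  rcases e with ⟨j, b⟩; cases b <;> rfl

theorem bar_ne {J : Type} (e : J × Bool) : bar e ≠ e := by
  rcases e with ⟨j, b⟩; cases b <;> simp [bar]

/-- The data of a multiple HNN extension of `F`: for each oriented stable letter `e` a subgroup
`S e` and an isomorphism `ψ e : S e → S (bar e)`; the relations are `a t_e = t_e (ψ e a)`. -/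
structure HData (F J : Type) [Group F] where
  S : J × Bool → Subgroup F
  ψ : J × Bool → F → F
  ψ_mem : ∀ e a, a ∈ S e → ψ e a ∈ S (bar e)
  ψ_mul : ∀ e a b, a ∈ S e → b ∈ S e → ψ e (a * b) = ψ e a * ψ e b
  ψ_bar : ∀ e a, a ∈ S e → ψ (bar e) (ψ e a) = a

/-- Representatives of the left cosets of the subgroups `S e`. -/
structure Transv {F J : Type} [Group F] (D : HData F J) where
  rep : J × Bool → F → F
  mem : ∀ e f, (rep e f)⁻¹ * f ∈ D.S e
  mul : ∀ e f a, a ∈ D.S e → rep e (f * a) = rep e f
  one : ∀ e, rep e 1 = 1

/-- Normal forms: the list (top of the stack first) of the pairs (coset representative, stable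
letter); see `HModel.stackVal`. -/
def Good {F J : Type} [Group F] {D : HData F J} (T : Transv D) : List (F × (J × Bool)) → Prop
  | [] => True
  | p :: st => T.rep p.2 p.1 = p.1 ∧ (p.1 = 1 → ∀ q ∈ st.head?, q.2 ≠ bar p.2) ∧ Good T st

/-- A group that contains `F` and elements `t e` satisfying the relations. -/
structure HModel {F J : Type} [Group F] (D : HData F J) (G : Type) [Group G] where
  ι : F →* G
  t : J × Bool → G
  t_bar : ∀ e, t (bar e) = (t e)⁻¹
  rel : ∀ e a, a ∈ D.S e → ι a * t e = t e * ι (D.ψ e a)
  gen : Subgroup.closure (Set.range ι ∪ Set.range t) = ⊤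

/-- The value of a stack. -/
def HModel.stackVal {F J G : Type} [Group F] [Group G] {D : HData F J} (M : HModel D G) :
    List (F × (J × Bool)) → G
  | [] => 1
  | p :: st => M.stackVal st * M.ι p.1 * M.t p.2

/-- The normal form theorem for the transversal `T`: normal forms with the same value are equal. -/
def HModel.NFUnique {F J G : Type} [Group F] [Group G] {D : HData F J} (M : HModel D G)
    (T : Transv D) : Prop :=
  ∀ (st st' : List (F × (J × Bool))) (f f' : F), Good T st → Good T st' →
    M.stackVal st * M.ι f = M.stackVal st' * M.ι f' → st = st' ∧ f = f'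

open Classical in
/-- Right multiplication of a normal form by a stable letter. -/
noncomputable def act {F J : Type} [Group F] {D : HData F J} (T : Transv D) (e : J × Bool)
    (n : List (F × (J × Bool)) × F) : List (F × (J × Bool)) × F :=
  match n.1 with
  | p :: st => if p.2 = bar e ∧ T.rep e n.2 = 1 then (st, p.1 * D.ψ e n.2)
      else ((T.rep e n.2, e) :: p :: st, D.ψ e ((T.rep e n.2)⁻¹ * n.2))
  | [] => ([(T.rep e n.2, e)], D.ψ e ((T.rep e n.2)⁻¹ * n.2))

/-! ### Words -/

variable {α J : Type} [DecidableEq α]

/-- The letters: generators of the free group and their inverses, and oriented stable letters. -/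
abbrev Letter (α J : Type) := (α × Bool) ⊕ (J × Bool)

/-- The value of a letter. -/
def HModel.letterVal {G : Type} [Group G] {D : HData (FreeGroup α) J} (M : HModel D G) :
    Letter α J → G
  | .inl x => M.ι (FreeGroup.mk [x])
  | .inr e => M.t e

/-- The word of a stack. -/
def stackWord : List (FreeGroup α × (J × Bool)) → List (Letter α J)
  | [] => []
  | p :: st => stackWord st ++ p.1.toWord.map Sum.inl ++ [Sum.inr p.2]

/-- The word of a normal form. -/
def nfWord (st : List (FreeGroup α × (J × Bool))) (f : FreeGroup α) : List (Letter α J) :=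
  stackWord st ++ f.toWord.map Sum.inl

/-- The language of normal forms. -/
def nfLang {D : HData (FreeGroup α) J} (T : Transv D) : Language (Letter α J) :=
  {w | ∃ st f, Good T st ∧ w = nfWord st f}

/-- The transversal `T` is nice: the representatives form regular languages, and every element
starts with its representative, up to the last `K` letters of the representative. -/
structure Transv.Nice {D : HData (FreeGroup α) J} (T : Transv D) (K : ℕ) : Prop where
  regular : ∀ e, Language.IsRegular (T := α × Bool) {w | ∃ f, (T.rep e f).toWord = w}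
  pre : ∀ e f, ∃ p k k' : List (α × Bool), (T.rep e f).toWord = p ++ k ∧ f.toWord = p ++ k' ∧
    k.length ≤ K

/-! ### Values of words -/

theorem val_append {A G : Type} [Group G] (π : A → G) (u v : List A) :
    val π (u ++ v) = val π u * val π v := by
  simp [val]

@[simp] theorem val_nil {A G : Type} [Group G] (π : A → G) : val π [] = 1 := rfl

theorem val_cons {A G : Type} [Group G] (π : A → G) (a : A) (u : List A) :
    val π (a :: u) = π a * val π u := by
  simp [val]

theorem val_singleton {A G : Type} [Group G] (π : A → G) (a : A) : val π [a] = π a := by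
  simp [val]

omit [DecidableEq α] in
theorem HModel.val_map_inl {G : Type} [Group G] {D : HData (FreeGroup α) J} (M : HModel D G)
    (w : List (α × Bool)) : val M.letterVal (w.map Sum.inl) = M.ι (FreeGroup.mk w) := by
  induction w with
  | nil => rw [List.map_nil, val_nil, ← FreeGroup.one_eq_mk, map_one]
  | cons x w ih =>
    rw [List.map_cons, val_cons, ih]
    show M.ι (FreeGroup.mk [x]) * M.ι (FreeGroup.mk w) = _
    rw [← map_mul, FreeGroup.mul_mk]
    rfl

theorem HModel.val_stackWord {G : Type} [Group G] {D : HData (FreeGroup α) J} (M : HModel D G)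
    (st : List (FreeGroup α × (J × Bool))) :
    val M.letterVal (stackWord st) = M.stackVal st := by
  induction st with
  | nil => rfl
  | cons p st ih =>
    rw [stackWord, val_append, val_append, ih, M.val_map_inl, FreeGroup.mk_toWord, val_singleton]
    rfl

theorem HModel.val_nfWord {G : Type} [Group G] {D : HData (FreeGroup α) J} (M : HModel D G)
    (st : List (FreeGroup α × (J × Bool))) (f : FreeGroup α) :
    val M.letterVal (nfWord st f) = M.stackVal st * M.ι f := by
  rw [nfWord, val_append, M.val_stackWord, M.val_map_inl, FreeGroup.mk_toWord]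

end Pool.Agent.W_MP_1d4143_al
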