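import Mathlib

/-!
# Asynchronously automatic groups and their word problem: definitions
-/

set_option autoImplicit false

open Turing Computability

namespace Pool.Agent.W_MP_1d4143_al

/-! ### Asynchronous automata -/

/-- The two tapes. -/
inductive Tape
  | left
  | right
  deriving DecidableEq

/-- An asynchronous (deterministic two-tape) automaton over the alphabet `A`.  The end symbol `$` is
`none : Option A`. -/
structure AsyncAutomaton (A : Type) where
  /-- the states -/
  State : Type
  /-- there are finitely many states -/
  finite : Finite State
  /-- the start state -/
  start : State
  /-- the accept state -/
  accept : State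
  /-- the tape that is read in a given state -/
  reads : State → Tape
  /-- the partial transition function -/
  next : State → Option A → Option State
  /-- `isOpen q τ`: in the state `q` the end symbol of the tape `τ` has not been read yet -/
  isOpen : State → Tape → Prop
  /-- nothing has been read in the start state -/
  start_open : ∀ τ, isOpen start τ
  /-- once the end symbol has been read on one tape, this tape is not read any more -/
  reads_open : ∀ q s q', next q s = some q' → isOpen q (reads q)
  /-- reading a letter does not close a tape -/
  letter : ∀ q a q', next q (some a) = some q' → ∀ τ, isOpen q' τ ↔ isOpen q τ
  /-- reading the end symbol closes the tape that is read, and no other tape -/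
  endmark : ∀ q q', next q none = some q' → ∀ τ, isOpen q' τ ↔ (isOpen q τ ∧ τ ≠ reads q)
  /-- the accept state is the unique state in which both end symbols have been read -/
  accept_iff : ∀ q, (∀ τ, ¬ isOpen q τ) ↔ q = accept

/-- `M.Run q l r`: the automaton, started in the state `q` with the strings `l` and `r` still to be
read on the left and on the right tape, reads them completely and stops in the accept state. -/
inductive AsyncAutomaton.Run {A : Type} (M : AsyncAutomaton A) :
    M.State → List (Option A) → List (Option A) → Prop
  | accept : Run M M.accept [] []
  | left {q q' : M.State} {s : Option A} {l r : List (Option A)} :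
      M.reads q = Tape.left → M.next q s = some q' → Run M q' l r → Run M q (s :: l) r
  | right {q q' : M.State} {s : Option A} {l r : List (Option A)} :
      M.reads q = Tape.right → M.next q s = some q' → Run M q' l r → Run M q l (s :: r)

/-- The automaton accepts the pair `(u, v)` if it accepts some interleaving of `u$` and `v$`. -/
def AsyncAutomaton.Accepts {A : Type} (M : AsyncAutomaton A) (u v : List A) : Prop :=
  M.Run M.start (u.map some ++ [none]) (v.map some ++ [none])

/-- The element of the group represented by a word: `π` gives the values of the letters. -/
def val {A G : Type} [Group G] (π : A → G) (w : List A) : G := (w.map π).prod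

/-- An asynchronous automatic structure on the group `G` over the alphabet `A`, where the monoid
homomorphism from `A*` onto `G` is given by `π : A → G`. -/
structure AsyncStructure {A G : Type} [Group G] (π : A → G) where
  /-- the language accepted by the word acceptor -/
  L : Language A
  /-- it is accepted by a finite automaton -/
  regular : L.IsRegular
  /-- it maps onto `G` -/
  onto : ∀ g : G, ∃ w ∈ L, val π w = g
  /-- the automata `M_x` for `x ∈ A ∪ {ε}` (`none` stands for `ε`) -/
  M : Option A → AsyncAutomaton A
  /-- `M_x` accepts exactly the pairs `(u, v)` of words of `L` with `u x = v` in `G` -/
  spec : ∀ (x : Option A) (u v : List A),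
    (M x).Accepts u v ↔ u ∈ L ∧ v ∈ L ∧ val π u * x.elim 1 π = val π v

/-! ### The word problem -/

open Classical in
/-- The word problem. -/
noncomputable def wordProblem {A G : Type} [Group G] (π : A → G) (w : List A) : Bool :=
  decide (val π w = 1)

/-- The word problem is solvable in polynomial time: there is a (multi-stack) Turing machine that,
given the word `w` on its input stack, decides in time polynomial in `|w|` whether `w = 1`. -/
def WordProblemInP {A G : Type} [Group G] (π : A → G) : Prop :=
  Nonempty (TM2ComputableInPolyTime (fun w : List A => w) encodeBool (wordProblem π))

/-! ### Quantified Boolean formulas -/

/-- A quantified Boolean formula in prenex form whose matrix is in conjunctive normal form.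
`quants` lists the quantifiers, from the outermost to the innermost one (`true` is `∀`, `false`
is `∃`); the `i`-th quantifier (starting with `i = 0`) binds the variable `i`.  A clause is a list of
literals, and a literal is a variable together with the truth value it requires. -/
structure QBF where
  /-- the quantifiers -/
  quants : List Bool
  /-- the clauses -/
  clauses : List (List (ℕ × Bool))

/-- The matrix holds under the assignment `x` (the variable `i` has the value `x[i]`; a variable
that is not bound has the value `false`). -/
def Matrix (cl : List (List (ℕ × Bool))) (x : List Bool) : Prop :=
  ∀ c ∈ cl, ∃ l ∈ c, x.getD l.1 false = l.2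

/-- Truth of a formula with free variables: `x` gives the values of the variables
`0, …, x.length - 1`, the list `q` gives the quantifiers of the following variables. -/
def Holds (cl : List (List (ℕ × Bool))) : List Bool → List Bool → Prop
  | [], x => Matrix cl x
  | true :: q, x => Holds cl q (x ++ [false]) ∧ Holds cl q (x ++ [true])
  | false :: q, x => Holds cl q (x ++ [false]) ∨ Holds cl q (x ++ [true])

/-- The formula is true. -/
def QBF.IsTrue (φ : QBF) : Prop := Holds φ.clauses φ.quants []

/-- The code of a Boolean. -/
def codeBool : Bool → List Bool
  | false => [false]
  | true => [true, false, false]

/-- The code of a natural number (unary). -/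
def codeNat : ℕ → List Bool
  | 0 => [false]
  | n + 1 => true :: false :: codeNat n

/-- The code of a list. -/
def codeList {α : Type} (code : α → List Bool) : List α → List Bool
  | [] => [false]
  | a :: l => true :: (code a ++ codeList code l)

/-- The code of a literal. -/
def codeLit (l : ℕ × Bool) : List Bool := true :: (codeNat l.1 ++ codeBool l.2)

/-- The code of a quantified Boolean formula as a bit string. -/
def QBF.code (φ : QBF) : List Bool :=
  true :: (codeList codeBool φ.quants ++ codeList (codeList codeLit) φ.clauses)

open Classical in
/-- The problem TQBF: is a given quantified Boolean formula true? -/
noncomputable def tqbf (φ : QBF) : Bool := decide φ.IsTrue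

/-- TQBF is solvable in polynomial time.  (TQBF being PSPACE-complete, this means `P = PSPACE`.) -/
def TQBFInP : Prop := Nonempty (TM2ComputableInPolyTime QBF.code encodeBool tqbf)

end Pool.Agent.W_MP_1d4143_al
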