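import Pool.Agent.W_MP_1d4143_al.Words
import Pool.Agent.PolyTime.Clock
import Pool.Agent.PolyTime.Transducer

set_option autoImplicit false

open Turing Computability Pool.Agent.PolyTime

namespace Pool.Agent.W_MP_1d4143_al

/-! ### Codes of the letters -/

/-- The number of a generator. -/
def prSym : Sym → ℕ
  | .b => 0
  | .y => 1
  | .g => 2
  | .z => 3
  | .e => 4
  | .c => 5
  | .l u => 6 + u.1

/-- The number of a stable letter. -/
def prOp : Op → ℕ
  | .forAll => 10
  | .neg => 11
  | .clause => 12
  | .inc => 13
  | .pop => 14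
  | .read => 15
  | .test => 16

/-- The number of a letter. -/
def prLet : Let → ℕ
  | .inl x => 2 * prSym x.1 + x.2.toNat
  | .inr e => 2 * prOp e.1 + e.2.toNat

instance prToD : ToD Let := ⟨fun a => toD (prLet a)⟩

theorem prLet_injective : Function.Injective prLet := by
  intro a b
  revert a b
  decide +kernel

theorem prLet_le (a : Let) : prLet a ≤ 40 := by
  revert a
  decide +kernel

instance prInhabited : Inhabited Let := ⟨.inl (.b, false)⟩

instance prFintype : Fintype Let := inferInstanceAs (Fintype ((Sym × Bool) ⊕ (Op × Bool)))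

/-- The letter with a given number. -/
noncomputable def prDec : ℕ → Let := Function.invFun prLet

theorem prDec_prLet (a : Let) : prDec (prLet a) = a :=
  Function.leftInverse_invFun prLet_injective a

theorem toD_list_let (w : List Let) : toD w = toD (w.map prLet) := by
  change D.ofList (w.map toD) = D.ofList ((w.map prLet).map toD)
  rw [List.map_map]
  rfl

/-- The raw output. -/
theorem poly_rawLet : Poly (fun w : List Let => en w) (fun w : List Let => w) (fun w => w) := by
  have h := Poly.rawOfNat 40 prDec prLet prLet_le prDec_prLet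
  refine h.restrict id (fun w => ?_) (fun _ => rfl)
  simp only [id_eq, en]
  rw [toD_list_let]

/-! ### The reduction on codes -/

theorem PF.ofLet {β : Type} [ToD β] (f : Let → β) : PF f :=
  PF.ofFinite prLet prLet_injective (fun _ => rfl) f (f default)

section

variable {γ : Type} [ToD γ]

theorem PF.invWord {f : γ → List Let} (hf : PF f) : PF (fun c => invWord (f c)) := by
  have h := PF.map (g := fun (_ : γ) (a : Let) => invLet a) ((PF.ofLet invLet).comp PF.snd') hf
  exact h.reverse

theorem PF.readWord {n k : γ → ℕ} (hn : PF n) (hk : PF k) : PF (fun c => readWord (n c) (k c)) := by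
  have h1 : PF (fun c => n c - 1 - k c) := (hn.pred).sub hk
  have h2 : PF (fun c => List.replicate (n c - 1 - k c) (opl .pop) ++ [opl .read] ++
    List.replicate (n c - 1 - k c) (Sum.inr (Op.pop, false) : Let)) :=
    ((h1.replicate _).append (PF.const _)).append (h1.replicate _)
  refine ((hk.lt hn).ite h2 (PF.const ([] : List Let))).cast (fun c => ?_)
  simp only [Pool.Agent.W_MP_1d4143_al.readWord, decide_eq_true_eq]

theorem PF.litWord {n : γ → ℕ} {l : γ → ℕ × Bool} (hn : PF n) (hl : PF l) :
    PF (fun c => litWord (n c) (l c)) := by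
  have h1 := PF.readWord hn hl.fst
  exact (hl.snd.ite h1 ((PF.const (opl .inc)).cons (PF.invWord h1))).cast (fun c => rfl)

theorem PF.countWord {n : γ → ℕ} {l : γ → List (ℕ × Bool)} (hn : PF n) (hl : PF l) :
    PF (fun c => countWord (n c) (l c)) := by
  have h1 : PF (fun x : γ × (ℕ × Bool) => Pool.Agent.W_MP_1d4143_al.litWord (n x.1) x.2) :=
    PF.litWord (hn.comp PF.fst') PF.snd'
  exact PF.flatMap (g := fun (c : γ) (l : ℕ × Bool) =>
    Pool.Agent.W_MP_1d4143_al.litWord (n c) l) h1 hl

theorem PF.clauseWord {n : γ → ℕ} {l : γ → List (ℕ × Bool)} (hn : PF n) (hl : PF l) :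
    PF (fun c => clauseWord (n c) (l c)) := by
  have h1 := PF.countWord hn hl
  exact ((PF.invWord h1).append (PF.const [opl .clause])).append h1

theorem PF.quantWord {f : γ → Bool} (hf : PF f) : PF (fun c => quantWord (f c)) := by
  refine (hf.ite (PF.const [opl .forAll]) (PF.const [opl .neg, opl .forAll, opl .neg])).cast
    (fun c => ?_)
  cases f c <;> rfl

theorem PF.progWord {q : γ → List Bool} {cl : γ → List (List (ℕ × Bool))} (hq : PF q)
    (hcl : PF cl) : PF (fun c => progWord (q c) (cl c)) := by
  have h1 : PF (fun x : γ × Bool => Pool.Agent.W_MP_1d4143_al.quantWord x.2) :=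
    PF.quantWord PF.snd'
  have h2 : PF (fun c => (q c).flatMap Pool.Agent.W_MP_1d4143_al.quantWord) :=
    PF.flatMap (g := fun (_ : γ) (b : Bool) => Pool.Agent.W_MP_1d4143_al.quantWord b) h1 hq
  have h3 : PF (fun x : γ × List (ℕ × Bool) =>
      Pool.Agent.W_MP_1d4143_al.clauseWord (q x.1).length x.2) :=
    PF.clauseWord ((hq.length).comp PF.fst') PF.snd'
  have h4 : PF (fun c => (cl c).flatMap
      (Pool.Agent.W_MP_1d4143_al.clauseWord (q c).length)) :=
    PF.flatMap (g := fun (c : γ) (l : List (ℕ × Bool)) =>
      Pool.Agent.W_MP_1d4143_al.clauseWord (q c).length l) h3 hcl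
  exact h2.append h4

theorem PF.redWord {q : γ → List Bool} {cl : γ → List (List (ℕ × Bool))} (hq : PF q)
    (hcl : PF cl) : PF (fun c => redWord (q c) (cl c)) := by
  have h1 := PF.progWord hq hcl
  have h2 := PF.invWord h1
  exact ((((((h2.append (PF.const _)).append h1).append (PF.const _)).append h2).append
    (PF.const _)).append h1).append (PF.const _)

end

/-- The reduction is computable in polynomial time; the output is written letter by letter. -/
theorem poly_redWord : Poly (fun p : List Bool × List (List (ℕ × Bool)) => en p)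
    (fun w : List Let => w) (fun p => redWord p.1 p.2) := by
  have h : PF (fun p : List Bool × List (List (ℕ × Bool)) => redWord p.1 p.2) :=
    PF.redWord PF.fst' PF.snd'
  exact Poly.comp (g := fun w : List Let => w) h poly_rawLet

end Pool.Agent.W_MP_1d4143_al
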