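import Pool.Agent.W_MP_1d4143_al.Defs
import Pool.Agent.PolyTime.Clock

set_option autoImplicit false

open Turing Computability Pool.Agent.PolyTime

namespace Pool.Agent.W_MP_1d4143_al

/-- Formulas as pairs of lists. -/
abbrev QP := List Bool × List (List (ℕ × Bool))

/-- tokens of a clause -/
def spTk (c : List (ℕ × Bool)) : List (Bool × (ℕ × Bool)) :=
  c.map (fun l => (true, l)) ++ [(false, ((0 : ℕ), false))]

/-- tokens of a list of clauses -/
def spToks (cl : List (List (ℕ × Bool))) : List (Bool × (ℕ × Bool)) := cl.flatMap spTk

/-- shift the unbound variables -/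
def spSh (n m : ℕ) (l : ℕ × Bool) : ℕ × Bool := (if decide (l.1 < n) then l.1 else l.1 + m, l.2)

/-- the clauses that belong to a token -/
def spG (n m : ℕ) (t : (Bool × (ℕ × Bool)) × ℕ) : List (List (ℕ × Bool)) :=
  if t.1.1 then [[(n + t.2, false), spSh n m t.1.2, (n + t.2 + 1, true)]]
  else [[(n + t.2, false)], [(n + t.2 + 1, true)]]

/-- the clauses of the new formula -/
def spC (n m : ℕ) (i : ℕ) (ts : List (Bool × (ℕ × Bool))) : List (List (ℕ × Bool)) :=
  (ts.zipIdx i).flatMap (spG n m)

/-- the transformation -/
def spF (p : QP) : QP :=
  (p.1 ++ List.replicate ((spToks p.2).length + 1) false,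
    [(p.1.length, true)] :: ((spToks p.2).zipIdx).flatMap
      (spG p.1.length ((spToks p.2).length + 1)))

theorem spC_cons (n m i : ℕ) (t : Bool × (ℕ × Bool)) (ts : List (Bool × (ℕ × Bool))) :
    spC n m i (t :: ts) = spG n m (t, i) ++ spC n m (i + 1) ts := by
  simp [spC, List.zipIdx_cons]

theorem spToks_PF : PF (fun p : QP => spToks p.2) := by
  refine PF.flatMap (g := fun (_ : QP) (c : List (ℕ × Bool)) => spTk c) ?_ PF.id'.snd
  have h1 : PF (fun x : QP × List (ℕ × Bool) => x.2.map (fun l => (true, l))) :=
    PF.map (g := fun (_ : QP × List (ℕ × Bool)) (l : ℕ × Bool) => (true, l))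
      ((PF.const true).pair PF.id'.snd) PF.id'.snd
  exact h1.append (PF.const [(false, ((0 : ℕ), false))])

theorem spF_PF : PF spF := by
  have hT := spToks_PF
  have hm : PF (fun p : QP => (spToks p.2).length + 1) := hT.length.succ
  have hn : PF (fun p : QP => p.1.length) := PF.id'.fst.length
  have hG : PF (fun x : QP × ((Bool × (ℕ × Bool)) × ℕ) =>
      spG x.1.1.length ((spToks x.1.2).length + 1) x.2) := by
    have hn' : PF (fun x : QP × ((Bool × (ℕ × Bool)) × ℕ) => x.1.1.length) :=
      PF.comp (g := fun p : QP => p.1.length) hn PF.id'.fst
    have hm' : PF (fun x : QP × ((Bool × (ℕ × Bool)) × ℕ) => (spToks x.1.2).length + 1) :=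
      PF.comp (g := fun p : QP => (spToks p.2).length + 1) hm PF.id'.fst
    have hi : PF (fun x : QP × ((Bool × (ℕ × Bool)) × ℕ) => x.1.1.length + x.2.2) :=
      hn'.add PF.id'.snd.snd
    have hl : PF (fun x : QP × ((Bool × (ℕ × Bool)) × ℕ) => x.2.1.2.1) :=
      PF.id'.snd.fst.snd.fst
    have hsh : PF (fun x : QP × ((Bool × (ℕ × Bool)) × ℕ) =>
        spSh x.1.1.length ((spToks x.1.2).length + 1) x.2.1.2) := by
      have h := (PF.ite (hl.lt hn') hl (hl.add hm')).pair PF.id'.snd.fst.snd.snd
      exact h
    have h1 := (((hi.pair (PF.const false)).cons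
      (hsh.cons ((hi.succ.pair (PF.const true)).cons (PF.const [])))).cons (PF.const []))
    have h2 := (((hi.pair (PF.const false)).cons (PF.const [])).cons
      ((((hi.succ.pair (PF.const true)).cons (PF.const []))).cons (PF.const [])))
    have h := PF.ite PF.id'.snd.fst.fst h1 h2
    exact h
  refine PF.pair (PF.id'.fst.append (hm.replicate false)) ?_
  refine PF.cons ((hn.pair (PF.const true)).cons (PF.const [])) ?_
  exact PF.flatMap (g := fun (p : QP) t => spG p.1.length ((spToks p.2).length + 1) t) hG
    hT.zipIdx

theorem spG_len (n m : ℕ) (t : (Bool × (ℕ × Bool)) × ℕ) : ∀ c ∈ spG n m t, c.length ≤ 3 := by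
  intro c hc
  unfold spG at hc
  split at hc <;> simp at hc <;> rcases hc with rfl | rfl <;> simp

/-- satisfaction of a clause -/
def SatC (z : ℕ → Bool) (c : List (ℕ × Bool)) : Prop := ∃ l ∈ c, z l.1 = l.2

theorem sp_rest (n m : ℕ) (z : ℕ → Bool) (c : List (ℕ × Bool)) :
    ∀ (i : ℕ) (rest : List (Bool × (ℕ × Bool))),
    (∀ d ∈ spC n m i (spTk c ++ rest), SatC z d) →
    z (n + (i + c.length + 1)) = true ∧ (∀ d ∈ spC n m (i + c.length + 1) rest, SatC z d) := by
  induction c with
  | nil =>
    intro i rest h
    simp only [spTk, List.map_nil, List.nil_append, List.cons_append, List.length_nil,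
      Nat.add_zero] at h ⊢
    rw [spC_cons] at h
    constructor
    · have := h [(n + i + 1, true)] (by simp [spG])
      simpa [SatC, Nat.add_assoc] using this
    · intro d hd
      exact h d (List.mem_append_right _ hd)
  | cons l c ih =>
    intro i rest h
    have e : spTk (l :: c) ++ rest = (true, l) :: (spTk c ++ rest) := by simp [spTk]
    rw [e, spC_cons] at h
    have := ih (i + 1) rest (fun d hd => h d (List.mem_append_right _ hd))
    have e2 : i + 1 + c.length + 1 = i + (l :: c).length + 1 := by simp; omega
    rwa [e2] at this

theorem sp_here (n m : ℕ) (z : ℕ → Bool) (c : List (ℕ × Bool)) :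
    ∀ (i : ℕ) (rest : List (Bool × (ℕ × Bool))), z (n + i) = true →
    (∀ d ∈ spC n m i (spTk c ++ rest), SatC z d) → ∃ l ∈ c, z (spSh n m l).1 = l.2 := by
  induction c with
  | nil =>
    intro i rest hz h
    have e : spTk [] ++ rest = (false, ((0 : ℕ), false)) :: rest := by simp [spTk]
    rw [e, spC_cons] at h
    have := h [(n + i, false)] (by simp [spG])
    simp [SatC, hz] at this
  | cons l c ih =>
    intro i rest hz h
    have e : spTk (l :: c) ++ rest = (true, l) :: (spTk c ++ rest) := by simp [spTk]
    rw [e, spC_cons] at h
    have h1 := h [(n + i, false), spSh n m l, (n + i + 1, true)] (by simp [spG])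
    obtain ⟨l', hl', h2⟩ := h1
    simp only [List.mem_cons, List.not_mem_nil, or_false] at hl'
    rcases hl' with rfl | rfl | rfl
    · simp [hz] at h2
    · exact ⟨l, by simp, by simpa [spSh] using h2⟩
    · obtain ⟨l', hl', h3⟩ := ih (i + 1) rest (by simpa [Nat.add_assoc] using h2)
        (fun d hd => h d (List.mem_append_right _ hd))
      exact ⟨l', by simp [hl'], h3⟩

theorem sp_fwd (n m : ℕ) (z : ℕ → Bool) (cl : List (List (ℕ × Bool))) :
    ∀ (i : ℕ), z (n + i) = true → (∀ d ∈ spC n m i (spToks cl), SatC z d) →
    ∀ c ∈ cl, ∃ l ∈ c, z (spSh n m l).1 = l.2 := by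
  induction cl with
  | nil => intro i _ _ c hc; simp at hc
  | cons c cl ih =>
    intro i hz h c' hc'
    have e : spToks (c :: cl) = spTk c ++ spToks cl := by simp [spToks]
    rw [e] at h
    rcases List.mem_cons.1 hc' with rfl | hc'
    · exact sp_here n m z c' i _ hz h
    · obtain ⟨h1, h2⟩ := sp_rest n m z c i _ h
      exact ih _ h1 h2 c' hc'

/-- values of the new variables -/
def spMk (x : ℕ → Bool) : Bool → List (Bool × (ℕ × Bool)) → List Bool
  | b, [] => [b]
  | b, (true, l) :: ts => b :: spMk x (b && !(x l.1 == l.2)) ts
  | b, (false, _) :: ts => b :: spMk x true ts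

theorem spMk_length (x : ℕ → Bool) (b : Bool) (ts : List (Bool × (ℕ × Bool))) :
    (spMk x b ts).length = ts.length + 1 := by
  induction ts generalizing b with
  | nil => rfl
  | cons t ts ih =>
    obtain ⟨t1, t2⟩ := t
    cases t1 <;> simp [spMk, ih]

theorem spMk_zero (x : ℕ → Bool) (b : Bool) (ts : List (Bool × (ℕ × Bool))) :
    (spMk x b ts).getD 0 false = b := by
  cases ts with
  | nil => rfl
  | cons t ts =>
    obtain ⟨t1, t2⟩ := t
    cases t1 <;> simp [spMk]

theorem sp_bwd (n m : ℕ) (x z : ℕ → Bool) (hxz : ∀ l : ℕ × Bool, z (spSh n m l).1 = x l.1)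
    (cl : List (List (ℕ × Bool))) (hcl : ∀ c ∈ cl, ∃ l ∈ c, x l.1 = l.2) :
    ∀ (c : List (ℕ × Bool)) (i : ℕ) (b : Bool), (b = false ∨ ∃ l ∈ c, x l.1 = l.2) →
    (∀ j, z (n + (i + j)) = (spMk x b (spTk c ++ spToks cl)).getD j false ∨
      (spTk c ++ spToks cl).length < j) →
    ∀ d ∈ spC n m i (spTk c ++ spToks cl), SatC z d := by
  induction cl with
  | nil =>
    intro c
    induction c with
    | nil =>
      intro i b hb hz d hd
      have e : spTk [] ++ spToks [] = [(false, ((0 : ℕ), false))] := by simp [spTk, spToks]
      rw [e] at hz hd
      have hb' : b = false := by simpa using hb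
      subst hb'
      have h0 := hz 0
      have h1 := hz 1
      simp [spMk] at h0 h1
      simp only [spC, List.zipIdx_cons, List.zipIdx_nil, List.flatMap_cons, List.flatMap_nil,
        List.append_nil, spG, Bool.false_eq_true, if_false, List.mem_cons, List.not_mem_nil,
        or_false] at hd
      rcases hd with rfl | rfl
      · exact ⟨(n + i, false), by simp, h0⟩
      · exact ⟨(n + i + 1, true), by simp, by simpa [Nat.add_assoc] using h1⟩
    | cons l c ih =>
      intro i b hb hz d hd
      have e : spTk (l :: c) ++ spToks [] = (true, l) :: (spTk c ++ spToks []) := by simp [spTk]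
      rw [e] at hz hd
      rw [spC_cons] at hd
      have hstep : ∀ j, z (n + (i + 1 + j)) = (spMk x (b && !(x l.1 == l.2))
          (spTk c ++ spToks [])).getD j false ∨ (spTk c ++ spToks []).length < j := by
        intro j
        rcases hz (j + 1) with h | h
        · left
          have : i + (j + 1) = i + 1 + j := by omega
          rw [this] at h
          simpa [spMk] using h
        · right
          simp only [List.length_cons] at h
          omega
      rcases List.mem_append.1 hd with hd | hd
      · simp only [spG, if_true, List.mem_cons, List.not_mem_nil, or_false] at hd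
        subst hd
        have h0 := hz 0
        simp only [spMk, List.getD_cons_zero, List.length_cons] at h0
        have h0 : z (n + i) = b := by simpa using h0
        have h1 := hstep 0
        rw [spMk_zero] at h1
        have h1 : z (n + (i + 1)) = (b && !(x l.1 == l.2)) := by simpa using h1
        cases b
        · exact ⟨(n + i, false), by simp, h0⟩
        · by_cases hl : x l.1 = l.2
          · exact ⟨spSh n m l, by simp, by rw [hxz, hl]; rfl⟩
          · refine ⟨(n + i + 1, true), by simp, ?_⟩
            have : (x l.1 == l.2) = false := by simpa using hl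
            rw [this] at h1
            simpa [Nat.add_assoc] using h1
      · refine ih (i + 1) (b && !(x l.1 == l.2)) ?_ hstep d hd
        rcases hb with rfl | ⟨l', hl', h'⟩
        · left; rfl
        · rcases List.mem_cons.1 hl' with rfl | hl'
          · left; simp [h']
          · right; exact ⟨l', hl', h'⟩
  | cons c0 cl ihcl =>
    intro c
    induction c with
    | nil =>
      intro i b hb hz d hd
      have e : spTk [] ++ spToks (c0 :: cl) =
          (false, ((0 : ℕ), false)) :: (spTk c0 ++ spToks cl) := by simp [spTk, spToks]
      rw [e] at hz hd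
      rw [spC_cons] at hd
      have hb' : b = false := by simpa using hb
      subst hb'
      have hstep : ∀ j, z (n + (i + 1 + j)) = (spMk x true
          (spTk c0 ++ spToks cl)).getD j false ∨ (spTk c0 ++ spToks cl).length < j := by
        intro j
        rcases hz (j + 1) with h | h
        · left
          have : i + (j + 1) = i + 1 + j := by omega
          rw [this] at h
          simpa [spMk] using h
        · right
          simp only [List.length_cons] at h
          omega
      rcases List.mem_append.1 hd with hd | hd
      · have h0 := hz 0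
        have h0 : z (n + i) = false := by simpa [spMk] using h0
        have h1 := hstep 0
        rw [spMk_zero] at h1
        have h1 : z (n + (i + 1)) = true := by simpa using h1
        simp only [spG, Bool.false_eq_true, if_false, List.mem_cons, List.not_mem_nil,
          or_false] at hd
        rcases hd with rfl | rfl
        · exact ⟨(n + i, false), by simp, h0⟩
        · exact ⟨(n + i + 1, true), by simp, by simpa [Nat.add_assoc] using h1⟩
      · exact ihcl (fun c hc => hcl c (by simp [hc])) c0 (i + 1) true
          (Or.inr (hcl c0 (by simp))) hstep d hd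
    | cons l c ih =>
      intro i b hb hz d hd
      have e : spTk (l :: c) ++ spToks (c0 :: cl) =
          (true, l) :: (spTk c ++ spToks (c0 :: cl)) := by simp [spTk]
      rw [e] at hz hd
      rw [spC_cons] at hd
      have hstep : ∀ j, z (n + (i + 1 + j)) = (spMk x (b && !(x l.1 == l.2))
          (spTk c ++ spToks (c0 :: cl))).getD j false ∨
          (spTk c ++ spToks (c0 :: cl)).length < j := by
        intro j
        rcases hz (j + 1) with h | h
        · left
          have : i + (j + 1) = i + 1 + j := by omega
          rw [this] at h
          simpa [spMk] using h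
        · right
          simp only [List.length_cons] at h
          omega
      rcases List.mem_append.1 hd with hd | hd
      · simp only [spG, if_true, List.mem_cons, List.not_mem_nil, or_false] at hd
        subst hd
        have h0 := hz 0
        simp only [spMk, List.getD_cons_zero, List.length_cons] at h0
        have h0 : z (n + i) = b := by simpa using h0
        have h1 := hstep 0
        rw [spMk_zero] at h1
        have h1 : z (n + (i + 1)) = (b && !(x l.1 == l.2)) := by simpa using h1
        cases b
        · exact ⟨(n + i, false), by simp, h0⟩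
        · by_cases hl : x l.1 = l.2
          · exact ⟨spSh n m l, by simp, by rw [hxz, hl]; rfl⟩
          · refine ⟨(n + i + 1, true), by simp, ?_⟩
            have : (x l.1 == l.2) = false := by simpa using hl
            rw [this] at h1
            simpa [Nat.add_assoc] using h1
      · refine ih (i + 1) (b && !(x l.1 == l.2)) ?_ hstep d hd
        rcases hb with rfl | ⟨l', hl', h'⟩
        · left; rfl
        · rcases List.mem_cons.1 hl' with rfl | hl'
          · left; simp [h']
          · right; exact ⟨l', hl', h'⟩

theorem holds_replicate (cl : List (List (ℕ × Bool))) (m : ℕ) : ∀ x : List Bool,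
    Holds cl (List.replicate m false) x ↔ ∃ y : List Bool, y.length = m ∧ Matrix cl (x ++ y) := by
  induction m with
  | zero =>
    intro x
    simp only [List.replicate_zero, Holds]
    constructor
    · intro h; exact ⟨[], rfl, by simpa using h⟩
    · rintro ⟨y, hy, h⟩
      rw [List.eq_nil_of_length_eq_zero hy] at h
      simpa using h
  | succ m ih =>
    intro x
    simp only [List.replicate_succ, Holds, ih]
    constructor
    · rintro (⟨y, hy, h⟩ | ⟨y, hy, h⟩)
      · exact ⟨false :: y, by simp [hy], by simpa using h⟩
      · exact ⟨true :: y, by simp [hy], by simpa using h⟩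
    · rintro ⟨y, hy, h⟩
      cases y with
      | nil => simp at hy
      | cons b y =>
        simp only [List.length_cons, Nat.add_right_cancel_iff] at hy
        cases b
        · left; exact ⟨y, hy, by simpa using h⟩
        · right; exact ⟨y, hy, by simpa using h⟩

theorem holds_append (cl cl' : List (List (ℕ × Bool))) (q2 : List Bool) (N : ℕ)
    (h : ∀ x : List Bool, x.length = N → (Holds cl' q2 x ↔ Matrix cl x)) :
    ∀ (q1 x : List Bool), x.length + q1.length = N →
      (Holds cl' (q1 ++ q2) x ↔ Holds cl q1 x) := by
  intro q1
  induction q1 with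
  | nil =>
    intro x hx
    simp only [List.nil_append, Holds]
    exact h x (by simpa using hx)
  | cons b q1 ih =>
    intro x hx
    have h1 := ih (x ++ [false]) (by simp at hx ⊢; omega)
    have h2 := ih (x ++ [true]) (by simp at hx ⊢; omega)
    cases b <;> simp only [List.cons_append, Holds, h1, h2]

/-- Transformation of a formula to an equivalent one with clauses of length at most three. -/
theorem exists_split3 : ∃ f : QP → QP, PF f ∧ (∀ p, ∀ c ∈ (f p).2, c.length ≤ 3) ∧
    ∀ p, Holds (f p).2 (f p).1 [] ↔ Holds p.2 p.1 [] := by
  refine ⟨spF, spF_PF, ?_, ?_⟩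
  · intro p c hc
    simp only [spF, List.mem_cons, List.mem_flatMap] at hc
    rcases hc with rfl | ⟨t, _, hc⟩
    · simp
    · exact spG_len _ _ _ c hc
  · rintro ⟨q, cl⟩
    simp only [spF]
    refine holds_append cl _ _ q.length ?_ q [] (by simp)
    intro x hx
    rw [holds_replicate]
    set n := q.length with hn
    set m := (spToks cl).length + 1 with hm
    have hsh : ∀ y : List Bool, y.length = m → ∀ l : ℕ × Bool,
        (x ++ y).getD (spSh n m l).1 false = x.getD l.1 false := by
      intro y hy l
      simp only [spSh]
      by_cases hl : l.1 < n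
      · simp only [hl, decide_true, if_true]
        rw [List.getD_append _ _ _ _ (by omega)]
      · simp only [hl, decide_false, Bool.false_eq_true, if_false]
        rw [List.getD_eq_default _ _ (by simp; omega), List.getD_eq_default _ _ (by omega)]
    constructor
    · rintro ⟨y, hy, h⟩
      set z : ℕ → Bool := fun k => (x ++ y).getD k false with hz
      have h0 : z (n + 0) = true := by
        obtain ⟨l, hl, h2⟩ := h [(n, true)] (by simp)
        simp only [List.mem_cons, List.not_mem_nil, or_false] at hl
        subst hl
        exact h2
      have h1 : ∀ d ∈ spC n m 0 (spToks cl), SatC z d := by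
        intro d hd
        exact h d (List.mem_cons_of_mem _ hd)
      intro c hc
      obtain ⟨l, hl, h2⟩ := sp_fwd n m z cl 0 h0 h1 c hc
      exact ⟨l, hl, by rw [← h2]; exact (hsh y hy l).symm⟩
    · intro h
      set xv : ℕ → Bool := fun k => x.getD k false with hxv
      refine ⟨spMk xv true (spToks cl), spMk_length _ _ _, ?_⟩
      set y := spMk xv true (spToks cl) with hy
      have hyl : y.length = m := spMk_length _ _ _
      set z : ℕ → Bool := fun k => (x ++ y).getD k false with hz
      have hzy : ∀ j, z (n + j) = y.getD j false := by
        intro j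
        simp only [hz]
        rw [List.getD_append_right _ _ _ _ (by omega)]
        congr 1
        omega
      intro d hd
      rcases List.mem_cons.1 hd with rfl | hd
      · refine ⟨(n, true), by simp, ?_⟩
        have := hzy 0
        rw [hy, spMk_zero] at this
        exact this
      · cases cl with
        | nil => simp [spToks] at hd
        | cons c0 cl =>
          have e : spToks (c0 :: cl) = spTk c0 ++ spToks cl := by simp [spToks]
          have hall := sp_bwd n m xv z (fun l => hsh y hyl l) cl
            (fun c hc => h c (by simp [hc])) c0 0 true (Or.inr (h c0 (by simp))) (by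
              intro j
              left
              rw [Nat.zero_add, hzy, hy, e])
          refine hall d ?_
          rw [← e]
          exact hd

end Pool.Agent.W_MP_1d4143_al
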