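import Pool.Agent.W_MP_1d4143_al.Semantics
import Pool.Agent.W_MP_1d4143_al.Split
import Pool.Agent.W_MP_1d4143_al.PolyRed

set_option autoImplicit false

open Turing Computability Pool.Agent.PolyTime

namespace Pool.Agent.W_MP_1d4143_al

theorem low_en_bool (b : Bool) : en b = codeBool b := by
  cases b <;> rfl

theorem low_en_nat (n : ℕ) : en n = codeNat n := by
  induction n with
  | zero => rfl
  | succ n ih =>
    show (toD (n + 1)).enc = _
    rw [toD_succ, D.enc, codeNat, ← ih]
    rfl

theorem low_en_list {α : Type} [ToD α] (code : α → List Bool) (h : ∀ a, en a = code a)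
    (l : List α) : en l = codeList code l := by
  induction l with
  | nil => rfl
  | cons a l ih =>
    show (toD (a :: l)).enc = _
    rw [toD_cons, D.enc, codeList, ← ih, ← h]
    rfl

theorem low_en_lit (l : ℕ × Bool) : en l = codeLit l := by
  obtain ⟨n, b⟩ := l
  show (toD (n, b)).enc = _
  rw [toD_pair, D.enc, codeLit, ← low_en_nat, ← low_en_bool]
  rfl

/-- The code of a formula is the standard code of the pair of its components. -/
theorem low_en_qbf (φ : QBF) : en (φ.quants, φ.clauses) = φ.code := by
  show (toD (φ.quants, φ.clauses)).enc = _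
  rw [toD_pair, D.enc, QBF.code, ← low_en_list codeBool low_en_bool,
    ← low_en_list (codeList codeLit) (low_en_list codeLit low_en_lit)]
  rfl

instance lowLetInhabited : Inhabited Let := ⟨Sum.inl (Sym.c, true)⟩

/-- If the word problem of the hard group is in P, then TQBF is in P. -/
theorem lower {G : Type} [Group G] (M : HModel D0 G)
    (hM : ∀ e f g, M.ι f * M.t e = M.t e * M.ι g → f ∈ D0.S e)
    (h : WordProblemInP M.letterVal) : TQBFInP := by
  obtain ⟨f, hf, h3, hH⟩ := exists_split3
  have h0 : Poly (fun w : List Let => w) encodeBool (wordProblem M.letterVal) := h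
  have h1 : Poly (fun p : QP => en p) (fun w : List Let => w)
      (fun p => redWord (f p).1 (f p).2) := Poly.comp hf poly_redWord
  have h2 : Poly (fun p : QP => en p) encodeBool
      (fun p => wordProblem M.letterVal (redWord (f p).1 (f p).2)) := Poly.comp h1 h0
  have h4 : Poly (fun p : QP => en p) encodeBool
      (fun p => if wordProblem M.letterVal (redWord (f p).1 (f p).2) then false else true) :=
    Poly.ite h2 (PolyTime.Poly.const _ _ false)
      (PolyTime.Poly.const _ _ true)
  refine h4.restrict (fun φ : QBF => (φ.quants, φ.clauses)) low_en_qbf (fun φ => ?_)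
  congr 1
  have key := (redWord_iff M hM (f (φ.quants, φ.clauses)).1 (f (φ.quants, φ.clauses)).2
    (h3 (φ.quants, φ.clauses))).trans (not_congr (hH (φ.quants, φ.clauses)))
  have e : φ.IsTrue ↔ Holds φ.clauses φ.quants [] := Iff.rfl
  rw [← e] at key
  simp only [wordProblem, tqbf]
  by_cases ht : φ.IsTrue
  · have : ¬ val M.letterVal (redWord (f (φ.quants, φ.clauses)).1
        (f (φ.quants, φ.clauses)).2) = 1 := fun hv => key.1 hv ht
    simp [ht, this]
  · have : val M.letterVal (redWord (f (φ.quants, φ.clauses)).1
        (f (φ.quants, φ.clauses)).2) = 1 := key.2 ht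
    simp [ht, this]

end Pool.Agent.W_MP_1d4143_al
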