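import Pool.Agent.W_MP_1d4143_al.Base

/-!
# Difference machines with a strategy

A difference machine whose strategy (which tape to read next) is a function of the difference
recognises the relation `u x = v` on a regular language, if the differences met are in a finite set.
-/

set_option autoImplicit false

namespace Pool.Agent.W_MP_1d4143_al

variable {A G : Type} [Group G]

/-- The difference of two prefixes. -/
def diff (π : A → G) (u v : List A) (i j : ℕ) : G := (val π (u.take i))⁻¹ * val π (v.take j)

/-! ### The automaton -/

/-- The tapes of which the end symbol has not been read yet. -/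
inductive MachOpen
  | both
  | left
  | right

theorem machOpen_finite : Finite MachOpen := by
  refine Finite.of_surjective (fun n : Fin 3 => if n = 0 then MachOpen.both else
    if n = 1 then MachOpen.left else MachOpen.right) ?_
  rintro (_ | _ | _)
  · exact ⟨0, by simp⟩
  · exact ⟨1, by simp⟩
  · exact ⟨2, by simp⟩

/-- The tape `τ` is open. -/
def MachOpen.isOpen : MachOpen → Tape → Prop
  | .both, _ => True
  | .left, τ => τ = Tape.left
  | .right, τ => τ = Tape.right

/-- The tape that is read. -/
def machReads (side : G → Tape) (d : G) : MachOpen → Tape
  | .both => side d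
  | .left => Tape.left
  | .right => Tape.right

/-- The new status, if the end symbol of the tape `τ` is read (`none`: both tapes are closed). -/
def MachOpen.close : MachOpen → Tape → Option MachOpen
  | .both, Tape.left => some .right
  | .both, Tape.right => some .left
  | _, _ => none

/-- The new difference after reading the letter `a` on the tape `τ`. -/
def machDiff (π : A → G) (τ : Tape) (a : A) (d : G) : G :=
  match τ with
  | Tape.left => (π a)⁻¹ * d
  | Tape.right => d * π a

/-- The new state of the acceptor of the left tape. -/
def machStepL {Q : Type} (M : DFA A Q) (τ : Tape) (a : A) (q : Q) : Q :=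
  match τ with
  | Tape.left => M.step q a
  | Tape.right => q

/-- The new state of the acceptor of the right tape. -/
def machStepR {Q : Type} (M : DFA A Q) (τ : Tape) (a : A) (q : Q) : Q :=
  match τ with
  | Tape.left => q
  | Tape.right => M.step q a

open Classical in
/-- The transition function. -/
noncomputable def machNext (π : A → G) {Q : Type} (M : DFA A Q) (x : G) (side : G → Tape)
    (D : Set G) : Option (D × Q × Q × MachOpen) → Option A → Option (Option (D × Q × Q × MachOpen))
  | none, _ => none
  | some (d, q₁, q₂, o), some a =>
    if h : machDiff π (machReads side d.1 o) a d.1 ∈ D then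
      some (some (⟨_, h⟩, machStepL M (machReads side d.1 o) a q₁,
        machStepR M (machReads side d.1 o) a q₂, o))
    else none
  | some (d, q₁, q₂, o), none =>
    match o.close (machReads side d.1 o) with
    | some o' => some (some (d, q₁, q₂, o'))
    | none => if d.1 = x ∧ q₁ ∈ M.accept ∧ q₂ ∈ M.accept then some none else none

/-- The open tapes. -/
def machIsOpen {Q : Type} {D : Set G} : Option (D × Q × Q × MachOpen) → Tape → Prop
  | none, _ => False
  | some (_, _, _, o), τ => o.isOpen τ

omit [Group G] in
theorem machReads_open (side : G → Tape) (d : G) (o : MachOpen) :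
    o.isOpen (machReads side d o) := by
  cases o <;> simp [MachOpen.isOpen, machReads]

theorem machClose_some {o : MachOpen} {τ : Tape} {o' : MachOpen} (h : o.close τ = some o')
    (σ : Tape) : o'.isOpen σ ↔ (o.isOpen σ ∧ σ ≠ τ) := by
  cases o <;> cases τ <;> simp only [MachOpen.close, Option.some.injEq, reduceCtorEq] at h
  · subst h
    cases σ <;> simp [MachOpen.isOpen]
  · subst h
    cases σ <;> simp [MachOpen.isOpen]

theorem machClose_none {o : MachOpen} {τ : Tape} (h : o.close τ = none) (hτ : o.isOpen τ)
    (σ : Tape) : ¬ (o.isOpen σ ∧ σ ≠ τ) := by
  cases o <;> cases τ <;> cases σ <;> simp_all [MachOpen.close, MachOpen.isOpen]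

/-- The difference machine. -/
noncomputable def machAuto (π : A → G) {Q : Type} [Finite Q] (M : DFA A Q) (x : G)
    (side : G → Tape) (D : Set G) (hD : D.Finite) (h1 : (1 : G) ∈ D) : AsyncAutomaton A where
  State := Option (D × Q × Q × MachOpen)
  finite := by
    have : Finite D := hD
    have := machOpen_finite
    infer_instance
  start := some (⟨1, h1⟩, M.start, M.start, .both)
  accept := none
  reads := fun q => match q with
    | none => Tape.left
    | some (d, _, _, o) => machReads side d.1 o
  next := machNext π M x side D
  isOpen := machIsOpen
  start_open := fun τ => by simp [machIsOpen, MachOpen.isOpen]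
  reads_open := by
    rintro (_ | ⟨d, q₁, q₂, o⟩) s q' h
    · simp [machNext] at h
    · exact machReads_open side d.1 o
  letter := by
    rintro (_ | ⟨d, q₁, q₂, o⟩) a q' h τ
    · simp [machNext] at h
    · simp only [machNext] at h
      split_ifs at h with h'
      simp only [Option.some.injEq] at h
      subst h
      rfl
  endmark := by
    rintro (_ | ⟨d, q₁, q₂, o⟩) q' h τ
    · simp [machNext] at h
    · simp only [machNext] at h
      cases hc : o.close (machReads side d.1 o) with
      | some o' =>
        rw [hc] at h
        simp only [Option.some.injEq] at h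
        subst h
        exact machClose_some hc τ
      | none =>
        rw [hc] at h
        simp only at h
        split_ifs at h with h'
        simp only [Option.some.injEq] at h
        subst h
        have := machClose_none hc (machReads_open side d.1 o) τ
        simp only [machIsOpen, false_iff]
        exact this
  accept_iff := by
    rintro (_ | ⟨d, q₁, q₂, o⟩)
    · simp [machIsOpen]
    · simp only [machIsOpen, reduceCtorEq, iff_false, not_forall, not_not]
      exact ⟨_, machReads_open side d.1 o⟩

theorem machAuto_next (π : A → G) {Q : Type} [Finite Q] (M : DFA A Q) (x : G)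
    (side : G → Tape) (D : Set G) (hD : D.Finite) (h1 : (1 : G) ∈ D)
    (q : Option (D × Q × Q × MachOpen)) (s : Option A) (q' : Option (D × Q × Q × MachOpen))
    (h : machNext π M x side D q s = some q') :
    (machAuto π M x side D hD h1).next q s = some q' := h

/-! ### Soundness -/

/-- The strings that are still to be read on the two tapes are the words `w₁` and `w₂` (with their
end symbols, if these have not been read yet). -/
def MachStr : MachOpen → List A → List A → List (Option A) → List (Option A) → Prop
  | .both, w₁, w₂, l, r => l = w₁.map some ++ [none] ∧ r = w₂.map some ++ [none]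
  | .left, w₁, w₂, l, r => l = w₁.map some ++ [none] ∧ w₂ = [] ∧ r = []
  | .right, w₁, w₂, l, r => w₁ = [] ∧ l = [] ∧ r = w₂.map some ++ [none]

theorem mach_sound (π : A → G) {Q : Type} [Finite Q] (M : DFA A Q) (x : G)
    (side : G → Tape) (D : Set G) (hD : D.Finite) (h1 : (1 : G) ∈ D)
    (q : (machAuto π M x side D hD h1).State) (l r : List (Option A))
    (h : (machAuto π M x side D hD h1).Run q l r) :
    ∀ (d : D) (q₁ q₂ : Q) (o : MachOpen) (w₁ w₂ : List A), q = some (d, q₁, q₂, o) →
      MachStr o w₁ w₂ l r →
      (val π w₁)⁻¹ * d.1 * val π w₂ = x ∧ M.evalFrom q₁ w₁ ∈ M.accept ∧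
        M.evalFrom q₂ w₂ ∈ M.accept := by
  induction h with
  | accept =>
    intro d q₁ q₂ o w₁ w₂ hq _
    exact absurd hq (by simp [machAuto])
  | @left q q' s l r hr hn _ ih =>
    intro d q₁ q₂ o w₁ w₂ hq hs
    subst hq
    have hr' : machReads side d.1 o = Tape.left := hr
    have hn' : machNext π M x side D (some (d, q₁, q₂, o)) s = some q' := hn
    have hs' : ∃ l', s :: l = w₁.map some ++ [none] ∧ l' = l := by
      cases o with
      | both => exact ⟨l, hs.1, rfl⟩
      | left => exact ⟨l, hs.1, rfl⟩
      | right => simp [machReads] at hr'
    obtain ⟨_, hs', -⟩ := hs'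
    cases w₁ with
    | nil =>
      simp only [List.map_nil, List.nil_append, List.cons.injEq] at hs'
      obtain ⟨rfl, rfl⟩ := hs'
      simp only [machNext, hr'] at hn'
      cases o with
      | both =>
        simp only [MachOpen.close] at hn'
        exact ih d q₁ q₂ .right [] w₂ (Option.some.inj hn').symm ⟨rfl, rfl, hs.2⟩
      | left =>
        simp only [MachOpen.close] at hn'
        split_ifs at hn' with h'
        obtain ⟨-, rfl, -⟩ := hs
        simpa [DFA.evalFrom] using h'
      | right => simp [machReads] at hr'
    | cons a w₁ =>
      simp only [List.map_cons, List.cons_append, List.cons.injEq] at hs'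
      obtain ⟨rfl, hl⟩ := hs'
      simp only [machNext, hr'] at hn'
      split_ifs at hn' with h'
      have hs2 : MachStr o w₁ w₂ l r := by
        cases o with
        | both => exact ⟨hl, hs.2⟩
        | left => exact ⟨hl, hs.2⟩
        | right => simp [machReads] at hr'
      have := ih _ _ _ _ w₁ w₂ (Option.some.inj hn').symm hs2
      simp only [machDiff, machStepL, machStepR] at this
      refine ⟨?_, ?_, this.2.2⟩
      · rw [← this.1, val_cons]
        group
      · simpa [DFA.evalFrom] using this.2.1
  | @right q q' s l r hr hn _ ih =>
    intro d q₁ q₂ o w₁ w₂ hq hs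
    subst hq
    have hr' : machReads side d.1 o = Tape.right := hr
    have hn' : machNext π M x side D (some (d, q₁, q₂, o)) s = some q' := hn
    have hs' : s :: r = w₂.map some ++ [none] := by
      cases o with
      | both => exact hs.2
      | left => simp [machReads] at hr'
      | right => exact hs.2.2
    cases w₂ with
    | nil =>
      simp only [List.map_nil, List.nil_append, List.cons.injEq] at hs'
      obtain ⟨rfl, rfl⟩ := hs'
      simp only [machNext, hr'] at hn'
      cases o with
      | both =>
        simp only [MachOpen.close] at hn'
        exact ih d q₁ q₂ .left w₁ [] (Option.some.inj hn').symm ⟨hs.1, rfl, rfl⟩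
      | left => simp [machReads] at hr'
      | right =>
        simp only [MachOpen.close] at hn'
        split_ifs at hn' with h'
        obtain ⟨rfl, -, -⟩ := hs
        simpa [DFA.evalFrom] using h'
    | cons a w₂ =>
      simp only [List.map_cons, List.cons_append, List.cons.injEq] at hs'
      obtain ⟨rfl, hl⟩ := hs'
      simp only [machNext, hr'] at hn'
      split_ifs at hn' with h'
      have hs2 : MachStr o w₁ w₂ l r := by
        cases o with
        | both => exact ⟨hs.1, hl⟩
        | left => simp [machReads] at hr'
        | right => exact ⟨hs.1, hs.2.1, hl⟩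
      have := ih _ _ _ _ w₁ w₂ (Option.some.inj hn').symm hs2
      simp only [machDiff, machStepL, machStepR] at this
      refine ⟨?_, this.2.1, ?_⟩
      · rw [← this.1, val_cons]
        group
      · simpa [DFA.evalFrom] using this.2.2

/-! ### Completeness -/

theorem diff_succ_left (π : A → G) (u v : List A) (i j : ℕ) (hi : i < u.length) :
    diff π u v (i + 1) j = (π u[i])⁻¹ * diff π u v i j := by
  rw [diff, diff, List.take_succ_eq_append_getElem hi, val_append, val_singleton]
  group

theorem diff_succ_right (π : A → G) (u v : List A) (i j : ℕ) (hj : j < v.length) :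
    diff π u v i (j + 1) = diff π u v i j * π v[j] := by
  rw [diff, diff, List.take_succ_eq_append_getElem hj, val_append, val_singleton]
  group

theorem mach_evalFrom_take_succ {Q : Type} (M : DFA A Q) (q : Q) (u : List A) (i : ℕ)
    (hi : i < u.length) :
    M.evalFrom q (u.take (i + 1)) = M.step (M.evalFrom q (u.take i)) u[i] := by
  rw [List.take_succ_eq_append_getElem hi, DFA.evalFrom, List.foldl_append]
  rfl

section complete

variable (π : A → G) {Q : Type} [Finite Q] (M : DFA A Q) (x : G)
  (side : G → Tape) (D : Set G) (hD : D.Finite) (h1 : (1 : G) ∈ D)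

/-- Reading a letter on the left tape. -/
theorem mach_run_left {u v : List A} {i j : ℕ} (hi : i < u.length) {o : MachOpen}
    (hd : diff π u v i j ∈ D) (hd' : diff π u v (i + 1) j ∈ D) {q : Q} {r : List (Option A)}
    (hr : machReads side (diff π u v i j) o = Tape.left)
    (h : (machAuto π M x side D hD h1).Run
      (some (⟨diff π u v (i + 1) j, hd'⟩, M.evalFrom M.start (u.take (i + 1)), q, o))
      ((u.drop (i + 1)).map some ++ [none]) r) :
    (machAuto π M x side D hD h1).Run
      (some (⟨diff π u v i j, hd⟩, M.evalFrom M.start (u.take i), q, o))
      ((u.drop i).map some ++ [none]) r := by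
  rw [List.drop_eq_getElem_cons hi, List.map_cons, List.cons_append]
  refine AsyncAutomaton.Run.left (M := machAuto π M x side D hD h1) hr
    (machAuto_next π M x side D hD h1 _ _ _ ?_) h
  have hm : machDiff π (machReads side (diff π u v i j) o) u[i] (diff π u v i j) ∈ D := by
    rw [hr]
    simpa only [machDiff, ← diff_succ_left π u v i j hi] using hd'
  simp only [machNext]
  rw [dif_pos hm]
  simp only [hr, machDiff, machStepL, machStepR, ← diff_succ_left π u v i j hi,
    mach_evalFrom_take_succ M M.start u i hi]

/-- Reading a letter on the right tape. -/
theorem mach_run_right {u v : List A} {i j : ℕ} (hj : j < v.length) {o : MachOpen}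
    (hd : diff π u v i j ∈ D) (hd' : diff π u v i (j + 1) ∈ D) {q : Q} {l : List (Option A)}
    (hr : machReads side (diff π u v i j) o = Tape.right)
    (h : (machAuto π M x side D hD h1).Run
      (some (⟨diff π u v i (j + 1), hd'⟩, q, M.evalFrom M.start (v.take (j + 1)), o))
      l ((v.drop (j + 1)).map some ++ [none])) :
    (machAuto π M x side D hD h1).Run
      (some (⟨diff π u v i j, hd⟩, q, M.evalFrom M.start (v.take j), o))
      l ((v.drop j).map some ++ [none]) := by
  rw [List.drop_eq_getElem_cons hj, List.map_cons, List.cons_append]
  refine AsyncAutomaton.Run.right (M := machAuto π M x side D hD h1) hr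
    (machAuto_next π M x side D hD h1 _ _ _ ?_) h
  have hm : machDiff π (machReads side (diff π u v i j) o) v[j] (diff π u v i j) ∈ D := by
    rw [hr]
    simpa only [machDiff, ← diff_succ_right π u v i j hj] using hd'
  simp only [machNext]
  rw [dif_pos hm]
  simp only [hr, machDiff, machStepL, machStepR, ← diff_succ_right π u v i j hj,
    mach_evalFrom_take_succ M M.start v j hj]

variable {u v : List A} (hu : M.evalFrom M.start u ∈ M.accept)
  (hv : M.evalFrom M.start v ∈ M.accept) (hx : val π u * x = val π v) (Inv : ℕ → ℕ → Prop)
  (hI : ∀ i j, i ≤ u.length → j ≤ v.length → Inv i j → diff π u v i j ∈ D ∧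
        (i < u.length → (side (diff π u v i j) = Tape.left ∨ j = v.length) → Inv (i + 1) j) ∧
        (j < v.length → (side (diff π u v i j) = Tape.right ∨ i = u.length) → Inv i (j + 1)))

include hu hv hx hI

/-- The right tape has been read. -/
theorem mach_complete_left (n : ℕ) : ∀ i, u.length - i = n → i ≤ u.length → Inv i v.length →
    ∀ hd : diff π u v i v.length ∈ D, (machAuto π M x side D hD h1).Run
      (some (⟨diff π u v i v.length, hd⟩, M.evalFrom M.start (u.take i),
        M.evalFrom M.start v, .left)) ((u.drop i).map some ++ [none]) [] := by
  induction n with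
  | zero =>
    intro i hi hi' _ hd
    have hiu : i = u.length := by omega
    subst hiu
    rw [List.drop_length, List.map_nil, List.nil_append]
    refine AsyncAutomaton.Run.left (M := machAuto π M x side D hD h1) (q' := none) rfl
      (machAuto_next π M x side D hD h1 _ _ _ ?_) AsyncAutomaton.Run.accept
    have hdx : diff π u v u.length v.length = x := by
      rw [diff, List.take_length, List.take_length, ← hx]
      group
    simp only [machNext, MachOpen.close]
    rw [if_pos ⟨hdx, by rw [List.take_length]; exact hu, hv⟩]
  | succ n ih =>
    intro i hi hi' hInv hd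
    have hlt : i < u.length := by omega
    have h2 := (hI i v.length hi' le_rfl hInv).2.1 hlt (Or.inr rfl)
    have hd' := (hI (i + 1) v.length hlt le_rfl h2).1
    exact mach_run_left π M x side D hD h1 hlt hd hd' rfl (ih (i + 1) (by omega) hlt h2 hd')

/-- The left tape has been read. -/
theorem mach_complete_right (n : ℕ) : ∀ j, v.length - j = n → j ≤ v.length → Inv u.length j →
    ∀ hd : diff π u v u.length j ∈ D, (machAuto π M x side D hD h1).Run
      (some (⟨diff π u v u.length j, hd⟩, M.evalFrom M.start u,
        M.evalFrom M.start (v.take j), .right)) [] ((v.drop j).map some ++ [none]) := by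
  induction n with
  | zero =>
    intro j hj hj' _ hd
    have hjv : j = v.length := by omega
    subst hjv
    rw [List.drop_length, List.map_nil, List.nil_append]
    refine AsyncAutomaton.Run.right (M := machAuto π M x side D hD h1) (q' := none) rfl
      (machAuto_next π M x side D hD h1 _ _ _ ?_) AsyncAutomaton.Run.accept
    have hdx : diff π u v u.length v.length = x := by
      rw [diff, List.take_length, List.take_length, ← hx]
      group
    simp only [machNext, MachOpen.close]
    rw [if_pos ⟨hdx, hu, by rw [List.take_length]; exact hv⟩]
  | succ n ih =>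
    intro j hj hj' hInv hd
    have hlt : j < v.length := by omega
    have h2 := (hI u.length j le_rfl hj' hInv).2.2 hlt (Or.inr rfl)
    have hd' := (hI u.length (j + 1) le_rfl hlt h2).1
    exact mach_run_right π M x side D hD h1 hlt hd hd' rfl (ih (j + 1) (by omega) hlt h2 hd')

/-- Both tapes are open. -/
theorem mach_complete_both (n : ℕ) : ∀ i j, (u.length - i) + (v.length - j) = n →
    i ≤ u.length → j ≤ v.length → Inv i j →
    ∀ hd : diff π u v i j ∈ D, (machAuto π M x side D hD h1).Run
      (some (⟨diff π u v i j, hd⟩, M.evalFrom M.start (u.take i),
        M.evalFrom M.start (v.take j), .both)) ((u.drop i).map some ++ [none])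
        ((v.drop j).map some ++ [none]) := by
  induction n with
  | zero =>
    intro i j hn hi hj hInv hd
    have hiu : i = u.length := by omega
    have hjv : j = v.length := by omega
    subst hiu
    subst hjv
    cases hs : side (diff π u v u.length v.length) with
    | left =>
      rw [List.drop_length (l := u), List.map_nil, List.nil_append, List.take_length (l := u)]
      refine AsyncAutomaton.Run.left (M := machAuto π M x side D hD h1)
        (q' := some (⟨diff π u v u.length v.length, hd⟩, M.evalFrom M.start u,
          M.evalFrom M.start (v.take v.length), .right)) hs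
          (machAuto_next π M x side D hD h1 _ _ _ ?_)
          (mach_complete_right π M x side D hD h1 hu hv hx Inv hI _ v.length rfl le_rfl hInv hd)
      simp only [machNext, machReads, hs, MachOpen.close]
    | right =>
      rw [List.drop_length (l := v), List.map_nil, List.nil_append, List.take_length (l := v)]
      refine AsyncAutomaton.Run.right (M := machAuto π M x side D hD h1)
        (q' := some (⟨diff π u v u.length v.length, hd⟩, M.evalFrom M.start (u.take u.length),
          M.evalFrom M.start v, .left)) hs
          (machAuto_next π M x side D hD h1 _ _ _ ?_)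
          (mach_complete_left π M x side D hD h1 hu hv hx Inv hI _ u.length rfl le_rfl hInv hd)
      simp only [machNext, machReads, hs, MachOpen.close]
  | succ n ih =>
    intro i j hn hi hj hInv hd
    cases hs : side (diff π u v i j) with
    | left =>
      rcases hi.lt_or_eq with hlt | hiu
      · have h2 := (hI i j hi hj hInv).2.1 hlt (Or.inl hs)
        have hd' := (hI (i + 1) j hlt hj h2).1
        exact mach_run_left π M x side D hD h1 hlt hd hd' hs
          (ih (i + 1) j (by omega) hlt hj h2 hd')
      · subst hiu
        rw [List.drop_length (l := u), List.map_nil, List.nil_append, List.take_length (l := u)]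
        refine AsyncAutomaton.Run.left (M := machAuto π M x side D hD h1)
          (q' := some (⟨diff π u v u.length j, hd⟩, M.evalFrom M.start u,
            M.evalFrom M.start (v.take j), .right)) hs
            (machAuto_next π M x side D hD h1 _ _ _ ?_)
            (mach_complete_right π M x side D hD h1 hu hv hx Inv hI _ j rfl hj hInv hd)
        simp only [machNext, machReads, hs, MachOpen.close]
    | right =>
      rcases hj.lt_or_eq with hlt | hjv
      · have h2 := (hI i j hi hj hInv).2.2 hlt (Or.inl hs)
        have hd' := (hI i (j + 1) hi hlt h2).1
        exact mach_run_right π M x side D hD h1 hlt hd hd' hs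
          (ih i (j + 1) (by omega) hi hlt h2 hd')
      · subst hjv
        rw [List.drop_length (l := v), List.map_nil, List.nil_append, List.take_length (l := v)]
        refine AsyncAutomaton.Run.right (M := machAuto π M x side D hD h1)
          (q' := some (⟨diff π u v i v.length, hd⟩, M.evalFrom M.start (u.take i),
            M.evalFrom M.start v, .left)) hs
            (machAuto_next π M x side D hD h1 _ _ _ ?_)
            (mach_complete_left π M x side D hD h1 hu hv hx Inv hI _ i rfl hi hInv hd)
        simp only [machNext, machReads, hs, MachOpen.close]

end complete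

/-- A difference machine whose strategy (which tape to read next) is a function `side` of the
difference recognises the relation `u x = v` on `L`, if for all `u, v ∈ L` with `u x = v` the
differences met when following the strategy stay in a finite set. -/
theorem exists_automaton [Finite A] (π : A → G) (L : Language A) (hL : L.IsRegular) (x : G)
    (side : G → Tape) (D : Set G) (hD : D.Finite)
    (h : ∀ u ∈ L, ∀ v ∈ L, val π u * x = val π v → ∃ Inv : ℕ → ℕ → Prop, Inv 0 0 ∧
      ∀ i j, i ≤ u.length → j ≤ v.length → Inv i j → diff π u v i j ∈ D ∧
        (i < u.length → (side (diff π u v i j) = Tape.left ∨ j = v.length) → Inv (i + 1) j) ∧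
        (j < v.length → (side (diff π u v i j) = Tape.right ∨ i = u.length) → Inv i (j + 1))) :
    ∃ M : AsyncAutomaton A, ∀ u v, M.Accepts u v ↔ u ∈ L ∧ v ∈ L ∧ val π u * x = val π v := by
  obtain ⟨Q, hQ, M, rfl⟩ := hL
  have : Finite Q := Finite.of_fintype Q
  have h1 : (1 : G) ∈ insert 1 D := Set.mem_insert _ _
  have hD' : (insert (1 : G) D).Finite := hD.insert 1
  refine ⟨machAuto π M x side (insert 1 D) hD' h1, fun u v => ⟨fun hR => ?_, ?_⟩⟩
  · have hR' := mach_sound π M x side (insert 1 D) hD' h1 _ _ _ hR ⟨1, h1⟩ M.start M.start .both
      u v rfl ⟨rfl, rfl⟩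
    refine ⟨?_, ?_, ?_⟩
    · rw [DFA.mem_accepts]
      exact hR'.2.1
    · rw [DFA.mem_accepts]
      exact hR'.2.2
    · rw [← hR'.1]
      group
  · rintro ⟨hu, hv, hx⟩
    obtain ⟨Inv, hI0, hI⟩ := h u hu v hv hx
    rw [DFA.mem_accepts] at hu hv
    have hI' : ∀ i j, i ≤ u.length → j ≤ v.length → Inv i j → diff π u v i j ∈ insert 1 D ∧
        (i < u.length → (side (diff π u v i j) = Tape.left ∨ j = v.length) → Inv (i + 1) j) ∧
        (j < v.length → (side (diff π u v i j) = Tape.right ∨ i = u.length) → Inv i (j + 1)) :=
      fun i j hi hj hij => ⟨Set.mem_insert_of_mem _ (hI i j hi hj hij).1, (hI i j hi hj hij).2⟩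
    have hd0 : diff π u v 0 0 = 1 := by simp [diff]
    have hd : diff π u v 0 0 ∈ insert 1 D := by rw [hd0]; exact h1
    have := mach_complete_both π M x side (insert 1 D) hD' h1 (u := u) (v := v) hu hv hx Inv hI' _
      0 0 rfl (Nat.zero_le _) (Nat.zero_le _) hI0 hd
    simp only [hd0, List.take_zero, List.drop_zero, DFA.evalFrom, List.foldl_nil] at this
    exact this

end Pool.Agent.W_MP_1d4143_al
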