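import Pool.Agent.W_MP_1d4143_al.Base

set_option autoImplicit false

namespace Pool.Agent.W_MP_1d4143_al

variable {X α : Type} [DecidableEq X] [DecidableEq α]

/-- The length of the longest common prefix. -/
def lcpLen {β : Type} [DecidableEq β] : List β → List β → ℕ
  | a :: l, b :: l' => if a = b then lcpLen l l' + 1 else 0
  | _, _ => 0

/-- The reduced word of `w x` or of its inverse. -/
def orWord (w : X → FreeGroup α) (x : X × Bool) : List (α × Bool) :=
  if x.2 then (w x.1).toWord else FreeGroup.invRev (w x.1).toWord

theorem nielsen_lcp_split {β : Type} [DecidableEq β] (l l' : List β) :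
    ∃ c a b : List β, l = c ++ a ∧ l' = c ++ b ∧ c.length = lcpLen l l' ∧
      ∀ x ∈ a.head?, ∀ y ∈ b.head?, x ≠ y := by
  induction l generalizing l' with
  | nil => exact ⟨[], [], l', rfl, rfl, by simp [lcpLen], by simp⟩
  | cons u l ih =>
    cases l' with
    | nil => exact ⟨[], u :: l, [], rfl, rfl, by simp [lcpLen], by simp⟩
    | cons v l' =>
      by_cases h : u = v
      · obtain ⟨c, a, b, h1, h2, h3, h4⟩ := ih l'
        refine ⟨u :: c, a, b, by rw [h1]; rfl, by rw [← h, h2]; rfl, ?_, h4⟩
        rw [lcpLen, if_pos h, List.length_cons, h3]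
      · refine ⟨[], u :: l, v :: l', rfl, rfl, by simp [lcpLen, h], ?_⟩
        intro x hx y hy
        simp only [List.head?_cons, Option.mem_def, Option.some.injEq] at hx hy
        rw [← hx, ← hy]
        exact h

theorem nielsen_lcp_take {β : Type} [DecidableEq β] (l p z z' : List β)
    (h : lcpLen l (p ++ z) < p.length) : lcpLen l (p ++ z') = lcpLen l (p ++ z) := by
  induction p generalizing l with
  | nil => simp at h
  | cons b p ih =>
    cases l with
    | nil => simp [lcpLen]
    | cons a l =>
      simp only [List.cons_append, lcpLen, List.length_cons] at h ⊢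
      by_cases hab : a = b
      · rw [if_pos hab] at h ⊢
        rw [if_pos hab, ih l (by omega)]
      · rw [if_neg hab, if_neg hab]

/-- Product of two elements in terms of their reduced words. -/
theorem nielsen_mul {U V : List (α × Bool)} (hU : FreeGroup.IsReduced U)
    (hV : FreeGroup.IsReduced V) : ∃ c a b : List (α × Bool),
    U = a ++ FreeGroup.invRev c ∧ V = c ++ b ∧ c.length = lcpLen (FreeGroup.invRev U) V ∧
      (FreeGroup.mk U * FreeGroup.mk V).toWord = a ++ b := by
  obtain ⟨c, a, b, h1, h2, h3, h4⟩ := nielsen_lcp_split (FreeGroup.invRev U) V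
  have hU' : U = FreeGroup.invRev a ++ FreeGroup.invRev c := by
    rw [← FreeGroup.invRev_append, ← h1, FreeGroup.invRev_invRev]
  refine ⟨c, FreeGroup.invRev a, b, hU', h2, h3, ?_⟩
  have hprod : FreeGroup.mk U * FreeGroup.mk V = FreeGroup.mk (FreeGroup.invRev a ++ b) := by
    rw [hU', h2, ← FreeGroup.mul_mk, ← FreeGroup.mul_mk, ← FreeGroup.mul_mk,
      ← FreeGroup.inv_mk, ← FreeGroup.inv_mk]
    group
  have hred : FreeGroup.IsReduced (FreeGroup.invRev a ++ b) := by
    have ha : FreeGroup.IsReduced (FreeGroup.invRev a) :=
      isReduced_piece hU ⟨[], FreeGroup.invRev c, by rw [hU']; simp⟩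
    have hb : FreeGroup.IsReduced b := isReduced_piece hV ⟨c, [], by rw [h2]; simp⟩
    unfold FreeGroup.IsReduced at ha hb ⊢
    rw [List.isChain_append]
    refine ⟨ha, hb, ?_⟩
    intro x hx y hy hxy
    cases a with
    | nil => simp [FreeGroup.invRev] at hx
    | cons a0 a =>
      have hx' : x = (a0.1, !a0.2) := by
        simp only [FreeGroup.invRev, List.map_cons, List.reverse_cons,
          List.getLast?_append, List.getLast?_singleton, Option.mem_def, Option.some_or,
          Option.some.injEq] at hx
        exact hx.symm
      have hne : a0 ≠ y := h4 a0 (by simp) y hy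
      rw [hx'] at hxy ⊢
      simp only at hxy ⊢
      by_contra hcon
      apply hne
      apply Prod.ext hxy
      revert hcon
      cases a0.2 <;> cases y.2 <;> simp
  rw [hprod, FreeGroup.toWord_mk, hred.reduce_eq]

theorem nielsen_orWord (w : X → FreeGroup α) (x : X × Bool) :
    orWord w x = (FreeGroup.lift w (FreeGroup.mk [x])).toWord := by
  rcases x with ⟨i, b⟩
  cases b
  · simp [orWord, FreeGroup.toWord_inv]
  · simp [orWord]

theorem nielsen_isReduced (w : X → FreeGroup α) (x : X × Bool) :
    FreeGroup.IsReduced (orWord w x) := by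
  rw [nielsen_orWord]
  exact FreeGroup.isReduced_toWord

/-- Key claim: the beginning of the image of a reduced word. -/
theorem nielsen_key (w : X → FreeGroup α) (lo hi : X × Bool → ℕ)
    (h1 : ∀ x y : X × Bool, y ≠ (x.1, !x.2) →
      lcpLen (FreeGroup.invRev (orWord w x)) (orWord w y) ≤ hi x ∧
      lcpLen (FreeGroup.invRev (orWord w x)) (orWord w y) ≤ lo y)
    (h2 : ∀ y : X × Bool, lo y + hi y < (orWord w y).length) (l : List (X × Bool)) :
    ∀ x : X × Bool, FreeGroup.IsReduced (x :: l) → ∃ z : List (α × Bool),
      (FreeGroup.lift w (FreeGroup.mk (x :: l))).toWord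
        = (orWord w x).take ((orWord w x).length - hi x) ++ z := by
  induction l with
  | nil =>
    intro x _
    exact ⟨(orWord w x).drop ((orWord w x).length - hi x), by
      rw [List.take_append_drop, ← nielsen_orWord]⟩
  | cons x l ih =>
    intro y hy
    rw [FreeGroup.IsReduced, List.isChain_cons_cons] at hy
    obtain ⟨z, hz⟩ := ih x hy.2
    have hne : x ≠ (y.1, !y.2) := by
      intro hc
      have h3 := hy.1 (by rw [hc])
      rw [hc] at h3
      revert h3
      cases y.2 <;> simp
    obtain ⟨h3, h4⟩ := h1 y x hne
    set P := (orWord w x).take ((orWord w x).length - hi x) with hP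
    have hPlen : P.length = (orWord w x).length - hi x := by
      rw [hP, List.length_take]
      omega
    have hx2 := h2 x
    have hxs : orWord w x = P ++ (orWord w x).drop ((orWord w x).length - hi x) :=
      (List.take_append_drop _ _).symm
    have hlcp : lcpLen (FreeGroup.invRev (orWord w y)) (P ++ z)
        = lcpLen (FreeGroup.invRev (orWord w y)) (orWord w x) := by
      conv_rhs => rw [hxs]
      apply nielsen_lcp_take
      rw [← hxs]
      omega
    have hV : FreeGroup.IsReduced (P ++ z) := by
      rw [← hz]
      exact FreeGroup.isReduced_toWord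
    obtain ⟨c, a, b, e1, e2, e3, e4⟩ := nielsen_mul (nielsen_isReduced w y) hV
    have hmul : FreeGroup.lift w (FreeGroup.mk (y :: x :: l))
        = FreeGroup.mk (orWord w y) * FreeGroup.mk (P ++ z) := by
      rw [← hz, FreeGroup.mk_toWord, nielsen_orWord, FreeGroup.mk_toWord, ← map_mul,
        FreeGroup.mul_mk]
      rfl
    rw [hmul, e4]
    refine ⟨a.drop ((orWord w y).length - hi y) ++ b, ?_⟩
    rw [← List.append_assoc]
    congr 1
    have hlen : (orWord w y).length = a.length + c.length := by
      conv_lhs => rw [e1]
      rw [List.length_append, FreeGroup.invRev_length]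
    have hc : c.length ≤ hi y := by
      rw [e3, hlcp]
      exact h3
    have htake : (orWord w y).take ((orWord w y).length - hi y)
        = a.take ((orWord w y).length - hi y) := by
      conv_lhs => rw [e1]
      rw [List.take_append_of_le_length]
      · rw [← e1]
      · rw [← e1]
        omega
    rw [htake, List.take_append_drop]

/-- A criterion for freeness: if in the products of two generators (or inverses) that are not
inverse to each other at most `hi x` letters at the end of the first factor `x` and at most `lo y`
letters at the beginning of the second factor `y` cancel, and `lo y + hi y < |y|`, then the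
homomorphism is injective. -/
theorem lift_injective (w : X → FreeGroup α) (lo hi : X × Bool → ℕ)
    (h1 : ∀ x y : X × Bool, y ≠ (x.1, !x.2) →
      lcpLen (FreeGroup.invRev (orWord w x)) (orWord w y) ≤ hi x ∧
      lcpLen (FreeGroup.invRev (orWord w x)) (orWord w y) ≤ lo y)
    (h2 : ∀ y : X × Bool, lo y + hi y < (orWord w y).length) :
    Function.Injective (FreeGroup.lift w) := by
  rw [injective_iff_map_eq_one]
  intro g hg
  rw [← FreeGroup.toWord_eq_nil_iff]
  rcases hl : g.toWord with _ | ⟨x, l⟩
  · rfl
  · exfalso
    have hred : FreeGroup.IsReduced (x :: l) := by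
      rw [← hl]
      exact FreeGroup.isReduced_toWord
    obtain ⟨z, hz⟩ := nielsen_key w lo hi h1 h2 l x hred
    rw [← hl, FreeGroup.mk_toWord, hg, FreeGroup.toWord_one] at hz
    have h3 := congrArg List.length hz
    rw [List.length_append, List.length_take, List.length_nil] at h3
    have h4 := h2 x
    omega

end Pool.Agent.W_MP_1d4143_al
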