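import Pool.Agent.W_MP_1d4143_al.Nielsen

/-!
# The stable letters of the hard group
-/

set_option autoImplicit false

namespace Pool.Agent.W_MP_1d4143_al

/-! ### HNN data from pairs of injective homomorphisms -/

section ofHoms

variable {F J : Type} [Group F] (H : J → Type) [∀ j, Group (H j)] (θ θ' : ∀ j, H j →* F)

/-- The homomorphism belonging to an oriented stable letter. -/
def homOf (j : J) (b : Bool) : H j →* F := if b then θ j else θ' j

theorem homOf_injective (hθ : ∀ j, Function.Injective (θ j)) (hθ' : ∀ j, Function.Injective (θ' j))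
    (j : J) (b : Bool) : Function.Injective (homOf H θ θ' j b) := by
  cases b
  · simpa [homOf] using hθ' j
  · simpa [homOf] using hθ j

open Classical in
/-- The isomorphism between the ranges, extended by `1`. -/
noncomputable def psiOf (e : J × Bool) (f : F) : F :=
  if h : ∃ x, homOf H θ θ' e.1 e.2 x = f then homOf H θ θ' e.1 (!e.2) h.choose else 1

theorem psiOf_apply (hθ : ∀ j, Function.Injective (θ j)) (hθ' : ∀ j, Function.Injective (θ' j))
    (e : J × Bool) (x : H e.1) :
    psiOf H θ θ' e (homOf H θ θ' e.1 e.2 x) = homOf H θ θ' e.1 (!e.2) x := by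
  have h : ∃ x', homOf H θ θ' e.1 e.2 x' = homOf H θ θ' e.1 e.2 x := ⟨x, rfl⟩
  rw [psiOf, dif_pos h, homOf_injective H θ θ' hθ hθ' e.1 e.2 h.choose_spec]

/-- The data of the multiple HNN extension with relations `θ x * t = t * θ' x`. -/
noncomputable def HData.ofHoms (hθ : ∀ j, Function.Injective (θ j))
    (hθ' : ∀ j, Function.Injective (θ' j)) : HData F J where
  S e := (homOf H θ θ' e.1 e.2).range
  ψ := psiOf H θ θ'
  ψ_mem := by
    rintro e a ⟨x, rfl⟩
    rw [psiOf_apply H θ θ' hθ hθ']
    exact ⟨x, rfl⟩
  ψ_mul := by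
    rintro e a b ⟨x, rfl⟩ ⟨y, rfl⟩
    rw [← map_mul, psiOf_apply H θ θ' hθ hθ', psiOf_apply H θ θ' hθ hθ',
      psiOf_apply H θ θ' hθ hθ', map_mul]
  ψ_bar := by
    rintro ⟨j, b⟩ a ⟨x, rfl⟩
    rw [psiOf_apply H θ θ' hθ hθ' (j, b) x]
    have := psiOf_apply H θ θ' hθ hθ' (j, !b) x
    simpa [bar] using this

end ofHoms

/-! ### The free group and its endomorphisms -/

/-- The generators of the free group. -/
inductive Sym
  | b | y | g | z | e | c
  | l (u : Fin 4)
  deriving DecidableEq, Fintype

/-- The stable letters. -/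
inductive Op
  | forAll | neg | clause | inc | pop | read | test
  deriving DecidableEq

instance : Fintype Op where
  elems := {.forAll, .neg, .clause, .inc, .pop, .read, .test}
  complete x := by cases x <;> decide

/-- The base group. -/
abbrev F0 := FreeGroup Sym

/-- A generator. -/
abbrev sy (x : Sym) : F0 := FreeGroup.of x

/-- The element `b y b⁻¹`. -/
def s0 : F0 := sy .b * sy .y * (sy .b)⁻¹

/-- The word used for conjunctions. -/
def W0 {G : Type} [Group G] (a b : G) : G := b * a * b * a⁻¹ * b⁻¹ * b⁻¹

/-- The universal quantifier. -/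
def thAll : Sym → F0
  | .b => sy .b * sy .b
  | .c => W0 (sy .c) (s0 * sy .c * s0⁻¹)
  | x => sy x

/-- Negation. -/
def thNeg : Sym → F0
  | .c => sy .e * (sy .c)⁻¹
  | x => sy x

/-- A new clause. -/
def thCl : Sym → F0
  | .c => W0 (sy (.l 0)) (sy .y * sy .c * (sy .y)⁻¹)
  | x => sy x

/-- Increment the counter. -/
def incSym : Sym → Sym
  | .l u => .l (u + 1)
  | x => x

/-- Unconditional increment. -/
def thInc (x : Sym) : F0 := sy (incSym x)

/-- Pop the last variable: source. -/
def thPop : Option Sym → F0
  | none => s0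
  | some .b => sy .b * sy .b
  | some x => sy x

/-- Pop the last variable: target. -/
def thPop' : Option Sym → F0
  | none => sy .g
  | some .g => sy .z * sy .g * (sy .z)⁻¹
  | some .z => sy .z * sy .z
  | some x => sy x

/-- A generator, where `b` is replaced by its square. -/
def bb : Sym → F0
  | .b => sy .b * sy .b
  | x => sy x

/-- Read the last variable: source. -/
def thRead (x : Sym × Bool) : F0 := if x.2 then s0 * bb x.1 * s0⁻¹ else bb x.1

/-- Read the last variable: target. -/
def thRead' (x : Sym × Bool) : F0 := if x.2 then s0 * bb (incSym x.1) * s0⁻¹ else bb x.1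

/-! ### Injectivity -/

/-- Bounds for cancellation. -/
def loAll (x : Sym × Bool) : ℕ := if x.1 = .b ∧ x.2 = true then 1 else if x.1 = .c then 4 else 0

def hiAll (x : Sym × Bool) : ℕ := if x.1 = .b ∧ x.2 = false then 1 else if x.1 = .c then 4 else 0

theorem thAll_injective : Function.Injective (FreeGroup.lift thAll) :=
  lift_injective thAll loAll hiAll (by decide +kernel) (by decide +kernel)

theorem thInc_injective : Function.Injective (FreeGroup.lift thInc) :=
  lift_injective thInc (fun _ => 0) (fun _ => 0) (by decide +kernel) (by decide +kernel)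

def loPop (x : Option Sym × Bool) : ℕ :=
  if x.1 = some .b ∧ x.2 = true ∨ x.1 = none then 1 else 0

def hiPop (x : Option Sym × Bool) : ℕ :=
  if x.1 = some .b ∧ x.2 = false ∨ x.1 = none then 1 else 0

theorem thPop_injective : Function.Injective (FreeGroup.lift thPop) :=
  lift_injective thPop loPop hiPop (by decide +kernel) (by decide +kernel)

def loPop' (x : Option Sym × Bool) : ℕ :=
  if x.1 = some .z ∧ x.2 = true ∨ x.1 = some .g then 1 else 0

def hiPop' (x : Option Sym × Bool) : ℕ :=
  if x.1 = some .z ∧ x.2 = false ∨ x.1 = some .g then 1 else 0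

theorem thPop'_injective : Function.Injective (FreeGroup.lift thPop') :=
  lift_injective thPop' loPop' hiPop' (by decide +kernel) (by decide +kernel)

def loRead (x : (Sym × Bool) × Bool) : ℕ :=
  if x.1.2 then (if x.1.1 = .b ∧ x.2 = true then 2 else 3)
    else (if x.1.1 = .b ∧ x.2 = true then 1 else 0)

def hiRead (x : (Sym × Bool) × Bool) : ℕ :=
  if x.1.2 then (if x.1.1 = .b ∧ x.2 = false then 2 else 3)
    else (if x.1.1 = .b ∧ x.2 = false then 1 else 0)

theorem thRead_injective : Function.Injective (FreeGroup.lift thRead) :=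
  lift_injective thRead loRead hiRead (by decide +kernel) (by decide +kernel)

theorem thRead'_injective : Function.Injective (FreeGroup.lift thRead') :=
  lift_injective thRead' loRead hiRead (by decide +kernel) (by decide +kernel)

/-- The inverse of negation. -/
def thNegInv : Sym → F0
  | .c => (sy .c)⁻¹ * sy .e
  | x => sy x

theorem thNeg_injective : Function.Injective (FreeGroup.lift thNeg) := by
  have h : (FreeGroup.lift thNegInv).comp (FreeGroup.lift thNeg) = MonoidHom.id F0 := by
    ext x
    cases x <;> simp [thNeg, thNegInv, sy]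
  have h2 : ∀ a, FreeGroup.lift thNegInv (FreeGroup.lift thNeg a) = a := fun a => by
    have := DFunLike.congr_fun h a
    simpa using this
  exact Function.LeftInverse.injective h2

/-- The transvection `c ↦ y c y⁻¹`. -/
def thTr : Sym → F0
  | .c => sy .y * sy .c * (sy .y)⁻¹
  | x => sy x

/-- Its inverse. -/
def thTrInv : Sym → F0
  | .c => (sy .y)⁻¹ * sy .c * sy .y
  | x => sy x

/-- The conjugate of `thCl`. -/
def thCl0 : Sym → F0
  | .c => (sy .y)⁻¹ * W0 (sy (.l 0)) (sy .y * sy .c * (sy .y)⁻¹) * sy .y
  | x => sy x

def loCl (x : Sym × Bool) : ℕ := if x.1 = .c then 1 else 0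

theorem thCl0_injective : Function.Injective (FreeGroup.lift thCl0) :=
  lift_injective thCl0 loCl loCl (by decide +kernel) (by decide +kernel)

theorem thCl_injective : Function.Injective (FreeGroup.lift thCl) := by
  have h : (FreeGroup.lift thTrInv).comp (FreeGroup.lift thTr) = MonoidHom.id F0 := by
    ext x
    cases x <;> simp [thTr, thTrInv, sy, mul_assoc]
  have h2 : ∀ a, FreeGroup.lift thTrInv (FreeGroup.lift thTr a) = a := fun a => by
    have := DFunLike.congr_fun h a
    simpa using this
  have h3 : (FreeGroup.lift thCl0).comp (FreeGroup.lift thTr) = FreeGroup.lift thCl := by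
    ext x
    cases x <;> simp [thTr, thCl0, thCl, sy, mul_assoc]
  have h4 : (FreeGroup.lift thCl : F0 → F0) = (FreeGroup.lift thCl0) ∘ (FreeGroup.lift thTr) := by
    rw [← h3]; rfl
  rw [h4]
  exact thCl0_injective.comp (Function.LeftInverse.injective h2)

/-! ### The truth values -/

/-- The five-cycle `γ`. -/
def gam : Equiv.Perm (Fin 5) := finRotate 5

/-- The three-cycle `μ`. -/
def mu : Equiv.Perm (Fin 5) := Equiv.swap 2 3 * Equiv.swap 3 4

/-- The values of the generators. -/
def hSym : Sym → Equiv.Perm (Fin 5)
  | .y => mu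
  | .e => gam
  | .c => gam
  | .l u => if u = 0 then 1 else gam
  | _ => 1

/-- The homomorphism onto `A₅`. -/
def hh : F0 →* Equiv.Perm (Fin 5) := FreeGroup.lift hSym

theorem W0_gam : W0 gam (mu * gam * mu⁻¹) = gam := by decide +kernel

theorem gam_ne_one : gam ≠ 1 := by decide +kernel

/-! ### The hard group -/

/-- The groups from which the homomorphisms start. -/
def HG : Op → Type
  | .pop => FreeGroup (Option Sym)
  | .read => FreeGroup (Sym × Bool)
  | .test => hh.ker
  | _ => F0

instance HGgroup : ∀ o : Op, Group (HG o)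
  | .pop => inferInstanceAs (Group (FreeGroup (Option Sym)))
  | .read => inferInstanceAs (Group (FreeGroup (Sym × Bool)))
  | .test => inferInstanceAs (Group hh.ker)
  | .forAll => inferInstanceAs (Group F0)
  | .neg => inferInstanceAs (Group F0)
  | .clause => inferInstanceAs (Group F0)
  | .inc => inferInstanceAs (Group F0)

/-- The sources. -/
def th0 : ∀ o : Op, HG o →* F0
  | .pop => (FreeGroup.lift thPop : FreeGroup (Option Sym) →* F0)
  | .read => (FreeGroup.lift thRead : FreeGroup (Sym × Bool) →* F0)
  | .test => (hh.ker.subtype : hh.ker →* F0)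
  | .forAll => MonoidHom.id F0
  | .neg => MonoidHom.id F0
  | .clause => MonoidHom.id F0
  | .inc => MonoidHom.id F0

/-- The targets. -/
def th1 : ∀ o : Op, HG o →* F0
  | .pop => (FreeGroup.lift thPop' : FreeGroup (Option Sym) →* F0)
  | .read => (FreeGroup.lift thRead' : FreeGroup (Sym × Bool) →* F0)
  | .test => (hh.ker.subtype : hh.ker →* F0)
  | .forAll => (FreeGroup.lift thAll : F0 →* F0)
  | .neg => (FreeGroup.lift thNeg : F0 →* F0)
  | .clause => (FreeGroup.lift thCl : F0 →* F0)
  | .inc => (FreeGroup.lift thInc : F0 →* F0)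

theorem th0_injective : ∀ o : Op, Function.Injective (th0 o)
  | .pop => thPop_injective
  | .read => thRead_injective
  | .test => hh.ker.subtype_injective
  | .forAll => fun _ _ h => h
  | .neg => fun _ _ h => h
  | .clause => fun _ _ h => h
  | .inc => fun _ _ h => h

theorem th1_injective : ∀ o : Op, Function.Injective (th1 o)
  | .pop => thPop'_injective
  | .read => thRead'_injective
  | .test => hh.ker.subtype_injective
  | .forAll => thAll_injective
  | .neg => thNeg_injective
  | .clause => thCl_injective
  | .inc => thInc_injective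

/-- The data of the hard group. -/
noncomputable def D0 : HData F0 Op := HData.ofHoms HG th0 th1 th0_injective th1_injective

theorem fg_HG : ∀ o : Op, Group.FG (HG o)
  | .pop => inferInstanceAs (Group.FG (FreeGroup (Option Sym)))
  | .read => inferInstanceAs (Group.FG (FreeGroup (Sym × Bool)))
  | .test => by
      have : hh.ker.FiniteIndex := by
        have : Finite (F0 ⧸ hh.ker) :=
          Finite.of_injective _ (QuotientGroup.kerLift_injective hh)
        exact Subgroup.finiteIndex_of_finite_quotient
      exact Subgroup.fg_of_index_ne_zero hh.ker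
  | .forAll => inferInstanceAs (Group.FG F0)
  | .neg => inferInstanceAs (Group.FG F0)
  | .clause => inferInstanceAs (Group.FG F0)
  | .inc => inferInstanceAs (Group.FG F0)

theorem fg_D0 (e : Op × Bool) : (D0.S e).FG := by
  have := fg_HG e.1
  have h : Group.FG (homOf HG th0 th1 e.1 e.2).range := Group.fg_range _
  exact (Group.fg_iff_subgroup_fg _).1 h

theorem rel_D0 (o : Op) (x : HG o) {G : Type} [Group G] (M : HModel D0 G) :
    M.ι (th0 o x) * M.t (o, true) = M.t (o, true) * M.ι (th1 o x) := by
  have h := M.rel (o, true) (th0 o x) ⟨x, rfl⟩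
  have h2 : D0.ψ (o, true) (th0 o x) = th1 o x :=
    psiOf_apply HG th0 th1 th0_injective th1_injective (o, true) x
  rw [h, h2]

end Pool.Agent.W_MP_1d4143_al
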