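import Pool.Agent.W_MP_1d4143_al.RQSem

/-!
# The quantified formula for reachability by repeated doubling: one step
-/

set_option autoImplicit false

namespace Pool.Agent.W_MP_1d4143_al

/-- at most one rewriting of the two adjacent blocks `i`, `i + 1` (of `k` bits) -/
def rqT (k m : ℕ) (Good : List Bool → List Bool → Prop) (A B : List Bool) : Prop :=
  A = B ∨ ∃ i, i + 2 ≤ m ∧ A.take (i * k) = B.take (i * k) ∧
    A.drop ((i + 2) * k) = B.drop ((i + 2) * k) ∧
    Good ((A.drop (i * k)).take (2 * k)) ((B.drop (i * k)).take (2 * k))

/-- all bit lists of length `n` -/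
def rqAll : ℕ → List (List Bool)
  | 0 => [[]]
  | n + 1 => (rqAll n).flatMap fun l => [false :: l, true :: l]

theorem mem_rqAll (n : ℕ) : ∀ l : List Bool, l ∈ rqAll n ↔ l.length = n := by
  induction n with
  | zero => intro l; simp [rqAll]
  | succ n ih =>
    intro l
    simp only [rqAll, List.mem_flatMap, List.mem_cons, List.not_mem_nil, or_false]
    constructor
    · rintro ⟨a, ha, rfl | rfl⟩ <;> simp [(ih a).1 ha]
    · intro h
      cases l with
      | nil => simp at h
      | cons b l =>
        refine ⟨l, (ih l).2 (by simpa using h), ?_⟩
        cases b <;> simp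

/-- the literals saying that a block differs from the given one -/
def rqLits (p : List Bool) : List (ℕ × Bool) := p.zipIdx.map fun z => (z.2, !z.1)

open Classical in
/-- the forbidden pairs of blocks -/
noncomputable def rqBad (k : ℕ) (Good : List Bool → List Bool → Prop) :
    List (List (ℕ × Bool) × List (ℕ × Bool)) :=
  (((rqAll (2 * k)).product (rqAll (2 * k))).filter fun p => ¬ Good p.1 p.2).map
    fun p => (rqLits p.1, rqLits p.2)

/-- the clauses of the last level -/
def rqLeaf (k m N o : ℕ) (Bad : List (List (ℕ × Bool) × List (ℕ × Bool))) :
    List (List (ℕ × Bool)) :=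
  [[(o + 2 * N, false)], [(o + 2 * N + m, false)]] ++
  (((List.range (m + 1)).flatMap fun i => (List.range i).map fun j =>
      [(o + 2 * N + i, false), (o + 2 * N + j, false)]) ++
  (((List.range m).flatMap fun i => (List.range k).flatMap fun a =>
      [[(o + 2 * N + i, true), (o + 2 * N + (i + 1), true), (o + (i * k + a), true),
        (o + (N + (i * k + a)), false)],
       [(o + 2 * N + i, true), (o + 2 * N + (i + 1), true), (o + (i * k + a), false),
        (o + (N + (i * k + a)), true)]]) ++
  ((List.range (m - 1)).flatMap fun i => Bad.map fun p =>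
      (o + 2 * N + (i + 1), false) :: ((p.1.map fun z => (o + (i * k + z.1), z.2)) ++
        (p.2.map fun z => (o + (N + (i * k + z.1)), z.2))))))

theorem rq_lits_iff (p x : List Bool) (n o : ℕ) (hp : p.length = n) :
    (∃ z ∈ rqLits p, x.getD (o + z.1) false = z.2) ↔ ¬ ∀ i < n, x.getD (o + i) false = p.getD i false := by
  unfold rqLits
  constructor
  · rintro ⟨z, hz, h⟩ hall
    obtain ⟨⟨b, i⟩, hbi, rfl⟩ := List.mem_map.1 hz
    obtain ⟨h1, h2⟩ := List.mem_zipIdx' hbi
    simp only at h1 h2 h
    have := hall i (by omega)
    rw [this, List.getD_eq_getElem _ _ h1, h2] at h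
    cases b <;> simp at h
  · intro hcon
    push Not at hcon
    obtain ⟨i, hi, h⟩ := hcon
    have hi' : i < p.length := by omega
    refine ⟨(i, !p[i]), List.mem_map.2 ⟨(p[i], i), ?_, rfl⟩, ?_⟩
    · rw [List.mem_zipIdx_iff_getElem?]
      simp [hi']
    · rw [List.getD_eq_getElem _ _ hi'] at h
      simp only
      cases hx : x.getD (o + i) false <;> cases hp : p[i] <;> simp_all

theorem rq_matrix_map {α : Type} (l : List α) (f : α → List (ℕ × Bool)) (x : List Bool) :
    Matrix (l.map f) x ↔ ∀ a ∈ l, ∃ t ∈ f a, x.getD t.1 false = t.2 := by
  unfold Matrix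
  simp only [List.mem_map, forall_exists_index, and_imp, forall_apply_eq_imp_iff₂]

open Classical in
/-- semantics of the last level under an assignment -/
theorem rq_leaf_sem (k m N : ℕ) (hN : N = m * k) (Good : List Bool → List Bool → Prop)
    (u A B e : List Bool) (o : ℕ) (hu : u.length = o) (hA : A.length = N) (hB : B.length = N)
    (he : e.length = m + 1) :
    Matrix (rqLeaf k m N o (rqBad k Good)) (u ++ A ++ B ++ e) ↔
      (e.getD 0 false = false ∧ e.getD m false = false) ∧
      (∀ i ≤ m, ∀ j < i, e.getD i false = false ∨ e.getD j false = false) ∧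
      (∀ i < m, ∀ a < k, e.getD i false = true ∨ e.getD (i + 1) false = true ∨
        A.getD (i * k + a) false = B.getD (i * k + a) false) ∧
      (∀ i < m - 1, e.getD (i + 1) false = false ∨
        Good ((A.drop (i * k)).take (2 * k)) ((B.drop (i * k)).take (2 * k))) := by
  set x := u ++ A ++ B ++ e with hx
  have eA : ∀ i < N, x.getD (o + i) false = A.getD i false := by
    intro i hi
    rw [hx]
    simp only [List.append_assoc]
    rw [rq_getD_add u _ o i hu]
    exact List.getD_append _ _ _ _ (by omega)
  have eB : ∀ i < N, x.getD (o + (N + i)) false = B.getD i false := by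
    intro i hi
    have h1 : (u ++ A).length = o + N := by rw [List.length_append]; omega
    have := rq_getD_add (u ++ A) (B ++ e) (o + N) i h1
    rw [hx, ← add_assoc, List.append_assoc (u ++ A), this]
    exact List.getD_append _ _ _ _ (by omega)
  have eE : ∀ i, x.getD (o + 2 * N + i) false = e.getD i false := by
    intro i
    have h1 : (u ++ A ++ B).length = o + 2 * N := by simp only [List.length_append]; omega
    rw [hx]
    exact rq_getD_add (u ++ A ++ B) e _ i h1
  have eE0 : x.getD (o + 2 * N) false = e.getD 0 false := eE 0
  unfold rqLeaf
  rw [rq_matrix_append, rq_matrix_append, rq_matrix_append]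
  refine and_congr ?_ (and_congr ?_ (and_congr ?_ ?_))
  · unfold Matrix
    simp only [List.mem_cons, List.not_mem_nil, or_false, forall_eq_or_imp, forall_eq,
      exists_eq_left, eE, eE0]
  · rw [rq_matrix_flatMap]
    simp only [rq_matrix_map, List.mem_range, List.mem_cons, List.not_mem_nil, or_false,
      exists_eq_or_imp, exists_eq_left, eE, Nat.lt_succ_iff]
  · rw [rq_matrix_flatMap]
    simp only [rq_matrix_flatMap, List.mem_range]
    refine forall_congr' fun i => forall_congr' fun hi => forall_congr' fun a =>
      forall_congr' fun ha => ?_
    have hlt : i * k + a < N := by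
      have : (i + 1) * k ≤ m * k := Nat.mul_le_mul_right k hi
      rw [hN]
      have e1 : (i + 1) * k = i * k + k := by ring
      omega
    unfold Matrix
    simp only [List.mem_cons, List.not_mem_nil, or_false, forall_eq_or_imp, forall_eq,
      exists_eq_or_imp, exists_eq_left, eE, eA _ hlt, eB _ hlt]
    cases A.getD (i * k + a) false <;> cases B.getD (i * k + a) false <;> simp
  · rw [rq_matrix_flatMap]
    simp only [rq_matrix_map, List.mem_range]
    refine forall_congr' fun i => forall_congr' fun hi => ?_
    have hle : (i + 2) * k ≤ N := by rw [hN]; exact Nat.mul_le_mul_right k (by omega)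
    have e2 : (i + 2) * k = i * k + 2 * k := by ring
    have hPA : ((A.drop (i * k)).take (2 * k)).length = 2 * k := by
      rw [List.length_take, List.length_drop]; omega
    have hPB : ((B.drop (i * k)).take (2 * k)).length = 2 * k := by
      rw [List.length_take, List.length_drop]; omega
    have gA : ∀ j < 2 * k, ((A.drop (i * k)).take (2 * k)).getD j false =
        x.getD (o + (i * k) + j) false := by
      intro j hj
      rw [add_assoc, eA _ (by omega), List.getD_eq_getElem _ _ (by omega),
        List.getD_eq_getElem _ _ (by omega), List.getElem_take, List.getElem_drop]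
    have gB : ∀ j < 2 * k, ((B.drop (i * k)).take (2 * k)).getD j false =
        x.getD (o + (N + i * k) + j) false := by
      intro j hj
      rw [add_assoc, add_assoc, eB _ (by omega), List.getD_eq_getElem _ _ (by omega),
        List.getD_eq_getElem _ _ (by omega), List.getElem_take, List.getElem_drop]
    have hcl : ∀ p : List Bool × List Bool, p.1.length = 2 * k → p.2.length = 2 * k →
        ((∃ t ∈ ((o + 2 * N + (i + 1), false) :: (((rqLits p.1).map
            fun z => (o + (i * k + z.1), z.2)) ++ ((rqLits p.2).map
            fun z => (o + (N + (i * k + z.1)), z.2)))), x.getD t.1 false = t.2) ↔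
          (e.getD (i + 1) false = false ∨ ¬ ((A.drop (i * k)).take (2 * k) = p.1 ∧
            (B.drop (i * k)).take (2 * k) = p.2))) := by
      rintro ⟨p, q⟩ hp hq
      simp only at hp hq
      have h1 := rq_lits_iff p x (2 * k) (o + i * k) hp
      have h2 := rq_lits_iff q x (2 * k) (o + (N + i * k)) hq
      have h3 : (A.drop (i * k)).take (2 * k) = p ↔
          ∀ j < 2 * k, x.getD (o + i * k + j) false = p.getD j false := by
        rw [rq_ext hPA hp]
        refine forall_congr' fun j => forall_congr' fun hj => ?_
        rw [gA j hj]
      have h4 : (B.drop (i * k)).take (2 * k) = q ↔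
          ∀ j < 2 * k, x.getD (o + (N + i * k) + j) false = q.getD j false := by
        rw [rq_ext hPB hq]
        refine forall_congr' fun j => forall_congr' fun hj => ?_
        rw [gB j hj]
      simp only [h3, h4, not_and_or, ← h1, ← h2, List.mem_cons, List.mem_append, List.mem_map,
        or_and_right, exists_or, exists_eq_left, eE]
      refine or_congr_right (or_congr ?_ ?_)
      · constructor
        · rintro ⟨t, ⟨z, hz, rfl⟩, h⟩
          exact ⟨z, hz, by rw [← h]; congr 1; ring⟩
        · rintro ⟨z, hz, h⟩
          exact ⟨_, ⟨z, hz, rfl⟩, by rw [← h]; congr 1; ring⟩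
      · constructor
        · rintro ⟨t, ⟨z, hz, rfl⟩, h⟩
          exact ⟨z, hz, by rw [← h]; congr 1; ring⟩
        · rintro ⟨z, hz, h⟩
          exact ⟨_, ⟨z, hz, rfl⟩, by rw [← h]; congr 1; ring⟩
    constructor
    · intro h
      by_contra hcon
      push Not at hcon
      obtain ⟨hc1, hc2⟩ := hcon
      have hmem : (rqLits ((A.drop (i * k)).take (2 * k)), rqLits ((B.drop (i * k)).take (2 * k))) ∈
          rqBad k Good := by
        unfold rqBad
        refine List.mem_map.2 ⟨((A.drop (i * k)).take (2 * k), (B.drop (i * k)).take (2 * k)),
          List.mem_filter.2 ⟨List.mem_product.2 ⟨(mem_rqAll _ _).2 hPA, (mem_rqAll _ _).2 hPB⟩, ?_⟩,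
          rfl⟩
        simpa using hc2
      have := (hcl ((A.drop (i * k)).take (2 * k), (B.drop (i * k)).take (2 * k)) hPA hPB).1
        (h _ hmem)
      rcases this with h1 | h1
      · exact hc1 h1
      · exact h1 ⟨rfl, rfl⟩
    · intro h p hp
      unfold rqBad at hp
      obtain ⟨q, hq, rfl⟩ := List.mem_map.1 hp
      obtain ⟨hq1, hq2⟩ := List.mem_filter.1 hq
      obtain ⟨hq3, hq4⟩ := List.mem_product.1 hq1
      have hq2' : ¬ Good q.1 q.2 := by simpa using hq2
      refine (hcl q ((mem_rqAll _ _).1 hq3) ((mem_rqAll _ _).1 hq4)).2 ?_
      rcases h with h | h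
      · exact Or.inl h
      · right
        rintro ⟨h1, h2⟩
        rw [h1, h2] at h
        exact hq2' h

theorem rq_leaf (k m N : ℕ) (hN : N = m * k) (Good : List Bool → List Bool → Prop)
    (u A B : List Bool) (o : ℕ) (hu : u.length = o) (hA : A.length = N) (hB : B.length = N) :
    Holds (rqLeaf k m N o (rqBad k Good)) (List.replicate (m + 1) false) (u ++ A ++ B) ↔
      rqT k m Good A B := by
  have h0 := rq_holds_ex (rqLeaf k m N o (rqBad k Good)) (m + 1) [] (u ++ A ++ B)
  rw [List.append_nil] at h0
  rw [h0]
  constructor
  · rintro ⟨e, he, h⟩
    have h' : Matrix (rqLeaf k m N o (rqBad k Good)) (u ++ A ++ B ++ e) := h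
    rw [rq_leaf_sem k m N hN Good u A B e o hu hA hB he] at h'
    obtain ⟨⟨h1, h2⟩, h3, h4, h5⟩ := h'
    by_cases hex : ∃ i, i ≤ m ∧ e.getD i false = true
    · obtain ⟨i0, hi0, hi1⟩ := hex
      have hi2 : i0 ≠ 0 := by rintro rfl; rw [h1] at hi1; simp at hi1
      have hi3 : i0 ≠ m := by rintro rfl; rw [h2] at hi1; simp at hi1
      obtain ⟨i, rfl⟩ : ∃ i, i0 = i + 1 := ⟨i0 - 1, by omega⟩
      have huniq : ∀ j ≤ m, j ≠ i + 1 → e.getD j false = false := by
        intro j hj hne
        rcases lt_or_gt_of_ne hne with hlt | hgt
        · rcases h3 (i + 1) hi0 j hlt with h | h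
          · rw [hi1] at h; simp at h
          · exact h
        · rcases h3 j hj (i + 1) hgt with h | h
          · exact h
          · rw [hi1] at h; simp at h
      have hrow : ∀ n < N, n / k ≠ i → n / k ≠ i + 1 → A.getD n false = B.getD n false := by
        intro n hn hn1 hn2
        have hk : 0 < k := by
          rcases Nat.eq_zero_or_pos k with hk | hk
          · subst hk; rw [hN] at hn; simp at hn
          · exact hk
        have hdm : n / k * k + n % k = n := by rw [mul_comm]; exact Nat.div_add_mod n k
        have hlt : n / k < m := by
          rw [Nat.div_lt_iff_lt_mul hk]; omega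
        rcases h4 (n / k) hlt (n % k) (Nat.mod_lt _ hk) with h | h | h
        · rw [huniq (n / k) (by omega) (by omega)] at h; simp at h
        · rw [huniq (n / k + 1) (by omega) (by omega)] at h; simp at h
        · rwa [hdm] at h
      have hle : (i + 2) * k ≤ N := by rw [hN]; exact Nat.mul_le_mul_right k (by omega)
      have e2 : (i + 2) * k = i * k + 2 * k := by ring
      refine Or.inr ⟨i, by omega, ?_, ?_, ?_⟩
      · have l1 : (A.take (i * k)).length = i * k := by rw [List.length_take]; omega
        have l2 : (B.take (i * k)).length = i * k := by rw [List.length_take]; omega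
        rw [rq_ext l1 l2]
        intro n hn
        have hlt : n / k < i := Nat.div_lt_of_lt_mul (by rwa [mul_comm])
        have := hrow n (by omega) (by omega) (by omega)
        rw [List.getD_eq_getElem _ _ (by omega), List.getD_eq_getElem _ _ (by omega)] at this
        rw [List.getD_eq_getElem _ _ (by omega), List.getD_eq_getElem _ _ (by omega),
          List.getElem_take, List.getElem_take]
        exact this
      · have l1 : (A.drop ((i + 2) * k)).length = N - (i + 2) * k := by
          rw [List.length_drop]; omega
        have l2 : (B.drop ((i + 2) * k)).length = N - (i + 2) * k := by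
          rw [List.length_drop]; omega
        rw [rq_ext l1 l2]
        intro n hn
        have hk : 0 < k := by
          rcases Nat.eq_zero_or_pos k with hk | hk
          · subst hk; rw [hN] at hn; simp at hn
          · exact hk
        have hge : i + 2 ≤ ((i + 2) * k + n) / k := by
          rw [Nat.le_div_iff_mul_le hk]; omega
        have := hrow ((i + 2) * k + n) (by omega) (by omega) (by omega)
        rw [List.getD_eq_getElem _ _ (by omega), List.getD_eq_getElem _ _ (by omega)] at this
        rw [List.getD_eq_getElem _ _ (by omega), List.getD_eq_getElem _ _ (by omega),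
          List.getElem_drop, List.getElem_drop]
        exact this
      · rcases h5 i (by omega) with h | h
        · rw [hi1] at h; simp at h
        · exact h
    · push Not at hex
      left
      rw [rq_ext hA hB]
      intro n hn
      have hk : 0 < k := by
        rcases Nat.eq_zero_or_pos k with hk | hk
        · subst hk; rw [hN] at hn; simp at hn
        · exact hk
      have hdm : n / k * k + n % k = n := by rw [mul_comm]; exact Nat.div_add_mod n k
      have hlt : n / k < m := by
        rw [Nat.div_lt_iff_lt_mul hk]; omega
      rcases h4 (n / k) hlt (n % k) (Nat.mod_lt _ hk) with h | h | h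
      · exact absurd h (hex (n / k) (by omega))
      · exact absurd h (hex (n / k + 1) (by omega))
      · rwa [hdm] at h
  · intro hT
    rcases hT with rfl | ⟨i, hi, h1, h2, h3⟩
    · refine ⟨List.replicate (m + 1) false, by simp, ?_⟩
      show Matrix _ _
      rw [rq_leaf_sem k m N hN Good u A A _ o hu hA hB (by simp)]
      have hf : ∀ i, (List.replicate (m + 1) false).getD i false = false := by
        intro i
        by_cases hi : i < m + 1
        · rw [List.getD_eq_getElem _ _ (by simpa using hi)]; simp
        · rw [List.getD_eq_default _ _ (by simp; omega)]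
      exact ⟨⟨hf 0, hf m⟩, fun i _ j _ => Or.inl (hf i), fun i _ a _ => Or.inr (Or.inr rfl),
        fun i _ => Or.inl (hf _)⟩
    · refine ⟨(List.range (m + 1)).map (fun j => decide (j = i + 1)), by simp, ?_⟩
      show Matrix _ _
      rw [rq_leaf_sem k m N hN Good u A B _ o hu hA hB (by simp)]
      have hf : ∀ j ≤ m, ((List.range (m + 1)).map (fun j => decide (j = i + 1))).getD j false =
          decide (j = i + 1) := by
        intro j hj
        rw [List.getD_eq_getElem _ _ (by simp; omega)]
        simp
      have hle : (i + 2) * k ≤ N := by rw [hN]; exact Nat.mul_le_mul_right k (by omega)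
      have e2 : (i + 2) * k = i * k + 2 * k := by ring
      refine ⟨⟨?_, ?_⟩, ?_, ?_, ?_⟩
      · rw [hf 0 (by omega)]; simp
      · rw [hf m le_rfl]; simp; omega
      · intro j hj j' hj'
        rw [hf j hj, hf j' (by omega)]
        simp only [decide_eq_false_iff_not]
        omega
      · intro j hj a ha
        rw [hf j (by omega), hf (j + 1) (by omega)]
        simp only [decide_eq_true_eq]
        by_cases c1 : j = i + 1
        · exact Or.inl c1
        by_cases c2 : j = i
        · exact Or.inr (Or.inl (by omega))
        right; right
        have hlt : j * k + a < N := by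
          have : (j + 1) * k ≤ m * k := Nat.mul_le_mul_right k hj
          rw [hN]
          have e1 : (j + 1) * k = j * k + k := by ring
          omega
        rcases lt_or_gt_of_ne c2 with hlt' | hgt
        · have hlt2 : j * k + a < i * k := by
            have : (j + 1) * k ≤ i * k := Nat.mul_le_mul_right k hlt'
            have e1 : (j + 1) * k = j * k + k := by ring
            omega
          have h4 := congrArg (fun l => l.getD (j * k + a) false) h1
          rw [List.getD_eq_getElem _ _ (by rw [List.length_take]; omega),
            List.getD_eq_getElem _ _ (by rw [List.length_take]; omega),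
            List.getElem_take, List.getElem_take] at h4
          rw [List.getD_eq_getElem _ _ (by omega), List.getD_eq_getElem _ _ (by omega)]
          exact h4
        · have hge : (i + 2) * k ≤ j * k := Nat.mul_le_mul_right k (by omega)
          have h4 := congrArg (fun l => l.getD (j * k + a - (i + 2) * k) false) h2
          rw [List.getD_eq_getElem _ _ (by rw [List.length_drop]; omega),
            List.getD_eq_getElem _ _ (by rw [List.length_drop]; omega),
            List.getElem_drop, List.getElem_drop] at h4
          rw [List.getD_eq_getElem _ _ (by omega), List.getD_eq_getElem _ _ (by omega)]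
          have e3 : (i + 2) * k + (j * k + a - (i + 2) * k) = j * k + a := by omega
          simp only [e3] at h4
          exact h4
      · intro j hj
        rw [hf (j + 1) (by omega)]
        by_cases c : j = i
        · subst c; exact Or.inr h3
        · left
          simp only [decide_eq_false_iff_not]
          omega

end Pool.Agent.W_MP_1d4143_al
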