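import Mathlib

/-!
# Reachability by repeated doubling
-/

set_option autoImplicit false

namespace Pool.Agent.W_MP_1d4143_al

section
variable {X : Type} (T : X → X → Prop)

/-- `b` is reached from `a` in `n` steps -/
def rqIter : ℕ → X → X → Prop
  | 0, a, b => a = b
  | n + 1, a, b => ∃ c, rqIter n a c ∧ T c b

/-- `b` is reached from `a` in `2 ^ n` steps -/
def rqDbl : ℕ → X → X → Prop
  | 0, a, b => T a b
  | n + 1, a, b => ∃ c, rqDbl n a c ∧ rqDbl n c b

variable {T}

theorem rqIter_add (n m : ℕ) (a b : X) :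
    rqIter T (n + m) a b ↔ ∃ c, rqIter T n a c ∧ rqIter T m c b := by
  induction m generalizing b with
  | zero => simp [rqIter]
  | succ m ih =>
    constructor
    · rintro ⟨d, h1, h2⟩
      obtain ⟨c, h3, h4⟩ := (ih d).1 h1
      exact ⟨c, h3, d, h4, h2⟩
    · rintro ⟨c, h1, d, h2, h3⟩
      exact ⟨d, (ih d).2 ⟨c, h1, h2⟩, h3⟩

theorem rqDbl_iff (n : ℕ) (a b : X) : rqDbl T n a b ↔ rqIter T (2 ^ n) a b := by
  induction n generalizing a b with
  | zero =>
    simp only [rqDbl, pow_zero, rqIter]
    constructor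
    · intro h; exact ⟨a, rfl, h⟩
    · rintro ⟨c, rfl, h⟩; exact h
  | succ n ih =>
    rw [pow_succ, mul_two, rqIter_add]
    simp only [rqDbl, ih]

theorem rqIter_reach (n : ℕ) (a b : X) (h : rqIter T n a b) : Relation.ReflTransGen T a b := by
  induction n generalizing b with
  | zero => cases h; exact .refl
  | succ n ih =>
    obtain ⟨c, h1, h2⟩ := h
    exact (ih c h1).tail h2

theorem rqIter_mono (hT : ∀ a, T a a) {n m : ℕ} (h : n ≤ m) (a b : X) (hab : rqIter T n a b) :
    rqIter T m a b := by
  induction m, h using Nat.le_induction with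
  | base => exact hab
  | succ m _ ih => exact ⟨b, ih, hT b⟩

theorem rqIter_of_reach [Fintype X] (hT : ∀ a, T a a) (a b : X)
    (h : Relation.ReflTransGen T a b) : rqIter T (Fintype.card X) a b := by
  classical
  let S : ℕ → Finset X := fun n => Finset.univ.filter (fun x => rqIter T n a x)
  have hS : ∀ n x, x ∈ S n ↔ rqIter T n a x := fun n x => by simp [S]
  have hsub : ∀ n, S n ⊆ S (n + 1) := fun n x hx => (hS _ _).2 ⟨x, (hS _ _).1 hx, hT x⟩
  have hstab : ∃ n ≤ Fintype.card X, S n = S (n + 1) := by
    by_contra hcon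
    push Not at hcon
    have hcard : ∀ n, n ≤ Fintype.card X + 1 → n ≤ (S n).card := by
      intro n
      induction n with
      | zero => intro _; exact Nat.zero_le _
      | succ n ih =>
        intro hn
        have h1 := ih (by omega)
        have h2 : (S n).card < (S (n + 1)).card :=
          Finset.card_lt_card ((hsub n).ssubset_of_ne (hcon n (by omega)))
        omega
    have h1 := hcard (Fintype.card X + 1) le_rfl
    have h2 := Finset.card_le_univ (S (Fintype.card X + 1))
    omega
  obtain ⟨n, hn, hst⟩ := hstab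
  have hb : b ∈ S n := by
    induction h with
    | refl => exact (hS _ _).2 (rqIter_mono hT (Nat.zero_le n) a a rfl)
    | tail _ h2 ih => rw [hst]; exact (hS _ _).2 ⟨_, (hS _ _).1 ih, h2⟩
  exact rqIter_mono hT hn a b ((hS _ _).1 hb)

theorem rqDbl_of_reach [Fintype X] (hT : ∀ a, T a a) (n : ℕ) (hn : Fintype.card X ≤ 2 ^ n)
    (a b : X) : rqDbl T n a b ↔ Relation.ReflTransGen T a b := by
  rw [rqDbl_iff]
  exact ⟨rqIter_reach _ a b, fun h => rqIter_mono hT hn a b (rqIter_of_reach hT a b h)⟩

end

end Pool.Agent.W_MP_1d4143_al
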