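import Pool.Agent.W_MP_1d4143_al.Defs
import Pool.Agent.W_MP_1d4143_al.RQRel

/-!
# The quantified formula for reachability by repeated doubling: semantics
-/

set_option autoImplicit false

namespace Pool.Agent.W_MP_1d4143_al

theorem rq_matrix_append (P Q : List (List (ℕ × Bool))) (x : List Bool) :
    Matrix (P ++ Q) x ↔ Matrix P x ∧ Matrix Q x := by
  unfold Matrix
  constructor
  · intro h
    exact ⟨fun c hc => h c (List.mem_append_left _ hc), fun c hc => h c (List.mem_append_right _ hc)⟩
  · rintro ⟨h1, h2⟩ c hc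
    rcases List.mem_append.1 hc with hc | hc
    · exact h1 c hc
    · exact h2 c hc

theorem rq_matrix_flatMap {α : Type} (l : List α) (f : α → List (List (ℕ × Bool)))
    (x : List Bool) : Matrix (l.flatMap f) x ↔ ∀ a ∈ l, Matrix (f a) x := by
  unfold Matrix
  constructor
  · intro h a ha c hc
    exact h c (List.mem_flatMap.2 ⟨a, ha, hc⟩)
  · intro h c hc
    obtain ⟨a, ha, hc⟩ := List.mem_flatMap.1 hc
    exact h a ha c hc

theorem rq_matrix_nil (x : List Bool) : Matrix [] x := by
  intro c hc
  cases hc

theorem rq_matrix_local (P : List (List (ℕ × Bool))) (x y : List Bool)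
    (h : ∀ c ∈ P, ∀ l ∈ c, l.1 < x.length) : Matrix P (x ++ y) ↔ Matrix P x := by
  unfold Matrix
  constructor
  · intro h1 c hc
    obtain ⟨l, hl, e⟩ := h1 c hc
    exact ⟨l, hl, by rw [← e, List.getD_append _ _ _ _ (h c hc l hl)]⟩
  · intro h1 c hc
    obtain ⟨l, hl, e⟩ := h1 c hc
    exact ⟨l, hl, by rw [← e, List.getD_append _ _ _ _ (h c hc l hl)]⟩

theorem rq_holds_split (P Q : List (List (ℕ × Bool))) (q : List Bool) : ∀ (x : List Bool),
    (∀ c ∈ P, ∀ l ∈ c, l.1 < x.length) →
    (Holds (P ++ Q) q x ↔ Matrix P x ∧ Holds Q q x) := by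
  induction q with
  | nil => intro x _; exact rq_matrix_append P Q x
  | cons b q ih =>
    intro x hx
    have h1 : ∀ d : Bool, Holds (P ++ Q) q (x ++ [d]) ↔ Matrix P x ∧ Holds Q q (x ++ [d]) := by
      intro d
      rw [ih (x ++ [d]) (fun c hc l hl => by
        have := hx c hc l hl
        rw [List.length_append]; omega), rq_matrix_local P x [d] hx]
    cases b
    · show Holds (P ++ Q) q (x ++ [false]) ∨ Holds (P ++ Q) q (x ++ [true]) ↔ _
      rw [h1, h1]
      show _ ↔ Matrix P x ∧ (Holds Q q (x ++ [false]) ∨ Holds Q q (x ++ [true]))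
      tauto
    · show Holds (P ++ Q) q (x ++ [false]) ∧ Holds (P ++ Q) q (x ++ [true]) ↔ _
      rw [h1, h1]
      show _ ↔ Matrix P x ∧ (Holds Q q (x ++ [false]) ∧ Holds Q q (x ++ [true]))
      tauto

theorem rq_holds_ex (cl : List (List (ℕ × Bool))) (n : ℕ) (q : List Bool) : ∀ (x : List Bool),
    Holds cl (List.replicate n false ++ q) x ↔ ∃ y : List Bool, y.length = n ∧ Holds cl q (x ++ y) := by
  induction n with
  | zero =>
    intro x
    constructor
    · intro h; exact ⟨[], rfl, by simpa using h⟩
    · rintro ⟨y, hy, h⟩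
      rw [List.eq_nil_of_length_eq_zero hy, List.append_nil] at h
      exact h
  | succ n ih =>
    intro x
    rw [List.replicate_succ, List.cons_append]
    show Holds cl (List.replicate n false ++ q) (x ++ [false]) ∨
      Holds cl (List.replicate n false ++ q) (x ++ [true]) ↔ _
    rw [ih, ih]
    constructor
    · rintro (⟨y, hy, h⟩ | ⟨y, hy, h⟩)
      · exact ⟨false :: y, by simp [hy], by simpa using h⟩
      · exact ⟨true :: y, by simp [hy], by simpa using h⟩
    · rintro ⟨y, hy, h⟩
      cases y with
      | nil => simp at hy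
      | cons b y =>
        have hy' : y.length = n := by simpa using hy
        cases b
        · exact Or.inl ⟨y, hy', by simpa using h⟩
        · exact Or.inr ⟨y, hy', by simpa using h⟩

/-- clauses saying that the literal `e` holds or the variables `i`, `j` have the same value -/
def rqEq (e : ℕ × Bool) (i j : ℕ) : List (List (ℕ × Bool)) :=
  [[e, (i, true), (j, false)], [e, (i, false), (j, true)]]

theorem rqEq_iff (e : ℕ × Bool) (i j : ℕ) (x : List Bool) :
    Matrix (rqEq e i j) x ↔ x.getD e.1 false = e.2 ∨ x.getD i false = x.getD j false := by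
  unfold Matrix rqEq
  simp only [List.mem_cons, List.not_mem_nil, or_false, forall_eq_or_imp, forall_eq,
    exists_eq_or_imp, exists_eq_left]
  cases x.getD i false <;> cases x.getD j false <;> simp

/-- the clauses connecting the levels `l` and `l + 1` -/
def rqLevel (N l : ℕ) : List (List (ℕ × Bool)) :=
  (List.range N).flatMap fun i =>
    (rqEq (l * (3 * N + 1) + 3 * N, true) ((l + 1) * (3 * N + 1) + i) (l * (3 * N + 1) + i) ++
    rqEq (l * (3 * N + 1) + 3 * N, true) ((l + 1) * (3 * N + 1) + (N + i))
      (l * (3 * N + 1) + (2 * N + i))) ++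
    (rqEq (l * (3 * N + 1) + 3 * N, false) ((l + 1) * (3 * N + 1) + i)
      (l * (3 * N + 1) + (2 * N + i)) ++
    rqEq (l * (3 * N + 1) + 3 * N, false) ((l + 1) * (3 * N + 1) + (N + i))
      (l * (3 * N + 1) + (N + i)))

theorem rqEq_lt (e : ℕ × Bool) (i j n : ℕ) (he : e.1 < n) (hi : i < n) (hj : j < n) :
    ∀ c ∈ rqEq e i j, ∀ l ∈ c, l.1 < n := by
  intro c hc l hl
  unfold rqEq at hc
  simp only [List.mem_cons, List.not_mem_nil, or_false] at hc
  rcases hc with rfl | rfl <;> simp only [List.mem_cons, List.not_mem_nil, or_false] at hl <;>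
    rcases hl with rfl | rfl | rfl <;> assumption

theorem rqLevel_lt (N l n : ℕ) (hn : (l + 1) * (3 * N + 1) + 2 * N ≤ n) :
    ∀ c ∈ rqLevel N l, ∀ t ∈ c, t.1 < n := by
  intro c hc
  unfold rqLevel at hc
  obtain ⟨i, hi, hc⟩ := List.mem_flatMap.1 hc
  have hi := List.mem_range.1 hi
  have e1 : (l + 1) * (3 * N + 1) = l * (3 * N + 1) + (3 * N + 1) := by ring
  rcases List.mem_append.1 hc with hc | hc <;> rcases List.mem_append.1 hc with hc | hc
  · exact rqEq_lt _ _ _ n (by simp only; omega) (by omega) (by omega) c hc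
  · exact rqEq_lt _ _ _ n (by simp only; omega) (by omega) (by omega) c hc
  · exact rqEq_lt _ _ _ n (by simp only; omega) (by omega) (by omega) c hc
  · exact rqEq_lt _ _ _ n (by simp only; omega) (by omega) (by omega) c hc

theorem rq_getD_add (u v : List Bool) (o n : ℕ) (hu : u.length = o) :
    (u ++ v).getD (o + n) false = v.getD n false := by
  rw [List.getD_append_right _ _ _ _ (by omega)]
  congr 1; omega

theorem rq_ext {N : ℕ} {A B : List Bool} (hA : A.length = N) (hB : B.length = N) :
    A = B ↔ ∀ i < N, A.getD i false = B.getD i false := by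
  constructor
  · rintro rfl _ _; rfl
  · intro h
    apply List.ext_getElem (by omega)
    intro i h1 h2
    have := h i (by omega)
    rwa [List.getD_eq_getElem _ _ h1, List.getD_eq_getElem _ _ h2] at this

theorem rq_level_sem (N l : ℕ) (u A B M A' B' : List Bool) (b : Bool)
    (hu : u.length = l * (3 * N + 1)) (hA : A.length = N) (hB : B.length = N)
    (hM : M.length = N) (hA' : A'.length = N) (hB' : B'.length = N) :
    Matrix (rqLevel N l) (u ++ A ++ B ++ M ++ [b] ++ A' ++ B') ↔
      (b = false → A' = A ∧ B' = M) ∧ (b = true → A' = M ∧ B' = B) := by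
  unfold rqLevel
  rw [rq_matrix_flatMap]
  simp only [rq_matrix_append, rqEq_iff, List.mem_range]
  have e0 : (u ++ A ++ B ++ M ++ [b] ++ A' ++ B').getD (l * (3 * N + 1) + 3 * N) false = b := by
    have h1 : (u ++ A ++ B ++ M).length = l * (3 * N + 1) + 3 * N := by
      simp only [List.length_append]; omega
    have := rq_getD_add (u ++ A ++ B ++ M) ([b] ++ A' ++ B') _ 0 h1
    simp only [← List.append_assoc] at this
    rw [add_zero] at this
    rw [this]; rfl
  have eA : ∀ i < N, (u ++ A ++ B ++ M ++ [b] ++ A' ++ B').getD (l * (3 * N + 1) + i) false =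
      A.getD i false := by
    intro i hi
    have := rq_getD_add u (A ++ B ++ M ++ [b] ++ A' ++ B') _ i hu
    simp only [← List.append_assoc] at this
    rw [this]
    simp only [List.append_assoc]
    exact List.getD_append _ _ _ _ (by omega)
  have eB : ∀ i < N, (u ++ A ++ B ++ M ++ [b] ++ A' ++ B').getD (l * (3 * N + 1) + (N + i)) false =
      B.getD i false := by
    intro i hi
    have h1 : (u ++ A).length = l * (3 * N + 1) + N := by
      simp only [List.length_append]; omega
    have := rq_getD_add (u ++ A) (B ++ M ++ [b] ++ A' ++ B') _ i h1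
    simp only [← List.append_assoc] at this
    rw [← add_assoc, this]
    simp only [List.append_assoc]
    exact List.getD_append _ _ _ _ (by omega)
  have eM : ∀ i < N, (u ++ A ++ B ++ M ++ [b] ++ A' ++ B').getD
      (l * (3 * N + 1) + (2 * N + i)) false = M.getD i false := by
    intro i hi
    have h1 : (u ++ A ++ B).length = l * (3 * N + 1) + 2 * N := by
      simp only [List.length_append]; omega
    have := rq_getD_add (u ++ A ++ B) (M ++ [b] ++ A' ++ B') _ i h1
    simp only [← List.append_assoc] at this
    rw [← add_assoc, this]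
    simp only [List.append_assoc]
    exact List.getD_append _ _ _ _ (by omega)
  have eA' : ∀ i < N, (u ++ A ++ B ++ M ++ [b] ++ A' ++ B').getD
      ((l + 1) * (3 * N + 1) + i) false = A'.getD i false := by
    intro i hi
    have h1 : (u ++ A ++ B ++ M ++ [b]).length = (l + 1) * (3 * N + 1) := by
      have e1 : (l + 1) * (3 * N + 1) = l * (3 * N + 1) + (3 * N + 1) := by ring
      simp only [List.length_append, List.length_singleton]; omega
    have := rq_getD_add (u ++ A ++ B ++ M ++ [b]) (A' ++ B') _ i h1
    simp only [← List.append_assoc] at this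
    rw [this]
    exact List.getD_append _ _ _ _ (by omega)
  have eB' : ∀ i < N, (u ++ A ++ B ++ M ++ [b] ++ A' ++ B').getD
      ((l + 1) * (3 * N + 1) + (N + i)) false = B'.getD i false := by
    intro i hi
    have h1 : (u ++ A ++ B ++ M ++ [b] ++ A').length = (l + 1) * (3 * N + 1) + N := by
      have e1 : (l + 1) * (3 * N + 1) = l * (3 * N + 1) + (3 * N + 1) := by ring
      simp only [List.length_append, List.length_singleton]; omega
    have := rq_getD_add (u ++ A ++ B ++ M ++ [b] ++ A') B' _ i h1
    rw [← add_assoc, this]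
  rw [rq_ext hA' hA, rq_ext hB' hM, rq_ext hA' hM, rq_ext hB' hB]
  constructor
  · intro h
    constructor
    · intro hb
      subst hb
      constructor <;> intro i hi <;> have := h i hi <;>
        rw [e0, eA i hi, eA' i hi, eB i hi, eB' i hi, eM i hi] at this <;> simp at this
      · exact this.1
      · exact this.2
    · intro hb
      subst hb
      constructor <;> intro i hi <;> have := h i hi <;>
        rw [e0, eA i hi, eA' i hi, eB i hi, eB' i hi, eM i hi] at this <;> simp at this
      · exact this.1
      · exact this.2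
  · rintro ⟨h1, h2⟩ i hi
    rw [e0, eA i hi, eA' i hi, eB i hi, eB' i hi, eM i hi]
    cases b
    · have := h1 rfl
      exact ⟨⟨Or.inr (this.1 i hi), Or.inr (this.2 i hi)⟩, ⟨Or.inl rfl, Or.inl rfl⟩⟩
    · have := h2 rfl
      exact ⟨⟨Or.inl rfl, Or.inl rfl⟩, ⟨Or.inr (this.1 i hi), Or.inr (this.2 i hi)⟩⟩

/-- the quantifiers -/
def rqQ (N : ℕ) (qL : List Bool) : ℕ → List Bool
  | 0 => qL
  | j + 1 => List.replicate N false ++ (true :: (List.replicate (2 * N) false ++ rqQ N qL j))

theorem rq_levels (N r : ℕ) (Leaf : List (List (ℕ × Bool))) (qL : List Bool)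
    (T : List Bool → List Bool → Prop)
    (hLeaf : ∀ u A B : List Bool, u.length = r * (3 * N + 1) → A.length = N → B.length = N →
      (Holds Leaf qL (u ++ A ++ B) ↔ T A B)) (j : ℕ) :
    ∀ l, l + j = r → ∀ (u A B : List Bool) (_ : u.length = l * (3 * N + 1))
      (hA : A.length = N) (hB : B.length = N),
      (Holds ((List.range' l j).flatMap (rqLevel N) ++ Leaf) (rqQ N qL j) (u ++ A ++ B) ↔
        rqDbl (fun a b : {l : List Bool // l.length = N} => T a.1 b.1) j ⟨A, hA⟩ ⟨B, hB⟩) := by
  induction j with
  | zero =>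
    intro l hl u A B hu hA hB
    have : l = r := by omega
    subst this
    simp only [List.range'_zero, List.flatMap_nil, List.nil_append, rqQ, rqDbl]
    exact hLeaf u A B hu hA hB
  | succ j ih =>
    intro l hl u A B hu hA hB
    have ih' := ih (l + 1) (by omega)
    rw [List.range'_succ, List.flatMap_cons, List.append_assoc]
    simp only [rqQ]
    rw [rq_holds_ex]
    -- the two instances of the universal quantifier
    have hb : ∀ (M : List Bool) (hM : M.length = N) (b : Bool),
        Holds (rqLevel N l ++ ((List.range' (l + 1) j).flatMap (rqLevel N) ++ Leaf))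
          (List.replicate (2 * N) false ++ rqQ N qL j) (u ++ A ++ B ++ M ++ [b]) ↔
        (b = false → rqDbl (fun a b : {l : List Bool // l.length = N} => T a.1 b.1) j
          ⟨A, hA⟩ ⟨M, hM⟩) ∧
        (b = true → rqDbl (fun a b : {l : List Bool // l.length = N} => T a.1 b.1) j
          ⟨M, hM⟩ ⟨B, hB⟩) := by
      intro M hM b
      have hlen : (u ++ A ++ B ++ M ++ [b]).length = (l + 1) * (3 * N + 1) := by
        have e1 : (l + 1) * (3 * N + 1) = l * (3 * N + 1) + (3 * N + 1) := by ring
        simp only [List.length_append, List.length_singleton]; omega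
      rw [rq_holds_ex]
      have key : ∀ (A' B' : List Bool) (hA' : A'.length = N) (hB' : B'.length = N),
          Holds (rqLevel N l ++ ((List.range' (l + 1) j).flatMap (rqLevel N) ++ Leaf))
            (rqQ N qL j) (u ++ A ++ B ++ M ++ [b] ++ (A' ++ B')) ↔
          ((b = false → A' = A ∧ B' = M) ∧ (b = true → A' = M ∧ B' = B)) ∧
            rqDbl (fun a b : {l : List Bool // l.length = N} => T a.1 b.1) j
              ⟨A', hA'⟩ ⟨B', hB'⟩ := by
        intro A' B' hA' hB'
        rw [rq_holds_split, ← List.append_assoc, rq_level_sem N l u A B M A' B' b hu hA hB hM hA' hB',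
          ih' _ A' B' hlen hA' hB']
        apply rqLevel_lt
        rw [List.length_append, hlen, List.length_append]
        omega
      constructor
      · rintro ⟨y, hy, h⟩
        have h1 : y = y.take N ++ y.drop N := (List.take_append_drop N y).symm
        rw [h1] at h
        have h2 := (key (y.take N) (y.drop N) (by rw [List.length_take]; omega)
          (by rw [List.length_drop]; omega)).1 h
        obtain ⟨⟨h3, h4⟩, h5⟩ := h2
        constructor
        · intro hb
          obtain ⟨e1, e2⟩ := h3 hb
          simp only [e1, e2] at h5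
          exact h5
        · intro hb
          obtain ⟨e1, e2⟩ := h4 hb
          simp only [e1, e2] at h5
          exact h5
      · rintro ⟨h1, h2⟩
        cases b
        · exact ⟨A ++ M, by rw [List.length_append]; omega,
            (key A M hA hM).2 ⟨⟨fun _ => ⟨rfl, rfl⟩, fun h => by simp at h⟩, h1 rfl⟩⟩
        · exact ⟨M ++ B, by rw [List.length_append]; omega,
            (key M B hM hB).2 ⟨⟨fun h => by simp at h, fun _ => ⟨rfl, rfl⟩⟩, h2 rfl⟩⟩
    have hall : ∀ (M : List Bool) (hM : M.length = N),
        Holds (rqLevel N l ++ ((List.range' (l + 1) j).flatMap (rqLevel N) ++ Leaf))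
          (true :: (List.replicate (2 * N) false ++ rqQ N qL j)) (u ++ A ++ B ++ M) ↔
        rqDbl (fun a b : {l : List Bool // l.length = N} => T a.1 b.1) j ⟨A, hA⟩ ⟨M, hM⟩ ∧
        rqDbl (fun a b : {l : List Bool // l.length = N} => T a.1 b.1) j ⟨M, hM⟩ ⟨B, hB⟩ := by
      intro M hM
      show Holds _ _ (u ++ A ++ B ++ M ++ [false]) ∧ Holds _ _ (u ++ A ++ B ++ M ++ [true]) ↔ _
      rw [hb M hM false, hb M hM true]
      simp
    constructor
    · rintro ⟨M, hM, h⟩
      obtain ⟨h1, h2⟩ := (hall M hM).1 h
      exact ⟨⟨M, hM⟩, h1, h2⟩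
    · rintro ⟨⟨M, hM⟩, h1, h2⟩
      exact ⟨M, hM, (hall M hM).2 ⟨h1, h2⟩⟩

end Pool.Agent.W_MP_1d4143_al
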