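import Pool.Agent.W_MP_1d4143_al.Rewrite
import Pool.Agent.PolyTime.Clock
import Pool.Agent.W_MP_1d4143_al.RQLeaf

set_option autoImplicit false

open Turing Computability Pool.Agent.PolyTime

namespace Pool.Agent.W_MP_1d4143_al

/-! ### Codes of strings -/

/-- the code of a symbol -/
def rqHot (k v : ℕ) : List Bool := (List.range k).map fun a => decide (a = v)

/-- the code of a string -/
def rqCode (k : ℕ) (s : List ℕ) : List Bool := s.flatMap (rqHot k)

theorem rqHot_length (k v : ℕ) : (rqHot k v).length = k := by simp [rqHot]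

theorem rqCode_length (k : ℕ) (s : List ℕ) : (rqCode k s).length = s.length * k := by
  induction s with
  | nil => simp [rqCode]
  | cons v s ih =>
    have : rqCode k (v :: s) = rqHot k v ++ rqCode k s := by simp [rqCode]
    rw [this, List.length_append, ih, rqHot_length, List.length_cons]
    ring

theorem rqCode_append (k : ℕ) (s t : List ℕ) : rqCode k (s ++ t) = rqCode k s ++ rqCode k t := by
  simp [rqCode]

theorem rqHot_inj (k v w : ℕ) (hv : v < k) (h : rqHot k v = rqHot k w) : v = w := by
  have h1 := congrArg (fun l => l.getD v false) h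
  unfold rqHot at h1
  rw [List.getD_eq_getElem _ _ (by simpa using hv), List.getD_eq_getElem _ _ (by simpa using hv)]
    at h1
  simpa using h1

theorem rqCode_inj (k : ℕ) (s : List (Fin k)) : ∀ t : List (Fin k), s.length = t.length →
    rqCode k (s.map Fin.val) = rqCode k (t.map Fin.val) → s = t := by
  induction s with
  | nil =>
    intro t ht _
    cases t with
    | nil => rfl
    | cons a t => simp at ht
  | cons a s ih =>
    intro t ht h
    cases t with
    | nil => simp at ht
    | cons b t =>
      have e : ∀ (a : Fin k) (s : List (Fin k)), rqCode k ((a :: s).map Fin.val) =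
          rqHot k a.val ++ rqCode k (s.map Fin.val) := by
        intro a s; simp [rqCode]
      rw [e, e] at h
      obtain ⟨h1, h2⟩ := List.append_inj h (by rw [rqHot_length, rqHot_length])
      rw [ih t (by simpa using ht) h2, Fin.ext (rqHot_inj k a.val b.val a.isLt h1)]

/-- the rewriting rules in terms of codes -/
def rqGood {k : ℕ} (R : Fin k → Fin k → Fin k → Fin k → Prop) (p q : List Bool) : Prop :=
  ∃ a b a' b', R a b a' b' ∧ p = rqCode k ([a, b].map Fin.val) ∧ q = rqCode k ([a', b'].map Fin.val)

theorem rq_split (k : ℕ) (p q : List (Fin k)) (a b : Fin k) :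
    rqCode k ((p ++ a :: b :: q).map Fin.val) =
      rqCode k (p.map Fin.val) ++ (rqCode k ([a, b].map Fin.val) ++ rqCode k (q.map Fin.val)) := by
  have : p ++ a :: b :: q = p ++ ([a, b] ++ q) := rfl
  rw [this, List.map_append, List.map_append, rqCode_append, rqCode_append]

theorem rq_parts (k : ℕ) (p q : List (Fin k)) (a b : Fin k) :
    (rqCode k ((p ++ a :: b :: q).map Fin.val)).take (p.length * k) = rqCode k (p.map Fin.val) ∧
    (rqCode k ((p ++ a :: b :: q).map Fin.val)).drop ((p.length + 2) * k) =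
      rqCode k (q.map Fin.val) ∧
    ((rqCode k ((p ++ a :: b :: q).map Fin.val)).drop (p.length * k)).take (2 * k) =
      rqCode k ([a, b].map Fin.val) := by
  have l1 : (rqCode k (p.map Fin.val)).length = p.length * k := by simp [rqCode_length]
  have l2 : (rqCode k ([a, b].map Fin.val)).length = 2 * k := by simp [rqCode_length]
  rw [rq_split]
  refine ⟨List.take_left' l1, ?_, ?_⟩
  · rw [← List.append_assoc]
    apply List.drop_left'
    rw [List.length_append, l1, l2]
    ring
  · rw [List.drop_left' l1]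
    exact List.take_left' l2

theorem rq_of_step {k : ℕ} (R : Fin k → Fin k → Fin k → Fin k → Prop) (s t : List (Fin k))
    (h : RStep R s t) : s.length = t.length ∧
      rqT k s.length (rqGood R) (rqCode k (s.map Fin.val)) (rqCode k (t.map Fin.val)) := by
  obtain ⟨p, q, a, b, a', b', rfl, rfl, hR⟩ := h
  refine ⟨by simp, Or.inr ⟨p.length, by simp, ?_, ?_, ?_⟩⟩
  · rw [(rq_parts k p q a b).1, (rq_parts k p q a' b').1]
  · rw [(rq_parts k p q a b).2.1, (rq_parts k p q a' b').2.1]
  · rw [(rq_parts k p q a b).2.2, (rq_parts k p q a' b').2.2]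
    exact ⟨a, b, a', b', hR, rfl, rfl⟩

theorem rq_to_step {k : ℕ} (R : Fin k → Fin k → Fin k → Fin k → Prop) (s : List (Fin k))
    (B : List Bool) (h : rqT k s.length (rqGood R) (rqCode k (s.map Fin.val)) B) :
    ∃ t : List (Fin k), t.length = s.length ∧ B = rqCode k (t.map Fin.val) ∧
      Relation.ReflTransGen (RStep R) s t := by
  rcases h with h | ⟨i, hi, h1, h2, a, b, a', b', hR, h3, h4⟩
  · exact ⟨s, rfl, h.symm, .refl⟩
  · obtain ⟨p, q, c, d, hs, hp⟩ : ∃ p q c d, s = p ++ c :: d :: q ∧ p.length = i := by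
      refine ⟨s.take i, s.drop (i + 2), s[i], s[i + 1], ?_, ?_⟩
      · rw [← List.drop_eq_getElem_cons (by omega), ← List.drop_eq_getElem_cons (by omega),
          List.take_append_drop]
      · rw [List.length_take]; omega
    subst hs
    subst hp
    obtain ⟨e1, e2, e3⟩ := rq_parts k p q c d
    rw [e3] at h3
    have hcd := rqCode_inj k [c, d] [a, b] rfl h3
    simp only [List.cons.injEq, and_true] at hcd
    obtain ⟨rfl, rfl⟩ := hcd
    rw [e1] at h1
    rw [e2] at h2
    refine ⟨p ++ a' :: b' :: q, by simp, ?_, Relation.ReflTransGen.single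
      ⟨p, q, c, d, a', b', rfl, rfl, hR⟩⟩
    rw [rq_split, h1, h2, ← h4]
    have e4 : B.drop ((p.length + 2) * k) = (B.drop (p.length * k)).drop (2 * k) := by
      rw [List.drop_drop]; congr 1; ring
    rw [e4, List.take_append_drop, List.take_append_drop]

/-- the step relation on bit strings of length `N` -/
def rqTv {k : ℕ} (R : Fin k → Fin k → Fin k → Fin k → Prop) (m N : ℕ) :
    {l : List Bool // l.length = N} → {l : List Bool // l.length = N} → Prop :=
  fun a b => rqT k m (rqGood R) a.1 b.1

theorem rq_reach {k : ℕ} (R : Fin k → Fin k → Fin k → Fin k → Prop) (m N : ℕ)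
    (s t : List (Fin k)) (hs : s.length = m) (ht : t.length = m)
    (hs' : (rqCode k (s.map Fin.val)).length = N) (ht' : (rqCode k (t.map Fin.val)).length = N) :
    Relation.ReflTransGen (rqTv R m N) ⟨rqCode k (s.map Fin.val), hs'⟩
      ⟨rqCode k (t.map Fin.val), ht'⟩ ↔ Relation.ReflTransGen (RStep R) s t := by
  constructor
  · intro h
    have key : ∀ B : {l : List Bool // l.length = N},
        Relation.ReflTransGen (rqTv R m N) ⟨rqCode k (s.map Fin.val), hs'⟩ B →
        ∃ t' : List (Fin k), t'.length = m ∧ B.1 = rqCode k (t'.map Fin.val) ∧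
          Relation.ReflTransGen (RStep R) s t' := by
      intro B hB
      induction hB with
      | refl => exact ⟨s, hs, rfl, .refl⟩
      | @tail b c _ h2 ih =>
        obtain ⟨t1, h3, h4, h5⟩ := ih
        have h6 : rqT k t1.length (rqGood R) (rqCode k (t1.map Fin.val)) c.1 := by
          rw [h3, ← h4]; exact h2
        obtain ⟨t2, h7, h8, h9⟩ := rq_to_step R t1 _ h6
        exact ⟨t2, by omega, h8, h5.trans h9⟩
    obtain ⟨t', h1, h2, h3⟩ := key _ h
    have : t = t' := rqCode_inj k t t' (by omega) h2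
    rw [this]; exact h3
  · intro h
    have key : ∀ t' : List (Fin k), Relation.ReflTransGen (RStep R) s t' → t'.length = m ∧
        ∀ h' : (rqCode k (t'.map Fin.val)).length = N,
          Relation.ReflTransGen (rqTv R m N) ⟨rqCode k (s.map Fin.val), hs'⟩
            ⟨rqCode k (t'.map Fin.val), h'⟩ := by
      intro t' h'
      induction h' with
      | refl => exact ⟨hs, fun _ => .refl⟩
      | @tail b c _ h2 ih =>
        obtain ⟨h3, h4⟩ := ih
        obtain ⟨h5, h6⟩ := rq_of_step R _ _ h2
        have h7 : (rqCode k (b.map Fin.val)).length = N := by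
          rw [rqCode_length, List.length_map, h3]
          rw [rqCode_length, List.length_map, hs] at hs'
          exact hs'
        refine ⟨by omega, fun h8 => (h4 h7).tail ?_⟩
        show rqT k m (rqGood R) _ _
        rw [h3] at h6
        exact h6
    exact (key t h).2 ht'

/-! ### The reduction -/

/-- the clauses fixing the first two strings -/
def rqInit (k N : ℕ) (s t : List ℕ) : List (List (ℕ × Bool)) :=
  ((rqCode k s).zipIdx.map fun z => [(z.2, z.1)]) ++
    ((rqCode k t).zipIdx.map fun z => [(N + z.2, z.1)])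

/-- the reduction -/
def rqF (k : ℕ) (Bad : List (List (ℕ × Bool) × List (ℕ × Bool))) (st : List ℕ × List ℕ) :
    List Bool × List (List (ℕ × Bool)) :=
  (List.replicate (2 * (st.1.length * k)) false ++
    (((List.range (st.1.length * k)).flatMap fun _ =>
      (List.replicate (st.1.length * k) false ++
        (true :: List.replicate (2 * (st.1.length * k)) false))) ++
      List.replicate (st.1.length + 1) false),
   rqInit k (st.1.length * k) st.1 st.2 ++
    (((List.range (st.1.length * k)).flatMap (rqLevel (st.1.length * k))) ++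
      rqLeaf k st.1.length (st.1.length * k)
        (st.1.length * k * (3 * (st.1.length * k) + 1)) Bad))

theorem rqQ_eq (N : ℕ) (qL : List Bool) (j : ℕ) :
    rqQ N qL j = ((List.range j).flatMap fun _ =>
      (List.replicate N false ++ (true :: List.replicate (2 * N) false))) ++ qL := by
  induction j with
  | zero => rfl
  | succ j ih =>
    rw [List.range_succ_eq_map, List.flatMap_cons, List.flatMap_map, List.append_assoc, ← ih]
    simp [rqQ]

theorem rq_zip_sem (p x : List Bool) (o : ℕ) :
    Matrix (p.zipIdx.map fun z => [(o + z.2, z.1)]) x ↔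
      ∀ i < p.length, x.getD (o + i) false = p.getD i false := by
  rw [rq_matrix_map]
  constructor
  · intro h i hi
    obtain ⟨t, ht, h1⟩ := h (p[i], i) (by rw [List.mem_zipIdx_iff_getElem?]; simp [hi])
    simp only [List.mem_singleton] at ht
    subst ht
    rw [List.getD_eq_getElem p _ hi]
    exact h1
  · rintro h ⟨b, i⟩ hbi
    obtain ⟨h1, h2⟩ := List.mem_zipIdx' hbi
    refine ⟨(o + i, b), by simp, ?_⟩
    rw [h i h1, List.getD_eq_getElem _ _ h1, h2]

theorem rq_init_sem (k N : ℕ) (s t : List ℕ) (A B : List Bool) (hs : (rqCode k s).length = N)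
    (ht : (rqCode k t).length = N) (hA : A.length = N) (hB : B.length = N) :
    Matrix (rqInit k N s t) (A ++ B) ↔ A = rqCode k s ∧ B = rqCode k t := by
  unfold rqInit
  have e0 : ((rqCode k s).zipIdx.map fun z => [(z.2, z.1)]) =
      ((rqCode k s).zipIdx.map fun z => [(0 + z.2, z.1)]) := by simp
  rw [rq_matrix_append, e0, rq_zip_sem, rq_zip_sem, rq_ext hA hs, rq_ext hB ht, hs, ht]
  refine and_congr ?_ ?_
  · refine forall_congr' fun i => forall_congr' fun hi => ?_
    rw [zero_add, List.getD_append _ _ _ _ (by omega)]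
  · refine forall_congr' fun i => forall_congr' fun hi => ?_
    rw [rq_getD_add A B N i hA]

theorem rq_init_lt (k N : ℕ) (s t : List ℕ) (hs : (rqCode k s).length = N)
    (ht : (rqCode k t).length = N) : ∀ c ∈ rqInit k N s t, ∀ l ∈ c, l.1 < 2 * N := by
  intro c hc l hl
  unfold rqInit at hc
  rcases List.mem_append.1 hc with hc | hc
  · obtain ⟨⟨b, i⟩, hbi, rfl⟩ := List.mem_map.1 hc
    obtain ⟨h1, -⟩ := List.mem_zipIdx' hbi
    simp only [List.mem_singleton] at hl
    subst hl
    simp only at *
    omega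
  · obtain ⟨⟨b, i⟩, hbi, rfl⟩ := List.mem_map.1 hc
    obtain ⟨h1, -⟩ := List.mem_zipIdx' hbi
    simp only [List.mem_singleton] at hl
    subst hl
    simp only at *
    omega

theorem rqF_sem {k : ℕ} (R : Fin k → Fin k → Fin k → Fin k → Prop) (s t : List (Fin k))
    (hst : s.length = t.length) :
    Holds (rqF k (rqBad k (rqGood R)) (s.map Fin.val, t.map Fin.val)).2
      (rqF k (rqBad k (rqGood R)) (s.map Fin.val, t.map Fin.val)).1 [] ↔
      Relation.ReflTransGen (RStep R) s t := by
  obtain ⟨m, hm⟩ : ∃ m, m = s.length := ⟨_, rfl⟩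
  obtain ⟨N, hN⟩ : ∃ N, N = m * k := ⟨_, rfl⟩
  have hs' : (rqCode k (s.map Fin.val)).length = N := by
    rw [rqCode_length, List.length_map, ← hm, hN]
  have ht' : (rqCode k (t.map Fin.val)).length = N := by
    rw [rqCode_length, List.length_map, ← hst, ← hm, hN]
  simp only [rqF, List.length_map, ← hm, ← hN]
  rw [← rqQ_eq, rq_holds_ex]
  have key : ∀ (A B : List Bool) (hA : A.length = N) (hB : B.length = N),
      Holds (rqInit k N (s.map Fin.val) (t.map Fin.val) ++
        ((List.range N).flatMap (rqLevel N) ++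
          rqLeaf k m N (N * (3 * N + 1)) (rqBad k (rqGood R))))
        (rqQ N (List.replicate (m + 1) false) N) ([] ++ (A ++ B)) ↔
      (A = rqCode k (s.map Fin.val) ∧ B = rqCode k (t.map Fin.val)) ∧
        rqDbl (rqTv R m N) N ⟨A, hA⟩ ⟨B, hB⟩ := by
    intro A B hA hB
    rw [List.nil_append, rq_holds_split, rq_init_sem k N _ _ A B hs' ht' hA hB]
    · have := rq_levels N N (rqLeaf k m N (N * (3 * N + 1)) (rqBad k (rqGood R)))
        (List.replicate (m + 1) false) (rqT k m (rqGood R))
        (fun u A B hu hA hB => rq_leaf k m N hN (rqGood R) u A B _ hu hA hB) N 0 (by omega)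
        [] A B (by simp) hA hB
      rw [List.nil_append, ← List.range_eq_range'] at this
      rw [this]
      rfl
    · rw [List.length_append]
      intro c hc l hl
      have := rq_init_lt k N _ _ hs' ht' c hc l hl
      omega
  have hcard : Fintype.card (List.Vector Bool N) ≤ 2 ^ N := by
    rw [card_vector]; simp
  let _ : Fintype {l : List Bool // l.length = N} := inferInstanceAs (Fintype (List.Vector Bool N))
  have hd := rqDbl_of_reach (T := rqTv R m N) (fun a => Or.inl rfl) N hcard
  constructor
  · rintro ⟨y, hy, h⟩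
    have h1 : y = y.take N ++ y.drop N := (List.take_append_drop N y).symm
    rw [h1] at h
    obtain ⟨⟨h2, h3⟩, h4⟩ := (key (y.take N) (y.drop N) (by rw [List.length_take]; omega)
      (by rw [List.length_drop]; omega)).1 h
    simp only [h2, h3] at h4
    rw [hd, rq_reach R m N s t hm.symm (by omega) hs' ht'] at h4
    exact h4
  · intro h
    refine ⟨rqCode k (s.map Fin.val) ++ rqCode k (t.map Fin.val), by
      rw [List.length_append]; omega, (key _ _ hs' ht').2 ⟨⟨rfl, rfl⟩, ?_⟩⟩
    rw [hd, rq_reach R m N s t hm.symm (by omega) hs' ht']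
    exact h

/-! ### Polynomial time -/

section PF

variable {γ : Type} [ToD γ]

theorem rq_pf_code (k : ℕ) {s : γ → List ℕ} (hs : PF s) : PF (fun c => rqCode k (s c)) :=
  PF.flatMap (g := fun _ v => rqHot k v)
    (PF.map (g := fun (x : γ × ℕ) (a : ℕ) => decide (a = x.2))
      (PF.natEq PF.id'.snd PF.id'.fst.snd) (PF.const (List.range k))) hs

theorem rq_pf_eq {e : γ → ℕ × Bool} {i j : γ → ℕ} (he : PF e) (hi : PF i) (hj : PF j) :
    PF (fun c => rqEq (e c) (i c) (j c)) :=
  (he.cons ((hi.pair (PF.const true)).cons ((hj.pair (PF.const false)).cons (PF.const [])))).cons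
    ((he.cons ((hi.pair (PF.const false)).cons ((hj.pair (PF.const true)).cons
      (PF.const [])))).cons (PF.const []))

theorem rq_pf_level {N l : γ → ℕ} (hN : PF N) (hl : PF l) : PF (fun c => rqLevel (N c) (l c)) := by
  have h1 : PF (fun x : γ × ℕ => N x.1) := hN.comp PF.id'.fst
  have h2 : PF (fun x : γ × ℕ => l x.1) := hl.comp PF.id'.fst
  have h3 : PF (fun x : γ × ℕ => x.2) := PF.id'.snd
  have hW : PF (fun x : γ × ℕ => 3 * N x.1 + 1) := ((PF.const 3).mul h1).add (PF.const 1)
  have hlW : PF (fun x : γ × ℕ => l x.1 * (3 * N x.1 + 1)) := h2.mul hW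
  have hlW' : PF (fun x : γ × ℕ => (l x.1 + 1) * (3 * N x.1 + 1)) := (h2.add (PF.const 1)).mul hW
  have h2N : PF (fun x : γ × ℕ => 2 * N x.1) := (PF.const 2).mul h1
  have h3N : PF (fun x : γ × ℕ => 3 * N x.1) := (PF.const 3).mul h1
  exact PF.flatMap (g := fun c i =>
    (rqEq (l c * (3 * N c + 1) + 3 * N c, true) ((l c + 1) * (3 * N c + 1) + i)
      (l c * (3 * N c + 1) + i) ++
    rqEq (l c * (3 * N c + 1) + 3 * N c, true) ((l c + 1) * (3 * N c + 1) + (N c + i))
      (l c * (3 * N c + 1) + (2 * N c + i))) ++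
    (rqEq (l c * (3 * N c + 1) + 3 * N c, false) ((l c + 1) * (3 * N c + 1) + i)
      (l c * (3 * N c + 1) + (2 * N c + i)) ++
    rqEq (l c * (3 * N c + 1) + 3 * N c, false) ((l c + 1) * (3 * N c + 1) + (N c + i))
      (l c * (3 * N c + 1) + (N c + i))))
    (((rq_pf_eq ((hlW.add h3N).pair (PF.const true)) (hlW'.add h3) (hlW.add h3)).append
      (rq_pf_eq ((hlW.add h3N).pair (PF.const true)) (hlW'.add (h1.add h3))
        (hlW.add (h2N.add h3)))).append
      ((rq_pf_eq ((hlW.add h3N).pair (PF.const false)) (hlW'.add h3)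
        (hlW.add (h2N.add h3))).append
      (rq_pf_eq ((hlW.add h3N).pair (PF.const false)) (hlW'.add (h1.add h3))
        (hlW.add (h1.add h3))))) (PF.range hN)

theorem rq_pf_leaf (k : ℕ) (Bad : List (List (ℕ × Bool) × List (ℕ × Bool))) {m N o : γ → ℕ}
    (hm : PF m) (hN : PF N) (ho : PF o) : PF (fun c => rqLeaf k (m c) (N c) (o c) Bad) := by
  have hoN : PF (fun c => o c + 2 * N c) := ho.add ((PF.const 2).mul hN)
  have c1 : PF (fun c => [[(o c + 2 * N c, false)], [(o c + 2 * N c + m c, false)]]) :=
    ((hoN.pair (PF.const false)).cons (PF.const [])).cons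
      ((((hoN.add hm).pair (PF.const false)).cons (PF.const [])).cons (PF.const []))
  have c2 : PF (fun c => (List.range (m c + 1)).flatMap fun i => (List.range i).map fun j =>
      [(o c + 2 * N c + i, false), (o c + 2 * N c + j, false)]) := by
    refine PF.flatMap (g := fun c i => (List.range i).map fun j =>
      [(o c + 2 * N c + i, false), (o c + 2 * N c + j, false)]) ?_ (PF.range (hm.add (PF.const 1)))
    refine PF.map (g := fun (x : γ × ℕ) j =>
      [(o x.1 + 2 * N x.1 + x.2, false), (o x.1 + 2 * N x.1 + j, false)]) ?_ (PF.range PF.id'.snd)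
    have h1 : PF (fun y : (γ × ℕ) × ℕ => o y.1.1 + 2 * N y.1.1) := hoN.comp PF.id'.fst.fst
    exact ((h1.add PF.id'.fst.snd).pair (PF.const false)).cons
      (((h1.add PF.id'.snd).pair (PF.const false)).cons (PF.const []))
  have c3 : PF (fun c => (List.range (m c)).flatMap fun i => (List.range k).flatMap fun a =>
      [[(o c + 2 * N c + i, true), (o c + 2 * N c + (i + 1), true), (o c + (i * k + a), true),
        (o c + (N c + (i * k + a)), false)],
       [(o c + 2 * N c + i, true), (o c + 2 * N c + (i + 1), true), (o c + (i * k + a), false),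
        (o c + (N c + (i * k + a)), true)]]) := by
    refine PF.flatMap (g := fun c i => (List.range k).flatMap fun a =>
      [[(o c + 2 * N c + i, true), (o c + 2 * N c + (i + 1), true), (o c + (i * k + a), true),
        (o c + (N c + (i * k + a)), false)],
       [(o c + 2 * N c + i, true), (o c + 2 * N c + (i + 1), true), (o c + (i * k + a), false),
        (o c + (N c + (i * k + a)), true)]]) ?_ (PF.range hm)
    refine PF.flatMap (g := fun (x : γ × ℕ) a =>
      [[(o x.1 + 2 * N x.1 + x.2, true), (o x.1 + 2 * N x.1 + (x.2 + 1), true),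
        (o x.1 + (x.2 * k + a), true), (o x.1 + (N x.1 + (x.2 * k + a)), false)],
       [(o x.1 + 2 * N x.1 + x.2, true), (o x.1 + 2 * N x.1 + (x.2 + 1), true),
        (o x.1 + (x.2 * k + a), false), (o x.1 + (N x.1 + (x.2 * k + a)), true)]]) ?_
      (PF.const (List.range k))
    have h1 : PF (fun y : (γ × ℕ) × ℕ => o y.1.1 + 2 * N y.1.1) := hoN.comp PF.id'.fst.fst
    have h2 : PF (fun y : (γ × ℕ) × ℕ => o y.1.1) := ho.comp PF.id'.fst.fst
    have h3 : PF (fun y : (γ × ℕ) × ℕ => N y.1.1) := hN.comp PF.id'.fst.fst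
    have h4 : PF (fun y : (γ × ℕ) × ℕ => y.1.2 * k + y.2) :=
      (PF.id'.fst.snd.mul (PF.const k)).add PF.id'.snd
    have l1 : PF (fun y : (γ × ℕ) × ℕ => (o y.1.1 + 2 * N y.1.1 + y.1.2, true)) :=
      (h1.add PF.id'.fst.snd).pair (PF.const true)
    have l2 : PF (fun y : (γ × ℕ) × ℕ => (o y.1.1 + 2 * N y.1.1 + (y.1.2 + 1), true)) :=
      (h1.add (PF.id'.fst.snd.add (PF.const 1))).pair (PF.const true)
    have l3 : ∀ b : Bool, PF (fun y : (γ × ℕ) × ℕ => (o y.1.1 + (y.1.2 * k + y.2), b)) :=
      fun b => (h2.add h4).pair (PF.const b)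
    have l4 : ∀ b : Bool, PF (fun y : (γ × ℕ) × ℕ => (o y.1.1 + (N y.1.1 + (y.1.2 * k + y.2)), b)) :=
      fun b => (h2.add (h3.add h4)).pair (PF.const b)
    exact (l1.cons (l2.cons ((l3 true).cons ((l4 false).cons (PF.const []))))).cons
      ((l1.cons (l2.cons ((l3 false).cons ((l4 true).cons (PF.const []))))).cons (PF.const []))
  have c4 : PF (fun c => (List.range (m c - 1)).flatMap fun i => Bad.map fun p =>
      (o c + 2 * N c + (i + 1), false) :: ((p.1.map fun z => (o c + (i * k + z.1), z.2)) ++
        (p.2.map fun z => (o c + (N c + (i * k + z.1)), z.2)))) := by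
    refine PF.flatMap (g := fun c i => Bad.map fun p =>
      (o c + 2 * N c + (i + 1), false) :: ((p.1.map fun z => (o c + (i * k + z.1), z.2)) ++
        (p.2.map fun z => (o c + (N c + (i * k + z.1)), z.2)))) ?_ (PF.range hm.pred)
    refine PF.map (g := fun (x : γ × ℕ) (p : List (ℕ × Bool) × List (ℕ × Bool)) =>
      (o x.1 + 2 * N x.1 + (x.2 + 1), false) ::
        ((p.1.map fun z => (o x.1 + (x.2 * k + z.1), z.2)) ++
        (p.2.map fun z => (o x.1 + (N x.1 + (x.2 * k + z.1)), z.2)))) ?_ (PF.const Bad)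
    have h1 : PF (fun y : (γ × ℕ) × (List (ℕ × Bool) × List (ℕ × Bool)) =>
        o y.1.1 + 2 * N y.1.1) := hoN.comp PF.id'.fst.fst
    refine ((h1.add (PF.id'.fst.snd.add (PF.const 1))).pair (PF.const false)).cons
      (PF.append ?_ ?_)
    · refine PF.map (g := fun (y : (γ × ℕ) × (List (ℕ × Bool) × List (ℕ × Bool))) z =>
        (o y.1.1 + (y.1.2 * k + z.1), z.2)) ?_ PF.id'.snd.fst
      have h2 : PF (fun y : ((γ × ℕ) × (List (ℕ × Bool) × List (ℕ × Bool))) × (ℕ × Bool) =>
        o y.1.1.1) := ho.comp PF.id'.fst.fst.fst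
      exact (h2.add ((PF.id'.fst.fst.snd.mul (PF.const k)).add PF.id'.snd.fst)).pair PF.id'.snd.snd
    · refine PF.map (g := fun (y : (γ × ℕ) × (List (ℕ × Bool) × List (ℕ × Bool))) z =>
        (o y.1.1 + (N y.1.1 + (y.1.2 * k + z.1)), z.2)) ?_ PF.id'.snd.snd
      have h2 : PF (fun y : ((γ × ℕ) × (List (ℕ × Bool) × List (ℕ × Bool))) × (ℕ × Bool) =>
        o y.1.1.1) := ho.comp PF.id'.fst.fst.fst
      have h3 : PF (fun y : ((γ × ℕ) × (List (ℕ × Bool) × List (ℕ × Bool))) × (ℕ × Bool) =>
        N y.1.1.1) := hN.comp PF.id'.fst.fst.fst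
      exact (h2.add (h3.add ((PF.id'.fst.fst.snd.mul (PF.const k)).add PF.id'.snd.fst))).pair
        PF.id'.snd.snd
  exact c1.append (c2.append (c3.append c4))

end PF

theorem rq_pf (k : ℕ) (Bad : List (List (ℕ × Bool) × List (ℕ × Bool))) : PF (rqF k Bad) := by
  have hm : PF (fun st : List ℕ × List ℕ => st.1.length) := PF.id'.fst.length
  have hN : PF (fun st : List ℕ × List ℕ => st.1.length * k) := hm.mul (PF.const k)
  have h2N : PF (fun st : List ℕ × List ℕ => 2 * (st.1.length * k)) := (PF.const 2).mul hN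
  refine PF.pair ?_ ?_
  · refine (PF.replicate h2N false).append (PF.append ?_ (PF.replicate (hm.add (PF.const 1)) false))
    refine PF.flatMap (g := fun (st : List ℕ × List ℕ) (_ : ℕ) =>
      (List.replicate (st.1.length * k) false ++
        (true :: List.replicate (2 * (st.1.length * k)) false))) ?_ (PF.range hN)
    exact (PF.replicate (hN.comp PF.id'.fst) false).append
      ((PF.const true).cons (PF.replicate (h2N.comp PF.id'.fst) false))
  · refine PF.append (PF.append ?_ ?_) (PF.append ?_ ?_)
    · exact PF.map (g := fun (_ : List ℕ × List ℕ) (z : Bool × ℕ) => [(z.2, z.1)])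
        ((PF.id'.snd.snd.pair PF.id'.snd.fst).cons (PF.const [])) (rq_pf_code k PF.id'.fst).zipIdx
    · exact PF.map (g := fun (st : List ℕ × List ℕ) (z : Bool × ℕ) =>
        [(st.1.length * k + z.2, z.1)])
        ((((hN.comp PF.id'.fst).add PF.id'.snd.snd).pair PF.id'.snd.fst).cons (PF.const []))
        (rq_pf_code k PF.id'.snd).zipIdx
    · exact PF.flatMap (g := fun (st : List ℕ × List ℕ) (l : ℕ) => rqLevel (st.1.length * k) l)
        (rq_pf_level (hN.comp PF.id'.fst) PF.id'.snd) (PF.range hN)
    · exact rq_pf_leaf k Bad hm hN (hN.mul (((PF.const 3).mul hN).add (PF.const 1)))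

/-- Reachability for a length-preserving rewriting system is reducible to TQBF in polynomial
time.  (Symbols are given as natural numbers.) -/
theorem exists_reachQBF (k : ℕ) (R : Fin k → Fin k → Fin k → Fin k → Prop) :
    ∃ f : List ℕ × List ℕ → List Bool × List (List (ℕ × Bool)), PF f ∧
      ∀ s t : List (Fin k), s.length = t.length →
        (Holds (f (s.map Fin.val, t.map Fin.val)).2 (f (s.map Fin.val, t.map Fin.val)).1 [] ↔
          Relation.ReflTransGen (RStep R) s t) :=
  ⟨rqF k (rqBad k (rqGood R)), rq_pf k _, fun s t h => rqF_sem R s t h⟩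

end Pool.Agent.W_MP_1d4143_al
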