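import Pool.Agent.W_MP_1d4143_al.Defs

set_option autoImplicit false

namespace Pool.Agent.W_MP_1d4143_al

/-- One step of the length-preserving rewriting system with the rules `a b → a' b'`. -/
def RStep {C : Type} (R : C → C → C → C → Prop) (s t : List C) : Prop :=
  ∃ (p q : List C) (a b a' b' : C), s = p ++ a :: b :: q ∧ t = p ++ a' :: b' :: q ∧ R a b a' b'

/-! ### Generalities on rewriting -/

theorem rw_cons {C : Type} {R : C → C → C → C → Prop} {s t : List C} (c : C)
    (h : RStep R s t) : RStep R (c :: s) (c :: t) := by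
  obtain ⟨p, q, a, b, a', b', rfl, rfl, hR⟩ := h
  exact ⟨c :: p, q, a, b, a', b', rfl, rfl, hR⟩

theorem rw_map {C D : Type} {R : C → C → C → C → Prop} {R' : D → D → D → D → Prop} (f : C → D)
    (hf : ∀ a b a' b', R a b a' b' → R' (f a) (f b) (f a') (f b')) {s t : List C}
    (h : RStep R s t) : RStep R' (s.map f) (t.map f) := by
  obtain ⟨p, q, a, b, a', b', rfl, rfl, hR⟩ := h
  exact ⟨p.map f, q.map f, f a, f b, f a', f b', by simp, by simp, hf _ _ _ _ hR⟩

/-! ### Abstract chains of two-tape machines -/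

section Chain

variable {A P : Type} (rd : P → Tape) (nx : P → Option A → P → Prop) (lt : P → A) (ac : A → P)
  (U : List (Option A))

/-- Runs of an abstract machine: `ac` gives the accept states. -/
inductive RwRun : P → List (Option A) → List (Option A) → Prop
  | accept (x : A) : RwRun (ac x) [] []
  | left {p p' : P} {s : Option A} {l r : List (Option A)} :
      rd p = Tape.left → nx p s p' → RwRun p' l r → RwRun p (s :: l) r
  | right {p p' : P} {s : Option A} {l r : List (Option A)} :
      rd p = Tape.right → nx p s p' → RwRun p' l r → RwRun p l (s :: r)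

/-- The symbols of the rewriting system. -/
inductive RwSym (N : ℕ) (P : Type) : Type
  | a (j : Fin (N + 1)) : RwSym N P
  | b (j : Fin (N + 1)) : RwSym N P
  | st (p : P) : RwSym N P

theorem rwSym_finite (N : ℕ) (P : Type) [Finite P] : Finite (RwSym N P) := by
  let f : RwSym N P → Fin (N + 1) ⊕ (Fin (N + 1) ⊕ P) := fun s =>
    match s with
    | RwSym.a j => Sum.inl j
    | RwSym.b j => Sum.inr (Sum.inl j)
    | RwSym.st p => Sum.inr (Sum.inr p)
  refine Finite.of_injective f ?_
  intro s t h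
  cases s <;> cases t <;> simp_all [f]

/-- The rules. -/
inductive RwRule : RwSym U.length P → RwSym U.length P → RwSym U.length P → RwSym U.length P → Prop
  | r1 {j j' : Fin (U.length + 1)} {p p' : P} {s : Option A} :
      U.drop j = s :: U.drop j' → rd p = Tape.left → nx p s p' →
        RwRule (RwSym.a j) (RwSym.st p) (RwSym.a j') (RwSym.st p')
  | r2 {p₁ p₁' p₂ p₂' : P} {s : Option A} :
      rd p₁ = Tape.right → rd p₂ = Tape.left → nx p₁ s p₁' → nx p₂ s p₂' →
        RwRule (RwSym.st p₁) (RwSym.st p₂) (RwSym.st p₁') (RwSym.st p₂')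
  | r3 {j j' : Fin (U.length + 1)} {p p' : P} {s : Option A} :
      U.drop j = s :: U.drop j' → rd p = Tape.right → nx p s p' →
        RwRule (RwSym.st p) (RwSym.b j) (RwSym.st p') (RwSym.b j')
  | r4 : RwRule (RwSym.a 0) (RwSym.b 0) (RwSym.a (Fin.last _)) (RwSym.b (Fin.last _))

/-- `RwChain xs l m n`: the list `l` is a chain of machines with letters `xs`, that can be run
when the first one has the string `m` on its left tape; `n` is the total length of the strings. -/
def RwChain : List A → List (RwSym U.length P) → List (Option A) → ℕ → Prop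
  | [], l, m, n => ∃ j, l = [RwSym.b j] ∧ m = U.drop j ∧ n = m.length
  | x :: xs, l, m, n => ∃ p l' m' n', l = RwSym.st p :: l' ∧ lt p = x ∧
      RwRun rd nx ac p m m' ∧ RwChain xs l' m' n' ∧ n = m.length + n'

theorem rw_drop_nil {j : Fin (U.length + 1)} (h : U.drop j = []) : j = Fin.last _ := by
  have := List.drop_eq_nil_iff.1 h
  ext
  simp
  omega

theorem rw_drop_cons {j : Fin (U.length + 1)} {s : Option A} {m : List (Option A)}
    (h : U.drop j = s :: m) : ∃ j' : Fin (U.length + 1), m = U.drop j' := by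
  have hj : (j : ℕ) < U.length := by
    by_contra hc
    rw [List.drop_eq_nil_of_le (by omega)] at h
    cases h
  refine ⟨⟨j + 1, by omega⟩, ?_⟩
  have : U.drop (j + 1) = (U.drop j).tail := by rw [List.tail_drop]
  simp [this, h]

variable (hlt : ∀ p s p', nx p s p' → lt p' = lt p) (hac : ∀ x, lt (ac x) = x)

include hlt hac in
theorem rw_progress (xs : List A) : ∀ (x : A) (l : List (RwSym U.length P)) (m : List (Option A))
    (n : ℕ), RwChain rd nx lt ac U (x :: xs) l m n →
    (l = (x :: xs).map (fun y => RwSym.st (ac y)) ++ [RwSym.b (Fin.last _)] ∧ m = []) ∨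
    (∃ s m₀ p p' l' n', l = RwSym.st p :: l' ∧ m = s :: m₀ ∧ rd p = Tape.left ∧ nx p s p' ∧
      RwChain rd nx lt ac U (x :: xs) (RwSym.st p' :: l') m₀ n' ∧ n' < n) ∨
    (∃ t n', RStep (RwRule rd nx U) l t ∧ RwChain rd nx lt ac U (x :: xs) t m n' ∧ n' < n) := by
  induction xs with
  | nil =>
    intro x l m n h
    obtain ⟨p, l', m', n', rfl, hp, hrun, ⟨j, rfl, rfl, rfl⟩, rfl⟩ := h
    generalize hm : U.drop j = m' at hrun
    cases hrun with
    | accept y =>
      left
      rw [hac] at hp
      subst hp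
      rw [rw_drop_nil U hm]
      exact ⟨rfl, rfl⟩
    | @left _ p' s m₀ _ hrd hnx hrun =>
      right; left
      refine ⟨s, m₀, p, p', _, _, rfl, rfl, hrd, hnx,
        ⟨p', _, _, _, rfl, (hlt _ _ _ hnx).trans hp, hrun, ⟨j, rfl, hm.symm, rfl⟩, rfl⟩, ?_⟩
      simp
    | @right _ p' s _ m₀ hrd hnx hrun =>
      right; right
      obtain ⟨j', rfl⟩ := rw_drop_cons U hm
      refine ⟨[RwSym.st p', RwSym.b j'], _, ⟨[], [], _, _, _, _, rfl, rfl,
        RwRule.r3 hm hrd hnx⟩,
        ⟨p', _, _, _, rfl, (hlt _ _ _ hnx).trans hp, hrun, ⟨j', rfl, rfl, rfl⟩, rfl⟩, ?_⟩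
      simp
  | cons y ys ih =>
    intro x l m n h
    obtain ⟨p, l', m', n', rfl, hp, hrun, h', rfl⟩ := h
    rcases ih y l' m' n' h' with ⟨hl, rfl⟩ | ⟨s, m₀, p₂, p₂', l'', n'', rfl, rfl, hrd₂, hnx₂, h'', hn⟩ |
      ⟨t, n'', hstep, h'', hn⟩
    · cases hrun with
      | accept z =>
        left
        rw [hac] at hp
        subst hp
        rw [hl]
        exact ⟨rfl, rfl⟩
      | @left _ p' s m₀ _ hrd hnx hrun =>
        right; left
        refine ⟨s, m₀, p, p', _, _, rfl, rfl, hrd, hnx,
          ⟨p', _, _, _, rfl, (hlt _ _ _ hnx).trans hp, hrun, h', rfl⟩, ?_⟩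
        simp
    · generalize hm : s :: m₀ = mm at hrun
      cases hrun with
      | accept z => cases hm
      | @left _ p' s' m₁ _ hrd hnx hrun =>
        subst hm
        right; left
        refine ⟨s', m₁, p, p', _, _, rfl, rfl, hrd, hnx,
          ⟨p', _, _, _, rfl, (hlt _ _ _ hnx).trans hp, hrun, h', rfl⟩, ?_⟩
        simp
      | @right _ p' s' _ m₁ hrd hnx hrun =>
        obtain ⟨rfl, rfl⟩ := List.cons.inj hm
        right; right
        refine ⟨RwSym.st p' :: RwSym.st p₂' :: l'', _, ⟨[], l'', _, _, _, _, rfl, rfl,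
          RwRule.r2 hrd hrd₂ hnx hnx₂⟩,
          ⟨p', _, _, _, rfl, (hlt _ _ _ hnx).trans hp, hrun, h'', rfl⟩, ?_⟩
        omega
    · right; right
      exact ⟨_, _, rw_cons _ hstep, ⟨p, _, _, _, rfl, hp, hrun, h'', rfl⟩, by omega⟩

include hlt hac in
theorem rw_forward (n : ℕ) : ∀ (x : A) (xs : List A) (l : List (RwSym U.length P))
    (i : Fin (U.length + 1)), RwChain rd nx lt ac U (x :: xs) l (U.drop i) n →
    Relation.ReflTransGen (RStep (RwRule rd nx U)) (RwSym.a i :: l)
      (RwSym.a (Fin.last _) ::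
        ((x :: xs).map (fun y => RwSym.st (ac y)) ++ [RwSym.b (Fin.last _)])) := by
  induction n using Nat.strong_induction_on with
  | _ n ih =>
    intro x xs l i h
    rcases rw_progress rd nx lt ac U hlt hac xs x l _ n h with ⟨rfl, hm⟩ |
      ⟨s, m₀, p, p', l', n', rfl, hm, hrd, hnx, h', hn⟩ | ⟨t, n', hstep, h', hn⟩
    · rw [rw_drop_nil U hm]
    · obtain ⟨i', rfl⟩ := rw_drop_cons U hm
      refine Relation.ReflTransGen.head ?_ (ih n' hn x xs _ i' h')
      exact ⟨[], l', _, _, _, _, rfl, rfl, RwRule.r1 hm hrd hnx⟩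
    · exact Relation.ReflTransGen.head (rw_cons _ hstep) (ih n' hn x xs _ i h')

include hlt in
theorem rw_back (xs : List A) : ∀ (l t : List (RwSym U.length P)) (m : List (Option A)) (n : ℕ),
    RStep (RwRule rd nx U) l t → RwChain rd nx lt ac U xs t m n →
    ∃ n', RwChain rd nx lt ac U xs l m n' := by
  induction xs with
  | nil =>
    intro l t m n hstep h
    obtain ⟨j, rfl, -, -⟩ := h
    obtain ⟨p, q, a, b, a', b', -, ht, -⟩ := hstep
    have := congrArg List.length ht
    simp at this
    omega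
  | cons x xs ih =>
    intro l t m n hstep h
    obtain ⟨p₀, l', m', n', rfl, hp, hrun, h', rfl⟩ := h
    obtain ⟨p, q, a, b, a', b', rfl, ht, hR⟩ := hstep
    rcases p with _ | ⟨c, p⟩
    · rw [List.nil_append] at ht
      obtain ⟨h1, rfl⟩ := List.cons.inj ht
      cases hR with
      | r1 h1' h2' h3' => cases h1
      | r4 => cases h1
      | @r2 p₁ p₁' p₂ p₂' s hr1 hr2 hn1 hn2 =>
        obtain rfl := RwSym.st.inj h1
        rcases xs with _ | ⟨y, ys⟩
        · obtain ⟨j, hj, -, -⟩ := h'
          cases (List.cons.inj hj).1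
        · obtain ⟨p₃, l₃, m₃, n₃, h3, hp3, hrun3, h3', rfl⟩ := h'
          obtain ⟨h4, rfl⟩ := List.cons.inj h3
          obtain rfl := RwSym.st.inj h4
          exact ⟨_, p₁, _, _, _, rfl, (hlt _ _ _ hn1).symm.trans hp, RwRun.right hr1 hn1 hrun,
            ⟨p₂, _, _, _, rfl, (hlt _ _ _ hn2).symm.trans hp3, RwRun.left hr2 hn2 hrun3, h3',
              rfl⟩, rfl⟩
      | @r3 j j' p₁ p₁' s hd hr1 hn1 =>
        obtain rfl := RwSym.st.inj h1
        rcases xs with _ | ⟨y, ys⟩
        · obtain ⟨j₂, hj, rfl, rfl⟩ := h'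
          obtain ⟨h4, rfl⟩ := List.cons.inj hj
          obtain rfl := RwSym.b.inj h4
          refine ⟨_, p₁, _, _, _, rfl, (hlt _ _ _ hn1).symm.trans hp, RwRun.right hr1 hn1 hrun,
            ⟨j, rfl, hd.symm, rfl⟩, rfl⟩
        · obtain ⟨p₃, l₃, m₃, n₃, h3, -, -, -, -⟩ := h'
          cases (List.cons.inj h3).1
    · rw [List.cons_append] at ht
      obtain ⟨rfl, rfl⟩ := List.cons.inj ht
      obtain ⟨n'', h''⟩ := ih _ _ m' n' ⟨p, q, a, b, a', b', rfl, rfl, hR⟩ h'
      exact ⟨_, p₀, _, _, _, rfl, hp, hrun, h'', rfl⟩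

include hlt in
theorem rw_back' (x : A) (xs : List A) (l t : List (RwSym U.length P))
    (hstep : RStep (RwRule rd nx U) l t)
    (h : ∃ i t' n, t = RwSym.a i :: t' ∧ RwChain rd nx lt ac U (x :: xs) t' (U.drop i) n) :
    ∃ i l' n, l = RwSym.a i :: l' ∧ RwChain rd nx lt ac U (x :: xs) l' (U.drop i) n := by
  obtain ⟨i, t', n, rfl, h⟩ := h
  obtain ⟨p, q, a, b, a', b', rfl, ht, hR⟩ := hstep
  rcases p with _ | ⟨c, p⟩
  · rw [List.nil_append] at ht
    obtain ⟨h1, rfl⟩ := List.cons.inj ht
    obtain ⟨p₀, l', m', n', h2, hp, hrun, h', rfl⟩ := h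
    obtain ⟨h3, rfl⟩ := List.cons.inj h2
    cases hR with
    | @r1 j j' p₁ p₁' s hd hr1 hn1 =>
      obtain rfl := RwSym.a.inj h1
      obtain rfl := RwSym.st.inj h3
      refine ⟨j, _, _, rfl, p₁, _, _, _, rfl, (hlt _ _ _ hn1).symm.trans hp, ?_, h', rfl⟩
      rw [hd]
      exact RwRun.left hr1 hn1 hrun
    | r2 => cases h1
    | r3 => cases h1
    | r4 => cases h3
  · rw [List.cons_append] at ht
    obtain ⟨rfl, rfl⟩ := List.cons.inj ht
    obtain ⟨n', h'⟩ := rw_back rd nx lt ac U hlt (x :: xs) _ _ _ n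
      ⟨p, q, a, b, a', b', rfl, rfl, hR⟩ h
    exact ⟨i, _, n', rfl, h'⟩

include hac in
theorem rw_end (xs : List A) : ∃ n, RwChain rd nx lt ac U xs
    (xs.map (fun y => RwSym.st (ac y)) ++ [RwSym.b (Fin.last _)]) [] n := by
  induction xs with
  | nil => exact ⟨_, Fin.last _, rfl, by simp, rfl⟩
  | cons x xs ih =>
    obtain ⟨n, h⟩ := ih
    exact ⟨_, ac x, _, [], n, rfl, hac x, RwRun.accept x, h, rfl⟩

include hlt hac in
/-- The rewriting system runs chains of machines. -/
theorem rw_iff (x : A) (xs : List A) (l : List (RwSym U.length P)) :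
    Relation.ReflTransGen (RStep (RwRule rd nx U)) (RwSym.a 0 :: l)
      (RwSym.a (Fin.last _) ::
        ((x :: xs).map (fun y => RwSym.st (ac y)) ++ [RwSym.b (Fin.last _)])) ↔
    ∃ n, RwChain rd nx lt ac U (x :: xs) l U n := by
  constructor
  · intro h
    have key : ∀ s, Relation.ReflTransGen (RStep (RwRule rd nx U)) s
        (RwSym.a (Fin.last _) ::
          ((x :: xs).map (fun y => RwSym.st (ac y)) ++ [RwSym.b (Fin.last _)])) →
        ∃ i l' n, s = RwSym.a i :: l' ∧
          RwChain rd nx lt ac U (x :: xs) l' (U.drop i) n := by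
      intro s hs
      induction hs using Relation.ReflTransGen.head_induction_on with
      | refl =>
        obtain ⟨n, h⟩ := rw_end rd nx lt ac U hac (x :: xs)
        exact ⟨Fin.last _, _, n, rfl, by simpa using h⟩
      | head hstep _ ih => exact rw_back' rd nx lt ac U hlt x xs _ _ hstep ih
    obtain ⟨i, l', n, h1, h2⟩ := key _ h
    obtain ⟨h3, rfl⟩ := List.cons.inj h1
    obtain rfl := RwSym.a.inj h3
    exact ⟨n, by simpa using h2⟩
  · rintro ⟨n, h⟩
    exact rw_forward rd nx lt ac U hlt hac n x xs l 0 (by simpa using h)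

end Chain

/-! ### The chain of multiplier automata -/

section Group

variable {A G : Type} [Group G] {π : A → G} (S : AsyncStructure π)

/-- The states of all multiplier automata. -/
abbrev RwP : Type := Σ x : A, (S.M (some x)).State

/-- The tape read in a state. -/
def rwRd (p : RwP S) : Tape := (S.M (some p.1)).reads p.2

/-- The transition relation. -/
def rwNx (p : RwP S) (s : Option A) (p' : RwP S) : Prop :=
  ∃ q', (S.M (some p.1)).next p.2 s = some q' ∧ p' = ⟨p.1, q'⟩

/-- The accept states. -/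
def rwAc (x : A) : RwP S := ⟨x, (S.M (some x)).accept⟩

theorem rwRun_iff (p : RwP S) (l r : List (Option A)) :
    RwRun (rwRd S) (rwNx S) (rwAc S) p l r ↔ (S.M (some p.1)).Run p.2 l r := by
  constructor
  · intro h
    induction h with
    | accept x => exact AsyncAutomaton.Run.accept
    | left hrd hnx _ ih =>
      obtain ⟨q', hq, rfl⟩ := hnx
      exact AsyncAutomaton.Run.left hrd hq ih
    | right hrd hnx _ ih =>
      obtain ⟨q', hq, rfl⟩ := hnx
      exact AsyncAutomaton.Run.right hrd hq ih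
  · intro h
    obtain ⟨x, q⟩ := p
    simp only at h
    induction h with
    | accept => exact RwRun.accept x
    | left hrd hnx _ ih => exact RwRun.left hrd ⟨_, hnx, rfl⟩ ih
    | right hrd hnx _ ih => exact RwRun.right hrd ⟨_, hnx, rfl⟩ ih

/-- The shape of the strings of a run. -/
theorem rw_shape {M : AsyncAutomaton A} {q : M.State} {l r : List (Option A)} (h : M.Run q l r) :
    ((M.isOpen q Tape.left → ∃ u : List A, l = u.map some ++ [none]) ∧
      (¬ M.isOpen q Tape.left → l = [])) ∧
    ((M.isOpen q Tape.right → ∃ u : List A, r = u.map some ++ [none]) ∧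
      (¬ M.isOpen q Tape.right → r = [])) := by
  induction h with
  | accept =>
    have h := (M.accept_iff M.accept).2 rfl
    exact ⟨⟨fun h' => absurd h' (h _), fun _ => rfl⟩, ⟨fun h' => absurd h' (h _), fun _ => rfl⟩⟩
  | @left q q' s l r hrd hnx _ ih =>
    have ho := M.reads_open q s q' hnx
    rw [hrd] at ho
    rcases s with _ | a
    · have he := M.endmark q q' hnx
      have e1 : ¬ M.isOpen q' Tape.left := by rw [he, hrd]; simp
      have e2 : M.isOpen q' Tape.right ↔ M.isOpen q Tape.right := by rw [he, hrd]; simp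
      rw [e2] at ih
      refine ⟨⟨fun _ => ⟨[], ?_⟩, fun h => absurd ho h⟩, ih.2⟩
      rw [ih.1.2 e1]
      rfl
    · have he := M.letter q a q' hnx
      rw [he, he] at ih
      refine ⟨⟨fun _ => ?_, fun h => absurd ho h⟩, ih.2⟩
      obtain ⟨u, rfl⟩ := ih.1.1 ho
      exact ⟨a :: u, rfl⟩
  | @right q q' s l r hrd hnx _ ih =>
    have ho := M.reads_open q s q' hnx
    rw [hrd] at ho
    rcases s with _ | a
    · have he := M.endmark q q' hnx
      have e1 : ¬ M.isOpen q' Tape.right := by rw [he, hrd]; simp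
      have e2 : M.isOpen q' Tape.left ↔ M.isOpen q Tape.left := by rw [he, hrd]; simp
      rw [e2] at ih
      refine ⟨ih.1, ⟨fun _ => ⟨[], ?_⟩, fun h => absurd ho h⟩⟩
      rw [ih.2.2 e1]
      rfl
    · have he := M.letter q a q' hnx
      rw [he, he] at ih
      refine ⟨ih.1, ⟨fun _ => ?_, fun h => absurd ho h⟩⟩
      obtain ⟨u, rfl⟩ := ih.2.1 ho
      exact ⟨a :: u, rfl⟩

theorem rw_word_inj {u v : List A} (h : u.map some ++ [none] = v.map some ++ [(none : Option A)]) :
    u = v := by
  have := List.append_cancel_right h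
  exact (List.map_injective_iff.2 (Option.some_injective A)) this

/-- The chain in start position. -/
def rwStart (N : ℕ) (w : List A) : List (RwSym N (RwP S)) :=
  w.map (fun x => RwSym.st ⟨x, (S.M (some x)).start⟩) ++ [RwSym.b 0]

theorem rw_chain_of_val (u₀ : List A) (hu₀ : u₀ ∈ S.L) : ∀ (w : List A), w ≠ [] →
    ∀ u ∈ S.L, val π u * val π w = val π u₀ →
    ∃ n, RwChain (rwRd S) (rwNx S) Sigma.fst (rwAc S) (u₀.map some ++ [none]) w
      (rwStart S _ w) (u.map some ++ [none]) n := by
  intro w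
  induction w with
  | nil => intro h; exact absurd rfl h
  | cons x w ih =>
    intro _ u hu hval
    rcases w with _ | ⟨y, w⟩
    · have hacc : (S.M (some x)).Accepts u u₀ := by
        rw [S.spec]
        refine ⟨hu, hu₀, ?_⟩
        simpa [val] using hval
      exact ⟨_, ⟨x, (S.M (some x)).start⟩, _, _, _, rfl, rfl, (rwRun_iff S _ _ _).2 hacc,
        ⟨0, rfl, by simp, rfl⟩, rfl⟩
    · obtain ⟨v, hv, hvval⟩ := S.onto (val π u * π x)
      have hacc : (S.M (some x)).Accepts u v := by
        rw [S.spec]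
        exact ⟨hu, hv, hvval.symm⟩
      obtain ⟨n, hn⟩ := ih (by simp) v hv (by
        rw [hvval, ← hval]
        simp [val, mul_assoc])
      exact ⟨_, ⟨x, (S.M (some x)).start⟩, _, _, n, rfl, rfl, (rwRun_iff S _ _ _).2 hacc,
        hn, rfl⟩

theorem rw_val_of_chain (u₀ : List A) : ∀ (w u : List A) (n : ℕ),
    RwChain (rwRd S) (rwNx S) Sigma.fst (rwAc S) (u₀.map some ++ [none]) w
      (rwStart S _ w) (u.map some ++ [none]) n → val π u * val π w = val π u₀ := by
  intro w
  induction w with
  | nil =>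
    intro u n h
    obtain ⟨j, hj, hm, -⟩ := h
    have h0 := RwSym.b.inj (List.cons.inj hj).1
    subst h0
    rw [Fin.val_zero, List.drop_zero] at hm
    rw [rw_word_inj hm]
    simp [val]
  | cons x w ih =>
    intro u n h
    obtain ⟨p, l', m', n', hl, -, hrun, h', -⟩ := h
    obtain ⟨h1, rfl⟩ := List.cons.inj hl
    obtain rfl := RwSym.st.inj h1
    rw [rwRun_iff] at hrun
    obtain ⟨v, rfl⟩ := (rw_shape hrun).2.1 ((S.M (some x)).start_open _)
    have hacc : (S.M (some x)).Accepts u v := hrun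
    rw [S.spec] at hacc
    have h2 := ih v n' h'
    rw [← h2, ← hacc.2.2]
    simp [val, mul_assoc]

end Group

/-- The word problem of an asynchronously automatic group is a reachability problem for a
length-preserving rewriting system. -/
theorem exists_rewriting {A G : Type} [Group G] [Finite A] (π : A → G) (S : AsyncStructure π) :
    ∃ (k : ℕ) (R : Fin k → Fin k → Fin k → Fin k → Prop) (l₀ r₀ l₁ r₁ : Fin k)
      (st fin : A → Fin k), ∀ w : List A, val π w = 1 ↔
        Relation.ReflTransGen (RStep R) (l₀ :: w.map st ++ [r₀]) (l₁ :: w.map fin ++ [r₁]) := by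
  obtain ⟨u₀, hu₀, hval₀⟩ := S.onto 1
  have : ∀ x : A, Finite (S.M (some x)).State := fun x => (S.M (some x)).finite
  have : Finite (RwSym (u₀.map some ++ [(none : Option A)]).length (RwP S)) :=
    rwSym_finite _ _
  obtain ⟨k, ⟨e⟩⟩ := Finite.exists_equiv_fin
    (RwSym (u₀.map some ++ [(none : Option A)]).length (RwP S))
  set U := u₀.map some ++ [(none : Option A)] with hU
  refine ⟨k, fun a b a' b' => RwRule (rwRd S) (rwNx S) U (e.symm a) (e.symm b) (e.symm a')
    (e.symm b'), e (RwSym.a 0), e (RwSym.b 0), e (RwSym.a (Fin.last _)),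
    e (RwSym.b (Fin.last _)), fun x => e (RwSym.st ⟨x, (S.M (some x)).start⟩),
    fun x => e (RwSym.st (rwAc S x)), ?_⟩
  have transfer : ∀ s t : List (RwSym U.length (RwP S)),
      Relation.ReflTransGen (RStep fun a b a' b' => RwRule (rwRd S) (rwNx S) U (e.symm a)
        (e.symm b) (e.symm a') (e.symm b')) (s.map e) (t.map e) ↔
      Relation.ReflTransGen (RStep (RwRule (rwRd S) (rwNx S) U)) s t := by
    intro s t
    constructor
    · intro h
      have := Relation.ReflTransGen.lift (List.map e.symm)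
        (fun a b hab => rw_map (R' := RwRule (rwRd S) (rwNx S) U) e.symm
          (fun _ _ _ _ h => h) hab) _ _ h
      simpa [Function.onFun] using this
    · intro h
      exact Relation.ReflTransGen.lift (List.map e)
        (fun a b hab => rw_map e (fun _ _ _ _ h => by simpa using h) hab) _ _ h
  intro w
  have e1 : (e (RwSym.a 0) :: w.map (fun x => e (RwSym.st ⟨x, (S.M (some x)).start⟩)) ++
      [e (RwSym.b 0)]) = (RwSym.a 0 :: rwStart S U.length w).map e := by
    simp [rwStart]
  have e2 : (e (RwSym.a (Fin.last _)) :: w.map (fun x => e (RwSym.st (rwAc S x))) ++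
      [e (RwSym.b (Fin.last _))]) = (RwSym.a (Fin.last _) ::
        (w.map (fun y => RwSym.st (rwAc S y)) ++ [RwSym.b (Fin.last U.length)])).map e := by
    simp
  rw [e1, e2, transfer]
  rcases w with _ | ⟨x, w⟩
  · refine ⟨fun _ => ?_, fun _ => by simp [val]⟩
    exact Relation.ReflTransGen.single ⟨[], [], _, _, _, _, rfl, rfl, RwRule.r4⟩
  · rw [rw_iff (rwRd S) (rwNx S) Sigma.fst (rwAc S) U
      (fun p s p' h => by obtain ⟨q', -, rfl⟩ := h; rfl) (fun _ => rfl)]
    constructor
    · intro h
      exact rw_chain_of_val S u₀ hu₀ (x :: w) (by simp) u₀ hu₀ (by rw [hval₀, h, one_mul])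
    · rintro ⟨n, h⟩
      have := rw_val_of_chain S u₀ (x :: w) u₀ n h
      rwa [hval₀, one_mul] at this

end Pool.Agent.W_MP_1d4143_al
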