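import Pool.Agent.W_MP_1d4143_al.Words

set_option autoImplicit false

namespace Pool.Agent.W_MP_1d4143_al

namespace Sem

section conj

variable {G : Type} [Group G] (M : HModel D0 G)

/-- Conjugation by the value of `w` maps `U` to `U'`. -/
def Cj (w : List Let) (U U' : F0) : Prop :=
  M.ι U * val M.letterVal w = val M.letterVal w * M.ι U'

variable {M}

theorem Cj.mul {w : List Let} {U U' V V' : F0} (h : Cj M w U U') (h' : Cj M w V V') :
    Cj M w (U * V) (U' * V') := by
  unfold Cj at *
  rw [map_mul, map_mul, mul_assoc, h', ← mul_assoc, h, mul_assoc]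

theorem Cj.one {w : List Let} : Cj M w 1 1 := by
  simp [Cj]

theorem Cj.inv {w : List Let} {U U' : F0} (h : Cj M w U U') : Cj M w U⁻¹ U'⁻¹ := by
  unfold Cj at *
  rw [map_inv, map_inv, inv_mul_eq_iff_eq_mul, ← mul_assoc, h, mul_assoc, mul_inv_cancel, mul_one]

theorem Cj.nil (U : F0) : Cj M [] U U := by
  simp [Cj]

theorem Cj.append {w w' : List Let} {U U' U'' : F0} (h : Cj M w U U') (h' : Cj M w' U' U'') :
    Cj M (w ++ w') U U'' := by
  unfold Cj at *
  rw [val_append, ← mul_assoc, h, mul_assoc, h', mul_assoc]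

theorem letterVal_invLet (x : Let) : M.letterVal (invLet x) = (M.letterVal x)⁻¹ := by
  rcases x with ⟨a, b⟩ | e
  · show M.ι (FreeGroup.mk [(a, !b)]) = (M.ι (FreeGroup.mk [(a, b)]))⁻¹
    rw [← map_inv, FreeGroup.inv_mk]
    rfl
  · exact M.t_bar e

theorem val_invWord (w : List Let) :
    val M.letterVal (invWord w) = (val M.letterVal w)⁻¹ := by
  induction w with
  | nil => simp [invWord]
  | cons a w ih =>
    have : invWord (a :: w) = invWord w ++ [invLet a] := by simp [invWord]
    rw [this, val_append, ih, val_singleton, letterVal_invLet, val_cons, mul_inv_rev]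

theorem Cj.invWord {w : List Let} {U U' : F0} (h : Cj M w U U') :
    Cj M (invWord w) U' U := by
  unfold Cj at *
  rw [val_invWord, eq_inv_mul_iff_mul_eq, ← mul_assoc, ← h, mul_assoc, mul_inv_cancel, mul_one]

theorem Cj.conj {w : List Let} {A A' X X' : F0} (h : Cj M w A A') (h' : Cj M w X X') :
    Cj M w (A * X * A⁻¹) (A' * X' * A'⁻¹) := (h.mul h').mul h.inv

theorem cj_op (o : Op) (x : HG o) : Cj M [opl o] (th0 o x) (th1 o x) := by
  unfold Cj
  rw [val_singleton]
  exact rel_D0 o x M

end conj

/-! ### The maps on the base group -/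

/-- Squaring of `b`. -/
def dbl : F0 →* F0 := FreeGroup.lift bb

theorem lift_comp_map {α β : Type} (f : α → β) (g : β → F0) (X : FreeGroup α) :
    FreeGroup.lift g (FreeGroup.map f X) = FreeGroup.lift (g ∘ f) X := by
  have h : (FreeGroup.lift g).comp (FreeGroup.map f) = FreeGroup.lift (g ∘ f) := by
    ext x
    simp
  exact DFunLike.congr_fun h X

/-- The generators fixed by the stack operations. -/
def KG : Subgroup F0 := Subgroup.closure {sy .y, sy .g, sy .z}

/-- The subgroup of addresses. -/
def BY : Subgroup F0 := Subgroup.closure {sy .b, sy .y}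

/-- Two homomorphisms that agree on a set agree on its closure. -/
theorem eqOn_closure {H : Type} [Group H] (f g : F0 →* H) (s : Set F0) (h : ∀ x ∈ s, f x = g x)
    (X : F0) (hX : X ∈ Subgroup.closure s) : f X = g X :=
  MonoidHom.eqOn_closure h hX

/-- The target of pop on ordinary generators. -/
def popT : F0 →* F0 := FreeGroup.lift fun x => thPop' (some x)

theorem dbl_of (x : Sym) : dbl (sy x) = bb x := by simp [dbl, sy]

theorem popT_of (x : Sym) : popT (sy x) = thPop' (some x) := by simp [popT, sy]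

theorem dbl_KG (K : F0) (hK : K ∈ KG) : dbl K = K := by
  refine eqOn_closure dbl (MonoidHom.id F0) _ ?_ K hK
  intro x hx
  simp only [Set.mem_insert_iff, Set.mem_singleton_iff] at hx
  rcases hx with rfl | rfl | rfl <;> simp [dbl_of, bb]

theorem popT_KG (K : F0) (hK : K ∈ KG) : popT K ∈ KG := by
  have hy : sy .y ∈ KG := Subgroup.subset_closure (by simp)
  have hg : sy .g ∈ KG := Subgroup.subset_closure (by simp)
  have hz : sy .z ∈ KG := Subgroup.subset_closure (by simp)
  have h : KG ≤ KG.comap popT := by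
    show Subgroup.closure _ ≤ _
    rw [Subgroup.closure_le]
    intro x hx
    simp only [Set.mem_insert_iff, Set.mem_singleton_iff] at hx
    show popT x ∈ KG
    rcases hx with rfl | rfl | rfl
    · rw [popT_of]; exact hy
    · rw [popT_of]; exact KG.mul_mem (KG.mul_mem hz hg) (KG.inv_mem hz)
    · rw [popT_of]; exact KG.mul_mem hz hz
  exact h hK

theorem popT_BY (A : F0) (hA : A ∈ BY) : popT A = A := by
  refine eqOn_closure popT (MonoidHom.id F0) _ ?_ A hA
  intro x hx
  simp only [Set.mem_insert_iff, Set.mem_singleton_iff] at hx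
  rcases hx with rfl | rfl <;> simp [popT_of, thPop']

theorem b_mem : sy .b ∈ BY := Subgroup.subset_closure (by simp)

theorem y_mem : sy .y ∈ BY := Subgroup.subset_closure (by simp)

theorem s0_mem : s0 ∈ BY := BY.mul_mem (BY.mul_mem b_mem y_mem) (BY.inv_mem b_mem)

theorem dbl_BY (A : F0) (hA : A ∈ BY) : dbl A ∈ BY := by
  have h : BY ≤ BY.comap dbl := by
    show Subgroup.closure _ ≤ _
    rw [Subgroup.closure_le]
    intro x hx
    simp only [Set.mem_insert_iff, Set.mem_singleton_iff] at hx
    show dbl x ∈ BY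
    rcases hx with rfl | rfl
    · rw [dbl_of]; exact BY.mul_mem b_mem b_mem
    · rw [dbl_of]; exact y_mem
  exact h hA

/-- The address of a list of Booleans. -/
def adr (x : List Bool) : F0 := x.foldl (fun A v => dbl A * (if v then s0 else 1)) 1

theorem adr_nil : adr [] = 1 := rfl

theorem adr_append (x : List Bool) (v : Bool) :
    adr (x ++ [v]) = dbl (adr x) * (if v then s0 else 1) := by
  simp [adr, List.foldl_append]

theorem adr_mem (x : List Bool) : adr x ∈ BY := by
  induction x using List.reverseRecOn with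
  | nil => exact BY.one_mem
  | append_singleton x v ih =>
    rw [adr_append]
    apply BY.mul_mem (dbl_BY _ ih)
    cases v
    · exact BY.one_mem
    · exact s0_mem

/-- The symbols that are written at an address. -/
def Tau (s : Sym) : Prop := s = .c ∨ s = .e ∨ ∃ u, s = .l u

/-- The shift of the counters. -/
def sh (s : Fin 4) : Sym → Sym
  | .l u => .l (u + s)
  | x => x

theorem sh_tau {t : Sym} (ht : Tau t) (s : Fin 4) : Tau (sh s t) := by
  rcases ht with rfl | rfl | ⟨u, rfl⟩
  · left; rfl
  · right; left; rfl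
  · right; right; exact ⟨_, rfl⟩

theorem sh_sh (s s' : Fin 4) (t : Sym) : sh s (sh s' t) = sh (s' + s) t := by
  cases t <;> simp [sh, add_assoc]

theorem sh_zero (t : Sym) : sh 0 t = t := by
  cases t <;> simp [sh]

theorem incSym_eq (t : Sym) : incSym t = sh 1 t := by
  cases t <;> rfl

section ops

variable {G : Type} [Group G] {M : HModel D0 G}

theorem cj_pop (X : F0) : Cj M [opl .pop] (dbl X) (popT X) := by
  have h := cj_op (M := M) .pop (FreeGroup.map some X : FreeGroup (Option Sym))
  have e0 : th0 .pop (FreeGroup.map some X : FreeGroup (Option Sym)) = dbl X := by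
    show FreeGroup.lift thPop (FreeGroup.map some X) = dbl X
    rw [lift_comp_map]
    have : thPop ∘ some = bb := by
      funext x
      cases x <;> rfl
    rw [this]
    rfl
  have e1 : th1 .pop (FreeGroup.map some X : FreeGroup (Option Sym)) = popT X := by
    show FreeGroup.lift thPop' (FreeGroup.map some X) = popT X
    rw [lift_comp_map]
    rfl
  rw [e0, e1] at h
  exact h

theorem cj_pop_none : Cj M [opl .pop] s0 (sy .g) := by
  have h := cj_op (M := M) .pop (FreeGroup.of none : FreeGroup (Option Sym))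
  have e0 : th0 .pop (FreeGroup.of none : FreeGroup (Option Sym)) = s0 := by
    show FreeGroup.lift thPop (FreeGroup.of none) = s0
    simp [thPop]
  have e1 : th1 .pop (FreeGroup.of none : FreeGroup (Option Sym)) = sy .g := by
    show FreeGroup.lift thPop' (FreeGroup.of none) = sy .g
    simp [thPop']
  rw [e0, e1] at h
  exact h

theorem cj_read_false (X : F0) : Cj M [opl .read] (dbl X) (dbl X) := by
  have h := cj_op (M := M) .read (FreeGroup.map (fun x => (x, false)) X : FreeGroup (Sym × Bool))
  have e0 : th0 .read (FreeGroup.map (fun x => (x, false)) X : FreeGroup (Sym × Bool)) =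
      dbl X := by
    show FreeGroup.lift thRead (FreeGroup.map (fun x => (x, false)) X) = dbl X
    rw [lift_comp_map]
    rfl
  have e1 : th1 .read (FreeGroup.map (fun x => (x, false)) X : FreeGroup (Sym × Bool)) =
      dbl X := by
    show FreeGroup.lift thRead' (FreeGroup.map (fun x => (x, false)) X) = dbl X
    rw [lift_comp_map]
    rfl
  rw [e0, e1] at h
  exact h

/-- Increment of all counters. -/
def incH : F0 →* F0 := FreeGroup.lift fun x => sy (incSym x)

theorem incH_of (x : Sym) : incH (sy x) = sy (incSym x) := by simp [incH, sy]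

theorem lift_conj (g : Sym → F0) (s : F0) (X : F0) :
    FreeGroup.lift (fun x => s * g x * s⁻¹) X = s * FreeGroup.lift g X * s⁻¹ := by
  have h : FreeGroup.lift (fun x => s * g x * s⁻¹) =
      (MulAut.conj s).toMonoidHom.comp (FreeGroup.lift g) := by
    ext x
    simp
  rw [h]
  rfl

theorem cj_read_true (X : F0) :
    Cj M [opl .read] (s0 * dbl X * s0⁻¹) (s0 * dbl (incH X) * s0⁻¹) := by
  have h := cj_op (M := M) .read (FreeGroup.map (fun x => (x, true)) X : FreeGroup (Sym × Bool))
  have e0 : th0 .read (FreeGroup.map (fun x => (x, true)) X : FreeGroup (Sym × Bool)) =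
      s0 * dbl X * s0⁻¹ := by
    show FreeGroup.lift thRead (FreeGroup.map (fun x => (x, true)) X) = _
    rw [lift_comp_map]
    exact lift_conj bb s0 X
  have e1 : th1 .read (FreeGroup.map (fun x => (x, true)) X : FreeGroup (Sym × Bool)) =
      s0 * dbl (incH X) * s0⁻¹ := by
    show FreeGroup.lift thRead' (FreeGroup.map (fun x => (x, true)) X) = _
    rw [lift_comp_map]
    have h2 : dbl (incH X) = FreeGroup.lift (fun x => bb (incSym x)) X := by
      have : dbl.comp incH = FreeGroup.lift (fun x => bb (incSym x)) := by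
        ext x
        simp [dbl, incH, sy]
      exact DFunLike.congr_fun this X
    rw [h2]
    exact lift_conj (fun x => bb (incSym x)) s0 X
  rw [e0, e1] at h
  exact h

theorem cj_inc (X : F0) : Cj M [opl .inc] X (incH X) := cj_op (M := M) .inc X

theorem cj_all (X : F0) : Cj M [opl .forAll] X (FreeGroup.lift thAll X) :=
  cj_op (M := M) .forAll X

theorem cj_neg (X : F0) : Cj M [opl .neg] X (FreeGroup.lift thNeg X) := cj_op (M := M) .neg X

theorem cj_cl (X : F0) : Cj M [opl .clause] X (FreeGroup.lift thCl X) :=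
  cj_op (M := M) .clause X

/-! ### Reading a variable -/

theorem dbl_tau {t : Sym} (ht : Tau t) : dbl (sy t) = sy t := by
  rcases ht with rfl | rfl | ⟨u, rfl⟩ <;> simp [dbl_of, bb]

theorem popT_tau {t : Sym} (ht : Tau t) : popT (sy t) = sy t := by
  rcases ht with rfl | rfl | ⟨u, rfl⟩ <;> simp [popT_of, thPop']

theorem cj_pop_tau {t : Sym} (ht : Tau t) : Cj M [opl .pop] (sy t) (sy t) := by
  have h := cj_pop (M := M) (sy t)
  rwa [dbl_tau ht, popT_tau ht] at h

theorem cj_pop_adr (x : List Bool) (v : Bool) (K : F0) (hK : K ∈ KG) :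
    ∃ K' ∈ KG, Cj M [opl .pop] (adr (x ++ [v]) * K) (adr x * K') := by
  have hg : sy .g ∈ KG := Subgroup.subset_closure (by simp)
  have h1 := cj_pop (M := M) (adr x)
  rw [popT_BY _ (adr_mem x)] at h1
  have h3 := cj_pop (M := M) K
  rw [dbl_KG K hK] at h3
  rw [adr_append]
  cases v
  · refine ⟨popT K, popT_KG K hK, ?_⟩
    simpa using h1.mul h3
  · refine ⟨sy .g * popT K, KG.mul_mem hg (popT_KG K hK), ?_⟩
    have h2 := (h1.mul cj_pop_none).mul h3
    simpa [mul_assoc] using h2

theorem cj_pops_adr (x x' : List Bool) (K : F0) (hK : K ∈ KG) :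
    ∃ K' ∈ KG, Cj M (List.replicate x'.length (opl .pop)) (adr (x ++ x') * K) (adr x * K') := by
  induction x' using List.reverseRecOn generalizing K with
  | nil => exact ⟨K, hK, by simpa using Cj.nil _⟩
  | append_singleton x' v ih =>
    obtain ⟨K1, hK1, h1⟩ := cj_pop_adr (M := M) (x ++ x') v K hK
    obtain ⟨K2, hK2, h2⟩ := ih K1 hK1
    refine ⟨K2, hK2, ?_⟩
    have h3 := h1.append h2
    rw [← List.append_assoc]
    rw [List.length_append, List.length_singleton, List.replicate_succ]
    exact h3

theorem cj_pops_tau {t : Sym} (ht : Tau t) (m : ℕ) :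
    Cj M (List.replicate m (opl .pop)) (sy t) (sy t) := by
  induction m with
  | zero => exact Cj.nil _
  | succ m ih =>
    rw [List.replicate_succ]
    exact (cj_pop_tau ht).append ih

theorem incH_KG (K : F0) (hK : K ∈ KG) : incH K = K := by
  refine eqOn_closure incH (MonoidHom.id F0) _ ?_ K hK
  intro x hx
  simp only [Set.mem_insert_iff, Set.mem_singleton_iff] at hx
  rcases hx with rfl | rfl | rfl <;> simp [incH_of, incSym]

theorem incH_BY (A : F0) (hA : A ∈ BY) : incH A = A := by
  refine eqOn_closure incH (MonoidHom.id F0) _ ?_ A hA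
  intro x hx
  simp only [Set.mem_insert_iff, Set.mem_singleton_iff] at hx
  rcases hx with rfl | rfl <;> simp [incH_of, incSym]

theorem cj_read_adr (x : List Bool) (v : Bool) (K : F0) (hK : K ∈ KG) {t : Sym} (ht : Tau t) :
    Cj M [opl .read] ((adr (x ++ [v]) * K) * sy t * (adr (x ++ [v]) * K)⁻¹)
      ((adr (x ++ [v]) * K) * sy (sh (if v then 1 else 0) t) * (adr (x ++ [v]) * K)⁻¹) := by
  rw [adr_append]
  cases v
  · have h := cj_read_false (M := M) (adr x * K * sy t * (adr x * K)⁻¹)
    simp only [map_mul, map_inv, dbl_tau ht, dbl_KG K hK] at h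
    simpa [sh_zero] using h
  · have h1 := cj_read_false (M := M) (adr x)
    have h2 := cj_read_true (M := M) (K * sy t * K⁻¹)
    simp only [map_mul, map_inv, dbl_tau ht, dbl_KG K hK, incH_KG K hK, incH_of,
      incSym_eq, dbl_tau (sh_tau ht 1)] at h2
    have h3 := h1.conj h2
    have e : ∀ s : F0, (dbl (adr x) * s0 * K) * s * (dbl (adr x) * s0 * K)⁻¹ =
        dbl (adr x) * (s0 * (K * s * K⁻¹) * s0⁻¹) * (dbl (adr x))⁻¹ := fun s => by group
    simp only [if_true]
    rw [e, e]
    exact h3

theorem invWord_replicate (m : ℕ) :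
    invWord (List.replicate m (opl .pop)) = List.replicate m (Sum.inr (Op.pop, false)) := by
  simp [invWord, invLet, bar]

/-- The read lemma. -/
theorem cj_readWord (x : List Bool) (k : ℕ) (K : F0) (hK : K ∈ KG) {t : Sym} (ht : Tau t) :
    Cj M (readWord x.length k) ((adr x * K) * sy t * (adr x * K)⁻¹)
      ((adr x * K) * sy (sh (if x.getD k false then 1 else 0) t) * (adr x * K)⁻¹) := by
  rw [readWord]
  by_cases hk : k < x.length
  · rw [if_pos hk]
    have hx : x = (x.take k ++ [x[k]]) ++ x.drop (k + 1) := by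
      rw [List.take_append_getElem, List.take_append_drop]
    have hl : x.length - 1 - k = (x.drop (k + 1)).length := by
      rw [List.length_drop]; omega
    have hv : x.getD k false = x[k] := by
      rw [List.getD_eq_getElem?_getD, List.getElem?_eq_getElem hk]
      rfl
    rw [hv, hl]
    generalize x[k] = v at *
    obtain ⟨K', hK', h1⟩ := cj_pops_adr (M := M) (x.take k ++ [v]) (x.drop (k + 1)) K hK
    rw [← hx] at h1
    have h2 := h1.conj (cj_pops_tau (M := M) ht (x.drop (k + 1)).length)
    have h3 := cj_read_adr (M := M) (x.take k) v K' hK' ht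
    have ht' := sh_tau ht (if v then 1 else 0)
    have h4 := (h1.conj (cj_pops_tau (M := M) ht' (x.drop (k + 1)).length)).invWord
    rw [invWord_replicate] at h4
    exact (h2.append h3).append h4
  · rw [if_neg hk]
    have hv : x.getD k false = false := by
      rw [List.getD_eq_getElem?_getD, List.getElem?_eq_none (by omega)]
      rfl
    rw [hv]
    simp only [Bool.false_eq_true, if_false, sh_zero]
    exact Cj.nil _

/-- The truth value of a literal as a number. -/
def litN (x : List Bool) (l : ℕ × Bool) : Fin 4 := if x.getD l.1 false = l.2 then 1 else 0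

theorem cj_litWord (x : List Bool) (l : ℕ × Bool) (K : F0) (hK : K ∈ KG) {t : Sym}
    (ht : Tau t) :
    Cj M (litWord x.length l) ((adr x * K) * sy t * (adr x * K)⁻¹)
      ((adr x * K) * sy (sh (litN x l) t) * (adr x * K)⁻¹) := by
  rcases l with ⟨k, v⟩
  cases v
  · have h1 := cj_inc (M := M) ((adr x * K) * sy t * (adr x * K)⁻¹)
    simp only [map_mul, map_inv, incH_BY _ (adr_mem x), incH_KG K hK, incH_of, incSym_eq] at h1
    have ht' := sh_tau ht (litN x (k, false))
    have h2 := (cj_readWord (M := M) x k K hK ht').invWord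
    rw [sh_sh] at h2
    have e : litN x (k, false) + (if x.getD k false then 1 else 0) = 1 := by
      simp only [litN]
      cases x.getD k false <;> simp
    rw [e] at h2
    have h3 := h1.append h2
    exact h3
  · have h1 := cj_readWord (M := M) x k K hK ht
    exact h1

/-- The number of true literals modulo four. -/
def cntN (x : List Bool) (c : List (ℕ × Bool)) : Fin 4 := (c.map (litN x)).sum

theorem cj_countWord (x : List Bool) (c : List (ℕ × Bool)) (K : F0) (hK : K ∈ KG) {t : Sym}
    (ht : Tau t) :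
    Cj M (countWord x.length c) ((adr x * K) * sy t * (adr x * K)⁻¹)
      ((adr x * K) * sy (sh (cntN x c) t) * (adr x * K)⁻¹) := by
  induction c generalizing t with
  | nil =>
    simp only [cntN, List.map_nil, List.sum_nil, sh_zero]
    exact Cj.nil _
  | cons l c ih =>
    have h1 := cj_litWord (M := M) x l K hK ht
    have h2 := ih (sh_tau ht (litN x l))
    rw [sh_sh] at h2
    have h3 := h1.append h2
    exact h3

theorem cntN_eq (x : List Bool) (c : List (ℕ × Bool)) :
    cntN x c = (c.countP fun l => decide (x.getD l.1 false = l.2)) • (1 : Fin 4) := by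
  induction c with
  | nil => rfl
  | cons l c ih =>
    have h : cntN x (l :: c) = litN x l + cntN x c := by simp [cntN]
    rw [h, ih, List.countP_cons, litN, add_smul, add_comm]
    by_cases hl : x.getD l.1 false = l.2
    · simp [hl]
    · simp [hl]

theorem cntN_eq_zero (x : List Bool) (c : List (ℕ × Bool)) (hc : c.length ≤ 3) :
    cntN x c = 0 ↔ ¬ ∃ l ∈ c, x.getD l.1 false = l.2 := by
  rw [cntN_eq]
  have h1 : (c.countP fun l => decide (x.getD l.1 false = l.2)) ≤ 3 :=
    le_trans List.countP_le_length hc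
  constructor
  · intro h
    have h2 : (c.countP fun l => decide (x.getD l.1 false = l.2)) = 0 := by
      generalize (c.countP fun l => decide (x.getD l.1 false = l.2)) = a at *
      interval_cases a
      · rfl
      · exact absurd h (by decide)
      · exact absurd h (by decide)
      · exact absurd h (by decide)
    rw [List.countP_eq_zero] at h2
    rintro ⟨l, hl, hl'⟩
    exact h2 l hl (by simpa using hl')
  · intro h
    have h2 : (c.countP fun l => decide (x.getD l.1 false = l.2)) = 0 := by
      rw [List.countP_eq_zero]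
      intro l hl hl'
      exact h ⟨l, hl, by simpa using hl'⟩
    rw [h2, zero_smul]

/-! ### Clauses -/

theorem y_KG : sy .y ∈ KG := Subgroup.subset_closure (by simp)

theorem yj_KG (j : ℕ) : sy .y ^ j ∈ KG := KG.pow_mem y_KG j

theorem cl_fix (X : F0) (hX : X ∈ Subgroup.closure ((fun s => sy s) '' {s | s ≠ .c})) :
    FreeGroup.lift thCl X = X := by
  refine eqOn_closure (FreeGroup.lift thCl) (MonoidHom.id F0) _ ?_ X hX
  rintro _ ⟨s, hs, rfl⟩
  have hs' : s ≠ .c := hs
  cases s <;> simp_all [thCl, sy]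

theorem BY_le : BY ≤ Subgroup.closure ((fun s => sy s) '' {s | s ≠ .c}) := by
  apply Subgroup.closure_mono
  intro x hx
  simp only [Set.mem_insert_iff, Set.mem_singleton_iff] at hx
  rcases hx with rfl | rfl
  · exact ⟨.b, by simp, rfl⟩
  · exact ⟨.y, by simp, rfl⟩

theorem cl_adr (x : List Bool) (j : ℕ) :
    FreeGroup.lift thCl (adr x * sy .y ^ j) = adr x * sy .y ^ j :=
  cl_fix _ (BY_le (BY.mul_mem (adr_mem x) (BY.pow_mem y_mem j)))

/-- A clause moves the symbol `c`. -/
theorem cj_clause_c (x : List Bool) (c : List (ℕ × Bool)) (j : ℕ) :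
    Cj M (clauseWord x.length c)
      ((adr x * sy .y ^ j) * sy .c * (adr x * sy .y ^ j)⁻¹)
      (W0 ((adr x * sy .y ^ j) * sy (.l (cntN x c)) * (adr x * sy .y ^ j)⁻¹)
        ((adr x * sy .y ^ (j + 1)) * sy .c * (adr x * sy .y ^ (j + 1))⁻¹)) := by
  have hc : Tau .c := Or.inl rfl
  have h1 := (cj_countWord (M := M) x c (sy .y ^ j) (yj_KG j) hc).invWord
  have h2 := cj_cl (M := M) ((adr x * sy .y ^ j) * sy .c * (adr x * sy .y ^ j)⁻¹)
  rw [map_mul, map_mul, map_inv, cl_adr] at h2
  have e : FreeGroup.lift thCl (sy .c) = W0 (sy (.l 0)) (sy .y * sy .c * (sy .y)⁻¹) := by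
    simp [sy, thCl]
  rw [e] at h2
  have e2 : (adr x * sy .y ^ j) * W0 (sy (.l 0)) (sy .y * sy .c * (sy .y)⁻¹) *
      (adr x * sy .y ^ j)⁻¹ = W0 ((adr x * sy .y ^ j) * sy (.l 0) * (adr x * sy .y ^ j)⁻¹)
        ((adr x * sy .y ^ (j + 1)) * sy .c * (adr x * sy .y ^ (j + 1))⁻¹) := by
    rw [pow_succ]
    simp only [W0]
    group
  rw [e2] at h2
  have h3 := cj_countWord (M := M) x c (sy .y ^ j) (yj_KG j) (t := .l 0)
    (Or.inr (Or.inr ⟨0, rfl⟩))
  have h4 := cj_countWord (M := M) x c (sy .y ^ (j + 1)) (yj_KG (j + 1)) hc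
  have e3 : sh (cntN x c) (.l 0) = .l (cntN x c) := by simp [sh]
  have e4 : sh (cntN x c) .c = .c := rfl
  rw [e3] at h3
  rw [e4] at h4 h1
  have h5 : Cj M (countWord x.length c)
      (W0 ((adr x * sy .y ^ j) * sy (.l 0) * (adr x * sy .y ^ j)⁻¹)
        ((adr x * sy .y ^ (j + 1)) * sy .c * (adr x * sy .y ^ (j + 1))⁻¹))
      (W0 ((adr x * sy .y ^ j) * sy (.l (cntN x c)) * (adr x * sy .y ^ j)⁻¹)
        ((adr x * sy .y ^ (j + 1)) * sy .c * (adr x * sy .y ^ (j + 1))⁻¹)) := by
    simp only [W0]
    exact ((((h4.mul h3).mul h4).mul h3.inv).mul h4.inv).mul h4.inv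
  exact (h1.append h2).append h5

/-- A clause fixes the other symbols. -/
theorem cj_clause_fix (x : List Bool) (c : List (ℕ × Bool)) (j : ℕ) {t : Sym} (ht : Tau t)
    (htc : t ≠ .c) :
    Cj M (clauseWord x.length c)
      ((adr x * sy .y ^ j) * sy t * (adr x * sy .y ^ j)⁻¹)
      ((adr x * sy .y ^ j) * sy t * (adr x * sy .y ^ j)⁻¹) := by
  have ht' := sh_tau ht (-cntN x c)
  have h1 := (cj_countWord (M := M) x c (sy .y ^ j) (yj_KG j) ht').invWord
  have h3 := cj_countWord (M := M) x c (sy .y ^ j) (yj_KG j) ht'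
  rw [sh_sh, neg_add_cancel, sh_zero] at h1 h3
  have h2 := cj_cl (M := M)
    ((adr x * sy .y ^ j) * sy (sh (-cntN x c) t) * (adr x * sy .y ^ j)⁻¹)
  have hne : sh (-cntN x c) t ≠ .c := by
    intro h
    apply htc
    cases t <;> simp_all [sh]
  have e : FreeGroup.lift thCl (sy (sh (-cntN x c) t)) = sy (sh (-cntN x c) t) :=
    cl_fix _ (Subgroup.subset_closure ⟨_, hne, rfl⟩)
  rw [map_mul, map_mul, map_inv, cl_adr, e] at h2
  exact (h1.append h2).append h3

open Classical in
/-- The truth value of a proposition. -/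
noncomputable def tv (P : Prop) : Equiv.Perm (Fin 5) := if P then gam else 1

theorem hh_y : hh (sy .y) = mu := by simp [hh, sy, hSym]

theorem W0_one_left {H : Type} [Group H] (b : H) : W0 1 b = 1 := by
  simp [W0]

theorem W0_one_right {H : Type} [Group H] (a : H) : W0 a 1 = 1 := by
  simp [W0]

theorem W0_tv (P Q : Prop) : W0 (tv P) (mu * tv Q * mu⁻¹) = tv (P ∧ Q) := by
  unfold tv
  by_cases hP : P <;> by_cases hQ : Q
  · simp only [hP, hQ, if_true, and_self]
    exact W0_gam
  · simp [hP, hQ, W0_one_right]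
  · simp [hP, hQ, W0_one_left]
  · simp [hP, hQ, W0_one_left]

theorem hh_W0 (a b : F0) : hh (W0 a b) = W0 (hh a) (hh b) := by
  simp [W0]

theorem W0_conj {H : Type} [Group H] (h a b : H) :
    W0 (h * a * h⁻¹) (h * b * h⁻¹) = h * W0 a b * h⁻¹ := by
  simp only [W0]
  group

theorem hh_l (u : Fin 4) : hh (sy (.l u)) = tv (u ≠ 0) := by
  unfold tv
  by_cases hu : u = 0 <;> simp [hh, sy, hSym, hu]

/-- The clause phase. -/
theorem clause_phase (x : List Bool) (cl : List (List (ℕ × Bool)))
    (hcl : ∀ c ∈ cl, c.length ≤ 3) :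
    (∀ j : ℕ, ∃ U : F0, Cj M (cl.flatMap (clauseWord x.length))
      ((adr x * sy .y ^ j) * sy .c * (adr x * sy .y ^ j)⁻¹) U ∧
      hh U = hh (adr x * sy .y ^ j) * tv (Matrix cl x) * (hh (adr x * sy .y ^ j))⁻¹) ∧
    (∀ (j : ℕ) (t : Sym), Tau t → t ≠ .c → Cj M (cl.flatMap (clauseWord x.length))
      ((adr x * sy .y ^ j) * sy t * (adr x * sy .y ^ j)⁻¹)
      ((adr x * sy .y ^ j) * sy t * (adr x * sy .y ^ j)⁻¹)) := by
  induction cl with
  | nil =>
    refine ⟨fun j => ⟨_, Cj.nil _, ?_⟩, fun j t _ _ => Cj.nil _⟩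
    have h1 : hh (sy .c) = gam := by simp [hh, sy, hSym]
    have h2 : tv (Matrix [] x) = gam := by
      unfold tv
      rw [if_pos]
      intro c hc
      simp at hc
    rw [map_mul, map_mul, map_inv, h1, h2]
  | cons c cl ih =>
    obtain ⟨ih1, ih2⟩ := ih fun c' hc' => hcl c' (List.mem_cons_of_mem _ hc')
    have hc3 := hcl c (List.mem_cons_self ..)
    constructor
    · intro j
      obtain ⟨U', hU', hhU'⟩ := ih1 (j + 1)
      refine ⟨W0 ((adr x * sy .y ^ j) * sy (.l (cntN x c)) * (adr x * sy .y ^ j)⁻¹) U', ?_, ?_⟩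
      · rw [List.flatMap_cons]
        refine (cj_clause_c (M := M) x c j).append ?_
        have h3 := ih2 j (.l (cntN x c)) (Or.inr (Or.inr ⟨_, rfl⟩)) (by simp)
        simp only [W0]
        exact ((((hU'.mul h3).mul hU').mul h3.inv).mul hU'.inv).mul hU'.inv
      · have e1 : hh (adr x * sy .y ^ (j + 1)) = hh (adr x * sy .y ^ j) * mu := by
          rw [pow_succ, ← mul_assoc, map_mul, hh_y]
        have e2 : hh U' = hh (adr x * sy .y ^ j) * (mu * tv (Matrix cl x) * mu⁻¹) *
            (hh (adr x * sy .y ^ j))⁻¹ := by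
          rw [hhU', e1]
          group
        have e3 : tv (cntN x c ≠ 0 ∧ Matrix cl x) = tv (Matrix (c :: cl) x) := by
          congr 1
          rw [ne_eq, cntN_eq_zero x c hc3, not_not]
          simp [Matrix]
        rw [hh_W0, e2, map_mul, map_mul, map_inv, hh_l, W0_conj, W0_tv, e3]
    · intro j t ht htc
      rw [List.flatMap_cons]
      exact (cj_clause_fix (M := M) x c j ht htc).append (ih2 j t ht htc)

/-! ### Quantifiers -/

theorem hh_dbl (A : F0) (hA : A ∈ BY) : hh (dbl A) = hh A := by
  refine eqOn_closure (hh.comp dbl) hh _ ?_ A hA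
  intro x hx
  simp only [Set.mem_insert_iff, Set.mem_singleton_iff] at hx
  rcases hx with rfl | rfl
  · simp [dbl_of, bb, hh, hSym]
  · simp [dbl_of, bb]

theorem hh_s0 : hh s0 = mu := by
  simp [s0, hh, hSym]

theorem hh_adr_append (x : List Bool) (v : Bool) :
    hh (adr (x ++ [v])) = hh (adr x) * (if v then mu else 1) := by
  rw [adr_append, map_mul, hh_dbl _ (adr_mem x)]
  cases v
  · simp
  · simp [hh_s0]

theorem all_BY (A : F0) (hA : A ∈ BY) : FreeGroup.lift thAll A = dbl A := by
  refine eqOn_closure (FreeGroup.lift thAll) dbl _ ?_ A hA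
  intro x hx
  simp only [Set.mem_insert_iff, Set.mem_singleton_iff] at hx
  rcases hx with rfl | rfl <;> simp [dbl_of, bb, thAll]

theorem neg_BY (A : F0) (hA : A ∈ BY) : FreeGroup.lift thNeg A = A := by
  refine eqOn_closure (FreeGroup.lift thNeg) (MonoidHom.id F0) _ ?_ A hA
  intro x hx
  simp only [Set.mem_insert_iff, Set.mem_singleton_iff] at hx
  rcases hx with rfl | rfl <;> simp [thNeg]

/-- A symbol at an address. -/
def at' (x : List Bool) (t : F0) : F0 := adr x * t * (adr x)⁻¹

theorem at'_mul (x : List Bool) (s t : F0) : at' x (s * t) = at' x s * at' x t := by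
  simp only [at']; group

theorem at'_inv (x : List Bool) (s : F0) : at' x s⁻¹ = (at' x s)⁻¹ := by
  simp only [at']; group

theorem cj_all_c (x : List Bool) : Cj M [opl .forAll] (at' x (sy .c))
    (W0 (at' (x ++ [false]) (sy .c)) (at' (x ++ [true]) (sy .c))) := by
  have h := cj_all (M := M) (at' x (sy .c))
  have e : FreeGroup.lift thAll (at' x (sy .c)) =
      W0 (at' (x ++ [false]) (sy .c)) (at' (x ++ [true]) (sy .c)) := by
    have e1 : FreeGroup.lift thAll (sy .c) = W0 (sy .c) (s0 * sy .c * s0⁻¹) := by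
      simp [sy, thAll]
    simp only [at', map_mul, map_inv, all_BY _ (adr_mem x), e1, adr_append]
    simp only [Bool.false_eq_true, if_false, if_true, mul_one]
    rw [← W0_conj]
    simp only [W0]
    group
  rwa [e] at h

theorem cj_all_e (x : List Bool) : Cj M [opl .forAll] (at' x (sy .e))
    (at' (x ++ [false]) (sy .e)) := by
  have h := cj_all (M := M) (at' x (sy .e))
  have e : FreeGroup.lift thAll (at' x (sy .e)) = at' (x ++ [false]) (sy .e) := by
    have e1 : FreeGroup.lift thAll (sy .e) = sy .e := by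
      simp [sy, thAll]
    simp only [at', map_mul, map_inv, all_BY _ (adr_mem x), e1, adr_append]
    simp
  rwa [e] at h

theorem cj_neg_c (x : List Bool) : Cj M [opl .neg] (at' x (sy .c))
    (at' x (sy .e) * (at' x (sy .c))⁻¹) := by
  have h := cj_neg (M := M) (at' x (sy .c))
  have e : FreeGroup.lift thNeg (at' x (sy .c)) = at' x (sy .e) * (at' x (sy .c))⁻¹ := by
    have e1 : FreeGroup.lift thNeg (sy .c) = sy .e * (sy .c)⁻¹ := by
      simp [sy, thNeg]
    simp only [at', map_mul, map_inv, neg_BY _ (adr_mem x), e1]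
    group
  rwa [e] at h

theorem cj_neg_e (x : List Bool) : Cj M [opl .neg] (at' x (sy .e)) (at' x (sy .e)) := by
  have h := cj_neg (M := M) (at' x (sy .e))
  have e : FreeGroup.lift thNeg (at' x (sy .e)) = at' x (sy .e) := by
    have e1 : FreeGroup.lift thNeg (sy .e) = sy .e := by
      simp [sy, thNeg]
    simp only [at', map_mul, map_inv, neg_BY _ (adr_mem x), e1]
  rwa [e] at h

theorem Cj.W0 {w : List Let} {U U' V V' : F0} (h : Cj M w U U') (h' : Cj M w V V') :
    Cj M w (W0 U V) (Pool.Agent.W_MP_1d4143_al.W0 U' V') := by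
  simp only [Pool.Agent.W_MP_1d4143_al.W0]
  exact ((((h'.mul h).mul h').mul h.inv).mul h'.inv).mul h'.inv

theorem cj_ex_c (x : List Bool) : Cj M [opl .neg, opl .forAll, opl .neg] (at' x (sy .c))
    (at' (x ++ [false]) (sy .e) *
      (W0 (at' (x ++ [false]) (sy .e) * (at' (x ++ [false]) (sy .c))⁻¹)
        (at' (x ++ [true]) (sy .e) * (at' (x ++ [true]) (sy .c))⁻¹))⁻¹) := by
  have h1 := cj_neg_c (M := M) x
  have h2 := (cj_all_e (M := M) x).mul (cj_all_c (M := M) x).inv
  have h3 := (cj_neg_e (M := M) (x ++ [false])).mul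
    ((cj_neg_c (M := M) (x ++ [false])).W0 (cj_neg_c (M := M) (x ++ [true]))).inv
  exact (h1.append h2).append h3

theorem cj_ex_e (x : List Bool) : Cj M [opl .neg, opl .forAll, opl .neg] (at' x (sy .e))
    (at' (x ++ [false]) (sy .e)) :=
  ((cj_neg_e (M := M) x).append (cj_all_e (M := M) x)).append (cj_neg_e (M := M) _)

theorem tv_not (P : Prop) : gam * (tv P)⁻¹ = tv (¬ P) := by
  unfold tv
  by_cases hP : P <;> simp [hP]

/-- The program computes the truth value. -/
theorem quant_phase (n : ℕ) (cl : List (List (ℕ × Bool))) (hcl : ∀ c ∈ cl, c.length ≤ 3)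
    (q : List Bool) (x : List Bool) (hn : x.length + q.length = n) :
    (∃ U : F0, Cj M (q.flatMap quantWord ++ cl.flatMap (clauseWord n)) (at' x (sy .c)) U ∧
      hh U = hh (adr x) * tv (Holds cl q x) * (hh (adr x))⁻¹) ∧
    (∃ U : F0, Cj M (q.flatMap quantWord ++ cl.flatMap (clauseWord n)) (at' x (sy .e)) U ∧
      hh U = hh (adr x) * gam * (hh (adr x))⁻¹) := by
  induction q generalizing x with
  | nil =>
    have hx : x.length = n := by simpa using hn
    subst hx
    obtain ⟨h1, h2⟩ := clause_phase (M := M) x cl hcl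
    constructor
    · obtain ⟨U, hU, hhU⟩ := h1 0
      simp only [pow_zero, mul_one] at hU hhU
      exact ⟨U, by simpa [at'] using hU, hhU⟩
    · have h3 := h2 0 .e (Or.inr (Or.inl rfl)) (by simp)
      simp only [pow_zero, mul_one] at h3
      refine ⟨_, by simpa [at'] using h3, ?_⟩
      have h4 : hh (sy .e) = gam := by simp [hh, sy, hSym]
      rw [map_mul, map_mul, map_inv, h4]
  | cons v q ih =>
    have hf := ih (x ++ [false]) (by simp at hn ⊢; omega)
    have ht := ih (x ++ [true]) (by simp at hn ⊢; omega)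
    obtain ⟨⟨Uf, hUf, hhUf⟩, ⟨Ef, hEf, hhEf⟩⟩ := hf
    obtain ⟨⟨Ut, hUt, hhUt⟩, ⟨Et, hEt, hhEt⟩⟩ := ht
    rw [hh_adr_append] at hhUf hhEf hhUt hhEt
    simp only [Bool.false_eq_true, if_false, if_true, mul_one] at hhUf hhEf hhUt hhEt
    have eUt : hh Ut = hh (adr x) * (mu * tv (Holds cl q (x ++ [true])) * mu⁻¹) *
        (hh (adr x))⁻¹ := by
      rw [hhUt]; group
    rw [List.flatMap_cons, List.append_assoc]
    cases v
    · refine ⟨⟨_, (cj_ex_c (M := M) x).append (hEf.mul ((hEf.mul hUf.inv).W0
        (hEt.mul hUt.inv)).inv), ?_⟩, ⟨_, (cj_ex_e (M := M) x).append hEf, hhEf⟩⟩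
      have e1 : hh Ef * (hh Uf)⁻¹ = hh (adr x) * tv (¬ Holds cl q (x ++ [false])) *
          (hh (adr x))⁻¹ := by
        rw [hhEf, hhUf, ← tv_not]; group
      have e2 : hh Et * (hh Ut)⁻¹ = hh (adr x) *
          (mu * tv (¬ Holds cl q (x ++ [true])) * mu⁻¹) * (hh (adr x))⁻¹ := by
        rw [hhEt, hhUt, ← tv_not]; group
      rw [map_mul, map_inv, hh_W0, map_mul, map_inv, map_mul, map_inv, e1, e2, W0_conj, W0_tv,
        hhEf]
      have e3 : tv (Holds cl (false :: q) x) =
          gam * (tv (¬ Holds cl q (x ++ [false]) ∧ ¬ Holds cl q (x ++ [true])))⁻¹ := by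
        rw [tv_not]
        congr 1
        simp only [Holds]
        exact propext (by tauto)
      rw [e3]
      group
    · refine ⟨⟨_, (cj_all_c (M := M) x).append (hUf.W0 hUt), ?_⟩,
        ⟨_, (cj_all_e (M := M) x).append hEf, hhEf⟩⟩
      rw [hh_W0, hhUf, eUt, W0_conj, W0_tv]
      rfl

end ops

end Sem

open Sem in
/-- The word of a formula with clauses of length at most three is trivial iff the formula is
false. -/
theorem redWord_iff {G : Type} [Group G] (M : HModel D0 G)
    (hM : ∀ e f g, M.ι f * M.t e = M.t e * M.ι g → f ∈ D0.S e)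
    (q : List Bool) (cl : List (List (ℕ × Bool))) (hcl : ∀ c ∈ cl, c.length ≤ 3) :
    val M.letterVal (redWord q cl) = 1 ↔ ¬ Holds cl q [] := by
  obtain ⟨⟨U, hU, hhU⟩, _⟩ := quant_phase (M := M) q.length cl hcl q [] (by simp)
  have hc : at' [] (sy .c) = sy .c := by simp [at', adr_nil]
  rw [hc] at hU
  rw [adr_nil, map_one, one_mul, inv_one, mul_one] at hhU
  have h1 : (val M.letterVal (progWord q cl))⁻¹ * M.ι (sy .c) *
      val M.letterVal (progWord q cl) = M.ι U := by
    have : M.ι (sy .c) * val M.letterVal (progWord q cl) =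
      val M.letterVal (progWord q cl) * M.ι U := hU
    rw [mul_assoc, this, inv_mul_cancel_left]
  have l1 : M.letterVal (Sum.inl (Sym.c, true)) = M.ι (sy .c) := rfl
  have l2 : M.letterVal (Sum.inl (Sym.c, false)) = (M.ι (sy .c))⁻¹ := by
    rw [← map_inv]; rfl
  have l3 : M.letterVal (opl .test) = M.t (.test, true) := rfl
  have l4 : M.letterVal (Sum.inr (Op.test, false)) = (M.t (.test, true))⁻¹ :=
    M.t_bar (.test, true)
  have hval : val M.letterVal (redWord q cl) =
      M.ι U * M.t (.test, true) * (M.ι U)⁻¹ * (M.t (.test, true))⁻¹ := by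
    rw [redWord]
    simp only [val_append, val_singleton, val_invWord, l1, l2, l3, l4]
    rw [← h1]
    group
  rw [hval, mul_inv_eq_one, mul_inv_eq_iff_eq_mul]
  have hS : ∀ f, f ∈ D0.S (.test, true) ↔ hh f = 1 := by
    intro f
    constructor
    · rintro ⟨x, hx⟩
      have hx' : th0 .test x = f := hx
      rw [← hx']
      exact (show hh.ker from x).2
    · intro hf
      exact ⟨(⟨f, hf⟩ : hh.ker), rfl⟩
  have key : M.ι U * M.t (.test, true) = M.t (.test, true) * M.ι U ↔ hh U = 1 := by
    constructor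
    · intro h
      exact (hS U).mp (hM _ _ _ h)
    · intro h
      exact rel_D0 .test (⟨U, h⟩ : hh.ker) M
  rw [key, hhU]
  unfold tv
  by_cases hH : Holds cl q []
  · simp [hH, gam_ne_one]
  · simp [hH]

end Pool.Agent.W_MP_1d4143_al
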