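import Pool.Agent.W_MP_1d4143_al.Defs
import Pool.Agent.PolyTime.Clock

/-!
# Polynomial space: definitions
-/

set_option autoImplicit false

open Turing Computability

namespace Pool.Agent.W_MP_1d4143_al

/-- The space used by a configuration of a (multi-stack) Turing machine: the total number of symbols
on its stacks. -/
noncomputable def space (tm : FinTM2) (c : tm.Cfg) : ℕ :=
  letI := tm.kFin
  ∑ k, (c.stk k).length

/-- `InPSPACE ea f`: the Boolean function `f` is computed in polynomial space, the inputs being
given by their codes `ea a`: there are a Turing machine and a polynomial `p` such that, for every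
input `a`, the machine halts with the output `f a`, and every configuration of the computation has
space at most `p |ea a|`. -/
def InPSPACE {α αΓ : Type} (ea : α → List αΓ) (f : α → Bool) : Prop :=
  ∃ (M : TM2ComputableAux αΓ Bool) (p : Polynomial ℕ), ∀ a : α,
    Nonempty (TM2Outputs M.tm ((ea a).map M.inputAlphabet.invFun)
      (some ((encodeBool (f a)).map M.outputAlphabet.invFun))) ∧
    ∀ (n : ℕ) (c : M.tm.Cfg),
      (flip bind M.tm.step)^[n] (some (initList M.tm ((ea a).map M.inputAlphabet.invFun))) = some c →
        space M.tm c ≤ p.eval (ea a).length

/-- `InP ea f`: the Boolean function `f` is computed in polynomial time. -/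
def InP {α αΓ : Type} (ea : α → List αΓ) (f : α → Bool) : Prop :=
  Nonempty (TM2ComputableInPolyTime ea encodeBool f)

/-- `P = PSPACE`: a language over a finite alphabet is decidable in polynomial space iff it is
decidable in polynomial time. -/
def PEqPSPACE : Prop := ∀ (A : Type) [Finite A] [Nonempty A] (f : List A → Bool),
  InPSPACE (fun w : List A => w) f ↔ InP (fun w : List A => w) f

/-- The language `f` is PSPACE-complete (with respect to polynomial-time many-one reductions). -/
def PSPACEComplete {A : Type} (f : List A → Bool) : Prop :=
  InPSPACE (fun w : List A => w) f ∧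
  ∀ (B : Type) [Finite B] [Nonempty B] (g : List B → Bool), InPSPACE (fun w : List B => w) g →
    ∃ r : List B → List A, Nonempty (TM2ComputableInPolyTime (fun w : List B => w)
      (fun w : List A => w) r) ∧ ∀ w, g w = f (r w)

end Pool.Agent.W_MP_1d4143_al
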