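import Pool.Agent.W_MP_1d4143_al.Space

/-!
# Computations of bounded size and structured programs
-/

set_option autoImplicit false
set_option linter.unusedSectionVars false
set_option linter.unusedSimpArgs false

open Turing Computability Pool.Agent.PolyTime Function

namespace Pool.Agent.W_MP_1d4143_al

/-! ### Computations of bounded size -/

/-- `SpSteps f size B a b`: `b` is reached from `a` by steps of `f`, and all elements on the way
(including `a` and `b`) have size at most `B`. -/
inductive SpSteps {α : Type} (f : α → Option α) (size : α → ℕ) (B : ℕ) : α → α → Prop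
  | refl (a : α) : size a ≤ B → SpSteps f size B a a
  | head {a b c : α} : size a ≤ B → f a = some b → SpSteps f size B b c → SpSteps f size B a c

section SpSteps

variable {α : Type} {f : α → Option α} {size : α → ℕ} {B : ℕ} {a b c : α}

theorem SpSteps.mono {B' : ℕ} (h : SpSteps f size B a b) (hB : B ≤ B') :
    SpSteps f size B' a b := by
  induction h with
  | refl a ha => exact .refl a (ha.trans hB)
  | head ha hab _ ih => exact .head (ha.trans hB) hab ih

theorem SpSteps.trans (h1 : SpSteps f size B a b) (h2 : SpSteps f size B b c) :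
    SpSteps f size B a c := by
  induction h1 with
  | refl a _ => exact h2
  | head ha hab _ ih => exact .head ha hab (ih h2)

theorem SpSteps.size_le (h : SpSteps f size B a b) : size b ≤ B := by
  induction h with
  | refl a ha => exact ha
  | head _ _ _ ih => exact ih

theorem SpSteps.toSteps (h : SpSteps f size B a b) : ∃ n, Steps f n a b := by
  induction h with
  | refl a _ => exact ⟨0, .refl a⟩
  | head _ hab _ ih =>
    obtain ⟨n, hn⟩ := ih
    exact ⟨n + 1, .head hab hn⟩

theorem SpSteps.ofSteps {n : ℕ} (h : Steps f n a b)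
    (hB : ∀ m c, Steps f m a c → size c ≤ B) : SpSteps f size B a b := by
  induction h with
  | refl a => exact .refl a (hB 0 a (.refl a))
  | @head n a b c hab _ ih =>
    exact .head (hB 0 a (.refl a)) hab (ih fun m c hc => hB (m + 1) c (.head hab hc))

theorem SpSteps.bound (h : SpSteps f size B a b) (hb : f b = none) :
    ∀ (m : ℕ) (c : α), Steps f m a c → size c ≤ B := by
  induction h with
  | refl a ha =>
    intro m c hc
    cases hc with
    | refl => exact ha
    | head h1 _ =>
      rw [hb] at h1
      cases h1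
  | head ha hab _ ih =>
    intro m c hc
    cases hc with
    | refl => exact ha
    | head h1 h2 =>
      rw [hab] at h1
      cases h1
      exact ih hb _ _ h2

/-- A run of `n` steps whose sizes grow by at most `C` in every step. -/
theorem SpSteps.ofGrow {C n : ℕ} (hC : ∀ a b, f a = some b → size b ≤ size a + C)
    (h : Steps f n a b) : SpSteps f size (size a + n * C) a b := by
  induction h with
  | refl a => exact .refl a (by omega)
  | @head n a b c hab _ ih =>
    have h1 := hC a b hab
    have h2 : (n + 1) * C = n * C + C := by ring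
    exact .head (by omega) hab (ih.mono (by omega))

end SpSteps

/-! ### The total length of a family of stacks -/

section tot

variable {K : Type} [Fintype K] {Γ : K → Type}

/-- The total length of a family of stacks. -/
def tot (S : ∀ k, List (Γ k)) : ℕ := ∑ k, (S k).length

variable [DecidableEq K]

theorem tot_update (S : ∀ k, List (Γ k)) (k : K) (l : List (Γ k)) :
    tot (update S k l) + (S k).length = tot S + l.length := by
  unfold tot
  rw [← Finset.add_sum_erase _ _ (Finset.mem_univ k),
    ← Finset.add_sum_erase (a := k) Finset.univ (fun k => (S k).length) (Finset.mem_univ k)]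
  have h : ∑ x ∈ Finset.univ.erase k, (update S k l x).length =
      ∑ x ∈ Finset.univ.erase k, (S x).length := by
    refine Finset.sum_congr rfl fun x hx => ?_
    rw [update_of_ne (Finset.ne_of_mem_erase hx)]
  rw [h]
  simp only [update_self]
  omega

theorem tot_nil : tot (fun _ => [] : ∀ k, List (Γ k)) = 0 := by
  simp [tot]

theorem tot_single (k : K) (l : List (Γ k)) :
    tot (update (fun _ => []) k l : ∀ k, List (Γ k)) = l.length := by
  have h := tot_update (fun _ => [] : ∀ k, List (Γ k)) k l
  rw [tot_nil] at h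
  simpa using h

theorem tot_stepAux {Λ σ : Type} (s : TM2.Stmt Γ Λ σ) (v : σ) (S : ∀ k, List (Γ k)) :
    tot (TM2.stepAux s v S).stk ≤ tot S + pushes s := by
  induction s generalizing v S with
  | push k' f s ih =>
    simp only [TM2.stepAux, pushes]
    refine (ih _ _).trans ?_
    have h := tot_update S k' (f v :: S k')
    rw [List.length_cons] at h
    omega
  | peek k' f s ih =>
    simp only [TM2.stepAux, pushes]
    exact ih _ _
  | pop k' f s ih =>
    simp only [TM2.stepAux, pushes]
    refine (ih _ _).trans ?_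
    have h := tot_update S k' (S k').tail
    rw [List.length_tail] at h
    omega
  | load a s ih =>
    simp only [TM2.stepAux, pushes]
    exact ih _ _
  | branch f s₁ s₂ ih₁ ih₂ =>
    simp only [TM2.stepAux, pushes]
    cases f v
    · simp only [cond_false]
      have := ih₂ v S
      omega
    · simp only [cond_true]
      have := ih₁ v S
      omega
  | goto l => simp [TM2.stepAux, pushes]
  | halt => simp [TM2.stepAux, pushes]

theorem tot_step {L σ : Type} (M : L → TM2.Stmt Γ L σ) {C : ℕ} (hC : ∀ l, pushes (M l) ≤ C)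
    (a b : TM2.Cfg Γ L σ) (h : TM2.step M a = some b) : tot b.stk ≤ tot a.stk + C := by
  obtain ⟨al, av, as⟩ := a
  cases al with
  | none => simp [TM2.step] at h
  | some l =>
    have h2 : TM2.stepAux (M l) av as = b := Option.some.inj h
    have h1 := tot_stepAux (M l) av as
    rw [h2] at h1
    have h3 := hC l
    simp only
    omega

end tot

theorem step_none {K : Type} [DecidableEq K] {Γ : K → Type} {L σ : Type}
    (M : L → TM2.Stmt Γ L σ) (a : TM2.Cfg Γ L σ) (h : a.l = none) : TM2.step M a = none := by
  obtain ⟨al, av, as⟩ := a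
  simp only at h
  subst h
  rfl

attribute [local instance] FinTM2.kFin

theorem space_eq (tm : FinTM2) (c : tm.Cfg) : space tm c = tot c.stk := rfl

/-- The number of pushes of a machine in one step. -/
noncomputable def pushesTM (tm : FinTM2) : ℕ :=
  letI := tm.ΛFin
  ∑ l, pushes (tm.m l)

theorem pushes_le (tm : FinTM2) (l : tm.Λ) : pushes (tm.m l) ≤ pushesTM tm := by
  let _ := tm.ΛFin
  exact Finset.single_le_sum (f := fun l => pushes (tm.m l)) (fun _ _ => Nat.zero_le _)
    (Finset.mem_univ l)

theorem space_init (tm : FinTM2) (s : List (tm.Γ tm.k₀)) :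
    space tm (initList tm s) = s.length := by
  rw [space_eq, initList_eq]
  exact tot_single _ _

theorem space_halt (tm : FinTM2) (s : List (tm.Γ tm.k₁)) :
    space tm (haltList tm s) = s.length := by
  rw [space_eq, haltList_eq]
  exact tot_single _ _

theorem spSteps_ofSteps (tm : FinTM2) {n : ℕ} {a b : tm.Cfg} (h : Steps tm.step n a b) :
    SpSteps tm.step (space tm) (space tm a + n * pushesTM tm) a b :=
  SpSteps.ofGrow (fun a b hab => tot_step tm.m (pushes_le tm) a b hab) h

/-- Polynomial space in terms of `SpSteps`. -/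
theorem inPSPACE_iff {α αΓ : Type} {ea : α → List αΓ} {f : α → Bool} :
    InPSPACE ea f ↔ ∃ (M : TM2ComputableAux αΓ Bool) (p : Polynomial ℕ), ∀ a : α,
      SpSteps M.tm.step (space M.tm) (p.eval (ea a).length)
        (initList M.tm ((ea a).map M.inputAlphabet.invFun))
        (haltList M.tm ((encodeBool (f a)).map M.outputAlphabet.invFun)) := by
  constructor
  · rintro ⟨M, p, h⟩
    refine ⟨M, p, fun a => ?_⟩
    obtain ⟨⟨h1⟩, h2⟩ := h a
    have h3 : Steps M.tm.step h1.steps _ _ := steps_iff.2 h1.evals_in_steps
    exact SpSteps.ofSteps h3 fun m c hc => h2 m c (steps_iff.1 hc)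
  · rintro ⟨M, p, h⟩
    refine ⟨M, p, fun a => ⟨?_, fun n c hc => ?_⟩⟩
    · obtain ⟨n, hn⟩ := (h a).toSteps
      exact ⟨⟨n, steps_iff.1 hn⟩⟩
    · exact (h a).bound (step_none _ _ rfl) n c (steps_iff.2 hc)

/-! ### Structured programs in bounded space -/

section prog

variable {ι : Type} [DecidableEq ι] [Fintype ι] {tm : ι → FinTM2} {K : Type} [DecidableEq K]
  [Fintype K] {Γ : K → Type} [∀ k, Inhabited (Γ k)] {Q : Type}

theorem tot_mkS (S : ∀ k, List (Γ k)) (T : ∀ i, ∀ k : (tm i).K, List ((tm i).Γ k)) :
    tot (mkS S T) = tot S + ∑ i, tot (T i) := by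
  unfold tot
  rw [Fintype.sum_sum_type]
  congr 1
  rw [Fintype.sum_sigma]
  rfl

theorem tot_mkS_T0 (S : ∀ k, List (Γ k)) : tot (mkS S (T0 tm)) = tot S := by
  rw [tot_mkS]
  simp [T0, tot]

theorem tot_mkS_upd (S : ∀ k, List (Γ k)) (i : ι) (T : ∀ k : (tm i).K, List ((tm i).Γ k)) :
    tot (mkS S (update (T0 tm) i T)) = tot S + tot T := by
  rw [tot_mkS]
  congr 1
  rw [Finset.sum_eq_single i]
  · rw [update_self]
  · intro j _ hj
    rw [update_of_ne hj]
    simp [T0, tot]
  · intro h
    exact absurd (Finset.mem_univ i) h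

/-- The command `c`, as a part of the compiled program `M`, runs from `(q, S)` to `(q', S')` with
all configurations of size at most `B`. -/
def SpSim {L : Type} (M : L → TM2.Stmt (GΓ tm Γ) L (Gσ tm Γ Q)) (B : ℕ) (c : Cmd tm Γ Q) (q : Q)
    (S : ∀ k, List (Γ k)) (q' : Q) (S' : ∀ k, List (Γ k)) : Prop :=
  ∀ (e : Lab c → L) (x : L), (∀ l, M (e l) = code c e x l) →
    SpSteps (TM2.step M) (fun c => tot c.stk) B (cfg (e (start c)) q S) (cfg x q' S')

variable {L : Type} {M : L → TM2.Stmt (GΓ tm Γ) L (Gσ tm Γ Q)}

theorem SpSim.mono {B B' : ℕ} {c : Cmd tm Γ Q} {q q' : Q} {S S' : ∀ k, List (Γ k)}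
    (h : SpSim M B c q S q' S') (hB : B ≤ B') : SpSim M B' c q S q' S' :=
  fun e x hM => (h e x hM).mono hB

/-- A run with time bound `n` is a run with space bound `tot S + n * C`. -/
theorem SpSim.ofRun {C n : ℕ} (hC : ∀ l, pushes (M l) ≤ C) {c : Cmd tm Γ Q} {q q' : Q}
    {S S' : ∀ k, List (Γ k)} (h : Run c n q S q' S') : SpSim M (tot S + n * C) c q S q' S' := by
  intro e x hM
  have h1 := SpSteps.ofGrow (size := fun c => tot c.stk) (tot_step M hC) (sim M h e x hM)
  refine h1.mono ?_
  simp only [cfg]
  rw [tot_mkS_T0]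

theorem SpSim.seq {B : ℕ} {a b : Cmd tm Γ Q} {q q' q'' : Q} {S S' S'' : ∀ k, List (Γ k)}
    (h1 : SpSim M B a q S q' S') (h2 : SpSim M B b q' S' q'' S'') :
    SpSim M B (.seq a b) q S q'' S'' := by
  intro e x hM
  exact (h1 (e ∘ Sum.inl) (e (.inr (start b))) (fun l => hM (.inl l))).trans
    (h2 (e ∘ Sum.inr) x (fun l => hM (.inr l)))

theorem SpSim.ite_true {B : ℕ} {p : Q → Bool} {a b : Cmd tm Γ Q} {q q' : Q}
    {S S' : ∀ k, List (Γ k)} (hp : p q = true) (hS : tot S ≤ B) (h : SpSim M B a q S q' S') :
    SpSim M B (.ite p a b) q S q' S' := by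
  intro e x hM
  have h1 := h (e ∘ Sum.inr ∘ Sum.inl) x (fun l => hM (.inr (.inl l)))
  refine SpSteps.head ?_ ?_ h1
  · simp only [cfg]
    rw [tot_mkS_T0]
    exact hS
  · have h0 := hM (.inl ())
    simp only [cfg, TM2.step, start]
    rw [h0]
    simp only [code, TM2.stepAux, hp, cond_true, cond_false]
    rfl

theorem SpSim.ite_false {B : ℕ} {p : Q → Bool} {a b : Cmd tm Γ Q} {q q' : Q}
    {S S' : ∀ k, List (Γ k)} (hp : p q = false) (hS : tot S ≤ B) (h : SpSim M B b q S q' S') :
    SpSim M B (.ite p a b) q S q' S' := by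
  intro e x hM
  have h1 := h (e ∘ Sum.inr ∘ Sum.inr) x (fun l => hM (.inr (.inr l)))
  refine SpSteps.head ?_ ?_ h1
  · simp only [cfg]
    rw [tot_mkS_T0]
    exact hS
  · have h0 := hM (.inl ())
    simp only [cfg, TM2.step, start]
    rw [h0]
    simp only [code, TM2.stepAux, hp, cond_true, cond_false]
    rfl

theorem SpSim.loop_false {B : ℕ} {p : Q → Bool} {a : Cmd tm Γ Q} {q : Q}
    {S : ∀ k, List (Γ k)} (hp : p q = false) (hS : tot S ≤ B) :
    SpSim M B (.loop p a) q S q S := by
  intro e x hM
  refine SpSteps.head ?_ ?_ (SpSteps.refl _ ?_)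
  · simp only [cfg]
    rw [tot_mkS_T0]
    exact hS
  · have h0 := hM (.inl ())
    simp only [cfg, TM2.step, start]
    rw [h0]
    simp [code, hp]
  · simp only [cfg]
    rw [tot_mkS_T0]
    exact hS

theorem SpSim.loop_true {B : ℕ} {p : Q → Bool} {a : Cmd tm Γ Q} {q q' q'' : Q}
    {S S' S'' : ∀ k, List (Γ k)} (hp : p q = true) (hS : tot S ≤ B)
    (h1 : SpSim M B a q S q' S') (h2 : SpSim M B (.loop p a) q' S' q'' S'') :
    SpSim M B (.loop p a) q S q'' S'' := by
  intro e x hM
  have h1 := h1 (e ∘ Sum.inr) (e (.inl ())) (fun l => hM (.inr l))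
  have h2 := h2 e x hM
  refine SpSteps.head ?_ ?_ (h1.trans h2)
  · simp only [cfg]
    rw [tot_mkS_T0]
    exact hS
  · have h0 := hM (.inl ())
    simp only [cfg, TM2.step, start]
    rw [h0]
    simp only [code, TM2.stepAux, hp, cond_true, cond_false]
    rfl

theorem sub_run_space (i : ι) (e : (tm i).Λ → L) (x : L)
    (hM : ∀ l, M (e l) = tr i e x ((tm i).m l)) (q : Q) (r : ∀ k, Option (Γ k))
    (vs : ∀ i, (tm i).σ) (S : ∀ k, List (Γ k)) {B : ℕ} {c d : (tm i).Cfg}
    (h : SpSteps (tm i).step (space (tm i)) B c d) (hd : d.l = none) :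
    SpSteps (TM2.step M) (fun c => tot c.stk) (tot S + B)
      ⟨some (c.l.elim x e), (q, update vs i c.var, r), mkS S (update (T0 tm) i c.stk)⟩
      ⟨some x, (q, update vs i d.var, r), mkS S (update (T0 tm) i d.stk)⟩ := by
  have hsz : ∀ (l : Option L) (v : Gσ tm Γ Q) (c : (tm i).Cfg), space (tm i) c ≤ B →
      tot (⟨l, v, mkS S (update (T0 tm) i c.stk)⟩ : TM2.Cfg (GΓ tm Γ) L (Gσ tm Γ Q)).stk ≤
        tot S + B := by
    intro l v c hc
    simp only
    rw [tot_mkS_upd]
    rw [space_eq] at hc
    omega
  induction h with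
  | refl a ha =>
    rw [hd]
    exact SpSteps.refl _ (hsz _ _ a ha)
  | @head a b c ha hab _ ih =>
    have ih := ih hd
    refine SpSteps.head (hsz _ _ a ha) ?_ ih
    obtain ⟨al, av, as⟩ := a
    cases al with
    | none => simp [TM2.step] at hab
    | some l =>
      have hab2 : TM2.stepAux ((tm i).m l) av as = b := Option.some.inj hab
      simp only [TM2.step, Option.elim_some, hM]
      rw [tr_stepAux]
      simp only [update_self, update_idem]
      rw [hab2]

/-- A call of a subroutine that runs in bounded space. -/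
theorem SpSim.call {C B : ℕ} (hC : ∀ l, pushes (M l) ≤ C) {i : ι} {kin kout : K}
    {fin : Γ kin → (tm i).Γ (tm i).k₀} {fout : (tm i).Γ (tm i).k₁ → Γ kout} {q : Q}
    {S : ∀ k, List (Γ k)} {out : List ((tm i).Γ (tm i).k₁)}
    (h : SpSteps (tm i).step (space (tm i)) B (initList (tm i) ((S kin).map fin).reverse)
        (haltList (tm i) out)) :
    SpSim M (tot S + B + (tot S + B + 1) * C) (.call i kin kout fin fout) q S q
      (update (update S kin []) kout ((out.map fout).reverse ++ (update S kin []) kout)) := by
  intro e x hM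
  have hout : out.length ≤ B := by
    have h2 := h.size_le
    rwa [space_halt] at h2
  have hS : (S kin).length ≤ tot S := by
    unfold tot
    exact Finset.single_le_sum (f := fun k => (S k).length) (fun _ _ => Nat.zero_le _)
      (Finset.mem_univ kin)
  have hS2 : tot (update S kin []) + (S kin).length = tot S := by
    have := tot_update S kin []
    simpa using this
  have h1 := load_loop M i kin fin (e (.inr false)) (e (.inl (tm i).main))
    (hM (.inr false)) q (v0 tm) S (S kin) rfl (T0 tm) [] (fun _ => none)
  have h2 := sub_run_space i (e ∘ Sum.inl) (e (.inr true)) (fun l => hM (.inl l)) q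
    (fun _ => none) (v0 tm) (update S kin []) h (by rw [haltList_eq])
  have h3 := unload_loop M i kout fout (e (.inr true)) x (hM (.inr true)) q (v0 tm)
    (update S kin []) ((update S kin []) kout) (T0 tm) out (fun _ => none)
  rw [T0_upd] at h1
  rw [T0_upd1] at h3
  rw [initList_eq, haltList_eq] at h2
  have e1 : update (fun _ => none) kin none = (fun _ => none : ∀ k, Option (Γ k)) := by simp
  have e2 : update (fun _ => none) kout none = (fun _ => none : ∀ k, Option (Γ k)) := by simp
  have e3 : update (v0 tm) i (tm i).initialState = v0 tm := by simp [v0]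
  rw [e1] at h1
  rw [e2, update_eq_self] at h3
  simp only [e3] at h2
  rw [List.append_nil] at h1
  have g1 := SpSteps.ofGrow (size := fun c => tot c.stk) (tot_step M hC) h1
  have g3 := SpSteps.ofGrow (size := fun c => tot c.stk) (tot_step M hC) h3
  have k1 := Nat.mul_le_mul_right C (Nat.add_le_add_right (hS.trans (Nat.le_add_right _ B)) 1)
  have k3 := Nat.mul_le_mul_right C (Nat.add_le_add_right (hout.trans (Nat.le_add_left _ (tot S))) 1)
  refine (g1.mono ?_).trans ((h2.mono ?_).trans (g3.mono ?_))
  · simp only
    rw [tot_mkS_T0]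
    omega
  · omega
  · simp only
    rw [tot_mkS_upd]
    have h5 : tot (update (T0 tm i) (tm i).k₁ out) = out.length := tot_single _ _
    rw [h5]
    omega

/-- The analogue of `Poly.ofCmd` for space. -/
theorem InPSPACE.ofCmd [∀ k, Fintype (Γ k)] [Fintype Q] {α αΓ : Type} {ea : α → List αΓ}
    {f : α → Bool} (c : Cmd tm Γ Q) (kin kout : K) (q0 : Q) (ein : Γ kin ≃ αΓ)
    (eout : Γ kout ≃ Bool) (P : Polynomial ℕ)
    (h : ∀ a, ∃ q', SpSim (machine c kin kout q0).m (P.eval (ea a).length) c q0
      (update (fun _ => []) kin ((ea a).map ein.symm)) q'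
      (update (fun _ => []) kout ((encodeBool (f a)).map eout.symm))) : InPSPACE ea f := by
  refine inPSPACE_iff.2 ⟨⟨machine c kin kout q0, ein, eout⟩, P, fun a => ?_⟩
  obtain ⟨q', h⟩ := h a
  have h1 : SpSteps (machine c kin kout q0).step (space (machine c kin kout q0))
      (P.eval (ea a).length) (cfg (some (start c)) q0
        (update (fun _ => []) kin ((ea a).map ein.symm)))
      (cfg none q' (update (fun _ => []) kout ((encodeBool (f a)).map eout.symm))) :=
    h some none (fun l => rfl)
  have h2 : SpSteps (machine c kin kout q0).step (space (machine c kin kout q0))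
      (P.eval (ea a).length)
      (initList (machine c kin kout q0) ((ea a).map ein.invFun))
      (cfg none q' (update (fun _ => []) kout ((encodeBool (f a)).map eout.symm))) := by
    rw [initList_eq]
    have e1 : (⟨some (machine c kin kout q0).main, (machine c kin kout q0).initialState,
        update (fun _ => []) (machine c kin kout q0).k₀ ((ea a).map ein.invFun)⟩ :
          (machine c kin kout q0).Cfg) =
        cfg (some (start c)) q0 (update (fun _ => []) kin ((ea a).map ein.symm)) := by
      unfold cfg
      rw [mkS_single]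
      rfl
    rw [e1]
    exact h1
  have h3 : (machine c kin kout q0).step
      (cfg none q' (update (fun _ => []) kout ((encodeBool (f a)).map eout.symm))) =
      some (haltList (machine c kin kout q0) ((encodeBool (f a)).map eout.invFun)) := by
    rw [haltList_eq]
    unfold cfg
    rw [mkS_single]
    rfl
  refine h2.trans (SpSteps.head h2.size_le h3 (SpSteps.refl _ ?_))
  have h4 := h2.size_le
  have h5 : tot (cfg (tm := tm) (none : Option (Lab c)) q'
      (update (fun _ => []) kout ((encodeBool (f a)).map eout.symm))).stk =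
      ((encodeBool (f a)).map eout.symm).length := by
    simp only [cfg]
    rw [tot_mkS_T0, tot_single]
  have h6 := h5.symm.trans_le h4
  have h7 := space_halt (machine c kin kout q0) ((encodeBool (f a)).map eout.invFun)
  refine le_trans (le_of_eq ?_) h6
  exact h7.trans ((List.length_map (as := encodeBool (f a)) eout.invFun).trans
    (List.length_map (as := encodeBool (f a)) eout.symm).symm)

end prog

end Pool.Agent.W_MP_1d4143_al
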