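import Pool.Agent.W_MP_1d4143_al.Rewrite

/-!
# Length-preserving rewriting: functions on an interval, and passing to finite alphabets
-/

set_option autoImplicit false

namespace Pool.Agent.W_MP_1d4143_al

variable {C : Type}

theorem trk_range_split (F : ℕ → C) {N i : ℕ} (hi : i + 1 ≤ N) :
    (List.range (N + 1)).map F = (List.range i).map F ++ F i :: F (i + 1) ::
      (List.range (N - 1 - i)).map (fun j => F (i + 2 + j)) := by
  apply List.ext_getElem
  · simp only [List.length_map, List.length_range, List.length_append, List.length_cons]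
    omega
  · intro j h1 h2
    simp only [List.length_map, List.length_range] at h1
    rw [List.getElem_map, List.getElem_range]
    rcases Nat.lt_or_ge j i with hj | hj
    · rw [List.getElem_append_left (by simpa using hj)]
      simp
    · rw [List.getElem_append_right (by simpa using hj)]
      simp only [List.length_map, List.length_range]
      obtain ⟨d, rfl⟩ := Nat.exists_eq_add_of_le hj
      rcases d with _ | _ | d
      · simp
      · simp
      · have e : i + (d + 1 + 1) - i = d + 1 + 1 := by omega
        simp only [e, List.getElem_cons_succ, List.getElem_map, List.getElem_range]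
        congr 1
        omega

theorem trk_rstep_of_fun {R : C → C → C → C → Prop} {N i : ℕ} {F F' : ℕ → C} (hi : i + 1 ≤ N)
    (hR : R (F i) (F (i + 1)) (F' i) (F' (i + 1)))
    (h : ∀ j, j ≠ i → j ≠ i + 1 → F' j = F j) :
    RStep R ((List.range (N + 1)).map F) ((List.range (N + 1)).map F') := by
  refine ⟨(List.range i).map F, (List.range (N - 1 - i)).map (fun j => F (i + 2 + j)), F i,
    F (i + 1), F' i, F' (i + 1), trk_range_split F hi, ?_, hR⟩
  rw [trk_range_split F' hi]
  congr 1
  · apply List.map_congr_left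
    intro j hj
    rw [List.mem_range] at hj
    exact h j (by omega) (by omega)
  · congr 2
    apply List.map_congr_left
    intro j _
    exact h _ (by omega) (by omega)

theorem trk_fun_of_rstep {R : C → C → C → C → Prop} {N : ℕ} {F : ℕ → C} {t : List C}
    (h : RStep R ((List.range (N + 1)).map F) t) : ∃ i, i + 1 ≤ N ∧ ∃ F' : ℕ → C,
      R (F i) (F (i + 1)) (F' i) (F' (i + 1)) ∧ (∀ j, j ≠ i → j ≠ i + 1 → F' j = F j) ∧
      t = (List.range (N + 1)).map F' := by
  obtain ⟨p, q, a, b, a', b', h1, h2, h3⟩ := h
  have hlen : p.length + 1 ≤ N := by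
    have := congrArg List.length h1
    simp only [List.length_map, List.length_range, List.length_append, List.length_cons] at this
    omega
  rw [trk_range_split F hlen] at h1
  obtain ⟨h4, h5⟩ := List.append_inj h1 (by simp)
  simp only [List.cons.injEq] at h5
  obtain ⟨h5, h6, h7⟩ := h5
  let F' : ℕ → C := fun j => if j = p.length then a' else if j = p.length + 1 then b' else F j
  have hF1 : F' p.length = a' := by simp [F']
  have hF2 : F' (p.length + 1) = b' := by simp [F']
  have hF3 : ∀ j, j ≠ p.length → j ≠ p.length + 1 → F' j = F j := by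
    intro j hj hj'
    simp [F', hj, hj']
  refine ⟨p.length, hlen, F', ?_, hF3, ?_⟩
  · rw [hF1, hF2, h5, h6]
    exact h3
  · rw [trk_range_split F' hlen, h2, hF1, hF2]
    congr 1
    · conv_lhs => rw [← h4]
      apply List.map_congr_left
      intro j hj
      rw [List.mem_range] at hj
      exact (hF3 j (by omega) (by omega)).symm
    · congr 2
      rw [← h7]
      apply List.map_congr_left
      intro j _
      exact (hF3 _ (by omega) (by omega)).symm

/-- Passing to a finite alphabet. -/
theorem trk_exists_fin (R : C → C → C → C → Prop) (ok : Set C) (hfin : ok.Finite)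
    (hne : ok.Nonempty)
    (hR : ∀ a b a' b', R a b a' b' → a ∈ ok → b ∈ ok → a' ∈ ok ∧ b' ∈ ok) :
    ∃ (k : ℕ) (R' : Fin k → Fin k → Fin k → Fin k → Prop) (e : C → Fin k), ∀ s t : List C,
      (∀ x ∈ s, x ∈ ok) → (∀ x ∈ t, x ∈ ok) →
      (Relation.ReflTransGen (RStep R) s t ↔
        Relation.ReflTransGen (RStep R') (s.map e) (t.map e)) := by
  classical
  have : Finite ok := hfin.to_subtype
  obtain ⟨k, ⟨f⟩⟩ := Finite.exists_equiv_fin ok
  obtain ⟨x0, hx0⟩ := hne
  let e : C → Fin k := fun x => if hx : x ∈ ok then f ⟨x, hx⟩ else f ⟨x0, hx0⟩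
  have he : ∀ x (hx : x ∈ ok), e x = f ⟨x, hx⟩ := fun x hx => dif_pos hx
  have hinj : ∀ x y, x ∈ ok → y ∈ ok → e x = e y → x = y := by
    intro x y hx hy h
    rw [he x hx, he y hy] at h
    simpa using f.injective h
  have hinjL : ∀ s t : List C, (∀ x ∈ s, x ∈ ok) → (∀ x ∈ t, x ∈ ok) → s.map e = t.map e →
      s = t := by
    intro s
    induction s with
    | nil => intro t _ _ h; simpa using h.symm
    | cons a s ih =>
      intro t hs ht h
      cases t with
      | nil => simp at h
      | cons b t =>
        simp only [List.map_cons, List.cons.injEq] at h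
        rw [hinj a b (hs a (by simp)) (ht b (by simp)) h.1,
          ih t (fun x hx => hs x (by simp [hx])) (fun x hx => ht x (by simp [hx])) h.2]
  let R' : Fin k → Fin k → Fin k → Fin k → Prop := fun a b a' b' =>
    ∃ x y x' y', x ∈ ok ∧ y ∈ ok ∧ R x y x' y' ∧ a = e x ∧ b = e y ∧ a' = e x' ∧ b' = e y'
  refine ⟨k, R', e, fun s t hs ht => ⟨fun h => ?_, fun h => ?_⟩⟩
  · have key : (∀ x ∈ t, x ∈ ok) ∧ Relation.ReflTransGen (RStep R') (s.map e) (t.map e) := by
      clear ht
      induction h with
      | refl => exact ⟨hs, .refl⟩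
      | @tail b c _ hbc ih =>
        obtain ⟨ih1, ih2⟩ := ih
        obtain ⟨p, q, x, y, x', y', h1, h2, h3⟩ := hbc
        have hx : x ∈ ok := ih1 x (by rw [h1]; simp)
        have hy : y ∈ ok := ih1 y (by rw [h1]; simp)
        obtain ⟨hx', hy'⟩ := hR _ _ _ _ h3 hx hy
        refine ⟨?_, ih2.tail ?_⟩
        · intro z hz
          rw [h2] at hz
          simp only [List.mem_append, List.mem_cons] at hz
          rcases hz with hz | rfl | rfl | hz
          · exact ih1 z (by rw [h1]; simp [hz])
          · exact hx'
          · exact hy'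
          · exact ih1 z (by rw [h1]; simp [hz])
        · refine ⟨p.map e, q.map e, e x, e y, e x', e y', ?_, ?_,
            ⟨x, y, x', y', hx, hy, h3, rfl, rfl, rfl, rfl⟩⟩
          · rw [h1]; simp
          · rw [h2]; simp
    exact key.2
  · have key : ∀ u, Relation.ReflTransGen (RStep R') (s.map e) u → ∃ t' : List C,
        (∀ x ∈ t', x ∈ ok) ∧ u = t'.map e ∧ Relation.ReflTransGen (RStep R) s t' := by
      intro u hu
      induction hu with
      | refl => exact ⟨s, hs, rfl, .refl⟩
      | @tail b c _ hbc ih =>
        obtain ⟨t', ih1, rfl, ih3⟩ := ih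
        obtain ⟨p, q, a, b, a', b', h1, h2, ⟨x, y, x', y', hx, hy, h3, rfl, rfl, rfl, rfl⟩⟩ := hbc
        rw [List.map_eq_append_iff] at h1
        obtain ⟨p0, r0, h4, rfl, h5⟩ := h1
        rw [List.map_eq_cons_iff] at h5
        obtain ⟨x1, r1, rfl, h6, h7⟩ := h5
        rw [List.map_eq_cons_iff] at h7
        obtain ⟨y1, q0, rfl, h8, rfl⟩ := h7
        have hx1 : x1 ∈ ok := ih1 x1 (by rw [h4]; simp)
        have hy1 : y1 ∈ ok := ih1 y1 (by rw [h4]; simp)
        obtain rfl := hinj _ _ hx1 hx h6
        obtain rfl := hinj _ _ hy1 hy h8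
        obtain ⟨hx', hy'⟩ := hR _ _ _ _ h3 hx hy
        refine ⟨p0 ++ x' :: y' :: q0, ?_, ?_, ih3.tail ⟨p0, q0, x1, y1, x', y', h4, rfl, h3⟩⟩
        · intro z hz
          simp only [List.mem_append, List.mem_cons] at hz
          rcases hz with hz | rfl | rfl | hz
          · exact ih1 z (by rw [h4]; simp [hz])
          · exact hx'
          · exact hy'
          · exact ih1 z (by rw [h4]; simp [hz])
        · rw [h2]; simp
    obtain ⟨t', h1, h2, h3⟩ := key _ h
    rwa [hinjL t t' ht h1 h2]

end Pool.Agent.W_MP_1d4143_al
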