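import Pool.Agent.W_MP_1d4143_al.SpaceMicro
import Pool.Agent.W_MP_1d4143_al.SpaceFin

/-!
# The multi-track string of a micro-configuration
-/

set_option autoImplicit false

open Turing Computability

namespace Pool.Agent.W_MP_1d4143_al

variable {tm : FinTM2}

/-- Cells: is it the bottom cell, the symbols of all stacks at this height, and the control state, if
the head is here. -/
abbrev TrkCell (tm : FinTM2) := Bool × (∀ k, Option (tm.Γ k)) × Option (TrkCtl tm)

/-- The rewriting rules. -/
inductive TrkRule : TrkCell tm → TrkCell tm → TrkCell tm → TrkCell tm → Prop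
  | right (s s' : Bool) (S S' : ∀ k, Option (tm.Γ k)) (c : TrkCtl tm) :
      TrkRule (s, S, some c) (s', S', none) (s, S, none) (s', S', some c)
  | left (s s' : Bool) (S S' : ∀ k, Option (tm.Γ k)) (c : TrkCtl tm) :
      TrkRule (s, S, none) (s', S', some c) (s, S, some c) (s', S', none)
  | load (s : Bool) (S : ∀ k, Option (tm.Γ k)) (y : TrkCell tm) (f : tm.σ → tm.σ)
      (q : TM2.Stmt tm.Γ tm.Λ tm.σ) (v : tm.σ) :
      TrkRule (s, S, some (some (.load f q), v)) y (s, S, some (some q, f v)) y
  | branch (s : Bool) (S : ∀ k, Option (tm.Γ k)) (y : TrkCell tm) (p : tm.σ → Bool)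
      (q₁ q₂ : TM2.Stmt tm.Γ tm.Λ tm.σ) (v : tm.σ) :
      TrkRule (s, S, some (some (.branch p q₁ q₂), v)) y
        (s, S, some (some (bif p v then q₁ else q₂), v)) y
  | goto (s : Bool) (S : ∀ k, Option (tm.Γ k)) (y : TrkCell tm) (l : tm.σ → tm.Λ) (v : tm.σ) :
      TrkRule (s, S, some (some (.goto l), v)) y (s, S, some (some (tm.m (l v)), v)) y
  | halt (s : Bool) (S : ∀ k, Option (tm.Γ k)) (y : TrkCell tm) (v : tm.σ) :
      TrkRule (s, S, some (some .halt, v)) y (s, S, some (none, v)) y
  | push (s s' : Bool) (S S' : ∀ k, Option (tm.Γ k)) (k : tm.K) (f : tm.σ → tm.Γ k)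
      (q : TM2.Stmt tm.Γ tm.Λ tm.σ) (v : tm.σ) (h : s = true ∨ S k ≠ none) (h' : S' k = none) :
      TrkRule (s, S, some (some (.push k f q), v)) (s', S', none)
        (s, S, some (some q, v)) (s', Function.update S' k (some (f v)), none)
  | peek (s s' : Bool) (S S' : ∀ k, Option (tm.Γ k)) (k : tm.K)
      (f : tm.σ → Option (tm.Γ k) → tm.σ)
      (q : TM2.Stmt tm.Γ tm.Λ tm.σ) (v : tm.σ) (h : s = true ∨ S k ≠ none) (h' : S' k = none) :
      TrkRule (s, S, some (some (.peek k f q), v)) (s', S', none)
        (s, S, some (some q, f v (S k))) (s', S', none)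
  | pop (s s' : Bool) (S S' : ∀ k, Option (tm.Γ k)) (k : tm.K)
      (f : tm.σ → Option (tm.Γ k) → tm.σ)
      (q : TM2.Stmt tm.Γ tm.Λ tm.σ) (v : tm.σ) (h : s = true ∨ S k ≠ none) (h' : S' k = none) :
      TrkRule (s, S, some (some (.pop k f q), v)) (s', S', none)
        (s, Function.update S k none, some (some q, f v (S k))) (s', S', none)

/-- The symbols at height `j`. -/
def trkCol (S : ∀ k, List (tm.Γ k)) (j : ℕ) : ∀ k, Option (tm.Γ k) :=
  fun k => if j = 0 then none else (S k).reverse[j - 1]?

theorem trkCol_eq_none {S : ∀ k, List (tm.Γ k)} {j : ℕ} {k : tm.K} :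
    trkCol S j k = none ↔ j = 0 ∨ (S k).length < j := by
  unfold trkCol
  by_cases hj : j = 0
  · simp [hj]
  · simp only [hj, if_false, List.getElem?_eq_none_iff, List.length_reverse, false_or]
    omega

theorem trkCol_top {S : ∀ k, List (tm.Γ k)} {k : tm.K} :
    trkCol S (S k).length k = (S k).head? := by
  unfold trkCol
  cases h : S k with
  | nil => simp
  | cons g l => simp

theorem trk_top_iff {S : ∀ k, List (tm.Γ k)} {i : ℕ} {k : tm.K} :
    ((decide (i = 0) = true ∨ trkCol S i k ≠ none) ∧ trkCol S (i + 1) k = none) ↔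
      (S k).length = i := by
  rw [Ne, trkCol_eq_none, trkCol_eq_none, decide_eq_true_eq]
  omega

theorem trkCol_push (S : ∀ k, List (tm.Γ k)) (k : tm.K) (g : tm.Γ k) (j : ℕ) :
    trkCol (Function.update S k (g :: S k)) j =
      if j = (S k).length + 1 then Function.update (trkCol S j) k (some g) else trkCol S j := by
  funext k'
  by_cases hk : k' = k
  · subst hk
    by_cases hj : j = (S k').length + 1
    · subst hj
      simp [trkCol]
    · simp only [hj, if_false]
      by_cases hj0 : j = 0
      · simp [trkCol, hj0]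
      · simp only [trkCol, hj0, if_false, Function.update_self, List.reverse_cons]
        rcases Nat.lt_or_ge (j - 1) (S k').length with h | h
        · rw [List.getElem?_append_left (by simpa using h)]
        · rw [List.getElem?_eq_none (by simp; omega), List.getElem?_eq_none (by simp; omega)]
  · by_cases hj : j = (S k).length + 1
    · simp [trkCol, hj, hk]
    · simp [trkCol, hj, hk]

theorem trkCol_pop (S : ∀ k, List (tm.Γ k)) (k : tm.K) (j : ℕ) :
    trkCol (Function.update S k (S k).tail) j =
      if j = (S k).length then Function.update (trkCol S j) k none else trkCol S j := by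
  funext k'
  by_cases hk : k' = k
  · subst hk
    by_cases hj : j = (S k').length
    · subst hj
      by_cases h0 : (S k').length = 0
      · simp [trkCol, h0]
      · simp only [trkCol, h0, if_false, Function.update_self, if_true]
        rw [List.getElem?_eq_none (by simp)]
    · simp only [hj, if_false]
      by_cases hj0 : j = 0
      · simp [trkCol, hj0]
      · simp only [trkCol, hj0, if_false, Function.update_self]
        cases h : S k' with
        | nil => simp
        | cons g l =>
          rw [h, List.length_cons] at hj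
          simp only [List.tail_cons, List.reverse_cons]
          rcases Nat.lt_or_ge (j - 1) l.length with h' | h'
          · rw [List.getElem?_append_left (by simpa using h')]
          · rw [List.getElem?_eq_none (by simp; omega), List.getElem?_eq_none (by simp; omega)]
  · by_cases hj : j = (S k).length
    · simp [trkCol, hj, hk]
    · simp [trkCol, hj, hk]

/-- The cells of a micro-configuration, the head being at `h`. -/
def trkCells (h : ℕ) (c : TrkMC tm) (j : ℕ) : TrkCell tm :=
  (decide (j = 0), trkCol c.S j, if j = h then some (c.s, c.v) else none)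

/-- Soundness of the rules. -/
theorem trk_sound {N h i : ℕ} {c : TrkMC tm} {F' : ℕ → TrkCell tm} (hh : h ≤ N)
    (hc : ∀ k, (c.S k).length ≤ N) (hi : i + 1 ≤ N)
    (hR : TrkRule (trkCells h c i) (trkCells h c (i + 1)) (F' i) (F' (i + 1)))
    (hF : ∀ j, j ≠ i → j ≠ i + 1 → F' j = trkCells h c j) :
    ∃ (h' : ℕ) (c' : TrkMC tm), h' ≤ N ∧ (c' = c ∨ c' = c.next) ∧ (∀ k, (c'.S k).length ≤ N) ∧
      F' = trkCells h' c' := by
  have hd : decide (i + 1 = 0) = false := by simp
  generalize ha : trkCells h c i = a at hR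
  generalize hb : trkCells h c (i + 1) = b at hR
  generalize ha' : F' i = a' at hR
  generalize hb' : F' (i + 1) = b' at hR
  have hext : ∀ (h' : ℕ) (c' : TrkMC tm), a' = trkCells h' c' i → b' = trkCells h' c' (i + 1) →
      (∀ j, j ≠ i → j ≠ i + 1 → trkCells h c j = trkCells h' c' j) → F' = trkCells h' c' := by
    intro h' c' h1 h2 h3
    funext j
    by_cases hj : j = i
    · subst hj; rw [ha', h1]
    · by_cases hj' : j = i + 1
      · subst hj'; rw [hb', h2]
      · rw [hF j hj hj', h3 j hj hj']
  have hhead : ∀ (s : Bool) (S : ∀ k, Option (tm.Γ k)) (x : TrkCtl tm), a = (s, S, some x) →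
      i = h ∧ x = (c.s, c.v) ∧ s = decide (i = 0) ∧ S = trkCol c.S i := by
    intro s S x hx
    rw [hx] at ha
    simp only [trkCells, Prod.mk.injEq] at ha
    obtain ⟨h1, h2, h3⟩ := ha
    by_cases hih : i = h
    · rw [if_pos hih] at h3
      simp only [Option.some.injEq] at h3
      exact ⟨hih, h3.symm, h1.symm, h2.symm⟩
    · rw [if_neg hih] at h3
      exact absurd h3 (by simp)
  obtain ⟨cs, cv, cS⟩ := c
  simp only at hc
  cases hR with
  | right s s' S S' x =>
    obtain ⟨rfl, rfl, rfl, rfl⟩ := hhead _ _ _ rfl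
    refine ⟨i + 1, ⟨cs, cv, cS⟩, hi, Or.inl rfl, hc, hext _ _ ?_ ?_ ?_⟩
    · simp [trkCells]
    · rw [← (Prod.mk.inj hb).1, ← (Prod.mk.inj (Prod.mk.inj hb).2).1]
      simp [trkCells]
    · intro j hj hj'
      simp [trkCells, hj, hj']
  | left s s' S S' x =>
    simp only [trkCells, Prod.mk.injEq] at ha hb
    obtain ⟨h1, h2, h3⟩ := ha
    obtain ⟨h4, h5, h6⟩ := hb
    by_cases hih : i + 1 = h
    · rw [if_pos hih] at h6
      simp only [Option.some.injEq] at h6
      refine ⟨i, ⟨cs, cv, cS⟩, by omega, Or.inl rfl, hc, hext _ _ ?_ ?_ ?_⟩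
      · rw [← h1, ← h2, ← h6]
        simp [trkCells]
      · rw [← h4, ← h5]
        simp [trkCells]
      · intro j hj hj'
        have : j ≠ h := by omega
        simp [trkCells, hj, this]
    · rw [if_neg hih] at h6
      exact absurd h6 (by simp)
  | load s S y f q v =>
    obtain ⟨rfl, hx, rfl, rfl⟩ := hhead _ _ _ rfl
    simp only [Prod.mk.injEq] at hx
    obtain ⟨rfl, rfl⟩ := hx
    refine ⟨i, TrkMC.next ⟨some (.load f q), v, cS⟩, hh, Or.inr rfl, hc, hext _ _ ?_ ?_ ?_⟩
    · simp [trkCells, TrkMC.next]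
    · rw [← hb]; simp [trkCells, TrkMC.next]
    · intro j hj hj'
      simp [trkCells, TrkMC.next, hj]
  | branch s S y p q₁ q₂ v =>
    obtain ⟨rfl, hx, rfl, rfl⟩ := hhead _ _ _ rfl
    simp only [Prod.mk.injEq] at hx
    obtain ⟨rfl, rfl⟩ := hx
    refine ⟨i, TrkMC.next ⟨some (.branch p q₁ q₂), v, cS⟩, hh, Or.inr rfl, hc, hext _ _ ?_ ?_ ?_⟩
    · simp [trkCells, TrkMC.next]
    · rw [← hb]; simp [trkCells, TrkMC.next]
    · intro j hj hj'
      simp [trkCells, TrkMC.next, hj]
  | goto s S y l v =>
    obtain ⟨rfl, hx, rfl, rfl⟩ := hhead _ _ _ rfl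
    simp only [Prod.mk.injEq] at hx
    obtain ⟨rfl, rfl⟩ := hx
    refine ⟨i, TrkMC.next ⟨some (.goto l), v, cS⟩, hh, Or.inr rfl, hc, hext _ _ ?_ ?_ ?_⟩
    · simp [trkCells, TrkMC.next]
    · rw [← hb]; simp [trkCells, TrkMC.next]
    · intro j hj hj'
      simp [trkCells, TrkMC.next, hj]
  | halt s S y v =>
    obtain ⟨rfl, hx, rfl, rfl⟩ := hhead _ _ _ rfl
    simp only [Prod.mk.injEq] at hx
    obtain ⟨rfl, rfl⟩ := hx
    refine ⟨i, TrkMC.next ⟨some .halt, v, cS⟩, hh, Or.inr rfl, hc, hext _ _ ?_ ?_ ?_⟩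
    · simp [trkCells, TrkMC.next]
    · rw [← hb]; simp [trkCells, TrkMC.next]
    · intro j hj hj'
      simp [trkCells, TrkMC.next, hj]
  | push s s' S S' k f q v hs hs' =>
    obtain ⟨rfl, hx, rfl, rfl⟩ := hhead _ _ _ rfl
    simp only [Prod.mk.injEq] at hx
    obtain ⟨rfl, rfl⟩ := hx
    simp only [trkCells, Prod.mk.injEq] at hb
    obtain ⟨h4, h5, h6⟩ := hb
    rw [← h5] at hs'
    have htop : (cS k).length = i := trk_top_iff.1 ⟨hs, hs'⟩
    refine ⟨i, TrkMC.next ⟨some (.push k f q), v, cS⟩, hh, Or.inr rfl, ?_, hext _ _ ?_ ?_ ?_⟩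
    · intro k'
      simp only [TrkMC.next]
      by_cases hk : k' = k
      · subst hk
        simp only [Function.update_self, List.length_cons]
        omega
      · rw [Function.update_of_ne hk]
        exact hc k'
    · simp only [trkCells, TrkMC.next, trkCol_push, htop]
      simp
    · rw [← h4, ← h5]
      simp only [trkCells, TrkMC.next, trkCol_push, htop]
      simp
    · intro j hj hj'
      simp only [trkCells, TrkMC.next, trkCol_push, htop]
      simp [hj, hj']
  | peek s s' S S' k f q v hs hs' =>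
    obtain ⟨rfl, hx, rfl, rfl⟩ := hhead _ _ _ rfl
    simp only [Prod.mk.injEq] at hx
    obtain ⟨rfl, rfl⟩ := hx
    simp only [trkCells, Prod.mk.injEq] at hb
    obtain ⟨h4, h5, h6⟩ := hb
    rw [← h5] at hs'
    have htop : (cS k).length = i := trk_top_iff.1 ⟨hs, hs'⟩
    have hsym : trkCol cS i k = (cS k).head? := by rw [← htop]; exact trkCol_top
    refine ⟨i, TrkMC.next ⟨some (.peek k f q), v, cS⟩, hh, Or.inr rfl, hc, hext _ _ ?_ ?_ ?_⟩
    · simp only [trkCells, TrkMC.next, hsym]
      simp
    · rw [← h4, ← h5]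
      simp [trkCells, TrkMC.next]
    · intro j hj hj'
      simp [trkCells, TrkMC.next, hj]
  | pop s s' S S' k f q v hs hs' =>
    obtain ⟨rfl, hx, rfl, rfl⟩ := hhead _ _ _ rfl
    simp only [Prod.mk.injEq] at hx
    obtain ⟨rfl, rfl⟩ := hx
    simp only [trkCells, Prod.mk.injEq] at hb
    obtain ⟨h4, h5, h6⟩ := hb
    rw [← h5] at hs'
    have htop : (cS k).length = i := trk_top_iff.1 ⟨hs, hs'⟩
    have hsym : trkCol cS i k = (cS k).head? := by rw [← htop]; exact trkCol_top
    refine ⟨i, TrkMC.next ⟨some (.pop k f q), v, cS⟩, hh, Or.inr rfl, ?_, hext _ _ ?_ ?_ ?_⟩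
    · intro k'
      simp only [TrkMC.next]
      by_cases hk : k' = k
      · subst hk
        have := hc k'
        simp only [Function.update_self, List.length_tail]
        omega
      · rw [Function.update_of_ne hk]
        exact hc k'
    · simp only [trkCells, TrkMC.next, trkCol_pop, htop, hsym]
      simp
    · rw [← h4, ← h5]
      simp only [trkCells, TrkMC.next, trkCol_pop, htop]
      simp
    · intro j hj hj'
      simp only [trkCells, TrkMC.next, trkCol_pop, htop]
      simp [hj]

/-- The string of a micro-configuration. -/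
def trkStr (N h : ℕ) (c : TrkMC tm) : List (TrkCell tm) := (List.range (N + 1)).map (trkCells h c)

theorem trk_walk_right {N h : ℕ} (c : TrkMC tm) (hh : h + 1 ≤ N) :
    RStep TrkRule (trkStr N h c) (trkStr N (h + 1) c) := by
  refine trk_rstep_of_fun (i := h) hh ?_ ?_
  · have := TrkRule.right (tm := tm) (decide (h = 0)) (decide (h + 1 = 0)) (trkCol c.S h)
      (trkCol c.S (h + 1)) (c.s, c.v)
    simpa [trkCells] using this
  · intro j hj hj'
    simp [trkCells, hj, hj']

theorem trk_walk_left {N h : ℕ} (c : TrkMC tm) (hh : h + 1 ≤ N) :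
    RStep TrkRule (trkStr N (h + 1) c) (trkStr N h c) := by
  refine trk_rstep_of_fun (i := h) hh ?_ ?_
  · have := TrkRule.left (tm := tm) (decide (h = 0)) (decide (h + 1 = 0)) (trkCol c.S h)
      (trkCol c.S (h + 1)) (c.s, c.v)
    simpa [trkCells] using this
  · intro j hj hj'
    simp [trkCells, hj, hj']

theorem trk_walk {N : ℕ} (c : TrkMC tm) : ∀ {h h' : ℕ}, h ≤ N → h' ≤ N →
    Relation.ReflTransGen (RStep TrkRule) (trkStr N h c) (trkStr N h' c) := by
  have up : ∀ d h, h + d ≤ N →
      Relation.ReflTransGen (RStep TrkRule) (trkStr N h c) (trkStr N (h + d) c) := by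
    intro d
    induction d with
    | zero => intro h _; exact .refl
    | succ d ih =>
      intro h hd
      exact (ih h (by omega)).tail (trk_walk_right c (by omega))
  have down : ∀ d h, h + d ≤ N →
      Relation.ReflTransGen (RStep TrkRule) (trkStr N (h + d) c) (trkStr N h c) := by
    intro d
    induction d with
    | zero => intro h _; exact .refl
    | succ d ih =>
      intro h hd
      exact (ih h (by omega)).head (trk_walk_left c (by omega))
  intro h h' hh hh'
  rcases Nat.le_total h h' with hle | hle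
  · obtain ⟨d, rfl⟩ := Nat.exists_eq_add_of_le hle
    exact up d h hh'
  · obtain ⟨d, rfl⟩ := Nat.exists_eq_add_of_le hle
    exact down d h' hh

/-- Completeness of the rules. -/
theorem trk_complete {N : ℕ} {c : TrkMC tm} (hN : 1 ≤ N) (hc : ∀ k, (c.S k).length + 1 ≤ N) :
    ∃ h, h ≤ N ∧ Relation.ReflTransGen (RStep TrkRule) (trkStr N h c) (trkStr N h c.next) := by
  obtain ⟨s, v, S⟩ := c
  simp only at hc
  have hd1 : decide (0 + 1 = 0) = false := by simp
  rcases s with _ | (⟨k, f, q⟩ | ⟨k, f, q⟩ | ⟨k, f, q⟩ | ⟨f, q⟩ | ⟨p, q₁, q₂⟩ | l | _)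
  · exact ⟨0, by omega, .refl⟩
  · refine ⟨(S k).length, (by have := hc k; omega), .single ?_⟩
    have htop := trk_top_iff (S := S) (k := k) (i := (S k).length).2 rfl
    refine trk_rstep_of_fun (i := (S k).length) (hc k) ?_ ?_
    · have := TrkRule.push (tm := tm) (decide ((S k).length = 0)) (decide ((S k).length + 1 = 0))
        (trkCol S (S k).length) (trkCol S ((S k).length + 1)) k f q v htop.1 htop.2
      simp only [trkCells, TrkMC.next, trkCol_push]
      simpa using this
    · intro j hj hj'
      simp only [trkCells, TrkMC.next, trkCol_push]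
      simp [hj, hj']
  · refine ⟨(S k).length, (by have := hc k; omega), .single ?_⟩
    have htop := trk_top_iff (S := S) (k := k) (i := (S k).length).2 rfl
    refine trk_rstep_of_fun (i := (S k).length) (hc k) ?_ ?_
    · have := TrkRule.peek (tm := tm) (decide ((S k).length = 0)) (decide ((S k).length + 1 = 0))
        (trkCol S (S k).length) (trkCol S ((S k).length + 1)) k f q v htop.1 htop.2
      rw [trkCol_top] at this
      simpa [trkCells, TrkMC.next] using this
    · intro j hj hj'
      simp [trkCells, TrkMC.next, hj]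
  · refine ⟨(S k).length, (by have := hc k; omega), .single ?_⟩
    have htop := trk_top_iff (S := S) (k := k) (i := (S k).length).2 rfl
    refine trk_rstep_of_fun (i := (S k).length) (hc k) ?_ ?_
    · have := TrkRule.pop (tm := tm) (decide ((S k).length = 0)) (decide ((S k).length + 1 = 0))
        (trkCol S (S k).length) (trkCol S ((S k).length + 1)) k f q v htop.1 htop.2
      rw [trkCol_top] at this
      simp only [trkCells, TrkMC.next, trkCol_pop]
      simpa using this
    · intro j hj hj'
      simp only [trkCells, TrkMC.next, trkCol_pop]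
      simp [hj]
  · refine ⟨0, by omega, .single (trk_rstep_of_fun (i := 0) hN ?_ ?_)⟩
    · have := TrkRule.load (tm := tm) true (trkCol S 0) (trkCells 0 ⟨some (.load f q), v, S⟩ 1) f q v
      simpa [trkCells, TrkMC.next] using this
    · intro j hj hj'
      simp [trkCells, TrkMC.next, hj]
  · refine ⟨0, by omega, .single (trk_rstep_of_fun (i := 0) hN ?_ ?_)⟩
    · have := TrkRule.branch (tm := tm) true (trkCol S 0)
        (trkCells 0 ⟨some (.branch p q₁ q₂), v, S⟩ 1) p q₁ q₂ v
      simpa [trkCells, TrkMC.next] using this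
    · intro j hj hj'
      simp [trkCells, TrkMC.next, hj]
  · refine ⟨0, by omega, .single (trk_rstep_of_fun (i := 0) hN ?_ ?_)⟩
    · have := TrkRule.goto (tm := tm) true (trkCol S 0) (trkCells 0 ⟨some (.goto l), v, S⟩ 1) l v
      simpa [trkCells, TrkMC.next] using this
    · intro j hj hj'
      simp [trkCells, TrkMC.next, hj]
  · refine ⟨0, by omega, .single (trk_rstep_of_fun (i := 0) hN ?_ ?_)⟩
    · have := TrkRule.halt (tm := tm) true (trkCol S 0) (trkCells 0 ⟨some .halt, v, S⟩ 1) v
      simpa [trkCells, TrkMC.next] using this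
    · intro j hj hj'
      simp [trkCells, TrkMC.next, hj]

/-- Reachability of strings and of micro-configurations. -/
theorem trk_reach_of_mic {B N : ℕ} (hBN : B + 1 ≤ N) {c d : TrkMC tm}
    (h : Relation.ReflTransGen (TrkMC.Mic B) c d) :
    Relation.ReflTransGen (RStep TrkRule) (trkStr N 0 c) (trkStr N 0 d) := by
  induction h with
  | refl => exact .refl
  | @tail x y _ hxy ih =>
    obtain ⟨rfl, h1, h2⟩ := hxy
    obtain ⟨h, hh, hr⟩ := trk_complete (N := N) (c := x) (by omega)
      (fun k => by have := h1 k; omega)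
    exact ih.trans ((trk_walk x (Nat.zero_le N) hh).trans
      (hr.trans (trk_walk x.next hh (Nat.zero_le N))))

theorem trk_mic_of_reach {N h : ℕ} {c : TrkMC tm} {t : List (TrkCell tm)} (hh : h ≤ N)
    (hc : ∀ k, (c.S k).length ≤ N)
    (hr : Relation.ReflTransGen (RStep TrkRule) (trkStr N h c) t) :
    ∃ (h' : ℕ) (d : TrkMC tm), h' ≤ N ∧ (∀ k, (d.S k).length ≤ N) ∧ t = trkStr N h' d ∧
      Relation.ReflTransGen (fun a b : TrkMC tm => b = a.next) c d := by
  induction hr with
  | refl => exact ⟨h, c, hh, hc, rfl, .refl⟩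
  | @tail x y _ hxy ih =>
    obtain ⟨h1, d, hh1, hd, rfl, hcd⟩ := ih
    obtain ⟨i, hi, F', hR, hF, rfl⟩ := trk_fun_of_rstep hxy
    obtain ⟨h2, d', hh2, hdd, hd', rfl⟩ := trk_sound hh1 hd hi hR hF
    refine ⟨h2, d', hh2, hd', rfl, ?_⟩
    rcases hdd with rfl | rfl
    · exact hcd
    · exact hcd.tail rfl

end Pool.Agent.W_MP_1d4143_al
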