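import Pool.Agent.W_MP_1d4143_al.SpaceBase

/-!
# Closure properties of polynomial space
-/

set_option autoImplicit false

open Turing Computability Pool.Agent.PolyTime Function

namespace Pool.Agent.W_MP_1d4143_al

/-- Polynomial time is contained in polynomial space. -/
theorem InPSPACE.ofInP {α αΓ : Type} {ea : α → List αΓ} {f : α → Bool} (h : InP ea f) :
    InPSPACE ea f := by
  obtain ⟨h⟩ := h
  refine inPSPACE_iff.2 ⟨h.toTM2ComputableAux,
    Polynomial.X + h.time * Polynomial.C (pushesTM h.tm), fun a => ?_⟩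
  obtain ⟨n, hn, hs⟩ := Steps.ofEvals (h.outputsFun a)
  refine (spSteps_ofSteps h.tm hs).mono ?_
  rw [space_init, List.length_map]
  simp only [Polynomial.eval_add, Polynomial.eval_X, Polynomial.eval_mul, Polynomial.eval_C]
  have h3 := Nat.mul_le_mul_right (pushesTM h.tm) hn
  omega

section

variable {ι : Type} [DecidableEq ι] [Fintype ι] {tm : ι → FinTM2} {K : Type} [DecidableEq K]
  [Fintype K] {Γ : K → Type} [∀ k, Inhabited (Γ k)] {Q : Type}

/-- The command transforms the stacks `S` to `S'` in space `B` whatever the registers. -/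
def SpDoes {L : Type} (M : L → TM2.Stmt (GΓ tm Γ) L (Gσ tm Γ Q)) (B : ℕ) (c : Cmd tm Γ Q)
    (S S' : ∀ k, List (Γ k)) : Prop :=
  ∀ q, ∃ q', SpSim M B c q S q' S'

variable {L : Type} {M : L → TM2.Stmt (GΓ tm Γ) L (Gσ tm Γ Q)}

theorem SpDoes.mono {B B' : ℕ} {c : Cmd tm Γ Q} {S S' : ∀ k, List (Γ k)}
    (h : SpDoes M B c S S') (hB : B ≤ B') : SpDoes M B' c S S' := fun q =>
  let ⟨q', h'⟩ := h q
  ⟨q', h'.mono hB⟩

theorem SpDoes.seq {B : ℕ} {a b : Cmd tm Γ Q} {S S' S'' : ∀ k, List (Γ k)}
    (h1 : SpDoes M B a S S') (h2 : SpDoes M B b S' S'') : SpDoes M B (.seq a b) S S'' := fun q =>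
  let ⟨q', h'⟩ := h1 q
  let ⟨q'', h''⟩ := h2 q'
  ⟨q'', h'.seq h''⟩

theorem SpDoes.ofDoes {C n : ℕ} (hC : ∀ l, pushes (M l) ≤ C) {c : Cmd tm Γ Q}
    {S S' : ∀ k, List (Γ k)} (h : Does c n S S') : SpDoes M (tot S + n * C) c S S' := fun q => by
  obtain ⟨q', m, hm, hr⟩ := h q
  exact ⟨q', (SpSim.ofRun hC hr).mono
    (Nat.add_le_add_left (Nat.mul_le_mul_right C hm) _)⟩

theorem SpDoes.call {C B : ℕ} (hC : ∀ l, pushes (M l) ≤ C) {i : ι} {kin kout : K}
    {fin : Γ kin → (tm i).Γ (tm i).k₀} {fout : (tm i).Γ (tm i).k₁ → Γ kout}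
    {S : ∀ k, List (Γ k)} (w : List (Γ kin)) (u : List (Γ kout)) (hw : S kin = w.reverse)
    (out : List ((tm i).Γ (tm i).k₁)) (hout : out.map fout = u)
    (h : SpSteps (tm i).step (space (tm i)) B (initList (tm i) (w.map fin))
      (haltList (tm i) out)) :
    SpDoes M (tot S + B + (tot S + B + 1) * C) (.call i kin kout fin fout) S
      (update (update S kin []) kout (u.reverse ++ (update S kin []) kout)) := by
  intro q
  subst hout
  have e : ((S kin).map fin).reverse = w.map fin := by
    rw [hw, List.map_reverse, List.reverse_reverse]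
  rw [← e] at h
  exact ⟨q, SpSim.call hC h⟩

end

/-- Polynomial space is closed under polynomial-time reductions, and under complements. -/
theorem InPSPACE.comp {α β αΓ βΓ : Type} [Inhabited αΓ] [Inhabited βΓ] {ea : α → List αΓ}
    {eb : β → List βΓ} {r : α → β} {g : β → Bool} (hr : Poly ea eb r) (hg : InPSPACE eb g)
    (h : Bool → Bool) : InPSPACE ea (fun a => h (g (r a))) := by
  obtain ⟨P1, hP1⟩ := hr.length_bound
  obtain ⟨hf⟩ := hr
  obtain ⟨M, p, hM⟩ := inPSPACE_iff.1 hg
  let _ : Fintype αΓ := let _ := hf.tm.Γk₀Fin; Fintype.ofEquiv _ hf.inputAlphabet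
  let _ : Fintype βΓ := let _ := M.tm.Γk₀Fin; Fintype.ofEquiv _ M.inputAlphabet
  let tm := tm2 hf.tm M.tm
  let prog : Cmd tm (compΓ αΓ βΓ Bool) (Reg (compΓ αΓ βΓ Bool)) :=
    .seq (mv .a .b id) (.seq (.call false .b .c hf.inputAlphabet.symm hf.outputAlphabet)
      (.seq (.call true .c .d M.inputAlphabet.symm M.outputAlphabet) (mv .d .e h)))
  let mach : FinTM2 := machine prog .a .e (fun _ => none)
  let C : ℕ := pushesTM mach
  have hC : ∀ l, pushes (mach.m l) ≤ C := pushes_le mach
  let cC : Polynomial ℕ := Polynomial.C C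
  let spP : Polynomial ℕ := (Polynomial.X + (3 * Polynomial.X + 2) * cC) +
    (Polynomial.X + (hf.time + Polynomial.X + P1 + 2) * cC) +
    (P1 + p.comp P1 + (P1 + p.comp P1 + 1) * cC) + (1 + 5 * cC)
  refine InPSPACE.ofCmd prog .a .e (fun _ => none) (Equiv.refl αΓ) (Equiv.refl Bool) spP ?_
  intro x
  have s1 : SpDoes mach.m ((ea x).length + (3 * (ea x).length + 2) * C)
      (mv .a .b id : Cmd tm (compΓ αΓ βΓ Bool) _)
      (update (fun _ => []) .a ((ea x).map (Equiv.refl αΓ).symm) :
        ∀ k, List (compΓ αΓ βΓ Bool k))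
      (update (fun _ => []) .b (ea x).reverse) := by
    refine (SpDoes.ofDoes (n := 3 * (ea x).length + 2) hC
      (((mv_does (tm := tm) (Γ := compΓ αΓ βΓ Bool) (a := K5.a) (b := K5.b) (by decide) id
      _).mono ?_).to ?_)).mono ?_
    · simp
    · funext k
      cases k <;> simp
    · rw [tot_single, List.length_map]
  have s2 : SpDoes mach.m ((ea x).length + (hf.time.eval (ea x).length + (ea x).length +
        (eb (r x)).length + 2) * C)
      (.call false .b .c hf.inputAlphabet.symm hf.outputAlphabet :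
      Cmd tm (compΓ αΓ βΓ Bool) (Reg (compΓ αΓ βΓ Bool)))
      (update (fun _ => []) .b (ea x).reverse)
      (update (fun _ => []) .c (eb (r x)).reverse) := by
    have h0 := Steps.ofEvals (hf.outputsFun x)
    have h1 : ((eb (r x)).map hf.outputAlphabet.invFun).map hf.outputAlphabet = eb (r x) := by
      simp
    refine (SpDoes.ofDoes hC ((call_does (tm := tm) (Γ := compΓ αΓ βΓ Bool) (i := false)
      (kin := K5.b) (kout := K5.c) (fin := hf.inputAlphabet.symm) (fout := hf.outputAlphabet)
      (N := hf.time.eval (ea x).length) (S := update (fun _ => []) .b (ea x).reverse)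
      (ea x) (eb (r x)) (by simp) ⟨_, h1, h0⟩).to ?_)).mono ?_
    · funext k
      cases k <;> simp
    · rw [tot_single, List.length_reverse]
  have s3 : SpDoes mach.m ((eb (r x)).length + p.eval (eb (r x)).length +
        ((eb (r x)).length + p.eval (eb (r x)).length + 1) * C)
      (.call true .c .d M.inputAlphabet.symm M.outputAlphabet :
      Cmd tm (compΓ αΓ βΓ Bool) (Reg (compΓ αΓ βΓ Bool)))
      (update (fun _ => []) .c (eb (r x)).reverse)
      (update (fun _ => []) .d (encodeBool (g (r x))).reverse) := by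
    have h0 := hM (r x)
    have h1 : ((encodeBool (g (r x))).map M.outputAlphabet.invFun).map M.outputAlphabet =
      encodeBool (g (r x)) := by simp
    have h2 := SpDoes.call (tm := tm) (Γ := compΓ αΓ βΓ Bool) hC (i := true) (kin := K5.c)
      (kout := K5.d) (fin := M.inputAlphabet.symm) (fout := M.outputAlphabet)
      (S := update (fun _ => []) .c (eb (r x)).reverse)
      (eb (r x)) (encodeBool (g (r x))) (by simp) _ h1 h0
    rw [tot_single, List.length_reverse] at h2
    intro q
    obtain ⟨q', h3⟩ := h2 q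
    refine ⟨q', ?_⟩
    convert h3 using 1
    funext k
    cases k <;> simp
  have s4 : SpDoes mach.m (1 + 5 * C) (mv .d .e h : Cmd tm (compΓ αΓ βΓ Bool) _)
      (update (fun _ => []) .d (encodeBool (g (r x))).reverse : ∀ k, List (compΓ αΓ βΓ Bool k))
      (update (fun _ => []) .e ((encodeBool (h (g (r x)))).map (Equiv.refl Bool).symm)) := by
    refine (SpDoes.ofDoes (n := 5) hC
      (((mv_does (tm := tm) (Γ := compΓ αΓ βΓ Bool) (a := K5.d) (b := K5.e) (by decide) h
      _).mono ?_).to ?_)).mono ?_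
    · simp [encodeBool]
    · funext k
      cases k <;> simp [encodeBool]
    · rw [tot_single, List.length_reverse]
      simp [encodeBool]
  have b1 := hP1 x
  have b2 := eval_mono p b1
  have hev : spP.eval (ea x).length = ((ea x).length + (3 * (ea x).length + 2) * C) +
    ((ea x).length + (hf.time.eval (ea x).length + (ea x).length + P1.eval (ea x).length + 2) * C) +
    (P1.eval (ea x).length + p.eval (P1.eval (ea x).length) +
      (P1.eval (ea x).length + p.eval (P1.eval (ea x).length) + 1) * C) + (1 + 5 * C) := by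
    simp only [spP, cC, Polynomial.eval_add, Polynomial.eval_mul, Polynomial.eval_X,
      Polynomial.eval_comp, Polynomial.eval_ofNat, Polynomial.eval_C, Polynomial.eval_one]
  have k2 : (hf.time.eval (ea x).length + (ea x).length + (eb (r x)).length + 2) * C ≤
      (hf.time.eval (ea x).length + (ea x).length + P1.eval (ea x).length + 2) * C :=
    Nat.mul_le_mul_right C (by omega)
  have k3 : ((eb (r x)).length + p.eval (eb (r x)).length + 1) * C ≤
      (P1.eval (ea x).length + p.eval (P1.eval (ea x).length) + 1) * C :=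
    Nat.mul_le_mul_right C (by omega)
  rw [hev]
  exact ((s1.mono (by omega)).seq ((s2.mono (by omega)).seq ((s3.mono (by omega)).seq
    (s4.mono (by omega))))) (fun _ => none)

end Pool.Agent.W_MP_1d4143_al
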