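import Pool.Agent.W_MP_1d4143_al.SpaceTrack
import Pool.Agent.W_MP_1d4143_al.ReachQBF

set_option autoImplicit false

open Turing Computability Pool.Agent.PolyTime

namespace Pool.Agent.W_MP_1d4143_al

/-- TQBF is PSPACE-hard. -/
theorem tqbf_hard {A : Type} [Finite A] [Nonempty A] {f : List A → Bool}
    (h : InPSPACE (fun w : List A => w) f) :
    ∃ r : List A → List Bool × List (List (ℕ × Bool)),
      Poly (fun w : List A => w) (fun p : List Bool × List (List (ℕ × Bool)) => en p) r ∧
      ∀ w, f w = true ↔ Holds (r w).2 (r w).1 [] := by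
  obtain ⟨k, R, c₀, c₁, c₂, cb, st, p, hw⟩ := exists_rewriting_of_space h
  obtain ⟨F, hF, hFs⟩ := exists_reachQBF k R
  have _ : Fintype A := Fintype.ofFinite A
  have _ : Inhabited A := Classical.inhabited_of_nonempty inferInstance
  let src : List ℕ → List ℕ := fun L =>
    c₀.val :: (L.reverse ++ List.replicate (p.eval L.length + 1) cb.val)
  let tgt : List ℕ → List ℕ := fun L =>
    c₁.val :: c₂.val :: List.replicate (L.length + p.eval L.length) cb.val
  have hsrc : PF src :=
    (PF.const c₀.val).cons (PF.id'.reverse.append
      (PF.replicate (PF.evalPoly p PF.id'.length).succ cb.val))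
  have htgt : PF tgt :=
    (PF.const c₁.val).cons ((PF.const c₂.val).cons
      (PF.replicate (PF.id'.length.add (PF.evalPoly p PF.id'.length)) cb.val))
  have hG : PF (fun L : List ℕ => F (src L, tgt L)) := hF.comp (hsrc.pair htgt)
  have h1 : Poly (fun w : List A => w) (en (α := List ℕ))
      (fun w => w.map (fun a => (st a).val)) := by
    refine (Poly.toTree (fun a : A => toD (st a).val)).restrict id (fun _ => rfl) (fun w => ?_)
    change (D.ofList (w.map (fun a : A => toD (st a).val))).enc =
      (D.ofList ((w.map (fun a => (st a).val)).map toD)).enc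
    rw [List.map_map]
    rfl
  refine ⟨fun w => F (src (w.map (fun a => (st a).val)), tgt (w.map (fun a => (st a).val))),
    Poly.comp (g := fun L : List ℕ => F (src L, tgt L)) h1 hG, fun w => ?_⟩
  rw [hw w, ← hFs _ _ (by simp; omega)]
  have e1 : src (w.map (fun a => (st a).val)) =
      (c₀ :: (w.reverse.map st ++ List.replicate (p.eval w.length + 1) cb)).map Fin.val := by
    simp [src, List.map_reverse, Function.comp_def]
  have e2 : tgt (w.map (fun a => (st a).val)) =
      (c₁ :: c₂ :: List.replicate (w.length + p.eval w.length) cb).map Fin.val := by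
    simp [tgt]
  simp only [e1, e2]

end Pool.Agent.W_MP_1d4143_al
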