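import Pool.Agent.W_MP_1d4143_al.Space

set_option autoImplicit false
set_option linter.unusedSimpArgs false

open Turing Computability Pool.Agent.PolyTime

namespace Pool.Agent.W_MP_1d4143_al

/-! ### Runs of bounded size -/

/-- A run all of whose configurations have size at most `B`. -/
inductive SlSteps {α : Type} (f : α → Option α) (size : α → ℕ) (B : ℕ) : α → α → Prop
  | refl (a : α) (ha : size a ≤ B) : SlSteps f size B a a
  | head {a b c : α} (ha : size a ≤ B) (hab : f a = some b) (hbc : SlSteps f size B b c) :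
      SlSteps f size B a c

theorem SlSteps.trans {α : Type} {f : α → Option α} {size : α → ℕ} {B : ℕ} {a b c : α}
    (h1 : SlSteps f size B a b) (h2 : SlSteps f size B b c) : SlSteps f size B a c := by
  induction h1 with
  | refl a ha => exact h2
  | head ha hab _ ih => exact SlSteps.head ha hab (ih h2)

theorem SlSteps.steps {α : Type} {f : α → Option α} {size : α → ℕ} {B : ℕ} {a b : α}
    (h : SlSteps f size B a b) : ∃ n, Steps f n a b := by
  induction h with
  | refl a ha => exact ⟨0, Steps.refl a⟩
  | head ha hab _ ih =>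
    obtain ⟨n, hn⟩ := ih
    exact ⟨n + 1, Steps.head hab hn⟩

theorem SlSteps.bound {α : Type} {f : α → Option α} {size : α → ℕ} {B : ℕ} {a b : α}
    (h : SlSteps f size B a b) (hb : f b = none) :
    ∀ (n : ℕ) (c : α), Steps f n a c → size c ≤ B := by
  induction h with
  | refl a ha =>
    intro n c hc
    cases hc with
    | refl => exact ha
    | head h1 _ => rw [hb] at h1; cases h1
  | head ha hab _ ih =>
    intro n c hc
    cases hc with
    | refl => exact ha
    | head h1 h2 =>
      rw [hab] at h1
      obtain rfl := Option.some.inj h1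
      exact ih hb _ _ h2

/-- The growth of the space in one step. -/
noncomputable def slC (tm : FinTM2) : ℕ :=
  letI := tm.kFin
  letI := tm.ΛFin
  Fintype.card tm.K * ∑ l, pushes (tm.m l)

theorem sl_space_steps (tm : FinTM2) {n : ℕ} {c d : tm.Cfg} (h : Steps tm.step n c d) :
    space tm d ≤ space tm c + n * slC tm := by
  letI := tm.kFin
  letI := tm.ΛFin
  have h1 : ∀ k : tm.K, (d.stk k).length ≤ (c.stk k).length + n * ∑ l, pushes (tm.m l) :=
    fun k => length_steps tm (∑ l, pushes (tm.m l))
      (fun l => Finset.single_le_sum (f := fun l => pushes (tm.m l)) (fun _ _ => Nat.zero_le _)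
        (Finset.mem_univ l)) h k
  have h2 : ∑ k, (d.stk k).length ≤
      ∑ k, ((c.stk k).length + n * ∑ l, pushes (tm.m l)) := Finset.sum_le_sum (fun k _ => h1 k)
  rw [Finset.sum_add_distrib, Finset.sum_const, Finset.card_univ, smul_eq_mul] at h2
  have h3 : n * slC tm = Fintype.card tm.K * (n * ∑ l, pushes (tm.m l)) := by
    unfold slC
    ring
  rw [h3]
  exact h2

theorem sl_of_steps (tm : FinTM2) {n : ℕ} {c d : tm.Cfg} (h : Steps tm.step n c d) {B : ℕ}
    (hB : space tm c + n * slC tm ≤ B) : SlSteps tm.step (space tm) B c d := by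
  induction h with
  | refl a => exact SlSteps.refl a (by omega)
  | @head m a b c hab hbc ih =>
    have h1 := sl_space_steps tm (Steps.single hab)
    have h2 : (m + 1) * slC tm = m * slC tm + slC tm := by ring
    rw [h2] at hB
    exact SlSteps.head (by omega) hab (ih (by omega))

theorem sl_branch {ι : Type} [DecidableEq ι] {tm : ι → FinTM2} {K : Type} [DecidableEq K]
    {Γ : K → Type} [∀ k, Inhabited (Γ k)] {Q : Type} {L : Type}
    (M : L → TM2.Stmt (GΓ tm Γ) L (Gσ tm Γ Q)) (p : Q → Bool) (a : Cmd tm Γ Q)
    (e : Lab (.loop p a) → L) (x : L) (hM : ∀ l, M (e l) = code (.loop p a) e x l)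
    (q : Q) (S : ∀ k, List (Γ k)) (hp : p q = true) :
    TM2.step M (cfg (e (start (.loop p a))) q S) = some (cfg (e (.inr (start a))) q S) := by
  have h0 := hM (.inl ())
  simp only [cfg, TM2.step, start]
  rw [h0]
  simp only [code, TM2.stepAux, hp, cond_true]

theorem sl_space_cfg {ι : Type} [DecidableEq ι] [Fintype ι] {tm : ι → FinTM2} {K : Type}
    [DecidableEq K] [Fintype K] {Γ : K → Type} [∀ k, Inhabited (Γ k)] [∀ k, Fintype (Γ k)]
    {Q : Type} [Fintype Q] (c : Cmd tm Γ Q) (kin kout : K) (q0 : Q) (l : Option (Lab c)) (q : Q)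
    (S : ∀ k, List (Γ k)) :
    space (machine c kin kout q0) (cfg l q S) = ∑ k, (S k).length := by
  letI : ∀ i, Fintype (tm i).K := fun i => (tm i).kFin
  have h : space (machine c kin kout q0) (cfg l q S) =
      ∑ k : K ⊕ (Σ i : ι, (tm i).K), (mkS S (T0 tm) k).length := rfl
  rw [h, Fintype.sum_sum_type]
  simp [mkS, T0]

/-! ### The program -/

section prog

variable {α σ : Type} {ea : α → List Bool} {es : σ → List Bool} {init : α → σ} {cont : σ → Bool}
  {step : σ → σ} {out : σ → Bool}
  (hi : TM2ComputableInPolyTime ea es init) (hc : TM2ComputableInPolyTime es encodeBool cont)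
  (hs : TM2ComputableInPolyTime es es step) (ho : TM2ComputableInPolyTime es encodeBool out)

/-- The subroutines. -/
def slTm : Fin 4 → FinTM2
  | 0 => hi.tm
  | 1 => hc.tm
  | 2 => hs.tm
  | 3 => ho.tm

/-- Test the condition, keeping a reversed copy on `c`. -/
def slTest : Cmd (slTm hi hc hs ho) BΓ (Reg BΓ) :=
  .seq (mv2 .a .b .c id id)
    (.seq (.call 1 .b .d hc.inputAlphabet.symm hc.outputAlphabet) (popR .d))

/-- The body of the loop. -/
def slBody : Cmd (slTm hi hc hs ho) BΓ (Reg BΓ) :=
  .seq (.call 2 .c .b hs.inputAlphabet.symm hs.outputAlphabet)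
    (.seq (mv .b .a id) (slTest hi hc hs ho))

/-- The condition of the loop. -/
def slP : Reg BΓ → Bool := fun q => (q .d).getD false

/-- The loop. -/
def slLoop : Cmd (slTm hi hc hs ho) BΓ (Reg BΓ) := .loop slP (slBody hi hc hs ho)

/-- The part before the loop. -/
def slPre : Cmd (slTm hi hc hs ho) BΓ (Reg BΓ) :=
  .seq (mv .a .b id) (.seq (.call 0 .b .c hi.inputAlphabet.symm hi.outputAlphabet)
    (.seq (mv .c .a id) (slTest hi hc hs ho)))

/-- The part after the loop. -/
def slPost : Cmd (slTm hi hc hs ho) BΓ (Reg BΓ) :=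
  .seq (.call 3 .c .d ho.inputAlphabet.symm ho.outputAlphabet) (mv .d .e id)

/-- The whole program. -/
def slProg : Cmd (slTm hi hc hs ho) BΓ (Reg BΓ) :=
  .seq (slPre hi hc hs ho) (.seq (slLoop hi hc hs ho) (slPost hi hc hs ho))

theorem slTest_run (x : σ) (L : ℕ) (hL : (es x).length ≤ L) (q : Reg BΓ) :
    ∃ q', q' .d = some (cont x) ∧ RunsIn (slTest hi hc hs ho)
      ((4 * L + 2) + ((hc.time.eval L + L + 1 + 2) + 1)) q
      (st (es x) [] [] [] []) q' (st [] [] (es x).reverse [] []) := by
  obtain ⟨q1, s1⟩ := mv2_does (tm := slTm hi hc hs ho) (Γ := BΓ) (a := K5.a) (b := K5.b)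
    (c := K5.c) (by decide) (by decide) (by decide) id id (st (es x) [] [] [] []) q
  obtain ⟨q2, s2⟩ := call_does (tm := slTm hi hc hs ho) (Γ := BΓ) (Q := Reg BΓ) (i := 1)
      (kin := K5.b)
      (kout := K5.d) (fin := hc.inputAlphabet.symm) (fout := hc.outputAlphabet)
      (N := hc.time.eval (es x).length) (S := st [] (es x).reverse (es x).reverse [] [])
      (es x) (Computability.encodeBool (cont x)) rfl (call5 hc x) q1
  have s3 := popR_run (tm := slTm hi hc hs ho) (Γ := BΓ) K5.d q2
    (st [] [] (es x).reverse [cont x] [])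
  simp only [st_a, st_b, st_c, st_d, st_e, upd_a, upd_b, upd_c, upd_d, upd_e, List.map_id,
    List.append_nil, List.reverse_singleton, List.length_append, List.length_reverse,
    List.length_singleton, List.reverse_append, List.reverse_reverse,
    List.singleton_append, Computability.encodeBool, List.pure_def, List.head?_cons,
    List.tail_cons] at s1 s2 s3
  refine ⟨_, ?_, (s1.seq (s2.seq s3)).mono ?_⟩
  · simp
  · have := eval_mono hc.time hL
    omega

theorem slBody_run (x : σ) (L : ℕ) (hL : (es x).length ≤ L) (hL' : (es (step x)).length ≤ L)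
    (q : Reg BΓ) :
    ∃ q', q' .d = some (cont (step x)) ∧ RunsIn (slBody hi hc hs ho)
      ((hs.time.eval L + L + L + 2) + ((3 * L + 2) +
        ((4 * L + 2) + ((hc.time.eval L + L + 1 + 2) + 1)))) q
      (st [] [] (es x).reverse [] []) q' (st [] [] (es (step x)).reverse [] []) := by
  obtain ⟨q1, s1⟩ := call_does (tm := slTm hi hc hs ho) (Γ := BΓ) (Q := Reg BΓ) (i := 2)
      (kin := K5.c)
      (kout := K5.b) (fin := hs.inputAlphabet.symm) (fout := hs.outputAlphabet)
      (N := hs.time.eval (es x).length) (S := st [] [] (es x).reverse [] [])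
      (es x) (es (step x)) rfl (call5 hs x) q
  obtain ⟨q2, s2⟩ := mv_does (tm := slTm hi hc hs ho) (Γ := BΓ) (a := K5.b) (b := K5.a)
      (by decide) id (st [] (es (step x)).reverse [] [] []) q1
  obtain ⟨q3, hq3, s3⟩ := slTest_run hi hc hs ho (step x) L hL' q2
  simp only [st_a, st_b, st_c, st_d, st_e, upd_a, upd_b, upd_c, upd_d, upd_e, List.map_id,
      List.append_nil, List.reverse_singleton, List.length_append, List.length_reverse,
      List.length_singleton, List.reverse_append, List.reverse_reverse] at s1 s2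
  refine ⟨q3, hq3, (s1.seq (s2.seq s3)).mono ?_⟩
  have := eval_mono hs.time hL
  omega

theorem slPre_run (x : α) (L : ℕ) (hL : (ea x).length ≤ L) (hL' : (es (init x)).length ≤ L)
    (q : Reg BΓ) :
    ∃ q', q' .d = some (cont (init x)) ∧ RunsIn (slPre hi hc hs ho)
      ((3 * L + 2) + ((hi.time.eval L + L + L + 2) + ((3 * L + 2) +
        ((4 * L + 2) + ((hc.time.eval L + L + 1 + 2) + 1))))) q
      (st (ea x) [] [] [] []) q' (st [] [] (es (init x)).reverse [] []) := by
  obtain ⟨q0, s0⟩ := mv_does (tm := slTm hi hc hs ho) (Γ := BΓ) (a := K5.a) (b := K5.b)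
      (by decide) id (st (ea x) [] [] [] []) q
  obtain ⟨q1, s1⟩ := call_does (tm := slTm hi hc hs ho) (Γ := BΓ) (Q := Reg BΓ) (i := 0)
      (kin := K5.b)
      (kout := K5.c) (fin := hi.inputAlphabet.symm) (fout := hi.outputAlphabet)
      (N := hi.time.eval (ea x).length) (S := st [] (ea x).reverse [] [] [])
      (ea x) (es (init x)) rfl (call5 hi x) q0
  obtain ⟨q2, s2⟩ := mv_does (tm := slTm hi hc hs ho) (Γ := BΓ) (a := K5.c) (b := K5.a)
      (by decide) id (st [] [] (es (init x)).reverse [] []) q1
  obtain ⟨q3, hq3, s3⟩ := slTest_run hi hc hs ho (init x) L hL' q2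
  simp only [st_a, st_b, st_c, st_d, st_e, upd_a, upd_b, upd_c, upd_d, upd_e, List.map_id,
      List.append_nil, List.reverse_singleton, List.length_append, List.length_reverse,
      List.length_singleton, List.reverse_append, List.reverse_reverse] at s0 s1 s2
  refine ⟨q3, hq3, (s0.seq (s1.seq (s2.seq s3))).mono ?_⟩
  have := eval_mono hi.time hL
  omega

theorem slPost_run (x : σ) (L : ℕ) (hL : (es x).length ≤ L) (q : Reg BΓ) :
    ∃ q', RunsIn (slPost hi hc hs ho) ((ho.time.eval L + L + 1 + 2) + 5) q
      (st [] [] (es x).reverse [] []) q' (st [] [] [] [] [out x]) := by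
  obtain ⟨q1, s1⟩ := call_does (tm := slTm hi hc hs ho) (Γ := BΓ) (Q := Reg BΓ) (i := 3)
      (kin := K5.c)
      (kout := K5.d) (fin := ho.inputAlphabet.symm) (fout := ho.outputAlphabet)
      (N := ho.time.eval (es x).length) (S := st [] [] (es x).reverse [] [])
      (es x) (Computability.encodeBool (out x)) rfl (call5 ho x) q
  obtain ⟨q2, s2⟩ := mv_does (tm := slTm hi hc hs ho) (Γ := BΓ) (a := K5.d) (b := K5.e)
      (by decide) id (st [] [] [] [out x] []) q1
  simp only [st_a, st_b, st_c, st_d, st_e, upd_a, upd_b, upd_c, upd_d, upd_e, List.map_id,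
      List.append_nil, List.reverse_singleton, List.length_append, List.length_reverse,
      List.length_singleton, List.reverse_append, List.reverse_reverse,
      Computability.encodeBool, List.pure_def] at s1 s2
  refine ⟨q2, (s1.seq s2).mono ?_⟩
  have := eval_mono ho.time hL
  omega

/-- The compiled machine. -/
def slMach : FinTM2 := machine (slProg hi hc hs ho) K5.a K5.e (fun _ => none)

/-- The labels of the loop in the whole program. -/
def slE (l : Lab (slLoop hi hc hs ho)) : Option (Lab (slProg hi hc hs ho)) :=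
  some (.inr (.inl l))

/-- The exit label of the loop. -/
def slX : Option (Lab (slProg hi hc hs ho)) := some (.inr (.inr (start (slPost hi hc hs ho))))

theorem sl_hM (l : Lab (slLoop hi hc hs ho)) :
    (slMach hi hc hs ho).m (slE hi hc hs ho l) =
      code (slLoop hi hc hs ho) (slE hi hc hs ho) (slX hi hc hs ho) l := rfl

theorem sl_space_st (l : Option (Lab (slProg hi hc hs ho))) (q : Reg BΓ)
    (a b c d e : List Bool) : space (slMach hi hc hs ho) (cfg l q (st a b c d e)) =
      a.length + b.length + c.length + d.length + e.length := by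
  have h := sl_space_cfg (slProg hi hc hs ho) K5.a K5.e (fun _ => none) l q (st a b c d e)
  refine h.trans ?_
  have hu : (Finset.univ : Finset K5) = {.a, .b, .c, .d, .e} := rfl
  rw [hu]
  rw [Finset.sum_insert (by decide), Finset.sum_insert (by decide), Finset.sum_insert (by decide),
    Finset.sum_insert (by decide), Finset.sum_singleton]
  simp only [st_a, st_b, st_c, st_d, st_e]
  ring

theorem slLoop_run (L T B : ℕ) (hT : (hs.time.eval L + L + L + 2) + ((3 * L + 2) +
        ((4 * L + 2) + ((hc.time.eval L + L + 1 + 2) + 1))) + 1 ≤ T)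
    (hB : L + T * slC (slMach hi hc hs ho) ≤ B) (n : ℕ) (x : σ)
    (h1 : ∀ i < n, cont (step^[i] x) = true) (h2 : cont (step^[n] x) = false)
    (h3 : ∀ i ≤ n, (es (step^[i] x)).length ≤ L) (q : Reg BΓ) (hq : q .d = some (cont x)) :
    ∃ q', SlSteps (slMach hi hc hs ho).step (space (slMach hi hc hs ho)) B
      (cfg (slE hi hc hs ho (start (slLoop hi hc hs ho))) q (st [] [] (es x).reverse [] []))
      (cfg (slX hi hc hs ho) q' (st [] [] (es (step^[n] x)).reverse [] [])) := by
  induction n generalizing x q with
  | zero =>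
    simp only [Function.iterate_zero, id_eq] at h2
    refine ⟨q, ?_⟩
    have hcond : slP q = false := by
      unfold slP
      rw [hq, h2]
      rfl
    have hr : Run (slLoop hi hc hs ho) 1 q (st [] [] (es x).reverse [] []) q
        (st [] [] (es x).reverse [] []) := Run.loop_false hcond
    have hsim : Steps (slMach hi hc hs ho).step 1
        (cfg (slE hi hc hs ho (start (slLoop hi hc hs ho))) q (st [] [] (es x).reverse [] []))
        (cfg (slX hi hc hs ho) q (st [] [] (es x).reverse [] [])) :=
      sim (slMach hi hc hs ho).m hr (slE hi hc hs ho) (slX hi hc hs ho)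
        (fun l => sl_hM hi hc hs ho l)
    refine sl_of_steps _ hsim ?_
    rw [sl_space_st]
    have l0 : (es x).length ≤ L := h3 0 (by omega)
    simp only [List.length_nil, List.length_reverse]
    have h5 : 1 * slC (slMach hi hc hs ho) ≤ T * slC (slMach hi hc hs ho) :=
      Nat.mul_le_mul_right _ (by omega)
    omega
  | succ n ih =>
    have hx := h1 0 (by omega)
    simp only [Function.iterate_zero, id_eq] at hx
    have l0 : (es x).length ≤ L := h3 0 (by omega)
    have l1 : (es (step x)).length ≤ L := h3 1 (by omega)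
    obtain ⟨q3, hq3, m, hm, hr⟩ := slBody_run hi hc hs ho x L l0 l1 q
    obtain ⟨q4, s4⟩ := ih (step x) (fun i hi' => by
        have := h1 (i + 1) (by omega)
        rwa [Function.iterate_succ_apply] at this) (by rwa [Function.iterate_succ_apply] at h2)
        (fun i hi' => by
          have := h3 (i + 1) (by omega)
          rwa [Function.iterate_succ_apply] at this) q3 hq3
    have hcond : slP q = true := by
      unfold slP
      rw [hq, hx]
      rfl
    refine ⟨q4, ?_⟩
    rw [Function.iterate_succ_apply]
    refine SlSteps.trans ?_ s4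
    have hsim : Steps (slMach hi hc hs ho).step m
        (cfg (slE hi hc hs ho (.inr (start (slBody hi hc hs ho)))) q
          (st [] [] (es x).reverse [] []))
        (cfg (slE hi hc hs ho (start (slLoop hi hc hs ho))) q3
          (st [] [] (es (step x)).reverse [] [])) :=
      sim (slMach hi hc hs ho).m hr (fun l => slE hi hc hs ho (.inr l))
        (slE hi hc hs ho (start (slLoop hi hc hs ho))) (fun l => rfl)
    have hbr : (slMach hi hc hs ho).step
        (cfg (slE hi hc hs ho (start (slLoop hi hc hs ho))) q (st [] [] (es x).reverse [] [])) =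
        some (cfg (slE hi hc hs ho (.inr (start (slBody hi hc hs ho)))) q
          (st [] [] (es x).reverse [] [])) :=
      sl_branch (slMach hi hc hs ho).m slP (slBody hi hc hs ho) (slE hi hc hs ho)
        (slX hi hc hs ho) (fun l => sl_hM hi hc hs ho l) q _ hcond
    refine sl_of_steps _ (Steps.head hbr hsim) ?_
    rw [sl_space_st]
    simp only [List.length_nil, List.length_reverse]
    have h5 : (m + 1) * slC (slMach hi hc hs ho) ≤ T * slC (slMach hi hc hs ho) :=
      Nat.mul_le_mul_right _ (by omega)
    omega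

theorem sl_init (l : List Bool) : initList (slMach hi hc hs ho) l =
    cfg (some (start (slProg hi hc hs ho))) (fun _ => none) (st l [] [] [] []) := by
  have e : st l [] [] [] [] = Function.update (fun _ => [] : ∀ k, List (BΓ k)) K5.a l := by
    rw [st_nil, upd_a]
  rw [initList_eq, e]
  unfold cfg
  rw [mkS_single]
  rfl

theorem sl_halt (l : List Bool) (q : Reg BΓ) : (slMach hi hc hs ho).step
    (cfg none q (st [] [] [] [] l)) = some (haltList (slMach hi hc hs ho) l) := by
  have e : st [] [] [] [] l = Function.update (fun _ => [] : ∀ k, List (BΓ k)) K5.e l := by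
    rw [st_nil, upd_e]
  rw [haltList_eq, e]
  unfold cfg
  rw [mkS_single]
  rfl

theorem sl_whole (a : α) (L T B : ℕ) (hT1 : ((3 * L + 2) + ((hi.time.eval L + L + L + 2) +
        ((3 * L + 2) + ((4 * L + 2) + ((hc.time.eval L + L + 1 + 2) + 1))))) ≤ T)
    (hT2 : (hs.time.eval L + L + L + 2) + ((3 * L + 2) +
        ((4 * L + 2) + ((hc.time.eval L + L + 1 + 2) + 1))) + 1 ≤ T)
    (hT3 : ((ho.time.eval L + L + 1 + 2) + 5) + 1 ≤ T)
    (hB : L + T * slC (slMach hi hc hs ho) ≤ B) (n : ℕ)
    (h0 : (ea a).length ≤ L)
    (h1 : ∀ i < n, cont (step^[i] (init a)) = true) (h2 : cont (step^[n] (init a)) = false)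
    (h3 : ∀ i ≤ n, (es (step^[i] (init a))).length ≤ L) :
    SlSteps (slMach hi hc hs ho).step (space (slMach hi hc hs ho)) B
      (initList (slMach hi hc hs ho) (ea a))
      (haltList (slMach hi hc hs ho) [out (step^[n] (init a))]) := by
  have l0 : (es (init a)).length ≤ L := h3 0 (by omega)
  have ln : (es (step^[n] (init a))).length ≤ L := h3 n le_rfl
  obtain ⟨q1, hq1, m1, hm1, r1⟩ := slPre_run hi hc hs ho a L h0 l0 (fun _ => none)
  obtain ⟨q2, s2⟩ := slLoop_run hi hc hs ho L T B hT2 hB n (init a) h1 h2 h3 q1 hq1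
  obtain ⟨q3, m3, hm3, r3⟩ := slPost_run hi hc hs ho (step^[n] (init a)) L ln q2
  have sim1 : Steps (slMach hi hc hs ho).step m1
      (cfg (some (start (slProg hi hc hs ho))) (fun _ => none) (st (ea a) [] [] [] []))
      (cfg (slE hi hc hs ho (start (slLoop hi hc hs ho))) q1
        (st [] [] (es (init a)).reverse [] [])) :=
    sim (slMach hi hc hs ho).m r1 (fun l => some (.inl l))
      (slE hi hc hs ho (start (slLoop hi hc hs ho))) (fun l => rfl)
  have sim3 : Steps (slMach hi hc hs ho).step m3
      (cfg (slX hi hc hs ho) q2 (st [] [] (es (step^[n] (init a))).reverse [] []))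
      (cfg none q3 (st [] [] [] [] [out (step^[n] (init a))])) :=
    sim (slMach hi hc hs ho).m r3 (fun l => some (.inr (.inr l))) none (fun l => rfl)
  have sim4 := sim3.trans (Steps.single (sl_halt hi hc hs ho [out (step^[n] (init a))] q3))
  rw [sl_init]
  refine (sl_of_steps _ sim1 ?_).trans (s2.trans (sl_of_steps _ sim4 ?_))
  · rw [sl_space_st]
    simp only [List.length_nil]
    have h5 : m1 * slC (slMach hi hc hs ho) ≤ T * slC (slMach hi hc hs ho) :=
      Nat.mul_le_mul_right _ (by omega)
    omega
  · rw [sl_space_st]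
    simp only [List.length_nil, List.length_reverse]
    have h5 : (m3 + 1) * slC (slMach hi hc hs ho) ≤ T * slC (slMach hi hc hs ho) :=
      Nat.mul_le_mul_right _ (by omega)
    omega

end prog

/-- A while loop with a polynomial-time body on data of polynomial size runs in polynomial space
(the number of iterations may be exponential). -/
theorem InPSPACE.ofLoop {α σ : Type} [ToD α] [ToD σ] {f : α → Bool} (init : α → σ)
    (cont : σ → Bool) (step : σ → σ) (out : σ → Bool) (hinit : PF init) (hcont : PF cont)
    (hstep : PF step) (hout : PF out) (P : Polynomial ℕ)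
    (h : ∀ a, ∃ n, (∀ i < n, cont (step^[i] (init a)) = true) ∧
      cont (step^[n] (init a)) = false ∧ out (step^[n] (init a)) = f a ∧
      ∀ i ≤ n, sz (step^[i] (init a)) ≤ P.eval (sz a)) : InPSPACE (fun a : α => en a) f := by
  obtain ⟨hi⟩ := hinit
  obtain ⟨hc⟩ := hcont.toPB
  obtain ⟨hs⟩ := hstep
  obtain ⟨ho⟩ := hout.toPB
  let TP : Polynomial ℕ := ((3 * Polynomial.X + 2) + ((hi.time + Polynomial.X + Polynomial.X + 2) +
        ((3 * Polynomial.X + 2) + ((4 * Polynomial.X + 2) +
          ((hc.time + Polynomial.X + 1 + 2) + 1))))) +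
      ((hs.time + Polynomial.X + Polynomial.X + 2) + ((3 * Polynomial.X + 2) +
        ((4 * Polynomial.X + 2) + ((hc.time + Polynomial.X + 1 + 2) + 1))) + 1) +
      (((ho.time + Polynomial.X + 1 + 2) + 5) + 1)
  let BP : Polynomial ℕ := (Polynomial.X + TP * Polynomial.C (slC (slMach hi hc hs ho))).comp
    (Polynomial.X + P)
  refine ⟨{ tm := slMach hi hc hs ho, inputAlphabet := Equiv.refl Bool,
            outputAlphabet := Equiv.refl Bool }, BP, fun a => ?_⟩
  obtain ⟨n, h1, h2, h3, h4⟩ := h a
  set L : ℕ := (Polynomial.X + P).eval (en a).length with hL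
  have hLe : L = (en a).length + P.eval (en a).length := by
    rw [hL, Polynomial.eval_add, Polynomial.eval_X]
  have hBP : BP.eval (en a).length = L + TP.eval L * slC (slMach hi hc hs ho) := by
    simp only [BP, Polynomial.eval_comp, Polynomial.eval_add, Polynomial.eval_mul,
      Polynomial.eval_X, Polynomial.eval_C] at hLe ⊢
    rw [← hLe]
  have hTP : TP.eval L = ((3 * L + 2) + ((hi.time.eval L + L + L + 2) +
        ((3 * L + 2) + ((4 * L + 2) + ((hc.time.eval L + L + 1 + 2) + 1))))) +
        ((hs.time.eval L + L + L + 2) + ((3 * L + 2) +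
        ((4 * L + 2) + ((hc.time.eval L + L + 1 + 2) + 1))) + 1) +
        (((ho.time.eval L + L + 1 + 2) + 5) + 1) := by
    simp only [TP, Polynomial.eval_add, Polynomial.eval_mul, Polynomial.eval_X,
      Polynomial.eval_ofNat, Polynomial.eval_one]
  have key := sl_whole hi hc hs ho a L (TP.eval L) (BP.eval (en a).length) (by rw [hTP]; omega)
    (by rw [hTP]; omega) (by rw [hTP]; omega) (by rw [hBP]) n (by omega) h1 h2 (fun i hi' => by
      have h5 := h4 i hi'
      have h6 : sz (step^[i] (init a)) = (en (step^[i] (init a))).length := rfl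
      have h7 : sz a = (en a).length := rfl
      rw [h6, h7] at h5
      omega)
  have e1 : (en a).map (Equiv.refl Bool).invFun = en a := by
    simp
  have e2 : (encodeBool (f a)).map (Equiv.refl Bool).invFun = [out (step^[n] (init a))] := by
    rw [h3]
    rfl
  have e3 := congrArg (fun l : List Bool => initList (slMach hi hc hs ho) l) e1
  have e4 := congrArg (fun l : List Bool => haltList (slMach hi hc hs ho) l) e2
  refine ⟨?_, ?_⟩
  · obtain ⟨m, hm⟩ := key.steps
    rw [steps_iff] at hm
    refine ⟨⟨m, ?_⟩⟩
    exact (congrArg (fun c => (flip bind (slMach hi hc hs ho).step)^[m] (some c)) e3).trans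
      (hm.trans (congrArg some e4.symm))
  · intro m c hc'
    have hc2 : (flip bind (slMach hi hc hs ho).step)^[m]
      (some (initList (slMach hi hc hs ho) (en a))) = some c :=
      (congrArg (fun c => (flip bind (slMach hi hc hs ho).step)^[m] (some c)) e3.symm).trans hc'
    rw [← steps_iff] at hc2
    refine key.bound ?_ m c hc2
    rw [haltList_eq]
    rfl

end Pool.Agent.W_MP_1d4143_al
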