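import Pool.Agent.W_MP_1d4143_al.SpaceLoop

set_option autoImplicit false

open Turing Computability Pool.Agent.PolyTime

namespace Pool.Agent.W_MP_1d4143_al

/-! ### The depth-first evaluation -/

/-- Quantifiers and clauses. -/
abbrev SqIn : Type := List Bool × List (List (ℕ × Bool))

/-- The states of the depth-first evaluation: the formula, the path (the innermost variable comes
first; each entry has the value of the variable and, if this value is `true`, the result for the
value `false`), and the mode (empty: going down, `[v]`: returning `v`). -/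
abbrev SqSt : Type := SqIn × (List (Bool × Bool) × List Bool)

/-- The entry of a list. -/
def sqGet (x : List Bool) (n : ℕ) : Bool := x.zipIdx.any fun p => p.1 && decide (p.2 = n)

theorem sqGet_eq (x : List Bool) (n : ℕ) : sqGet x n = x.getD n false := by
  have key : ∀ (x : List Bool) (k : ℕ), ((x.zipIdx k).any fun p => p.1 && decide (p.2 = n)) =
      if k ≤ n then x.getD (n - k) false else false := by
    intro x
    induction x with
    | nil => intro k; simp
    | cons b x ih =>
      intro k
      rw [List.zipIdx_cons, List.any_cons, ih (k + 1)]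
      by_cases h1 : k + 1 ≤ n
      · have h2 : k ≤ n := by omega
        have h3 : ¬ (k = n) := by omega
        have h4 : n - k = (n - (k + 1)) + 1 := by omega
        rw [if_pos h1, if_pos h2, h4]
        simp [h3]
      · by_cases h2 : k = n
        · subst h2
          simp
        · have h3 : ¬ (k ≤ n) := by omega
          rw [if_neg h1, if_neg h3]
          simp [h2]
  have := key x 0
  simpa [sqGet] using this

/-- The value of the matrix. -/
def sqMatrix (cl : List (List (ℕ × Bool))) (x : List Bool) : Bool :=
  cl.all fun c => c.any fun l => sqGet x l.1 == l.2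

theorem sqMatrix_iff (cl : List (List (ℕ × Bool))) (x : List Bool) :
    sqMatrix cl x = true ↔ Matrix cl x := by
  simp only [sqMatrix, Matrix, List.all_eq_true, List.any_eq_true, sqGet_eq, beq_iff_eq]

/-- The returned value. -/
def sqOut (s : SqSt) : Bool := s.2.2.any fun b => b

/-- The loop continues. -/
def sqCont (s : SqSt) : Bool := !((!s.2.2.isEmpty) && !(!s.2.1.isEmpty))

/-- One step of the return. -/
def sqPop (s : SqSt) (a : Bool × Bool) (l : List (Bool × Bool)) : SqSt :=
  if a.1 then (s.1, (l, [if sqGet s.1.1 l.length then a.2 && sqOut s else a.2 || sqOut s]))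
  else (s.1, ((true, sqOut s) :: l, []))

/-- The return. -/
def sqRet (s : SqSt) : SqSt :=
  match s.2.1 with
  | [] => s
  | a :: l => sqPop s a l

/-- One step of the evaluation. -/
def sqStep (s : SqSt) : SqSt :=
  if !s.2.2.isEmpty then sqRet s
  else if decide (s.2.1.length < s.1.1.length) then (s.1, ((false, false) :: s.2.1, []))
  else (s.1, (s.2.1, [sqMatrix s.1.2 (s.2.1.map fun a => a.1).reverse]))

/-! ### Polynomial time -/

theorem sqGet_pf {γ : Type} [ToD γ] {f : γ → List Bool} {g : γ → ℕ} (hf : PF f) (hg : PF g) :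
    PF (fun c => sqGet (f c) (g c)) := by
  unfold sqGet
  exact PF.any (g := fun c (p : Bool × ℕ) => p.1 && decide (p.2 = g c))
    (PF.id'.snd.fst.and (PF.id'.snd.snd.natEq (hg.comp PF.id'.fst))) hf.zipIdx

theorem sqMatrix_pf {γ : Type} [ToD γ] {f : γ → List (List (ℕ × Bool))} {g : γ → List Bool}
    (hf : PF f) (hg : PF g) : PF (fun c => sqMatrix (f c) (g c)) := by
  unfold sqMatrix
  refine PF.all (g := fun c (cl : List (ℕ × Bool)) => cl.any fun l => sqGet (g c) l.1 == l.2)
    ?_ hf
  refine PF.any (g := fun (c : γ × List (ℕ × Bool)) (l : ℕ × Bool) => sqGet (g c.1) l.1 == l.2)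
    ?_ PF.id'.snd
  exact (sqGet_pf (hg.comp PF.id'.fst.fst) PF.id'.snd.fst).boolEq PF.id'.snd.snd

theorem sqOut_pf : PF sqOut :=
  PF.any (g := fun (_ : SqSt) (b : Bool) => b) PF.id'.snd PF.id'.snd.snd

theorem sqCont_pf : PF sqCont :=
  (PF.id'.snd.snd.isCons.and PF.id'.snd.fst.isCons.not).not

theorem sqPop_pf : PF (fun x : SqSt × ((Bool × Bool) × List (Bool × Bool)) =>
    sqPop x.1 x.2.1 x.2.2) := by
  unfold sqPop
  have h1 : PF (fun x : SqSt × ((Bool × Bool) × List (Bool × Bool)) => sqOut x.1) :=
    sqOut_pf.comp PF.id'.fst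
  refine PF.ite PF.id'.snd.fst.fst ?_ ?_
  · refine PF.id'.fst.fst.pair (PF.id'.snd.snd.pair (PF.cons ?_ (PF.const [])))
    exact (sqGet_pf PF.id'.fst.fst.fst PF.id'.snd.snd.length).ite
      (PF.id'.snd.fst.snd.and h1) (PF.id'.snd.fst.snd.or h1)
  · exact PF.id'.fst.fst.pair ((((PF.const true).pair h1).cons PF.id'.snd.snd).pair (PF.const []))

theorem sqRet_pf : PF sqRet := by
  refine PF.listCases (g := fun s : SqSt => s.2.1) (h1 := fun s => s)
    (h2 := fun x : SqSt × ((Bool × Bool) × List (Bool × Bool)) => sqPop x.1 x.2.1 x.2.2)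
    PF.id'.snd.fst PF.id' sqPop_pf ?_ ?_
  · intro s hs
    rw [sqRet, hs]
  · intro s a l hs
    rw [sqRet, hs]

theorem sqStep_pf : PF sqStep := by
  unfold sqStep
  refine PF.ite PF.id'.snd.snd.isCons sqRet_pf ?_
  refine PF.ite (PF.id'.snd.fst.length.lt PF.id'.fst.fst.length) ?_ ?_
  · exact PF.id'.fst.pair (((PF.const (false, false)).cons PF.id'.snd.fst).pair (PF.const []))
  · refine PF.id'.fst.pair (PF.id'.snd.fst.pair (PF.cons ?_ (PF.const [])))
    exact sqMatrix_pf PF.id'.fst.snd
      (PF.map (g := fun (_ : SqSt) (a : Bool × Bool) => a.1) PF.id'.snd.fst PF.id'.snd.fst).reverse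

/-! ### Correctness -/

/-- The invariant. -/
def SqOk (p : SqIn) (s : SqSt) : Prop :=
  s.1 = p ∧ s.2.1.length ≤ p.1.length ∧ s.2.2.length ≤ 1

/-- The loop reaches a state. -/
def SqReach (p : SqIn) (s t : SqSt) : Prop :=
  ∃ n, sqStep^[n] s = t ∧ (∀ i < n, sqCont (sqStep^[i] s) = true) ∧
    ∀ i ≤ n, SqOk p (sqStep^[i] s)

theorem SqReach.trans {p : SqIn} {s t u : SqSt} (h1 : SqReach p s t) (h2 : SqReach p t u) :
    SqReach p s u := by
  obtain ⟨n, e1, c1, o1⟩ := h1
  obtain ⟨m, e2, c2, o2⟩ := h2
  have key : ∀ j, sqStep^[n + j] s = sqStep^[j] t := by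
    intro j
    rw [Nat.add_comm, Function.iterate_add_apply, e1]
  refine ⟨n + m, by rw [key, e2], ?_, ?_⟩
  · intro i hi
    by_cases h : i < n
    · exact c1 i h
    · obtain ⟨j, rfl⟩ := Nat.exists_eq_add_of_le (not_lt.1 h)
      rw [key]
      exact c2 j (by omega)
  · intro i hi
    by_cases h : i ≤ n
    · exact o1 i h
    · obtain ⟨j, rfl⟩ := Nat.exists_eq_add_of_le (not_le.1 h).le
      rw [key]
      exact o2 j (by omega)

theorem SqReach.single {p : SqIn} {s t : SqSt} (e : sqStep s = t) (hc : sqCont s = true)
    (h1 : SqOk p s) (h2 : SqOk p t) : SqReach p s t := by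
  refine ⟨1, e, ?_, ?_⟩
  · intro i hi
    obtain rfl : i = 0 := by omega
    exact hc
  · intro i hi
    obtain rfl | rfl : i = 0 ∨ i = 1 := by omega
    · exact h1
    · rw [Function.iterate_one, e]
      exact h2

open Classical in
theorem sq_eval (p : SqIn) : ∀ (k : ℕ) (path : List (Bool × Bool)),
    path.length + k = p.1.length → SqReach p (p, (path, []))
      (p, (path, [decide (Holds p.2 (p.1.drop path.length) (path.map fun a => a.1).reverse)])) := by
  intro k
  induction k with
  | zero =>
    intro path h
    refine SqReach.single ?_ rfl ⟨rfl, by simp only; omega, by simp⟩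
      ⟨rfl, by simp only; omega, by simp⟩
    have h1 : ¬ (path.length < p.1.length) := by omega
    have h2 : p.1.drop path.length = [] := List.drop_eq_nil_iff.2 (by omega)
    rw [h2]
    simp only [sqStep, List.isEmpty_nil, Bool.not_true, Bool.false_eq_true, if_false,
      h1, decide_false]
    congr 3
    rw [Bool.eq_iff_iff, sqMatrix_iff, decide_eq_true_iff]
    rfl
  | succ k ih =>
    intro path h
    have hlt : path.length < p.1.length := by omega
    have hd : p.1.drop path.length = p.1[path.length] :: p.1.drop (path.length + 1) :=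
      List.drop_eq_getElem_cons hlt
    have hg : sqGet p.1 path.length = p.1[path.length] := by
      rw [sqGet_eq]
      simp [hlt]
    have i0 := ih ((false, false) :: path) (by simp only [List.length_cons]; omega)
    set v0 : Bool := decide (Holds p.2 (p.1.drop ((false, false) :: path).length)
      (((false, false) :: path).map fun a => a.1).reverse) with hv0
    have i1 := ih ((true, v0) :: path) (by simp only [List.length_cons]; omega)
    set v1 : Bool := decide (Holds p.2 (p.1.drop ((true, v0) :: path).length)
      (((true, v0) :: path).map fun a => a.1).reverse) with hv1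
    have s1 : SqReach p (p, (path, [])) (p, ((false, false) :: path, [])) := by
      refine SqReach.single ?_ rfl ⟨rfl, hlt.le, by simp⟩ ⟨rfl, hlt, by simp⟩
      simp only [sqStep, List.isEmpty_nil, Bool.not_true, Bool.false_eq_true, if_false,
        hlt, decide_true, if_true]
    have s2 : SqReach p (p, ((false, false) :: path, [v0])) (p, ((true, v0) :: path, [])) := by
      refine SqReach.single ?_ rfl ⟨rfl, hlt, by simp⟩ ⟨rfl, hlt, by simp⟩
      simp [sqStep, sqRet, sqPop, sqOut]
    have s3 : SqReach p (p, ((true, v0) :: path, [v1]))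
        (p, (path, [if p.1[path.length] then v0 && v1 else v0 || v1])) := by
      refine SqReach.single ?_ rfl ⟨rfl, hlt, by simp⟩ ⟨rfl, hlt.le, by simp⟩
      simp [sqStep, sqRet, sqPop, sqOut, hg]
    have s4 := s1.trans (i0.trans (s2.trans (i1.trans s3)))
    have e : (if p.1[path.length] then v0 && v1 else v0 || v1) =
        decide (Holds p.2 (p.1.drop path.length) (path.map fun a => a.1).reverse) := by
      rw [hd, hv0, hv1]
      cases p.1[path.length] with
      | false => simp [Holds]
      | true => simp [Holds]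
    rw [e] at s4
    exact s4

theorem sq_sz_path (l : List (Bool × Bool)) : sz l ≤ 8 * l.length + 1 := by
  induction l with
  | nil => simp
  | cons a l ih =>
    have h1 := sz_bool a.1
    have h2 := sz_bool a.2
    have h3 : sz a = sz a.1 + sz a.2 + 1 := sz_pair a.1 a.2
    simp only [sz_cons, List.length_cons]
    omega

theorem sq_sz_mode (l : List Bool) : sz l ≤ 4 * l.length + 1 := by
  induction l with
  | nil => simp
  | cons a l ih =>
    have h1 := sz_bool a
    simp only [sz_cons, List.length_cons]
    omega

theorem SqOk.size {p : SqIn} {s : SqSt} (h : SqOk p s) : sz s ≤ 9 * sz p + 8 := by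
  obtain ⟨h1, h2, h3⟩ := h
  have e1 : sz s = sz s.1 + (sz s.2.1 + sz s.2.2 + 1) + 1 := by
    rw [← sz_pair, ← sz_pair]
  have e2 : sz p = sz p.1 + sz p.2 + 1 := by rw [← sz_pair]
  have e3 := sq_sz_path s.2.1
  have e4 := sq_sz_mode s.2.2
  have e5 := length_le_sz p.1
  rw [h1] at e1
  omega

open Classical in
/-- The evaluation of quantified Boolean formulas is in PSPACE. -/
theorem tqbf_inPSPACE : InPSPACE (fun p : List Bool × List (List (ℕ × Bool)) => en p)
    (fun p => decide (Holds p.2 p.1 [])) := by
  refine InPSPACE.ofLoop (σ := SqSt) (fun p => (p, ([], []))) sqCont sqStep sqOut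
    (PF.id'.pair ((PF.const []).pair (PF.const []))) sqCont_pf sqStep_pf sqOut_pf
    (9 * Polynomial.X + 8) ?_
  intro p
  obtain ⟨n, e, hc, ho⟩ := sq_eval p p.1.length [] (by simp)
  refine ⟨n, hc, ?_, ?_, ?_⟩
  · rw [e]; rfl
  · rw [e]; simp [sqOut]
  · intro i hi
    have := (ho i hi).size
    simpa using this

end Pool.Agent.W_MP_1d4143_al
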