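import Pool.Agent.W_MP_1d4143_al.ReachQBF

set_option autoImplicit false

open Turing Computability Pool.Agent.PolyTime

namespace Pool.Agent.W_MP_1d4143_al

theorem upper_en_bool (b : Bool) : en b = codeBool b := by cases b <;> rfl

theorem upper_en_nat (n : ℕ) : en n = codeNat n := by
  induction n with
  | zero => rfl
  | succ n ih =>
    rw [codeNat, ← ih]
    rfl

theorem upper_en_list {α : Type} [ToD α] (code : α → List Bool) (h : ∀ a, en a = code a)
    (l : List α) : en l = codeList code l := by
  induction l with
  | nil => rfl
  | cons a l ih =>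
    rw [codeList, ← ih, ← h]
    rfl

theorem upper_en_lit (l : ℕ × Bool) : en l = codeLit l := by
  rw [codeLit, ← upper_en_nat, ← upper_en_bool]
  rfl

theorem upper_en (φ : QBF) : en (φ.quants, φ.clauses) = φ.code := by
  rw [QBF.code, ← upper_en_list codeBool upper_en_bool,
    ← upper_en_list (codeList codeLit) (upper_en_list codeLit upper_en_lit)]
  rfl

/-- A machine which ignores its input stack and answers `true`. -/
noncomputable def upperMachine (A : Type) [Fintype A] : FinTM2 where
  K := Bool
  k₀ := false
  k₁ := true
  Γ b := match b with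
    | false => A
    | true => Bool
  Λ := Unit
  main := ()
  σ := Unit
  initialState := ()
  Γk₀Fin := inferInstanceAs (Fintype A)
  m _ := TM2.Stmt.push true (fun _ => (true : Bool)) TM2.Stmt.halt

theorem upper_empty {A G : Type} [Group G] [IsEmpty A] [Fintype A] (π : A → G) :
    WordProblemInP π := by
  refine ⟨⟨⟨upperMachine A, Equiv.refl A, Equiv.refl Bool⟩, 1, ?_⟩⟩
  intro w
  have hw : w = [] := by
    cases w with
    | nil => rfl
    | cons a w => exact isEmptyElim a
  subst hw
  have h1 : wordProblem π [] = true := by simp [wordProblem, val]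
  rw [h1]
  refine ⟨⟨1, ?_⟩, by simp⟩
  show some _ = some _
  congr 1
  simp only [haltList]
  simp only [upperMachine, TM2.stepAux]
  congr 1
  funext k
  cases k <;> rfl

theorem upper_inhabited (h : TQBFInP) {A G : Type} [Group G] [Fintype A] [Inhabited A] (π : A → G)
    (S : AsyncStructure π) : WordProblemInP π := by
  classical
  obtain ⟨k, R, l₀, r₀, l₁, r₁, st, fin, hR⟩ := exists_rewriting π S
  obtain ⟨f, hf, hfs⟩ := exists_reachQBF k R
  -- the first step: a list of pairs of natural numbers
  let δ : A → ℕ × ℕ := fun a => ((st a).val, (fin a).val)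
  have s1 : Poly (fun w : List A => w) en (fun w : List A => w.map δ) := by
    refine (Poly.toTree (fun a => toD (δ a))).restrict id (fun _ => rfl) ?_
    intro w
    show (D.ofList (w.map fun a => toD (δ a))).enc = (D.ofList ((w.map δ).map toD)).enc
    rw [List.map_map]
    rfl
  -- the second step: the two words
  let g : List (ℕ × ℕ) → List ℕ × List ℕ := fun l =>
    (l₀.val :: (l.map fun p => p.1) ++ [r₀.val], l₁.val :: (l.map fun p => p.2) ++ [r₁.val])
  have s2 : PF g := by
    refine PF.pair ?_ ?_
    · exact ((PF.const l₀.val).cons (PF.map (g := fun (_ : List (ℕ × ℕ)) (p : ℕ × ℕ) => p.1) PF.id'.snd.fst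
        PF.id')).append
        (PF.const [r₀.val])
    · exact ((PF.const l₁.val).cons (PF.map (g := fun (_ : List (ℕ × ℕ)) (p : ℕ × ℕ) => p.2) PF.id'.snd.snd
        PF.id')).append
        (PF.const [r₁.val])
  -- the third step: the formula
  have s3 : Poly (fun w : List A => w) en (fun w : List A => f (g (w.map δ))) :=
    Poly.comp s1 (g := fun l => f (g l)) (Poly.comp s2 hf)
  let q : List A → QBF := fun w => ⟨(f (g (w.map δ))).1, (f (g (w.map δ))).2⟩
  have s4 : Poly (fun w : List A => w) QBF.code q :=
    s3.restrict id (fun _ => rfl) (fun w => upper_en (q w))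
  have s5 : Poly (fun w : List A => w) encodeBool (fun w => tqbf (q w)) := Poly.comp s4 h
  have e : (fun w => tqbf (q w)) = wordProblem π := by
    funext w
    unfold tqbf wordProblem
    apply decide_eq_decide.2
    rw [hR w, ← hfs _ _ (by simp)]
    have e1 : g (w.map δ) = ((l₀ :: w.map st ++ [r₀]).map Fin.val,
        (l₁ :: w.map fin ++ [r₁]).map Fin.val) := by
      simp [g, δ, Function.comp_def]
    simp only [QBF.IsTrue, q, e1]
  rw [e] at s5
  exact s5

/-- If TQBF is in P, then the word problem of every asynchronously automatic group is in P. -/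
theorem upper (h : TQBFInP) {A G : Type} [Group G] [Finite A] (π : A → G)
    (S : AsyncStructure π) : WordProblemInP π := by
  have : Fintype A := Fintype.ofFinite A
  cases isEmpty_or_nonempty A with
  | inl hA => exact upper_empty π
  | inr hA =>
    have : Inhabited A := Classical.inhabited_of_nonempty hA
    exact upper_inhabited h π S

end Pool.Agent.W_MP_1d4143_al
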