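import Pool.Agent.W_MP_1d4143_al.Assemble
import Pool.Agent.W_MP_1d4143_al.Upper
import Pool.Agent.W_MP_1d4143_al.Lower
import Pool.Agent.W_MP_1d4143_al.SpaceComp
import Pool.Agent.W_MP_1d4143_al.SpaceTQBF
import Pool.Agent.W_MP_1d4143_al.SpaceHard

/-!
# The complexity of the word problem of asynchronously automatic groups
-/

set_option autoImplicit false

open Turing Computability Pool.Agent.PolyTime

namespace Pool.Agent.W_MP_1d4143_al

/-- The word problem of an asynchronously automatic group is reducible to TQBF. -/
theorem spm_wp_red {A G : Type} [Group G] [Finite A] [Nonempty A] (π : A → G)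
    (S : AsyncStructure π) :
    ∃ r : List A → List Bool × List (List (ℕ × Bool)),
      Poly (fun w : List A => w) (fun p : List Bool × List (List (ℕ × Bool)) => en p) r ∧
      ∀ w, val π w = 1 ↔ Holds (r w).2 (r w).1 [] := by
  classical
  have _ : Fintype A := Fintype.ofFinite A
  have _ : Inhabited A := Classical.inhabited_of_nonempty inferInstance
  obtain ⟨k, R, l₀, r₀, l₁, r₁, st, fin, hR⟩ := exists_rewriting π S
  obtain ⟨f, hf, hfs⟩ := exists_reachQBF k R
  let δ : A → ℕ × ℕ := fun a => ((st a).val, (fin a).val)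
  have s1 : Poly (fun w : List A => w) en (fun w : List A => w.map δ) := by
    refine (Poly.toTree (fun a => toD (δ a))).restrict id (fun _ => rfl) ?_
    intro w
    show (D.ofList (w.map fun a => toD (δ a))).enc = (D.ofList ((w.map δ).map toD)).enc
    rw [List.map_map]
    rfl
  let g : List (ℕ × ℕ) → List ℕ × List ℕ := fun l =>
    (l₀.val :: (l.map fun p => p.1) ++ [r₀.val], l₁.val :: (l.map fun p => p.2) ++ [r₁.val])
  have s2 : PF g := by
    refine PF.pair ?_ ?_
    · exact ((PF.const l₀.val).cons (PF.map (g := fun (_ : List (ℕ × ℕ)) (p : ℕ × ℕ) => p.1)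
        PF.id'.snd.fst PF.id')).append (PF.const [r₀.val])
    · exact ((PF.const l₁.val).cons (PF.map (g := fun (_ : List (ℕ × ℕ)) (p : ℕ × ℕ) => p.2)
        PF.id'.snd.snd PF.id')).append (PF.const [r₁.val])
  have s3 : Poly (fun w : List A => w) en (fun w : List A => f (g (w.map δ))) :=
    Poly.comp s1 (g := fun l => f (g l)) (Poly.comp s2 hf)
  refine ⟨fun w => f (g (w.map δ)), s3, fun w => ?_⟩
  rw [hR w, ← hfs _ _ (by simp)]
  have e1 : g (w.map δ) = ((l₀ :: w.map st ++ [r₀]).map Fin.val,
      (l₁ :: w.map fin ++ [r₁]).map Fin.val) := by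
    simp [g, δ, Function.comp_def]
  show _ ↔ Holds (f (g (w.map δ))).2 (f (g (w.map δ))).1 []
  rw [e1]

/-- The word problem of every asynchronously automatic group is in PSPACE. -/
theorem spm_wp_inPSPACE {A G : Type} [Group G] [Finite A] (π : A → G) (S : AsyncStructure π) :
    InPSPACE (fun w : List A => w) (wordProblem π) := by
  classical
  cases isEmpty_or_nonempty A with
  | inl hA =>
    have _ : Fintype A := Fintype.ofFinite A
    exact InPSPACE.ofInP (upper_empty π)
  | inr hA =>
    have _ : Inhabited A := Classical.inhabited_of_nonempty inferInstance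
    obtain ⟨r, hr, h⟩ := spm_wp_red π S
    have h1 := InPSPACE.comp hr tqbf_inPSPACE id
    convert h1 using 2 with w
    simp only [wordProblem, id_eq]
    exact decide_eq_decide.2 (h w)

/-- The word problem of the hard group is PSPACE-hard. -/
theorem spm_hard {G : Type} [Group G] (M : HModel D0 G)
    (hM : ∀ e f g, M.ι f * M.t e = M.t e * M.ι g → f ∈ D0.S e)
    (B : Type) [Finite B] [Nonempty B] (g : List B → Bool)
    (hg : InPSPACE (fun w : List B => w) g) :
    ∃ r : List B → List Let, Poly (fun w : List B => w) (fun w : List Let => w) r ∧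
      ∀ w, g w = wordProblem M.letterVal (r w) := by
  classical
  have _ : Fintype B := Fintype.ofFinite B
  have _ : Inhabited B := Classical.inhabited_of_nonempty inferInstance
  have hid : Poly (fun w : List B => w) (fun w : List B => w) (fun w => w) :=
    ⟨idComputableInPolyTime (fun w : List B => w)⟩
  have hg' : InPSPACE (fun w : List B => w) (fun w => !(g w)) := InPSPACE.comp hid hg (fun b => !b)
  obtain ⟨r₀, hr₀, h₀⟩ := tqbf_hard hg'
  obtain ⟨f, hf, h3, hH⟩ := exists_split3
  have h1 : Poly (fun p : QP => en p) (fun w : List Let => w)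
      (fun p => redWord (f p).1 (f p).2) := Poly.comp hf poly_redWord
  refine ⟨fun w => redWord (f (r₀ w)).1 (f (r₀ w)).2,
    Poly.comp hr₀ (g := fun p => redWord (f p).1 (f p).2) h1, fun w => ?_⟩
  have key := (redWord_iff M hM (f (r₀ w)).1 (f (r₀ w)).2 (h3 (r₀ w))).trans
    (not_congr (hH (r₀ w)))
  have h2 := h₀ w
  unfold wordProblem
  by_cases hw : Holds (r₀ w).2 (r₀ w).1 []
  · have h4 : ¬ val M.letterVal (redWord (f (r₀ w)).1 (f (r₀ w)).2) = 1 := fun hv => key.1 hv hw
    have h5 : g w = false := by
      have := h2.2 hw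
      simpa using this
    simp [h4, h5]
  · have h4 : val M.letterVal (redWord (f (r₀ w)).1 (f (r₀ w)).2) = 1 := key.2 hw
    have h5 : g w = true := by
      by_contra hne
      exact hw (h2.1 (by simpa using hne))
    simp [h4, h5]

/-- There is an asynchronously automatic group whose word problem is PSPACE-complete. -/
theorem spm_exists_complete : ∃ (G : Type) (_ : Group G) (A : Type) (_ : Finite A)
    (_ : Nonempty A) (π : A → G), Nonempty (AsyncStructure π) ∧ PSPACEComplete (wordProblem π) := by
  obtain ⟨G, hG, M, ⟨S⟩, hM⟩ := exists_asyncStructure D0 fg_D0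
  refine ⟨G, hG, Let, inferInstance, ⟨Sum.inl (Sym.c, true)⟩, M.letterVal, ⟨S⟩,
    spm_wp_inPSPACE _ S, ?_⟩
  intro B _ _ g hg
  exact spm_hard M hM B g hg

/-- **The complexity of the word problem of asynchronously automatic groups.** -/
theorem space_main :
    (∀ (G : Type) [Group G] (A : Type) [Finite A] (π : A → G), AsyncStructure π →
      InPSPACE (fun w : List A => w) (wordProblem π)) ∧
    (∃ (G : Type) (_ : Group G) (A : Type) (_ : Finite A) (_ : Nonempty A) (π : A → G),
      Nonempty (AsyncStructure π) ∧ PSPACEComplete (wordProblem π)) ∧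
    ((∀ (G : Type) [Group G] (A : Type) [Finite A] (π : A → G), AsyncStructure π →
      WordProblemInP π) ↔ PEqPSPACE) := by
  refine ⟨fun G _ A _ π S => spm_wp_inPSPACE π S, spm_exists_complete, ?_, ?_⟩
  · intro h A _ _ f
    refine ⟨fun hf => ?_, fun hf => InPSPACE.ofInP hf⟩
    obtain ⟨G, hG, B, hB, hB', π, ⟨S⟩, hc⟩ := spm_exists_complete
    obtain ⟨r, hr, hrw⟩ := hc.2 A f hf
    have _ : Inhabited A := Classical.inhabited_of_nonempty inferInstance
    have _ : Inhabited B := Classical.inhabited_of_nonempty inferInstance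
    have h1 : Poly (fun w : List B => w) encodeBool (wordProblem π) := h G B π S
    have h2 : Poly (fun w : List A => w) encodeBool (fun w => wordProblem π (r w)) :=
      Poly.comp (f := r) hr h1
    have e : f = fun w => wordProblem π (r w) := funext hrw
    rw [e]
    exact h2
  · intro h G _ A _ π S
    cases isEmpty_or_nonempty A with
    | inl hA =>
      have _ : Fintype A := Fintype.ofFinite A
      exact upper_empty π
    | inr hA => exact (h A (wordProblem π)).1 (spm_wp_inPSPACE π S)

end Pool.Agent.W_MP_1d4143_al
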