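import Pool.Agent.W_MP_1d4143_al.Space

/-!
# Micro-steps of stack machines with space bounds
(The first part is adapted from the library PolyTimeCL.)
-/

set_option autoImplicit false

open Turing Computability StateTransition

namespace Pool.Agent.W_MP_1d4143_al

/-- Micro-configurations: the statement still to be executed (`none`: halted), the internal
state, and the stacks. -/
structure TrkMC (tm : FinTM2) where
  s : Option (TM2.Stmt tm.Γ tm.Λ tm.σ)
  v : tm.σ
  S : ∀ k, List (tm.Γ k)

namespace TrkMC

variable {tm : FinTM2}

/-- One elementary operation. -/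
def next (c : TrkMC tm) : TrkMC tm :=
  match c.s with
  | none => c
  | some (.push k f q) => ⟨some q, c.v, Function.update c.S k (f c.v :: c.S k)⟩
  | some (.peek k f q) => ⟨some q, f c.v (c.S k).head?, c.S⟩
  | some (.pop k f q) => ⟨some q, f c.v (c.S k).head?, Function.update c.S k (c.S k).tail⟩
  | some (.load f q) => ⟨some q, f c.v, c.S⟩
  | some (.branch p q₁ q₂) => ⟨some (bif p c.v then q₁ else q₂), c.v, c.S⟩
  | some (.goto l) => ⟨some (tm.m (l c.v)), c.v, c.S⟩
  | some .halt => ⟨none, c.v, c.S⟩

/-- The micro-configuration of a configuration. -/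
def of (c : TM2.Cfg tm.Γ tm.Λ tm.σ) : TrkMC tm := ⟨c.l.map tm.m, c.var, c.stk⟩

/-- The number of elementary operations in a statement (along the longest branch). -/
def depth : TM2.Stmt tm.Γ tm.Λ tm.σ → ℕ
  | .push _ _ q => depth q + 1
  | .peek _ _ q => depth q + 1
  | .pop _ _ q => depth q + 1
  | .load _ q => depth q + 1
  | .branch _ q₁ q₂ => max (depth q₁) (depth q₂) + 1
  | .goto _ => 1
  | .halt => 1

/-- A micro-step between micro-configurations all of whose stacks have length at most `B`. -/
def Mic (B : ℕ) (c c' : TrkMC tm) : Prop :=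
  c' = c.next ∧ (∀ k, (c.S k).length ≤ B) ∧ (∀ k, (c'.S k).length ≤ B)

theorem Mic.mono {B B' : ℕ} (h : B ≤ B') {c c' : TrkMC tm} (hc : Mic B c c') : Mic B' c c' :=
  ⟨hc.1, fun k => (hc.2.1 k).trans h, fun k => (hc.2.2 k).trans h⟩

theorem mic_mono {B B' : ℕ} (h : B ≤ B') {c c' : TrkMC tm}
    (hc : Relation.ReflTransGen (Mic B) c c') : Relation.ReflTransGen (Mic B') c c' :=
by
  induction hc with
  | refl => exact .refl
  | tail _ hbc ih => exact ih.tail (hbc.mono h)

theorem mic_stmt : ∀ (q : TM2.Stmt tm.Γ tm.Λ tm.σ) (B : ℕ) (v : tm.σ) (S : ∀ k, List (tm.Γ k)),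
    (∀ k, (S k).length ≤ B) →
    Relation.ReflTransGen (Mic (B + depth q)) ⟨some q, v, S⟩ (of (TM2.stepAux q v S)) := by
  intro q
  induction q with
  | push k f q ih =>
    intro B v S hS
    have h1 : ∀ k', ((Function.update S k (f v :: S k)) k').length ≤ B + 1 := by
      intro k'
      by_cases hk : k' = k
      · subst hk
        simpa using hS k'
      · rw [Function.update_of_ne hk]
        exact (hS k').trans (by omega)
    have h := ih (B + 1) v (Function.update S k (f v :: S k)) h1
    refine Relation.ReflTransGen.head ?_ (mic_mono (by simp only [depth]; omega) h)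
    exact ⟨rfl, fun k' => (hS k').trans (by omega), fun k' => (h1 k').trans (by
      simp only [depth]; omega)⟩
  | peek k f q ih =>
    intro B v S hS
    have h := ih B (f v (S k).head?) S hS
    refine Relation.ReflTransGen.head ?_ (mic_mono (by simp only [depth]; omega) h)
    exact ⟨rfl, fun k' => (hS k').trans (by omega), fun k' => (hS k').trans (by omega)⟩
  | pop k f q ih =>
    intro B v S hS
    have h1 : ∀ k', ((Function.update S k (S k).tail) k').length ≤ B := by
      intro k'
      by_cases hk : k' = k
      · subst hk
        have := hS k'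
        simp only [Function.update_self, List.length_tail]
        omega
      · rw [Function.update_of_ne hk]
        exact hS k'
    have h := ih B (f v (S k).head?) (Function.update S k (S k).tail) h1
    refine Relation.ReflTransGen.head ?_ (mic_mono (by simp only [depth]; omega) h)
    exact ⟨rfl, fun k' => (hS k').trans (by omega), fun k' => (h1 k').trans (by omega)⟩
  | load f q ih =>
    intro B v S hS
    have h := ih B (f v) S hS
    refine Relation.ReflTransGen.head ?_ (mic_mono (by simp only [depth]; omega) h)
    exact ⟨rfl, fun k' => (hS k').trans (by omega), fun k' => (hS k').trans (by omega)⟩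
  | branch p q₁ q₂ ih₁ ih₂ =>
    intro B v S hS
    cases hp : p v with
    | true =>
      have h := ih₁ B v S hS
      refine Relation.ReflTransGen.head (b := ⟨some q₁, v, S⟩) ?_ ?_
      · refine ⟨?_, fun k' => (hS k').trans (by omega), fun k' => (hS k').trans (by omega)⟩
        simp [next, hp]
      · simp only [TM2.stepAux, hp, cond_true]
        exact mic_mono (by simp only [depth]; omega) h
    | false =>
      have h := ih₂ B v S hS
      refine Relation.ReflTransGen.head (b := ⟨some q₂, v, S⟩) ?_ ?_
      · refine ⟨?_, fun k' => (hS k').trans (by omega), fun k' => (hS k').trans (by omega)⟩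
        simp [next, hp]
      · simp only [TM2.stepAux, hp, cond_false]
        exact mic_mono (by simp only [depth]; omega) h
  | goto l =>
    intro B v S hS
    exact Relation.ReflTransGen.single ⟨rfl, fun k' => (hS k').trans (by omega),
      fun k' => (hS k').trans (by omega)⟩
  | halt =>
    intro B v S hS
    exact Relation.ReflTransGen.single ⟨rfl, fun k' => (hS k').trans (by omega),
      fun k' => (hS k').trans (by omega)⟩

/-- A bound for the number of elementary operations per step. -/
noncomputable def D (tm : FinTM2) : ℕ :=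
  letI := tm.ΛFin
  Finset.univ.sup (fun l => depth (tm := tm) (tm.m l))

theorem depth_le (l : tm.Λ) : depth (tm.m l) ≤ D tm := by
  letI := tm.ΛFin
  exact Finset.le_sup (f := fun l => depth (tm := tm) (tm.m l)) (Finset.mem_univ l)

theorem iter_none (n : ℕ) : (flip bind tm.step)^[n] none = none := by
  induction n with
  | zero => rfl
  | succ n ih => rw [Function.iterate_succ_apply]; exact ih

theorem length_le_space (c : tm.Cfg) (k : tm.K) : (c.stk k).length ≤ space tm c := by
  letI := tm.kFin
  unfold space
  exact Finset.single_le_sum (f := fun k => (c.stk k).length) (fun _ _ => Nat.zero_le _)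
    (Finset.mem_univ k)

theorem mic_steps (B : ℕ) : ∀ (n : ℕ) (c d : tm.Cfg),
    (flip bind tm.step)^[n] (some c) = some d →
    (∀ (m : ℕ) (e : tm.Cfg), (flip bind tm.step)^[m] (some c) = some e → space tm e ≤ B) →
    Relation.ReflTransGen (Mic (B + D tm)) (of c) (of d) := by
  intro n
  induction n with
  | zero =>
    intro c d h _
    simp only [Function.iterate_zero, id_eq, Option.some.injEq] at h
    rw [h]
  | succ n ih =>
    intro c d h hB
    rw [Function.iterate_succ_apply] at h
    rcases c with ⟨_ | l, v, S⟩
    · have : flip bind tm.step (some ⟨none, v, S⟩) = none := rfl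
      rw [this, iter_none] at h
      exact absurd h (by simp)
    · have e1 : flip bind tm.step (some ⟨some l, v, S⟩) = some (TM2.stepAux (tm.m l) v S) := rfl
      rw [e1] at h
      have h1 := ih _ _ h (fun m e he => hB (m + 1) e (by
        rw [Function.iterate_succ_apply, e1]; exact he))
      have h0 := hB 0 ⟨some l, v, S⟩ rfl
      have h2 := mic_stmt (tm.m l) B v S (fun k => (length_le_space _ k).trans h0)
      exact (mic_mono (Nat.add_le_add_left (depth_le l) B) h2).trans h1

theorem next_halted {c : TrkMC tm} (h : c.s = none) : next c = c := by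
  simp only [next, h]

/-- Two halted micro-configurations reachable from the same one are equal. -/
theorem reach_unique {c d e : TrkMC tm}
    (hd : Relation.ReflTransGen (fun a b : TrkMC tm => b = a.next) c d)
    (he : Relation.ReflTransGen (fun a b : TrkMC tm => b = a.next) c e)
    (hds : d.s = none) (hes : e.s = none) : d = e := by
  have key : ∀ {x y : TrkMC tm}, Relation.ReflTransGen (fun a b : TrkMC tm => b = a.next) x y →
      x.s = none → y = x := by
    intro x y h hx
    induction h with
    | refl => rfl
    | tail _ hbc ih =>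
      subst ih
      rw [hbc, next_halted hx]
  have det : ∀ {x y z : TrkMC tm}, Relation.ReflTransGen (fun a b : TrkMC tm => b = a.next) x y →
      Relation.ReflTransGen (fun a b : TrkMC tm => b = a.next) x z →
      Relation.ReflTransGen (fun a b : TrkMC tm => b = a.next) y z ∨
      Relation.ReflTransGen (fun a b : TrkMC tm => b = a.next) z y := by
    intro x y z h1 h2
    induction h1 using Relation.ReflTransGen.head_induction_on generalizing z with
    | refl => exact Or.inl h2
    | head hab hbc ih =>
      rcases Relation.ReflTransGen.cases_head h2 with rfl | ⟨w, hw, hwz⟩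
      · exact Or.inr (Relation.ReflTransGen.head hab hbc)
      · rw [hw, ← hab] at hwz
        exact ih hwz
  rcases det hd he with h | h
  · exact (key h hds).symm
  · exact key h hes

end TrkMC

/-! ### Relevant control states and symbols -/

section

variable (tm : FinTM2)

/-- Control states of the micro-step machine. -/
abbrev TrkCtl := Option (TM2.Stmt tm.Γ tm.Λ tm.σ) × tm.σ

/-- The relevant statements. -/
noncomputable def trkStms : Finset (Option (TM2.Stmt tm.Γ tm.Λ tm.σ)) :=
  letI := tm.ΛFin
  TM2.stmts tm.m Finset.univ

theorem trkStms_sub {q q' : TM2.Stmt tm.Γ tm.Λ tm.σ} (h : some q ∈ trkStms tm)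
    (h' : q' ∈ TM2.stmts₁ q) : some q' ∈ trkStms tm := by
  letI := tm.ΛFin
  exact TM2.stmts_trans h' h

theorem trkStms_none : none ∈ trkStms tm := by
  letI := tm.ΛFin
  exact Finset.none_mem_insertNone

theorem trkStms_m (l : tm.Λ) : some (tm.m l) ∈ trkStms tm := by
  letI := tm.ΛFin
  classical
  unfold trkStms TM2.stmts
  rw [Finset.mem_insertNone]
  intro a ha
  simp only [Option.mem_def, Option.some.injEq] at ha
  subst ha
  exact Finset.mem_biUnion.2 ⟨l, Finset.mem_univ l, TM2.stmts₁_self⟩

/-- The relevant control states. -/
def trkCtls : Set (TrkCtl tm) := {c | c.1 ∈ trkStms tm}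

theorem trkCtls_finite : (trkCtls tm).Finite := by
  letI := tm.σFin
  have : trkCtls tm = (↑(trkStms tm) : Set _) ×ˢ (Set.univ : Set tm.σ) := by
    ext c
    simp [trkCtls]
  rw [this]
  exact (Finset.finite_toSet _).prod Set.finite_univ

/-- The symbols that can occur on stack `k`. -/
def trkSyms (k : tm.K) : Set (tm.Γ k) :=
  {_g | k = tm.k₀} ∪ ⋃ c ∈ trkCtls tm, {g | ∃ f q, c.1 = some (TM2.Stmt.push k f q) ∧ g = f c.2}

theorem trkSyms_finite (k : tm.K) : (trkSyms tm k).Finite := by
  refine Set.Finite.union ?_ (Set.Finite.biUnion (trkCtls_finite tm) fun c _ =>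
    Set.Subsingleton.finite ?_)
  · by_cases hk : k = tm.k₀
    · subst hk
      letI := tm.Γk₀Fin
      exact Set.toFinite _
    · have : {_g : tm.Γ k | k = tm.k₀} = ∅ := by ext g; simp [hk]
      rw [this]
      exact Set.finite_empty
  · rintro g ⟨f, q, h1, h2⟩ g' ⟨f', q', h1', h2'⟩
    rw [h1] at h1'
    simp only [Option.some.injEq, TM2.Stmt.push.injEq, heq_eq_eq, true_and] at h1'
    rw [h2, h2', h1'.1]

theorem trkPush_mem {k : tm.K} {f : tm.σ → tm.Γ k} {q : TM2.Stmt tm.Γ tm.Λ tm.σ} {v : tm.σ}
    (h : (some (TM2.Stmt.push k f q), v) ∈ trkCtls tm) : f v ∈ trkSyms tm k :=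
  Or.inr (Set.mem_biUnion (x := (some (TM2.Stmt.push k f q), v)) h ⟨f, q, rfl, rfl⟩)

end

end Pool.Agent.W_MP_1d4143_al
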