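import Pool.Agent.W_MP_1d4143_al.SpaceCell
import Pool.Agent.PolyTime.Basic

/-!
# Space-bounded Turing machines as length-preserving rewriting systems
-/

set_option autoImplicit false

open Turing Computability

namespace Pool.Agent.W_MP_1d4143_al

section

variable {tm : FinTM2}

theorem trk_option_finite {α : Type} {s : Set α} (hs : s.Finite) :
    {o : Option α | ∀ g ∈ o, g ∈ s}.Finite := by
  refine ((hs.image some).insert none).subset ?_
  rintro (_ | g) h
  · simp
  · exact Or.inr ⟨g, h g rfl, rfl⟩

theorem trk_next_of_mic {B : ℕ} {c d : TrkMC tm} (h : Relation.ReflTransGen (TrkMC.Mic B) c d) :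
    Relation.ReflTransGen (fun a b : TrkMC tm => b = a.next) c d := by
  induction h with
  | refl => exact .refl
  | tail _ hbc ih => exact ih.tail hbc.1

/-- The relevant symbols. -/
def trkSy (tm : FinTM2) (x : tm.Γ tm.k₁) (k : tm.K) : Set (tm.Γ k) :=
  trkSyms tm k ∪ {g | (Function.update (fun _ => none) tm.k₁ (some x) : ∀ k, Option (tm.Γ k)) k
    = some g}

theorem trkSy_finite (x : tm.Γ tm.k₁) (k : tm.K) : (trkSy tm x k).Finite := by
  refine (trkSyms_finite tm k).union (Set.Subsingleton.finite ?_)
  intro g hg g' hg'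
  simp only [Set.mem_setOf_eq] at hg hg'
  rw [hg] at hg'
  exact Option.some.inj hg'

/-- The relevant cells. -/
def trkOk (tm : FinTM2) (x : tm.Γ tm.k₁) : Set (TrkCell tm) :=
  {c | (∀ k, ∀ g ∈ c.2.1 k, g ∈ trkSy tm x k) ∧ ∀ d ∈ c.2.2, d ∈ trkCtls tm}

theorem trkOk_finite (x : tm.Γ tm.k₁) : (trkOk tm x).Finite := by
  let _ := tm.kFin
  have h1 : (Set.pi Set.univ (fun k => {o : Option (tm.Γ k) | ∀ g ∈ o, g ∈ trkSy tm x k})).Finite :=
    Set.Finite.pi (fun k => trk_option_finite (trkSy_finite x k))
  have h2 := trk_option_finite (trkCtls_finite tm)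
  refine ((Set.finite_univ (α := Bool)).prod (h1.prod h2)).subset ?_
  rintro ⟨s, S, o⟩ ⟨h3, h4⟩
  exact ⟨Set.mem_univ _, fun k _ => h3 k, h4⟩

theorem trkCtls_sub {q q' : TM2.Stmt tm.Γ tm.Λ tm.σ} {v v' : tm.σ}
    (h : ((some q, v) : TrkCtl tm) ∈ trkCtls tm) (h' : q' ∈ TM2.stmts₁ q) :
    ((some q', v') : TrkCtl tm) ∈ trkCtls tm := trkStms_sub tm h h'

theorem trkRule_ok (x : tm.Γ tm.k₁) (a b a' b' : TrkCell tm) (h : TrkRule a b a' b')
    (ha : a ∈ trkOk tm x) (hb : b ∈ trkOk tm x) : a' ∈ trkOk tm x ∧ b' ∈ trkOk tm x := by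
  classical
  have hsome : ∀ {d d' : TrkCtl tm}, d' ∈ trkCtls tm → ∀ e ∈ some d', e ∈ trkCtls tm := by
    intro d d' hd e he
    rw [Option.mem_some] at he
    rw [← he]
    exact hd
  have hnone : ∀ e ∈ (none : Option (TrkCtl tm)), e ∈ trkCtls tm := by simp
  cases h with
  | right s s' S S' c => exact ⟨⟨ha.1, hnone⟩, ⟨hb.1, ha.2⟩⟩
  | left s s' S S' c => exact ⟨⟨ha.1, hb.2⟩, ⟨hb.1, hnone⟩⟩
  | load s S y f q v =>
    have h0 := ha.2 _ rfl
    refine ⟨⟨ha.1, hsome (d := (none, v)) (trkCtls_sub h0 ?_)⟩, hb⟩
    unfold TM2.stmts₁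
    exact Finset.mem_insert_of_mem TM2.stmts₁_self
  | branch s S y p q₁ q₂ v =>
    have h0 := ha.2 _ rfl
    refine ⟨⟨ha.1, hsome (d := (none, v)) (trkCtls_sub h0 ?_)⟩, hb⟩
    unfold TM2.stmts₁
    cases hp : p v
    · exact Finset.mem_insert_of_mem (Finset.mem_union_right _ TM2.stmts₁_self)
    · exact Finset.mem_insert_of_mem (Finset.mem_union_left _ TM2.stmts₁_self)
  | goto s S y l v =>
    exact ⟨⟨ha.1, hsome (d := (none, v)) (trkStms_m tm _)⟩, hb⟩
  | halt s S y v =>
    exact ⟨⟨ha.1, hsome (d := (none, v)) (trkStms_none tm)⟩, hb⟩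
  | push s s' S S' k f q v hs hs' =>
    have h0 := ha.2 _ rfl
    refine ⟨⟨ha.1, hsome (d := (none, v)) (trkCtls_sub h0 ?_)⟩, ⟨?_, hnone⟩⟩
    · unfold TM2.stmts₁
      exact Finset.mem_insert_of_mem TM2.stmts₁_self
    · intro k' g hg
      simp only at hg
      by_cases hk : k' = k
      · subst hk
        rw [Function.update_self, Option.mem_some] at hg
        rw [← hg]
        exact Or.inl (trkPush_mem tm h0)
      · rw [Function.update_of_ne hk] at hg
        exact hb.1 k' g hg
  | peek s s' S S' k f q v hs hs' =>
    have h0 := ha.2 _ rfl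
    refine ⟨⟨ha.1, hsome (d := (none, v)) (trkCtls_sub h0 ?_)⟩, hb⟩
    unfold TM2.stmts₁
    exact Finset.mem_insert_of_mem TM2.stmts₁_self
  | pop s s' S S' k f q v hs hs' =>
    have h0 := ha.2 _ rfl
    refine ⟨⟨?_, hsome (d := (none, v)) (trkCtls_sub h0 ?_)⟩, hb⟩
    · intro k' g hg
      simp only at hg
      by_cases hk : k' = k
      · subst hk
        rw [Function.update_self] at hg
        exact absurd hg (by simp)
      · rw [Function.update_of_ne hk] at hg
        exact ha.1 k' g hg
    · unfold TM2.stmts₁
      exact Finset.mem_insert_of_mem TM2.stmts₁_self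

/-- The string determines the micro-configuration. -/
theorem trkStr_inj {N h h' : ℕ} {c d : TrkMC tm} (hh : h ≤ N) (hc : ∀ k, (c.S k).length ≤ N)
    (hd : ∀ k, (d.S k).length ≤ N) (he : trkStr N h c = trkStr N h' d) : c = d := by
  have key : ∀ j ≤ N, trkCells h c j = trkCells h' d j := by
    intro j hj
    have h1 := congrArg (fun l => l[j]?) he
    simp only [trkStr, List.getElem?_map, List.getElem?_range (show j < N + 1 by omega),
      Option.map_some, Option.some.injEq] at h1
    exact h1
  obtain ⟨s, v, S⟩ := c
  obtain ⟨s', v', S'⟩ := d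
  simp only at hc hd
  have h1 := key h hh
  simp only [trkCells, if_true, Prod.mk.injEq] at h1
  have h2 : s = s' ∧ v = v' := by
    by_cases h0 : h = h'
    · have := h1.2.2
      rw [if_pos h0] at this
      simpa using this
    · have := h1.2.2
      rw [if_neg h0] at this
      exact absurd this (by simp)
  obtain ⟨rfl, rfl⟩ := h2
  have h3 : S = S' := by
    funext k
    have h4 : (S k).reverse = (S' k).reverse := by
      apply List.ext_getElem?
      intro j
      rcases Nat.lt_or_ge j N with hj | hj
      · have h5 := key (j + 1) hj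
        simp only [trkCells, Prod.mk.injEq] at h5
        have h6 := congrFun h5.2.1 k
        simpa [trkCol] using h6
      · rw [List.getElem?_eq_none (by simpa using (hc k).trans hj),
          List.getElem?_eq_none (by simpa using (hd k).trans hj)]
    simpa using congrArg List.reverse h4
  rw [h3]

theorem trkStr_init (N n : ℕ) (w : List (tm.Γ tm.k₀)) (s : Option (TM2.Stmt tm.Γ tm.Λ tm.σ))
    (v : tm.σ) (hN : N = w.length + n) :
    trkStr N 0 ⟨s, v, Function.update (fun _ => []) tm.k₀ w⟩ =
      ((true, (fun _ => none), some (s, v)) : TrkCell tm) ::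
        (w.reverse.map (fun g => ((false, Function.update (fun _ => none) tm.k₀ (some g), none) :
          TrkCell tm)) ++ List.replicate n (false, (fun _ => none), none)) := by
  apply List.ext_getElem
  · simp [trkStr, hN]
  · intro j h1 h2
    simp only [trkStr, List.getElem_map, List.getElem_range]
    rcases j with _ | j
    · simp only [trkCells, decide_true, List.getElem_cons_zero, Prod.mk.injEq, true_and, if_true]
      refine ⟨?_, trivial⟩
      funext k
      simp [trkCol]
    · simp only [List.getElem_cons_succ]
      rcases Nat.lt_or_ge j w.length with hj | hj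
      · rw [List.getElem_append_left (by simpa using hj)]
        simp only [trkCells, List.getElem_map, Prod.mk.injEq]
        refine ⟨by simp, ?_, by simp⟩
        funext k
        by_cases hk : k = tm.k₀
        · subst hk
          simp [trkCol, hj]
        · simp [trkCol, hk]
      · rw [List.getElem_append_right (by simpa using hj)]
        simp only [trkCells, List.getElem_replicate, Prod.mk.injEq]
        refine ⟨by simp, ?_, by simp⟩
        funext k
        by_cases hk : k = tm.k₀
        · subst hk
          simp [trkCol, hj]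
        · simp [trkCol, hk]

theorem trkStr_halt (N : ℕ) (x : tm.Γ tm.k₁) (v : tm.σ) (n : ℕ) (hN : N = n + 1) :
    trkStr N 0 ⟨none, v, Function.update (fun _ => []) tm.k₁ [x]⟩ =
      ((true, (fun _ => none), some (none, v)) : TrkCell tm) ::
        ((false, Function.update (fun _ => none) tm.k₁ (some x), none) : TrkCell tm) ::
          List.replicate n (false, (fun _ => none), none) := by
  apply List.ext_getElem
  · simp [trkStr, hN]
  · intro j h1 h2
    simp only [trkStr, List.getElem_map, List.getElem_range]
    rcases j with _ | _ | j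
    · simp only [trkCells, decide_true, List.getElem_cons_zero, Prod.mk.injEq, true_and, if_true]
      refine ⟨?_, trivial⟩
      funext k
      simp [trkCol]
    · simp only [trkCells, List.getElem_cons_succ, List.getElem_cons_zero, Prod.mk.injEq]
      refine ⟨by simp, ?_, by simp⟩
      funext k
      by_cases hk : k = tm.k₁
      · subst hk
        simp [trkCol]
      · simp [trkCol, hk]
    · simp only [trkCells, List.getElem_cons_succ, List.getElem_replicate, Prod.mk.injEq]
      refine ⟨by simp, ?_, by simp⟩
      funext k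
      by_cases hk : k = tm.k₁
      · subst hk
        simp [trkCol]
      · simp [trkCol, hk]

end

/-- The computation of a Turing machine with polynomially bounded space as a reachability problem
for a length-preserving rewriting system. -/
theorem exists_rewriting_of_space {A : Type} [Finite A] {f : List A → Bool}
    (h : InPSPACE (fun w : List A => w) f) :
    ∃ (k : ℕ) (R : Fin k → Fin k → Fin k → Fin k → Prop) (c₀ c₁ c₂ cb : Fin k) (st : A → Fin k)
      (p : Polynomial ℕ), ∀ w : List A, f w = true ↔ Relation.ReflTransGen (RStep R)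
        (c₀ :: (w.reverse.map st ++ List.replicate (p.eval w.length + 1) cb))
        (c₁ :: c₂ :: List.replicate (w.length + p.eval w.length) cb) := by
  classical
  obtain ⟨M, p, hM⟩ := h
  let tm := M.tm
  let x : Bool → tm.Γ tm.k₁ := M.outputAlphabet.invFun
  have hxinj : Function.Injective x := M.outputAlphabet.symm.injective
  let ok : Set (TrkCell tm) := trkOk tm (x true)
  let C₀ : TrkCell tm := (true, (fun _ => none), some (some (tm.m tm.main), tm.initialState))
  let C₁ : TrkCell tm := (true, (fun _ => none), some (none, tm.initialState))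
  let C₂ : TrkCell tm := (false, Function.update (fun _ => none) tm.k₁ (some (x true)), none)
  let Cb : TrkCell tm := (false, (fun _ => none), none)
  let St : A → TrkCell tm := fun a =>
    (false, Function.update (fun _ => none) tm.k₀ (some (M.inputAlphabet.invFun a)), none)
  have hC₀ : C₀ ∈ ok := by
    refine ⟨by intro k g hg; simp [C₀] at hg, ?_⟩
    intro d hd
    simp only [C₀, Option.mem_some] at hd
    rw [← hd]
    exact trkStms_m tm _
  have hC₁ : C₁ ∈ ok := by
    refine ⟨by intro k g hg; simp [C₁] at hg, ?_⟩
    intro d hd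
    simp only [C₁, Option.mem_some] at hd
    rw [← hd]
    exact trkStms_none tm
  have hC₂ : C₂ ∈ ok := by
    refine ⟨fun k g hg => Or.inr hg, ?_⟩
    intro d hd
    simp [C₂] at hd
  have hCb : Cb ∈ ok := by
    refine ⟨by intro k g hg; simp [Cb] at hg, ?_⟩
    intro d hd
    simp [Cb] at hd
  have hSt : ∀ a, St a ∈ ok := by
    intro a
    refine ⟨?_, ?_⟩
    · intro k g hg
      simp only [St] at hg
      by_cases hk : k = tm.k₀
      · exact Or.inl (Or.inl hk)
      · rw [Function.update_of_ne hk] at hg
        simp at hg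
    · intro d hd
      simp [St] at hd
  obtain ⟨k, R, e, hR⟩ := trk_exists_fin (TrkRule (tm := tm)) ok (trkOk_finite _) ⟨_, hCb⟩
    (fun a b a' b' => trkRule_ok (x true) a b a' b')
  refine ⟨k, R, e C₀, e C₁, e C₂, e Cb, fun a => e (St a), p + Polynomial.C (TrkMC.D tm), ?_⟩
  intro w
  obtain ⟨⟨⟨n, hn⟩⟩, hsp⟩ := hM w
  set N := w.length + (p + Polynomial.C (TrkMC.D tm)).eval w.length + 1 with hN
  have hev : (p + Polynomial.C (TrkMC.D tm)).eval w.length = p.eval w.length + TrkMC.D tm := by
    simp
  have e1 : (C₀ :: ((w.reverse.map St) ++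
      List.replicate ((p + Polynomial.C (TrkMC.D tm)).eval w.length + 1) Cb)).map e =
      e C₀ :: (w.reverse.map (fun a => e (St a)) ++
        List.replicate ((p + Polynomial.C (TrkMC.D tm)).eval w.length + 1) (e Cb)) := by
    simp [Function.comp_def]
  have e2 : (C₁ :: C₂ ::
      List.replicate (w.length + (p + Polynomial.C (TrkMC.D tm)).eval w.length) Cb).map e =
      e C₁ :: e C₂ ::
        List.replicate (w.length + (p + Polynomial.C (TrkMC.D tm)).eval w.length) (e Cb) := by
    simp
  rw [← e1, ← e2, ← hR]
  rotate_left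
  · intro y hy
    simp only [List.mem_cons, List.mem_append, List.mem_map, List.mem_replicate] at hy
    rcases hy with rfl | ⟨a, _, rfl⟩ | ⟨_, rfl⟩
    · exact hC₀
    · exact hSt a
    · exact hCb
  · intro y hy
    simp only [List.mem_cons, List.mem_replicate] at hy
    rcases hy with rfl | rfl | ⟨_, rfl⟩
    · exact hC₁
    · exact hC₂
    · exact hCb
  -- the two strings
  let w' : List (tm.Γ tm.k₀) := w.map M.inputAlphabet.invFun
  have hinit : TrkMC.of (initList tm w') =
      ⟨some (tm.m tm.main), tm.initialState, Function.update (fun _ => []) tm.k₀ w'⟩ := by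
    rw [Pool.Agent.PolyTime.initList_eq]; rfl
  have hhalt : ∀ l, TrkMC.of (haltList tm l) =
      ⟨none, tm.initialState, Function.update (fun _ => []) tm.k₁ l⟩ := by
    intro l
    rw [Pool.Agent.PolyTime.haltList_eq]; rfl
  have hs1 : C₀ :: ((w.reverse.map St) ++
      List.replicate ((p + Polynomial.C (TrkMC.D tm)).eval w.length + 1) Cb) =
      trkStr N 0 (TrkMC.of (initList tm w')) := by
    rw [hinit, trkStr_init N ((p + Polynomial.C (TrkMC.D tm)).eval w.length + 1) w' _ _
      (by simp [w', hN]; omega)]
    simp only [w', ← List.map_reverse, List.map_map]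
    rfl
  have hs2 : C₁ :: C₂ ::
      List.replicate (w.length + (p + Polynomial.C (TrkMC.D tm)).eval w.length) Cb =
      trkStr N 0 (TrkMC.of (haltList tm [x true])) := by
    rw [hhalt, trkStr_halt N (x true) _
      (w.length + (p + Polynomial.C (TrkMC.D tm)).eval w.length) (by rw [hN])]
  rw [hs1, hs2]
  have hrun := TrkMC.mic_steps (p.eval w.length) n (initList tm w') _ hn
    (fun m c hc => hsp m c hc)
  have hout : List.map M.outputAlphabet.invFun (encodeBool (f w)) = [x (f w)] := rfl
  rw [hout] at hrun
  constructor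
  · intro hf
    rw [hf] at hrun
    refine trk_reach_of_mic ?_ hrun
    rw [hN, hev]
    omega
  · intro hr
    have hlen : ∀ k, ((TrkMC.of (initList tm w')).S k).length ≤ N := by
      intro k
      rw [hinit]
      by_cases hk : k = tm.k₀
      · subst hk
        simp only [Function.update_self, w', List.length_map]
        omega
      · simp [Function.update_of_ne hk]
    obtain ⟨h', d, hh', hd, hdt, hreach⟩ := trk_mic_of_reach (Nat.zero_le N) hlen hr
    have hlen2 : ∀ k, ((TrkMC.of (haltList tm [x true])).S k).length ≤ N := by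
      intro k
      rw [hhalt]
      by_cases hk : k = tm.k₁
      · subst hk
        simp only [Function.update_self, List.length_singleton]
        omega
      · simp [Function.update_of_ne hk]
    have hd' := trkStr_inj (Nat.zero_le N) hlen2 hd hdt
    rw [← hd'] at hreach
    have hreach2 : Relation.ReflTransGen (fun a b : TrkMC tm => b = a.next)
        (TrkMC.of (initList tm w')) (TrkMC.of (haltList tm [x (f w)])) := trk_next_of_mic hrun
    have h9 := TrkMC.reach_unique hreach hreach2 (by rw [hhalt]) (by rw [hhalt])
    rw [hhalt, hhalt] at h9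
    simp only [TrkMC.mk.injEq, true_and] at h9
    have h10 := congrFun h9 tm.k₁
    simp only [Function.update_self, List.cons.injEq, and_true] at h10
    exact (hxinj h10).symm

end Pool.Agent.W_MP_1d4143_al
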