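import Pool.Agent.W_MP_1d4143_al.Base

set_option autoImplicit false

namespace Pool.Agent.W_MP_1d4143_al

variable {α : Type} [DecidableEq α]

/-- Word distance in the free group. -/
def fd (g h : FreeGroup α) : ℕ := (g⁻¹ * h).norm

theorem fd_self (g : FreeGroup α) : fd g g = 0 := by
  simp [fd]

theorem fd_comm (g h : FreeGroup α) : fd g h = fd h g := by
  unfold fd
  rw [← FreeGroup.norm_inv_eq]
  simp

theorem fd_mul_left (k g h : FreeGroup α) : fd (k * g) (k * h) = fd g h := by
  unfold fd
  congr 1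
  group

theorem fd_triangle (g h k : FreeGroup α) : fd g k ≤ fd g h + fd h k := by
  unfold fd
  have h1 : g⁻¹ * k = (g⁻¹ * h) * (h⁻¹ * k) := by group
  rw [h1]
  exact FreeGroup.norm_mul_le _ _

theorem eq_of_fd_eq_zero {g h : FreeGroup α} (H : fd g h = 0) : g = h := by
  unfold fd at H
  rw [FreeGroup.norm_eq_zero] at H
  exact (inv_mul_eq_one.mp H)

/-! ### Longest common prefixes -/

/-- The length of the longest common prefix. -/
def trL {β : Type} [DecidableEq β] : List β → List β → ℕ
  | a :: u, b :: v => if a = b then trL u v + 1 else 0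
  | _, _ => 0

theorem trL_nil_left {β : Type} [DecidableEq β] (v : List β) : trL [] v = 0 := by
  cases v <;> rfl

theorem trL_nil_right {β : Type} [DecidableEq β] (v : List β) : trL v [] = 0 := by
  cases v <;> rfl

theorem trL_cons {β : Type} [DecidableEq β] (a b : β) (u v : List β) :
    trL (a :: u) (b :: v) = if a = b then trL u v + 1 else 0 := rfl

theorem trL_iff {β : Type} [DecidableEq β] (u v : List β) (k : ℕ) :
    k ≤ trL u v ↔ (u.take k = v.take k ∧ k ≤ u.length ∧ k ≤ v.length) := by
  induction u generalizing v k with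
  | nil =>
    rw [trL_nil_left]
    constructor
    · intro h
      obtain rfl : k = 0 := by omega
      simp
    · rintro ⟨-, h, -⟩
      simpa using h
  | cons a u ih =>
    cases v with
    | nil =>
      rw [trL_nil_right]
      constructor
      · intro h
        obtain rfl : k = 0 := by omega
        simp
      · rintro ⟨-, -, h⟩
        simpa using h
    | cons b v =>
      rw [trL_cons]
      cases k with
      | zero => simp
      | succ k =>
        by_cases hab : a = b
        · subst hab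
          simp [ih v k]
        · simp [hab]

theorem trL_comm {β : Type} [DecidableEq β] (u v : List β) : trL u v = trL v u := by
  apply le_antisymm
  · rw [trL_iff]
    obtain ⟨h1, h2, h3⟩ := (trL_iff u v _).mp le_rfl
    exact ⟨h1.symm, h3, h2⟩
  · rw [trL_iff]
    obtain ⟨h1, h2, h3⟩ := (trL_iff v u _).mp le_rfl
    exact ⟨h1.symm, h3, h2⟩

theorem trL_le_left {β : Type} [DecidableEq β] (u v : List β) : trL u v ≤ u.length :=
  ((trL_iff u v _).mp le_rfl).2.1

theorem trL_le_right {β : Type} [DecidableEq β] (u v : List β) : trL u v ≤ v.length :=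
  ((trL_iff u v _).mp le_rfl).2.2

theorem trL_ultra {β : Type} [DecidableEq β] (u v w : List β) :
    min (trL u w) (trL v w) ≤ trL u v := by
  rw [trL_iff]
  obtain ⟨h1, h2, h3⟩ := (trL_iff u w _).mp (min_le_left (trL u w) (trL v w))
  obtain ⟨h4, h5, h6⟩ := (trL_iff v w _).mp (min_le_right (trL u w) (trL v w))
  exact ⟨h1.trans h4.symm, h2, h5⟩

theorem trL_take {β : Type} [DecidableEq β] (u : List β) (i j : ℕ) (hij : i ≤ j)
    (hj : j ≤ u.length) : trL (u.take i) (u.take j) = i := by
  apply le_antisymm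
  · refine (trL_le_left _ _).trans ?_
    simp
  · rw [trL_iff]
    refine ⟨?_, ?_, ?_⟩
    · rw [List.take_take, List.take_take]
      congr 1
      omega
    · simp
      omega
    · simp
      omega

theorem trL_take_self {β : Type} [DecidableEq β] (u : List β) (i : ℕ) (hi : i ≤ u.length) :
    trL (u.take i) u = i := by
  have := trL_take u i u.length hi le_rfl
  rwa [List.take_length] at this

theorem trL_take_left {β : Type} [DecidableEq β] (u v : List β) (k : ℕ) (hk : k ≤ trL u v) :
    trL (u.take k) v = k := by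
  obtain ⟨h1, h2, h3⟩ := (trL_iff u v k).mp hk
  rw [h1]
  exact trL_take_self v k h3

theorem trL_drop {β : Type} [DecidableEq β] (u v : List β) :
    ∀ a ∈ (u.drop (trL u v)).head?, ∀ b ∈ (v.drop (trL u v)).head?, a ≠ b := by
  induction u generalizing v with
  | nil => simp
  | cons a u ih =>
    cases v with
    | nil => simp
    | cons b v =>
      rw [trL_cons]
      by_cases hab : a = b
      · rw [if_pos hab]
        simpa using ih v
      · rw [if_neg hab]
        intro x hx y hy
        simp at hx hy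
        subst hx hy
        exact hab

omit [DecidableEq α] in
theorem tr_isReduced_sub {L : List (α × Bool)} (h : FreeGroup.IsReduced L) {L' : List (α × Bool)}
    (h' : L' <:+: L) : FreeGroup.IsReduced L' := isReduced_piece h h'

theorem tr_isReduced_join (u v : List (α × Bool)) (hu : FreeGroup.IsReduced u)
    (hv : FreeGroup.IsReduced v) (H : ∀ a ∈ u.head?, ∀ b ∈ v.head?, a ≠ b) :
    FreeGroup.IsReduced (FreeGroup.invRev u ++ v) := by
  have h1 : FreeGroup.IsReduced (FreeGroup.invRev u) := by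
    apply FreeGroup.IsReduced.of_reduce_eq
    rw [FreeGroup.reduce_invRev, hu.reduce_eq]
  unfold FreeGroup.IsReduced at h1 hv ⊢
  rw [List.isChain_append]
  refine ⟨h1, hv, ?_⟩
  intro x hx y hy hxy
  unfold FreeGroup.invRev at hx
  rw [List.getLast?_reverse, List.head?_map] at hx
  cases hh : u.head? with
  | none => rw [hh] at hx; simp at hx
  | some a =>
    rw [hh] at hx
    simp at hx
    have h2 := H a (by rw [hh]; rfl) y hy
    subst hx
    simp only at hxy ⊢
    by_contra hne
    apply h2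
    apply Prod.ext hxy
    cases ha : a.2 <;> cases hy2 : y.2 <;> simp_all

/-- The key fact. -/
theorem tr_fd (g h : FreeGroup α) :
    fd g h + 2 * trL g.toWord h.toWord = g.norm + h.norm := by
  set k := trL g.toWord h.toWord with hk
  obtain ⟨h1, h2, h3⟩ := (trL_iff g.toWord h.toWord k).mp le_rfl
  set u := g.toWord.drop k with hu
  set v := h.toWord.drop k with hv
  set c := g.toWord.take k with hc
  have hg : g.toWord = c ++ u := (List.take_append_drop k _).symm
  have hh : h.toWord = c ++ v := by rw [h1]; exact (List.take_append_drop k _).symm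
  have hur : FreeGroup.IsReduced u :=
    tr_isReduced_sub (FreeGroup.isReduced_toWord (x := g)) (List.drop_suffix k _).isInfix
  have hvr : FreeGroup.IsReduced v :=
    tr_isReduced_sub (FreeGroup.isReduced_toWord (x := h)) (List.drop_suffix k _).isInfix
  have hred := tr_isReduced_join u v hur hvr (trL_drop g.toWord h.toWord)
  have hmk : g⁻¹ * h = FreeGroup.mk (FreeGroup.invRev u ++ v) := by
    have e1 : g = FreeGroup.mk (c ++ u) := by rw [← hg, FreeGroup.mk_toWord]
    have e2 : h = FreeGroup.mk (c ++ v) := by rw [← hh, FreeGroup.mk_toWord]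
    rw [e1, e2, ← FreeGroup.mul_mk, ← FreeGroup.mul_mk, ← FreeGroup.mul_mk, ← FreeGroup.inv_mk]
    group
  have hn : fd g h = u.length + v.length := by
    unfold fd FreeGroup.norm
    rw [hmk, FreeGroup.toWord_mk, hred.reduce_eq, List.length_append, FreeGroup.invRev_length]
  rw [hn]
  have l1 : u.length = g.norm - k := by rw [hu, List.length_drop]; rfl
  have l2 : v.length = h.norm - k := by rw [hv, List.length_drop]; rfl
  have l3 : k ≤ g.norm := h2
  have l4 : k ≤ h.norm := h3
  omega

theorem tr_fd_one (g : FreeGroup α) : fd 1 g = g.norm := by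
  simp [fd]

theorem tr_fd_one' (g : FreeGroup α) : fd g 1 = g.norm := by
  rw [fd_comm, tr_fd_one]

theorem tr_fd_trans (w x y : FreeGroup α) : fd x y = fd (w⁻¹ * x) (w⁻¹ * y) :=
  (fd_mul_left _ _ _).symm

theorem tr_four_one (x y z : FreeGroup α) :
    fd x y + z.norm ≤ max (fd x z + y.norm) (x.norm + fd y z) := by
  have h1 := tr_fd x y
  have h2 := tr_fd x z
  have h3 := tr_fd y z
  have h4 := trL_ultra x.toWord y.toWord z.toWord
  rcases le_total (trL x.toWord z.toWord) (trL y.toWord z.toWord) with h | h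
  · rw [min_eq_left h] at h4
    apply le_max_of_le_left
    omega
  · rw [min_eq_right h] at h4
    apply le_max_of_le_right
    omega

/-- The four point condition: the Cayley graph of a free group is a tree. -/
theorem fd_four_point (x y z w : FreeGroup α) :
    fd x y + fd z w ≤ max (fd x z + fd y w) (fd x w + fd y z) := by
  have := tr_four_one (w⁻¹ * x) (w⁻¹ * y) (w⁻¹ * z)
  rw [← tr_fd_trans, ← tr_fd_trans, ← tr_fd_trans] at this
  have e : ∀ g : FreeGroup α, (w⁻¹ * g).norm = fd g w := by
    intro g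
    rw [fd_comm]
    rfl
  rw [e, e, e] at this
  exact this

theorem fd_parity (x y z : FreeGroup α) : Even (fd x y + fd y z + fd x z) := by
  have h1 := tr_fd (x⁻¹ * y) (x⁻¹ * z)
  rw [← tr_fd_trans] at h1
  have e1 : (x⁻¹ * y).norm = fd x y := rfl
  have e2 : (x⁻¹ * z).norm = fd x z := rfl
  rw [e1, e2] at h1
  rw [Nat.even_iff]
  omega

theorem tr_toWord_take (g : FreeGroup α) (k : ℕ) :
    (FreeGroup.mk (g.toWord.take k)).toWord = g.toWord.take k := by
  rw [FreeGroup.toWord_mk]
  exact (tr_isReduced_sub (FreeGroup.isReduced_toWord (x := g))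
    (List.take_prefix k _).isInfix).reduce_eq

theorem tr_norm_take (g : FreeGroup α) (k : ℕ) (hk : k ≤ g.norm) :
    (FreeGroup.mk (g.toWord.take k)).norm = k := by
  unfold FreeGroup.norm at hk ⊢
  rw [tr_toWord_take, List.length_take]
  omega

/-- The point `p` of the geodesic from `x` to `y` that is closest to `z`. -/
theorem exists_proj (x y z : FreeGroup α) : ∃ p : FreeGroup α, fd x p + fd p y = fd x y ∧
    2 * fd z p + fd x y = fd z x + fd z y := by
  set y' := x⁻¹ * y with hy'
  set z' := x⁻¹ * z with hz'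
  set k := trL y'.toWord z'.toWord with hk
  set q := FreeGroup.mk (y'.toWord.take k) with hq
  have hqw : q.toWord = y'.toWord.take k := tr_toWord_take y' k
  have k1 : k ≤ y'.norm := trL_le_left _ _
  have k2 : k ≤ z'.norm := trL_le_right _ _
  have hqn : q.norm = k := tr_norm_take y' k k1
  have f1 := tr_fd q y'
  rw [hqw, trL_take_self _ _ k1, hqn] at f1
  have f2 := tr_fd q z'
  rw [hqw, trL_take_left _ _ _ (le_refl k), hqn] at f2
  have f3 := tr_fd y' z'
  rw [← hk] at f3
  have hy : y = x * y' := by rw [hy']; group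
  have hz : z = x * z' := by rw [hz']; group
  refine ⟨x * q, ?_, ?_⟩
  · rw [hy, fd_mul_left]
    have e1 : fd x (x * q) = q.norm := by
      unfold fd
      congr 1
      group
    have e2 : fd x (x * y') = y'.norm := by
      unfold fd
      congr 1
      group
    rw [e1, e2]
    omega
  · have e2 : fd x y = y'.norm := rfl
    have e3 : fd z x = z'.norm := by rw [fd_comm]; rfl
    have e4 : fd z y = fd y' z' := by
      rw [fd_comm y' z', hy, hz, fd_mul_left]
    have e5 : fd z (x * q) = fd q z' := by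
      rw [fd_comm q z', hz, fd_mul_left]
    rw [e2, e3, e4, e5]
    omega

/-- Points of a geodesic. -/
theorem fd_take (g : FreeGroup α) (i j : ℕ) (hij : i ≤ j) (hj : j ≤ g.toWord.length) :
    fd (FreeGroup.mk (g.toWord.take i)) (FreeGroup.mk (g.toWord.take j)) = j - i := by
  have h1 := tr_fd (FreeGroup.mk (g.toWord.take i)) (FreeGroup.mk (g.toWord.take j))
  rw [tr_toWord_take, tr_toWord_take, trL_take _ _ _ hij hj, tr_norm_take g i (hij.trans hj),
    tr_norm_take g j hj] at h1
  omega

theorem finite_ball [Finite α] (n : ℕ) : {g : FreeGroup α | g.norm ≤ n}.Finite := by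
  have h := List.finite_length_le (α × Bool) n
  exact Set.Finite.of_finite_image (f := FreeGroup.toWord)
    (h.subset (by rintro _ ⟨g, hg, rfl⟩; exact hg)) (FreeGroup.toWord_injective.injOn)

/-- The coarse path lemma. -/
theorem tr_coarse_path (g : ℕ → FreeGroup α) (C m : ℕ) (hC : ∀ k < m, fd (g k) (g (k + 1)) ≤ C)
    (p : FreeGroup α) (hp : fd (g 0) p + fd p (g m) = fd (g 0) (g m)) :
    ∃ k ≤ m, fd p (g k) ≤ C := by
  classical
  have hex : ∃ k, fd (g 0) p + fd p (g k) = fd (g 0) (g k) := ⟨m, hp⟩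
  have hk := Nat.find_spec hex
  have hkm : Nat.find hex ≤ m := Nat.find_min' hex hp
  cases hf : Nat.find hex with
  | zero =>
    rw [hf, fd_self] at hk
    exact ⟨0, Nat.zero_le _, by omega⟩
  | succ j =>
    rw [hf] at hk hkm
    have hj : ¬ (fd (g 0) p + fd p (g j) = fd (g 0) (g j)) := Nat.find_min hex (by omega)
    have ht := fd_triangle (g 0) p (g j)
    have h4 := fd_four_point (g 0) (g (j + 1)) p (g j)
    have hs := hC j (by omega)
    rw [fd_comm (g j)] at hs
    rw [fd_comm (g (j + 1)) p] at h4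
    refine ⟨j + 1, hkm, ?_⟩
    rcases le_max_iff.mp h4 with h | h <;> omega

/-- Finitely generated subgroups are quasiconvex. -/
theorem quasiconvex (A : Subgroup (FreeGroup α)) (hA : A.FG) : ∃ K : ℕ, ∀ a ∈ A, ∀ p,
    fd 1 p + fd p a = fd 1 a → ∃ a' ∈ A, fd p a' ≤ K := by
  obtain ⟨S, hS⟩ := hA
  refine ⟨S.sup FreeGroup.norm, ?_⟩
  intro a ha p hp
  rw [← hS] at ha
  rw [← Subgroup.mem_toSubmonoid, Subgroup.closure_toSubmonoid] at ha
  obtain ⟨l, hl', rfl⟩ := Submonoid.exists_list_of_mem_closure ha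
  have hl : ∀ x ∈ l, x ∈ (S : Set (FreeGroup α)) ∨ x⁻¹ ∈ (S : Set (FreeGroup α)) := by
    intro x hx
    rcases hl' x hx with h | h
    · exact Or.inl h
    · exact Or.inr h
  have hn : ∀ x ∈ l, x.norm ≤ S.sup FreeGroup.norm := by
    intro x hx
    rcases hl x hx with h | h
    · exact Finset.le_sup (f := FreeGroup.norm) h
    · rw [← FreeGroup.norm_inv_eq]
      exact Finset.le_sup (f := FreeGroup.norm) h
  have hmem : ∀ k, (l.take k).prod ∈ A := by
    intro k
    apply Subgroup.list_prod_mem
    intro x hx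
    have hx' := List.mem_of_mem_take hx
    rw [← hS]
    rcases hl x hx' with h | h
    · exact Subgroup.subset_closure h
    · rw [← Subgroup.inv_mem_iff]
      exact Subgroup.subset_closure h
  obtain ⟨k, hk, hk2⟩ := tr_coarse_path (fun k => (l.take k).prod) (S.sup FreeGroup.norm) l.length
    (by
      intro k hk
      show fd (l.take k).prod (l.take (k + 1)).prod ≤ _
      have e : (l.take (k + 1)).prod = (l.take k).prod * l[k] := by
        rw [List.prod_take_succ]
      rw [e]
      unfold fd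
      rw [inv_mul_cancel_left]
      exact hn _ (List.getElem_mem _))
    p (by simpa using hp)
  exact ⟨_, hmem k, hk2⟩

theorem tr_bdd [Finite α] (f : FreeGroup α → FreeGroup α) (R : ℕ) :
    ∃ C : ℕ, ∀ g, g.norm ≤ R → (f g).norm ≤ C := by
  have h := (finite_ball (α := α) R).image (fun g => (f g).norm)
  obtain ⟨C, hC⟩ := h.bddAbove
  exact ⟨C, fun g hg => hC ⟨g, hg, rfl⟩⟩

theorem tr_hom_one {G : Type} [Group G] (B : Subgroup G) (ψ : G → G)
    (hψmul : ∀ a ∈ B, ∀ b ∈ B, ψ (a * b) = ψ a * ψ b) : ψ 1 = 1 := by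
  have h := hψmul 1 B.one_mem 1 B.one_mem
  rw [mul_one] at h
  exact (mul_eq_left.mp h.symm)

theorem tr_hom_div {G : Type} [Group G] (B : Subgroup G) (ψ : G → G)
    (hψmul : ∀ a ∈ B, ∀ b ∈ B, ψ (a * b) = ψ a * ψ b) (b c : G) (hb : b ∈ B) (hc : c ∈ B) :
    ψ (b⁻¹ * c) = (ψ b)⁻¹ * ψ c := by
  have h := hψmul b hb (b⁻¹ * c) (B.mul_mem (B.inv_mem hb) hc)
  rw [mul_inv_cancel_left] at h
  rw [h, inv_mul_cancel_left]

/-- An isomorphism between finitely generated subgroups maps points close to a geodesic to points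
close to the image geodesic. -/
theorem bounded_cancellation [Finite α] (A B : Subgroup (FreeGroup α)) (hA : A.FG) (hB : B.FG)
    (φ : FreeGroup α → FreeGroup α) (hφ : ∀ a ∈ A, φ a ∈ B)
    (hmul : ∀ a ∈ A, ∀ b ∈ A, φ (a * b) = φ a * φ b)
    (ψ : FreeGroup α → FreeGroup α) (hψ : ∀ b ∈ B, ψ b ∈ A)
    (hψmul : ∀ a ∈ B, ∀ b ∈ B, ψ (a * b) = ψ a * ψ b)
    (h1 : ∀ a ∈ A, ψ (φ a) = a) (h2 : ∀ b ∈ B, φ (ψ b) = b) (κ : ℕ) :
    ∃ K : ℕ, ∀ a₁ ∈ A, ∀ a ∈ A, fd 1 a₁ + fd a₁ a ≤ fd 1 a + 2 * κ →
      fd 1 (φ a₁) + fd (φ a₁) (φ a) ≤ fd 1 (φ a) + 2 * K := by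
  obtain ⟨KB, hKB⟩ := quasiconvex B hB
  obtain ⟨C1, hC1⟩ := tr_bdd ψ (2 * KB + 1)
  obtain ⟨C2, hC2⟩ := tr_bdd φ (κ + C1)
  refine ⟨KB + C2, ?_⟩
  intro a₁ ha₁ a ha hκ
  set f := φ a with hf
  have hfB : f ∈ B := hφ a ha
  set v : ℕ → FreeGroup α := fun k => FreeGroup.mk (f.toWord.take k) with hv
  have hv0 : v 0 = 1 := by simp [hv, FreeGroup.one_eq_mk]
  have hvbig : ∀ k, f.norm ≤ k → v k = f := by
    intro k hk
    have : f.toWord.take k = f.toWord := List.take_of_length_le hk
    simp [hv, this, FreeGroup.mk_toWord]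
  have hvnorm : ∀ k, k ≤ f.norm → (v k).norm = k := fun k hk => tr_norm_take f k hk
  have hvf : ∀ k, fd 1 (v k) + fd (v k) f = fd 1 f := by
    intro k
    rw [tr_fd_one, tr_fd_one]
    rcases le_total k f.norm with hk | hk
    · have h3 := tr_fd (v k) f
      have h4 : (v k).toWord = f.toWord.take k := tr_toWord_take f k
      rw [h4, trL_take_self _ _ hk, hvnorm k hk] at h3
      rw [hvnorm k hk]
      omega
    · rw [hvbig k hk, fd_self]
      omega
  have hstep : ∀ k, fd (v k) (v (k + 1)) ≤ 1 := by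
    intro k
    rcases Nat.lt_or_ge k f.norm with hk | hk
    · have h3 := fd_take f k (k + 1) (Nat.le_succ k) hk
      show fd (FreeGroup.mk (f.toWord.take k)) (FreeGroup.mk (f.toWord.take (k + 1))) ≤ 1
      rw [h3]
      omega
    · rw [hvbig k hk, hvbig (k + 1) (by omega), fd_self]
      omega
  have hc : ∀ k, ∃ c ∈ B, fd (v k) c ≤ KB := fun k => hKB f hfB (v k) (hvf k)
  choose c hcB hcd using hc
  set b : ℕ → FreeGroup α := fun k => if k = 0 then 1 else if k ≤ f.norm then c k else f with hb
  have hb0 : b 0 = 1 := by simp [hb]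
  have hblast : b (f.norm + 1) = f := by simp [hb]
  have hbB : ∀ k, b k ∈ B := by
    intro k
    simp only [hb]
    split_ifs
    · exact B.one_mem
    · exact hcB k
    · exact hfB
  have hbd : ∀ k, fd (v k) (b k) ≤ KB := by
    intro k
    simp only [hb]
    split_ifs with e1 e2
    · subst e1
      rw [hv0, fd_self]
      exact Nat.zero_le _
    · exact hcd k
    · rw [hvbig k (by omega), fd_self]
      exact Nat.zero_le _
  have hbstep : ∀ k, fd (b k) (b (k + 1)) ≤ 2 * KB + 1 := by
    intro k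
    have t1 := fd_triangle (b k) (v k) (b (k + 1))
    have t2 := fd_triangle (v k) (v (k + 1)) (b (k + 1))
    have t3 := hbd k
    have t4 := hbd (k + 1)
    have t5 := hstep k
    rw [fd_comm (v k) (b k)] at t3
    omega
  have hψstep : ∀ k, fd (ψ (b k)) (ψ (b (k + 1))) ≤ C1 := by
    intro k
    unfold fd
    rw [← tr_hom_div B ψ hψmul (b k) (b (k + 1)) (hbB k) (hbB (k + 1))]
    exact hC1 _ (hbstep k)
  obtain ⟨p, hp1, hp2⟩ := exists_proj 1 a a₁
  have hpκ : fd a₁ p ≤ κ := by
    rw [fd_comm a₁ 1] at hp2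
    omega
  obtain ⟨k, hk, hkd⟩ := tr_coarse_path (fun k => ψ (b k)) C1 (f.norm + 1)
    (fun k _ => hψstep k) p (by
      show fd (ψ (b 0)) p + fd p (ψ (b (f.norm + 1))) = fd (ψ (b 0)) (ψ (b (f.norm + 1)))
      rw [hb0, hblast, tr_hom_one B ψ hψmul, hf, h1 a ha]
      exact hp1)
  have hkd' : fd p (ψ (b k)) ≤ C1 := hkd
  have hd1 : fd (ψ (b k)) a₁ ≤ κ + C1 := by
    have t := fd_triangle (ψ (b k)) p a₁
    rw [fd_comm (ψ (b k)) p, fd_comm p a₁] at t
    omega
  have hd2 : fd (b k) (φ a₁) ≤ C2 := by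
    have t := hC2 _ hd1
    rw [tr_hom_div A φ hmul (ψ (b k)) a₁ (hψ _ (hbB k)) ha₁, h2 _ (hbB k)] at t
    exact t
  have hd3 : fd (v k) (φ a₁) ≤ KB + C2 := by
    have t := fd_triangle (v k) (b k) (φ a₁)
    have t2 := hbd k
    omega
  have t1 := fd_triangle 1 (v k) (φ a₁)
  have t2 := fd_triangle (φ a₁) (v k) f
  have t3 := hvf k
  rw [fd_comm (φ a₁) (v k)] at t2
  omega

end Pool.Agent.W_MP_1d4143_al
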