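import Pool.Agent.W_MP_1d4143_al.Ops

/-!
# The words of the reduction
-/

set_option autoImplicit false

namespace Pool.Agent.W_MP_1d4143_al

/-- The letters of the hard group. -/
abbrev Let := Letter Sym Op

/-- The inverse letter. -/
def invLet : Let → Let
  | .inl x => .inl (x.1, !x.2)
  | .inr e => .inr (bar e)

/-- The inverse word. -/
def invWord (w : List Let) : List Let := (w.map invLet).reverse

/-- A stable letter. -/
abbrev opl (o : Op) : Let := Sum.inr (o, true)

/-- Read the variable `k` of `n` variables: every counter increases by the value of the variable. -/
def readWord (n k : ℕ) : List Let :=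
  if k < n then List.replicate (n - 1 - k) (opl .pop) ++ [opl .read] ++
    List.replicate (n - 1 - k) (Sum.inr (Op.pop, false))
  else []

/-- Every counter increases by `1` if the literal is true. -/
def litWord (n : ℕ) (l : ℕ × Bool) : List Let :=
  if l.2 then readWord n l.1 else opl .inc :: invWord (readWord n l.1)

/-- Every counter increases by the number of true literals. -/
def countWord (n : ℕ) (c : List (ℕ × Bool)) : List Let := c.flatMap (litWord n)

/-- A clause. -/
def clauseWord (n : ℕ) (c : List (ℕ × Bool)) : List Let :=
  invWord (countWord n c) ++ [opl .clause] ++ countWord n c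

/-- A quantifier. -/
def quantWord : Bool → List Let
  | true => [opl .forAll]
  | false => [opl .neg, opl .forAll, opl .neg]

/-- The program of a formula. -/
def progWord (q : List Bool) (cl : List (List (ℕ × Bool))) : List Let :=
  q.flatMap quantWord ++ cl.flatMap (clauseWord q.length)

/-- The word of a formula: the commutator of `prog⁻¹ c prog` with the test letter. -/
def redWord (q : List Bool) (cl : List (List (ℕ × Bool))) : List Let :=
  invWord (progWord q cl) ++ [Sum.inl (Sym.c, true)] ++ progWord q cl ++ [opl .test] ++
    invWord (progWord q cl) ++ [Sum.inl (Sym.c, false)] ++ progWord q cl ++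
      [Sum.inr (Op.test, false)]

end Pool.Agent.W_MP_1d4143_al
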